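import Pool.Agent.P.MP_ab0431_ag.B.Base

section

/-! Concrete objects: a quaternion order, a Fuchsian group, its Jacobi group and their action. -/

namespace Pool.Agent.P.MP_ab0431_ag.T

open Set Filter Topology

/-- Real two by two matrices. -/
abbrev M2 := Matrix (Fin 2) (Fin 2) ℝ

/-- The special linear group. -/
abbrev SL2 := Matrix.SpecialLinearGroup (Fin 2) ℝ

/-- The matrix of `a + b i + c j + d (1 + i + j + k) / 2`, where `i² = -1`, `j² = k² = 3`. -/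
noncomputable def om (a b c d : ℤ) : M2 :=
  !![a + d / 2 + (c + d / 2) * √3, b + d / 2 + d / 2 * √3;
    -(b + d / 2) + d / 2 * √3, a + d / 2 - (c + d / 2) * √3]

theorem s3 : √3 * √3 = (3 : ℝ) := Real.mul_self_sqrt (by norm_num)

theorem om_add (a b c d A B C D : ℤ) :
    om a b c d + om A B C D = om (a + A) (b + B) (c + C) (d + D) := by
  ext i j
  fin_cases i <;> fin_cases j <;> simp [om] <;> ring

theorem om_neg (a b c d : ℤ) : -om a b c d = om (-a) (-b) (-c) (-d) := by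
  ext i j
  fin_cases i <;> fin_cases j <;> simp [om] <;> ring

theorem om_mul (a b c d A B C D : ℤ) : om a b c d * om A B C D =
    om (a * A - b * B + b * C - c * B + 3 * c * C + c * D - d * B + 2 * d * C + d * D)
      (a * B + b * A + b * C + b * D - c * B + c * D - d * C)
      (a * C + b * C + b * D + c * A - c * B - d * B + d * C)
      (a * D - 2 * b * C - b * D + 2 * c * B + c * D + d * A + d * B - d * C + d * D) := by
  ext i j
  fin_cases i <;> fin_cases j <;> simp [om, Matrix.mul_apply, Fin.sum_univ_two]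
  · linear_combination (((c : ℝ) + d / 2) * (C + D / 2) + d / 2 * (D / 2)) * s3
  · linear_combination (((c : ℝ) + d / 2) * (D / 2) - d / 2 * (C + D / 2)) * s3
  · linear_combination ((d : ℝ) / 2 * (C + D / 2) - (c + d / 2) * (D / 2)) * s3
  · linear_combination (((c : ℝ) + d / 2) * (C + D / 2) + d / 2 * (D / 2)) * s3

theorem om_one : om 1 0 0 0 = 1 := by
  ext i j
  fin_cases i <;> fin_cases j <;> simp [om]

theorem om_zero : om 0 0 0 0 = 0 := by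
  ext i j
  fin_cases i <;> fin_cases j <;> simp [om]

theorem om_det (a b c d : ℤ) : (om a b c d).det =
    ((a ^ 2 + b ^ 2 - 3 * c ^ 2 - d ^ 2 + a * d + b * d - 3 * c * d : ℤ) : ℝ) := by
  simp [om, Matrix.det_fin_two]
  linear_combination (-((c : ℝ) + d / 2) ^ 2 - (d / 2) ^ 2) * s3

theorem om_trace (a b c d : ℤ) : (om a b c d).trace = ((2 * a + d : ℤ) : ℝ) := by
  simp [om, Matrix.trace_fin_two]
  ring

theorem om_adj (a b c d : ℤ) : (om a b c d).adjugate = om (a + d) (-b) (-c) (-d) := by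
  ext i j
  fin_cases i <;> fin_cases j <;> simp [om, Matrix.adjugate_fin_two] <;> ring

/-- The maximal order of the quaternion algebra of discriminant 6. -/
def O : Subring M2 where
  carrier := {x | ∃ a b c d, x = om a b c d}
  mul_mem' := by
    rintro _ _ ⟨a, b, c, d, rfl⟩ ⟨A, B, C, D, rfl⟩
    exact ⟨_, _, _, _, om_mul ..⟩
  one_mem' := ⟨_, _, _, _, om_one.symm⟩
  add_mem' := by
    rintro _ _ ⟨a, b, c, d, rfl⟩ ⟨A, B, C, D, rfl⟩
    exact ⟨_, _, _, _, om_add ..⟩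
  zero_mem' := ⟨_, _, _, _, om_zero.symm⟩
  neg_mem' := by
    rintro _ ⟨a, b, c, d, rfl⟩
    exact ⟨_, _, _, _, om_neg ..⟩

theorem mem_O {x : M2} : x ∈ O ↔ ∃ a b c d, x = om a b c d := Iff.rfl

/-- The sum of the absolute values of the entries. -/
def nm (x : M2) : ℝ := |x 0 0| + |x 0 1| + |x 1 0| + |x 1 1|

/-- The four reflections. -/
noncomputable def rf : Fin 4 → M2 :=
  ![!![√6 / 2, √2 / 2; -√2 / 2, -√6 / 2], !![0, (√2 + √6) / 2; (√6 - √2) / 2, 0],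
    !![-√6 / 2, √2 / 2; -√2 / 2, √6 / 2], !![0, (√2 - √6) / 2; (-√6 - √2) / 2, 0]]

/-- The four rotations of order three. -/
noncomputable def xg : Fin 4 → SL2 :=
  ![⟨om (-1) 1 0 1, by rw [om_det]; norm_num⟩, ⟨om (-1) 1 (-1) 1, by rw [om_det]; norm_num⟩,
    ⟨om 0 2 0 (-1), by rw [om_det]; norm_num⟩, ⟨om 0 2 1 (-1), by rw [om_det]; norm_num⟩]

theorem rf_mul (i : Fin 4) : rf i * rf (i + 1) = (xg i).1 := by
  have h2 : √2 * √2 = (2 : ℝ) := Real.mul_self_sqrt (by norm_num)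
  have h6 : √6 = √2 * √3 := by rw [← Real.sqrt_mul (by norm_num)]; norm_num
  have h3 := s3
  ext a b
  fin_cases i <;> fin_cases a <;> fin_cases b <;>
    simp [rf, xg, om, Matrix.mul_apply, Fin.sum_univ_two, h6] <;> grind

theorem rf_sq (i : Fin 4) : rf i * rf i = 1 := by
  have h2 : √2 * √2 = (2 : ℝ) := Real.mul_self_sqrt (by norm_num)
  have h6 : √6 * √6 = (6 : ℝ) := Real.mul_self_sqrt (by norm_num)
  ext a b
  fin_cases i <;> fin_cases a <;> fin_cases b <;>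
    simp [rf, Matrix.mul_apply, Fin.sum_univ_two] <;> grind

/-- The Fuchsian group of signature (0; 3, 3, 3, 3). -/
def Gam : Subgroup SL2 := Subgroup.closure (range xg)

/-- The generators. -/
noncomputable def xG (i : Fin 4) : Gam := ⟨xg i, Subgroup.subset_closure ⟨i, rfl⟩⟩

theorem Gam_mem (g : Gam) : g.1.1 ∈ O := by
  obtain ⟨g, hg⟩ := g
  induction hg using Subgroup.closure_induction with
  | mem x hx =>
    obtain ⟨i, rfl⟩ := hx
    fin_cases i <;> exact ⟨_, _, _, _, rfl⟩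
  | one => exact O.one_mem
  | mul x y _ _ hx hy => exact O.mul_mem hx hy
  | inv x _ hx =>
    obtain ⟨a, b, c, d, e⟩ := hx
    exact ⟨_, _, _, _, (congrArg Matrix.adjugate e).trans (om_adj ..)⟩

/-- The inclusion of the group in the order. -/
def toO : Gam →* O where
  toFun g := ⟨g.1.1, Gam_mem g⟩
  map_one' := rfl
  map_mul' _ _ := rfl

theorem toO_val (g : Gam) : (toO g).1 = g.1.1 := rfl

theorem toO_inj : Function.Injective toO := fun _ _ h =>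
  Subtype.ext (Subtype.ext (congrArg (fun x : O => x.1) h))

theorem xG_gen : Subgroup.closure (range xG) = ⊤ := by
  have := Subgroup.closure_closure_coe_preimage (k := range xg)
  refine top_unique (this.ge.trans (Subgroup.closure_mono ?_))
  rintro ⟨_, _⟩ ⟨i, rfl⟩
  exact ⟨i, rfl⟩

theorem xG_quad (i : Fin 4) : toO (xG i) * toO (xG i) + toO (xG i) + 1 = 0 := by
  apply Subtype.ext
  change (xg i).1 * (xg i).1 + (xg i).1 + 1 = 0
  rw [← om_one, ← om_zero]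
  fin_cases i <;> simp only [xg] <;> simp [om_mul, om_add]

theorem xG_cube (i : Fin 4) : xG i ^ 3 = 1 := by
  apply toO_inj
  have h := xG_quad i
  rw [map_pow, map_one, ← sub_eq_zero]
  calc _ = (toO (xG i) - 1) * (toO (xG i) * toO (xG i) + toO (xG i) + 1) := by noncomm_ring
    _ = 0 := by rw [h, mul_zero]

theorem xG_prod : xG 0 * xG 1 * xG 2 * xG 3 = 1 := by
  apply Subtype.ext
  apply Subtype.ext
  change (xg 0).1 * (xg 1).1 * (xg 2).1 * (xg 3).1 = 1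
  rw [← om_one]
  simp [xg, om_mul]

theorem xG_01 : (xG 0 * xG 1).1.1 = om (-3) (-1) (-1) 2 := by
  change (xg 0).1 * (xg 1).1 = _
  simp [xg, om_mul]

/-- The Jacobi group: the semidirect product of the order and the Fuchsian group. -/
@[ext] structure Jac where
  l : O
  g : Gam

noncomputable instance : Group Jac where
  mul p q := ⟨q.l + p.l * toO q.g, p.g * q.g⟩
  one := ⟨0, 1⟩
  inv p := ⟨-(p.l * toO p.g⁻¹), p.g⁻¹⟩
  mul_assoc p q r := Jac.ext (by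
    change r.l + (q.l + p.l * toO q.g) * toO r.g = r.l + q.l * toO r.g + p.l * toO (q.g * r.g)
    rw [map_mul]
    noncomm_ring) (mul_assoc p.g q.g r.g)
  one_mul p := Jac.ext (by change p.l + 0 * toO p.g = p.l; simp) (one_mul p.g)
  mul_one p := Jac.ext (by change 0 + p.l * toO 1 = p.l; simp) (mul_one p.g)
  inv_mul_cancel p := Jac.ext (by
    change p.l + -(p.l * toO p.g⁻¹) * toO p.g = 0
    rw [neg_mul, mul_assoc, ← map_mul]
    simp) (inv_mul_cancel p.g)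

@[simp] theorem Jac.mul_l (p q : Jac) : (p * q).l = q.l + p.l * toO q.g := rfl
@[simp] theorem Jac.mul_g (p q : Jac) : (p * q).g = p.g * q.g := rfl
@[simp] theorem Jac.one_l : (1 : Jac).l = 0 := rfl
@[simp] theorem Jac.one_g : (1 : Jac).g = 1 := rfl
@[simp] theorem Jac.inv_l (p : Jac) : p⁻¹.l = -(p.l * toO p.g⁻¹) := rfl
@[simp] theorem Jac.inv_g (p : Jac) : p⁻¹.g = p.g⁻¹ := rfl

/-- The projection to the Fuchsian group. -/
def Jac.pr : Jac →* Gam where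
  toFun p := p.g
  map_one' := rfl
  map_mul' _ _ := rfl

/-- The preimage of a subgroup of the Fuchsian group. -/
noncomputable def PiH (H : Subgroup Gam) : Subgroup Jac := H.comap Jac.pr

theorem mem_PiH {H : Subgroup Gam} {p : Jac} : p ∈ PiH H ↔ p.g ∈ H := Iff.rfl

theorem PiH_index (H : Subgroup Gam) : (PiH H).index = H.index :=
  H.index_comap_of_surjective fun g => ⟨⟨0, g⟩, rfl⟩

/-- The product of the upper half plane and complex 2-space. -/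
def Om : Set V := {w | 0 < w.1.im}

/-- The denominator `c τ + d`. -/
noncomputable def dn (γ : M2) (τ : ℂ) : ℂ := γ 1 0 * τ + γ 1 1

/-- The translate `z + l (τ, 1)`. -/
noncomputable def tr (l : M2) (w : V) (r : Fin 2) : ℂ := w.2 r + l r 0 * w.1 + l r 1

/-- The action. -/
noncomputable def actM (l γ : M2) (w : V) : V :=
  ((γ 0 0 * w.1 + γ 0 1) / dn γ w.1, fun r => tr l w r / dn γ w.1)

/-- The exponent of the factor of automorphy. -/
noncomputable def QM (l γ : M2) (w : V) : ℂ :=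
  ∑ r, (γ 1 0 * tr l w r ^ 2 / dn γ w.1 - (l r 0 ^ 2 * w.1 + 2 * l r 0 * w.2 r + l r 0 * l r 1))

/-- The factor of automorphy of Jacobi forms of weight and index one. -/
noncomputable def JM (l γ : M2) (w : V) : ℂ :=
  dn γ w.1 * Complex.exp (2 * Real.pi * Complex.I * QM l γ w)

/-- The potential. -/
noncomputable def PhiM (w : V) : ℝ :=
  -(1 / 2) * Real.log w.1.im + 2 * Real.pi * ∑ r, (w.2 r).im ^ 2 / w.1.im

/-- The modulus of the peak function on the upper half plane. -/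
noncomputable def uu (τ₀ τ : ℂ) : ℝ := 2 * √(τ.im * τ₀.im) / ‖τ - (starRingEnd ℂ) τ₀‖

/-- The upper bound for the peak function at the point `(τ₀, -x (τ₀, 1))`. -/
noncomputable def bd (τ₀ : ℂ) (x : M2) (w : V) : ℝ :=
  uu τ₀ w.1 * Real.exp (-(2 * Real.pi * τ₀.im *
    ∑ r, ‖tr x w r‖ ^ 2 / ‖w.1 - (starRingEnd ℂ) τ₀‖ ^ 2))

/-- The action of the Jacobi group. -/
noncomputable def actJ (p : Jac) : V → V := actM p.l.1 p.g.1.1

/-- The factor of automorphy of the Jacobi group. -/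
noncomputable def JJ (p : Jac) : V → ℂ := JM p.l.1 p.g.1.1

/-- The permutation of a word in two letters. -/
def ev {P : Type} (a b : Equiv.Perm P) : FreeGroup Bool →* Equiv.Perm P :=
  FreeGroup.lift fun i => if i then a else b

/-- The group element of a word in two letters. -/
noncomputable def evG : FreeGroup Bool →* Gam := FreeGroup.lift fun i => if i then xG 0 else xG 2

/-- A rooted transitive action of the free product of two groups of order three. -/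
structure Rt {P : Type} (a b : Equiv.Perm P) (o : P) : Prop where
  a3 : a ^ 3 = 1
  b3 : b ^ 3 = 1
  ao : a o = o
  tr : ∀ p, ∃ w, ev a b w o = p

/-- The two cohomological properties of a tree of triangles. -/
structure Tre {P : Type} (a b : Equiv.Perm P) : Prop where
  t1 : ∀ c : P → ℝ, (∀ p, c p + c (a p) + c (a (a p)) = 0) →
    (∀ p, c p + c (b p) + c (b (b p)) = 0) → c = 0
  t2 : ∀ A B : P → ℝ, (∀ p, A p + A (a p) + A (a (a p)) = 0) →
    (∀ p, B p + B (b p) + B (b (b p)) = 0) →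
      ∃ ψ : P → ℝ, ∀ p, A p = ψ (a p) - ψ p ∧ B p = ψ (b p) - ψ p

/-- The first Betti number of a group is zero. -/
def B0 (G : Type) [Group G] : Prop := ∀ f : G →* Multiplicative ℝ, f = 1

end Pool.Agent.P.MP_ab0431_ag.T

end

section

/-! Statements of the concrete steps. -/

namespace Pool.Agent.P.MP_ab0431_ag.T

open Set Filter Topology Metric

def S_TITS : Prop :=
  ∀ (W : Type) [Group W] (σ : Fin 4 → W) (ρ : W →* M2), Subgroup.closure (range σ) = ⊤ →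
    (∀ i, σ i * σ i = 1) → (∀ i, (σ i * σ (i + 1)) ^ 3 = 1) → (∀ i, ρ (σ i) = rf i) →
    ∀ w, ρ w = 1 ∨ ρ w = -1 → w = 1

def S_PRES : Prop :=
  (∀ g : Gam, g.1.1 ≠ -1) ∧ ∀ (P : Type) (a b : Equiv.Perm P), a ^ 3 = 1 → b ^ 3 = 1 →
    ∃ φ : Gam →* Equiv.Perm P, φ (xG 0) = a ∧ φ (xG 1) = a⁻¹ ∧ φ (xG 2) = b ∧ φ (xG 3) = b⁻¹

def S_COC : Prop :=
  ∃ R : ℝ, ∀ v : M2, v.trace = 0 → v.det = 1 → ∃ g : Gam, nm (g.1.1 * v * (g⁻¹).1.1) ≤ R

def S_LAT : Prop :=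
  (Summable fun x : O => 1 / (1 + nm x.1) ^ 5) ∧ (∀ R : ℝ, {x : O | nm x.1 ≤ R}.Finite) ∧
    (∃ R : ℝ, ∀ x : M2, ∃ l : O, nm (x + l.1) ≤ R) ∧
    ∀ l m : O, ∃ n : ℤ, ∑ r, (l.1 r 0 * m.1 r 1 - l.1 r 1 * m.1 r 0) = n

def S_FINP : Prop :=
  ∃ S : Set (O × O), S.Finite ∧ ∀ y z : O, y * y + y + 1 = 0 → z * z + z + 1 = 0 →
    (y * z).1.trace = -4 → ∃ g : Gam, (toO g * y * toO g⁻¹, toO g * z * toO g⁻¹) ∈ S

def S_ISO : Prop :=
  ∀ H H' : Subgroup Gam, Nonempty (PiH H ≃* PiH H') → ∃ (A : O ≃+ O) (θ : H → H'),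
    Function.Surjective θ ∧ ∀ (l : O) (h : H), A (l * toO h.1) = A l * toO (θ h).1

def S_RIG : Prop :=
  ∃ c : ℕ, ∀ H : Subgroup Gam, xG 0 ∈ H → xG 1 ∈ H → H.FiniteIndex →
    {H' : Subgroup Gam | H'.index = H.index ∧ Nonempty (PiH H ≃* PiH H')}.Finite ∧
    {H' : Subgroup Gam | H'.index = H.index ∧ Nonempty (PiH H ≃* PiH H')}.ncard ≤ c * H.index

def S_SHAP : Prop :=
  ∀ (P : Type) (a b : Equiv.Perm P) (o : P) (φ : Gam →* Equiv.Perm P) (H : Subgroup Gam),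
    Rt a b o → Tre a b → φ (xG 0) = a → φ (xG 1) = a⁻¹ → φ (xG 2) = b → φ (xG 3) = b⁻¹ →
    (∀ g, g ∈ H ↔ φ g o = o) → B0 (PiH H)

def S_TREE : Prop :=
  ∀ r : ℕ, ∃ (a : Equiv.Perm (Fin (4 * r + 1))) (b : (Fin r → Bool) → Equiv.Perm (Fin (4 * r + 1))),
    (∀ ε, Rt a (b ε) 0 ∧ Tre a (b ε)) ∧
    ∀ ε ε', (∀ w, ev a (b ε) w 0 = 0 ↔ ev a (b ε') w 0 = 0) → ε = ε'

def S_TREEB : Prop :=
  ∀ r : ℕ, ∃ (a : Equiv.Perm (Fin r) → Equiv.Perm (Fin (3 * r + 1)))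
    (b : Equiv.Perm (Fin (3 * r + 1))), (∀ σ, Rt (a σ) b 0) ∧
    ∀ σ σ', (∀ w, ev (a σ) b w 0 = 0 ↔ ev (a σ') b w 0 = 0) → σ = σ'

def S_CNT : Prop :=
  (∀ (ι : Type) [Fintype ι] [Nonempty ι] (r : ι → ι → Prop) (B N : ℕ), Equivalence r →
    (∀ i, {j | r i j}.ncard ≤ B) → N * B ≤ Fintype.card ι →
    ∃ f : Fin N → ι, Pairwise fun i j => ¬ r (f i) (f j)) ∧
  (∀ c : ℕ, ∃ C : ℕ, ∀ n : ℕ, ∃ r : ℕ,
    4 * r + 1 ≤ C * (n + 1) ∧ 2 ^ n * (c * (4 * r + 1)) ≤ 2 ^ r) ∧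
  ∀ c : ℕ, ∃ C : ℕ, ∀ n : ℕ, ∃ r : ℕ,
    3 * r + 1 ≤ C * (n + 1) ∧ n ^ n * (c * (3 * r + 1)) ≤ r.factorial

def S_GRP : Prop :=
  (∃ C : ℕ, ∀ n : ℕ, ∃ d : ℕ, 0 < d ∧ d ≤ C * (n + 1) ∧ ∃ K : Fin (2 ^ n) → Subgroup Jac,
    (∀ i, (K i).index = d ∧ B0 (K i)) ∧ Pairwise fun i j => IsEmpty (K i ≃* K j)) ∧
  ∃ C : ℕ, ∀ n : ℕ, ∃ d : ℕ, 0 < d ∧ d ≤ C * (n + 1) ∧ ∃ K : Fin (n ^ n) → Subgroup Jac,
    (∀ i, (K i).index = d) ∧ Pairwise fun i j => IsEmpty (K i ≃* K j)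

def S_ACT : Prop :=
  (∀ w, actM 0 1 w = w) ∧ ∀ l γ : M2, γ.det = 1 → DifferentiableOn ℂ (actM l γ) Om ∧
    ∀ w ∈ Om, dn γ w.1 ≠ 0 ∧ (actM l γ w).1.im = w.1.im / ‖dn γ w.1‖ ^ 2 ∧ actM l γ w ∈ Om ∧
      (fderiv ℂ (actM l γ) w).det = (dn γ w.1)⁻¹ ^ 4 ∧
      ∀ l' γ' : M2, dn (γ' * γ) w.1 = dn γ' (actM l γ w).1 * dn γ w.1 ∧
        (∀ r, tr l' (actM l γ w) r = tr (l + l' * γ) w r / dn γ w.1) ∧
        (γ'.det = 1 → actM (l + l' * γ) (γ' * γ) w = actM l' γ' (actM l γ w))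

def S_JCO : Prop :=
  ∀ l γ : M2, γ.det = 1 → DifferentiableOn ℂ (JM l γ) Om ∧ ∀ w ∈ Om,
    Real.exp (-PhiM (actM l γ w)) * ‖JM l γ w‖ = Real.exp (-PhiM w) ∧
    ∀ l' γ' : M2, γ'.det = 1 →
      (∃ n : ℤ, ∑ r, ((l' * γ) r 0 * l r 1 - (l' * γ) r 1 * l r 0) = n) →
      JM (l + l' * γ) (γ' * γ) w = JM l' γ' (actM l γ w) * JM l γ w

def S_LEVI : Prop :=
  ContDiffOn ℝ 2 PhiM Om ∧ ∀ w ∈ Om, ∀ v ≠ 0, 0 < levi PhiM w v

def S_PEAK : Prop :=
  ∀ w₀ ∈ Om, (∃ (x : M2) (f : V → ℂ), DifferentiableOn ℂ f Om ∧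
      ‖f w₀‖ * Real.exp (-PhiM w₀) = 1 ∧ ∀ w ∈ Om, ‖f w‖ * Real.exp (-PhiM w) ≤ bd w₀.1 x w ∧
        (w ≠ w₀ → bd w₀.1 x w < 1)) ∧
    ∃ f : V → ℂ, DifferentiableOn ℂ f Om ∧ ‖f w₀‖ * w₀.1.im ^ 2 = 1 ∧
      ∀ w ∈ Om, ‖f w‖ * w.1.im ^ 2 ≤ 1

def S_ESTA : Prop :=
  ∀ (τ₀ : ℂ) (x : M2) (K : Set V), 0 < τ₀.im → IsCompact K → K ⊆ Om → ∃ C : ℝ, ∀ l γ : M2,
    γ.det = 1 → ∀ w ∈ K, bd τ₀ x (actM l γ w) * (1 + nm γ) ≤ C ∧
      bd τ₀ x (actM l γ w) * (1 + nm l) ≤ C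

def S_ESTB : Prop :=
  ∀ K : Set V, IsCompact K → K ⊆ Om → ∃ C : ℝ, ∀ l γ : M2, γ.det = 1 → ∀ w ∈ K,
    1 + ‖actM l γ w‖ ≤ C * ((1 + nm γ) * (1 + nm l)) ^ 2

def S_CC : Prop :=
  ∃ F : Set V, IsCompact F ∧ F ⊆ Om ∧ ∀ w ∈ Om, ∃ p : Jac, actJ p w ∈ F

def S_FIX : Prop :=
  ∀ p : Jac, p ≠ 1 → ∀ w ∈ Om, ∀ w' ∈ Om, actJ p w = w → actJ p w' = w' → w = w'

def S_TF : Prop :=
  ∃ H : Subgroup Jac, H.FiniteIndex ∧ ∀ p ∈ H, ∀ w ∈ Om, actJ p w = w → p = 1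

def S_DAT : Prop := Nonempty (Datum Jac)

end Pool.Agent.P.MP_ab0431_ag.T

end

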