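import Pool.Agent.P.MP_ab0431_ag.Defs
import Pool.Agent.P.MP_f17f76_ag.E.An1

section

/-! Abstract objects: group actions on convex domains in complex 3-space, sections, charts. -/

namespace Pool.Agent.P.MP_ab0431_ag.T

open Set Filter Topology

/-- Complex 3-space. -/
abbrev V := ℂ × C2

/-- Real 3-space. -/
abbrev R3 := EuclideanSpace ℝ (Fin 3)

/-- The unit square. -/
abbrev Sq := unitInterval × unitInterval

/-- The second real derivative in the direction `v`. -/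
noncomputable def hess (u : V → ℝ) (w v : V) : ℝ := fderiv ℝ (fderiv ℝ u) w v v

/-- Four times the Levi form. -/
noncomputable def levi (u : V → ℝ) (w v : V) : ℝ := hess u w v + hess u w (Complex.I • v)

/-- A cocompact action by holomorphic maps on a convex domain. -/
structure Act (G : Type) [Group G] where
  Ω : Set V
  a : G → V → V
  op : IsOpen Ω
  cvx : Convex ℝ Ω
  ne : Ω.Nonempty
  maps : ∀ g, ∀ w ∈ Ω, a g w ∈ Ω
  one : ∀ w ∈ Ω, a 1 w = w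
  mul : ∀ g h, ∀ w ∈ Ω, a (g * h) w = a g (a h w)
  hol : ∀ g, DifferentiableOn ℂ (a g) Ω
  cc : ∃ F, IsCompact F ∧ F ⊆ Ω ∧ ∀ w ∈ Ω, ∃ g, a g w ∈ F

variable {G : Type} [Group G]

namespace Act

variable (A : Act G)

/-- Proper discontinuity. -/
def PD : Prop :=
  ∀ K L, IsCompact K → K ⊆ A.Ω → IsCompact L → L ⊆ A.Ω → {g | ∃ w ∈ K, A.a g w ∈ L}.Finite

/-- The stabiliser of `w` is trivial. -/
def Fr (w : V) : Prop := ∀ g, A.a g w = w → g = 1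

/-- The complex Jacobian determinant. -/
noncomputable def jac (g : G) (w : V) : ℂ := (fderiv ℂ (A.a g) w).det

theorem inv_a (g : G) {w : V} (hw : w ∈ A.Ω) : A.a g⁻¹ (A.a g w) = w := by
  rw [← A.mul _ _ _ hw, inv_mul_cancel, A.one _ hw]

theorem a_inv (g : G) {w : V} (hw : w ∈ A.Ω) : A.a g (A.a g⁻¹ w) = w := by
  rw [← A.mul _ _ _ hw, mul_inv_cancel, A.one _ hw]

theorem diffAt (g : G) {w : V} (hw : w ∈ A.Ω) : DifferentiableAt ℂ (A.a g) w :=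
  (A.hol g).differentiableAt (A.op.mem_nhds hw)

theorem fderiv_mul (g h : G) {w : V} (hw : w ∈ A.Ω) :
    fderiv ℂ (A.a (g * h)) w = (fderiv ℂ (A.a g) (A.a h w)).comp (fderiv ℂ (A.a h) w) := by
  rw [← fderiv_comp w (A.diffAt g (A.maps h w hw)) (A.diffAt h hw)]
  exact EventuallyEq.fderiv_eq (eventually_of_mem (A.op.mem_nhds hw) fun z hz => A.mul g h z hz)

theorem fderiv_one {w : V} (hw : w ∈ A.Ω) : fderiv ℂ (A.a 1) w = .id ℂ V := by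
  rw [← fderiv_id (x := w)]
  exact EventuallyEq.fderiv_eq (eventually_of_mem (A.op.mem_nhds hw) fun z hz => A.one z hz)

theorem jac_mul (g h : G) {w : V} (hw : w ∈ A.Ω) :
    A.jac (g * h) w = A.jac g (A.a h w) * A.jac h w := by
  rw [jac, A.fderiv_mul g h hw]
  exact LinearMap.det_comp _ _

theorem jac_one {w : V} (hw : w ∈ A.Ω) : A.jac 1 w = 1 := by
  rw [jac, A.fderiv_one hw]
  exact LinearMap.det_id

theorem jac_ne (g : G) {w : V} (hw : w ∈ A.Ω) : A.jac g w ≠ 0 := fun h => by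
  have := A.jac_mul g⁻¹ g hw
  rw [inv_mul_cancel, A.jac_one hw, h, mul_zero] at this
  exact one_ne_zero this

/-- The restriction to a subgroup of finite index. -/
def res (H : Subgroup G) [H.FiniteIndex] : Act H where
  Ω := A.Ω
  a g := A.a g
  op := A.op
  cvx := A.cvx
  ne := A.ne
  maps g := A.maps g
  one := A.one
  mul g h := A.mul g h
  hol g := A.hol g
  cc := by
    obtain ⟨F, hF, h1, h2⟩ := A.cc
    refine ⟨⋃ q : G ⧸ H, A.a q.out⁻¹ '' F,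
      isCompact_iUnion fun q => hF.image_of_continuousOn ((A.hol _).continuousOn.mono h1),
      iUnion_subset fun q => image_subset_iff.2 fun w hw => A.maps _ _ (h1 hw), fun w hw => ?_⟩
    obtain ⟨g, hg⟩ := h2 w hw
    refine ⟨⟨(g : G ⧸ H).out⁻¹ * g, QuotientGroup.eq.1 (QuotientGroup.out_eq' _)⟩,
      mem_iUnion.2 ⟨(g : G ⧸ H), _, hg, (A.mul _ _ _ hw).symm⟩⟩

end Act

theorem diffAt_det {E : Type} [NormedAddCommGroup E] [NormedSpace ℂ E] {M : E → V →L[ℂ] V} {x : E}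
    (h : DifferentiableAt ℂ M x) : DifferentiableAt ℂ (fun y => (M y).det) x := by
  let b := Module.finBasis ℂ V
  have e : (fun y => (M y).det) = fun y => ∑ σ : Equiv.Perm _,
      ((Equiv.Perm.sign σ : ℤ) : ℂ) * ∏ i, b.coord (σ i) (M y (b i)) := by
    funext y
    rw [ContinuousLinearMap.det, ← LinearMap.det_toMatrix b, Matrix.det_apply']
    simp [LinearMap.toMatrix_apply]
  rw [e]
  exact .fun_sum fun σ _ => .const_mul (HasFDerivAt.finsetProd fun i _ =>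
    ((LinearMap.toContinuousLinearMap (b.coord (σ i))).differentiableAt.comp x
      (h.clm_apply (differentiableAt_const _))).hasFDerivAt).differentiableAt _

/-- A holomorphic map with `t (g w) = J (g, w) ^ k • t w`. -/
def IsSec (A : Act G) (J : G → V → ℂ) (k : ℕ) {F : Type} [NormedAddCommGroup F] [NormedSpace ℂ F]
    (t : V → F) : Prop :=
  DifferentiableOn ℂ t A.Ω ∧ ∀ g, ∀ w ∈ A.Ω, t (A.a g w) = J g w ^ k • t w

/-- `f` peaks at `w₀` with respect to the weight `ρ`, with summable translates. -/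
structure IsPeak (A : Act G) (ρ : V → ℝ) (w₀ : V) (f : V → ℂ) (κ : ℕ) : Prop where
  hol : DifferentiableOn ℂ f A.Ω
  eq : ‖f w₀‖ * ρ w₀ = 1
  lt : ∀ w ∈ A.Ω, w ≠ w₀ → ‖f w‖ * ρ w < 1
  sum : ∀ K, IsCompact K → K ⊆ A.Ω → ∃ M : G → ℝ, Summable M ∧
    ∀ g, ∀ w ∈ K, (‖f (A.a g w)‖ * ρ (A.a g w)) ^ κ * (1 + ‖A.a g w‖) ≤ M g

/-- A factor of automorphy with an invariant weight and peak functions. -/
structure Pk (A : Act G) (J : G → V → ℂ) (ρ : V → ℝ) : Prop where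
  hol : ∀ g, DifferentiableOn ℂ (J g) A.Ω
  coc : ∀ g h, ∀ w ∈ A.Ω, J (g * h) w = J g (A.a h w) * J h w
  cont : ContinuousOn ρ A.Ω
  pos : ∀ w ∈ A.Ω, 0 < ρ w
  inv : ∀ g, ∀ w ∈ A.Ω, ρ (A.a g w) * ‖J g w‖ = ρ w
  peak : ∀ w₀ ∈ A.Ω, ∃ f κ, IsPeak A ρ w₀ f κ

theorem Pk.ne {A : Act G} {J : G → V → ℂ} {ρ : V → ℝ} (h : Pk A J ρ) (g : G) {w : V}
    (hw : w ∈ A.Ω) : J g w ≠ 0 := fun h0 => by
  have := h.inv g w hw
  rw [h0, norm_zero, mul_zero] at this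
  exact (h.pos w hw).ne this

theorem Pk.one {A : Act G} {J : G → V → ℂ} {ρ : V → ℝ} (h : Pk A J ρ) {w : V}
    (hw : w ∈ A.Ω) : J 1 w = 1 := by
  have := h.coc 1 1 w hw
  rw [mul_one, A.one w hw] at this
  exact (mul_eq_left₀ (h.ne 1 hw)).1 this.symm

theorem Pk.res {A : Act G} {J : G → V → ℂ} {ρ : V → ℝ} (h : Pk A J ρ) (H : Subgroup G)
    [H.FiniteIndex] : Pk (A.res H) (fun g => J g) ρ where
  hol g := h.hol g
  coc g g' := h.coc g g'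
  cont := h.cont
  pos := h.pos
  inv g := h.inv g
  peak w hw := by
    obtain ⟨f, κ, hf⟩ := h.peak w hw
    refine ⟨f, κ, hf.hol, hf.eq, hf.lt, fun K h1 h2 => ?_⟩
    obtain ⟨M, h3, h4⟩ := hf.sum K h1 h2
    exact ⟨fun g => M g, h3.subtype _, fun g => h4 g⟩

/-- A weight for the inverse Jacobian determinant with weak peak functions. -/
structure WPk (A : Act G) (ρ : V → ℝ) : Prop where
  cont : ContinuousOn ρ A.Ω
  pos : ∀ w ∈ A.Ω, 0 < ρ w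
  inv : ∀ g, ∀ w ∈ A.Ω, ρ (A.a g w) = ρ w * ‖A.jac g w‖
  peak : ∀ w₀ ∈ A.Ω, ∃ f : V → ℂ, DifferentiableOn ℂ f A.Ω ∧ ‖f w₀‖ * ρ w₀ = 1 ∧
    ∀ w ∈ A.Ω, ‖f w‖ * ρ w ≤ 1

/-- A term of the Poincaré series. -/
noncomputable def trm (A : Act G) (J : G → V → ℂ) (f : V → ℂ) (k : ℕ) (g : G) (w : V) : ℂ × V :=
  (f (A.a g w) / J g w) ^ k • ((1 : ℂ), A.a g w)

/-- The Poincaré series. -/
noncomputable def ser (A : Act G) (J : G → V → ℂ) (f : V → ℂ) (k : ℕ) (w : V) : ℂ × V :=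
  ∑' g, trm A J f k g w

/-- The biholomorphic chart `φ` is a quotient of sections of weight `k`. -/
def Loc (A : Act G) (J : G → V → ℂ) (k : ℕ) (φ : OpenPartialHomeomorph V V) : Prop :=
  φ.source ⊆ A.Ω ∧ DifferentiableOn ℂ φ.symm φ.target ∧ ∃ (t : V → ℂ) (T : V → V),
    IsSec A J k t ∧ IsSec A J k T ∧ ∀ w ∈ φ.source, t w ≠ 0 ∧ T w = t w • φ w

theorem IsSec.pow {A : Act G} {J : G → V → ℂ} {k : ℕ} {t : V → ℂ} (h : IsSec A J k t) (n : ℕ) :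
    IsSec A J (n * k) fun w => t w ^ n :=
  ⟨h.1.pow n, fun g w hw => by
    simp only [h.2 g w hw, smul_eq_mul, mul_pow, ← pow_mul, mul_comm k n]⟩

theorem IsSec.smul {A : Act G} {J : G → V → ℂ} {k l : ℕ} {t : V → ℂ} {F : Type}
    [NormedAddCommGroup F] [NormedSpace ℂ F] {T : V → F} (h : IsSec A J k t)
    (h' : IsSec A J l T) : IsSec A J (k + l) fun w => t w • T w :=
  ⟨h.1.smul h'.1, fun g w hw => by
    simp only [h.2 g w hw, h'.2 g w hw, smul_eq_mul, pow_add, smul_smul]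
    congr 1
    ring⟩

theorem IsSec.clm {A : Act G} {J : G → V → ℂ} {k : ℕ} {F F' : Type} [NormedAddCommGroup F]
    [NormedSpace ℂ F] [NormedAddCommGroup F'] [NormedSpace ℂ F'] {T : V → F} (h : IsSec A J k T)
    (L : F →L[ℂ] F') : IsSec A J k fun w => L (T w) :=
  ⟨L.differentiable.comp_differentiableOn h.1, fun g w hw => by simp only [h.2 g w hw, map_smul]⟩

theorem IsSec.add {A : Act G} {J : G → V → ℂ} {k : ℕ} {F : Type} [NormedAddCommGroup F]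
    [NormedSpace ℂ F] {T T' : V → F} (h : IsSec A J k T) (h' : IsSec A J k T') :
    IsSec A J k fun w => T w + T' w :=
  ⟨h.1.add h'.1, fun g w hw => by simp only [h.2 g w hw, h'.2 g w hw, smul_add]⟩

theorem Loc.mul {A : Act G} {J : G → V → ℂ} {k : ℕ} {φ : OpenPartialHomeomorph V V}
    (h : Loc A J k φ) {n : ℕ} (hn : 0 < n) : Loc A J (n * k) φ := by
  obtain ⟨h1, h2, t, T, ht, hT, h3⟩ := h
  obtain ⟨n, rfl⟩ := Nat.exists_eq_succ_of_ne_zero hn.ne'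
  refine ⟨h1, h2, _, fun w => t w ^ n • T w, ht.pow _, ?_, fun w hw =>
    ⟨pow_ne_zero _ (h3 w hw).1, by simp only [(h3 w hw).2, smul_smul, pow_succ]⟩⟩
  rw [Nat.succ_mul]
  exact (ht.pow n).smul hT

/-- Finitely many sections embed the quotient of the set `Z` in projective space. -/
def Emb (A : Act G) (J : G → V → ℂ) (Z : Set V) : Prop :=
  ∃ (m N : ℕ) (t : Fin N → V → ℂ), 0 < m ∧ (∀ i, IsSec A J m (t i)) ∧ ∀ w ∈ Z, (∃ i, t i w ≠ 0) ∧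
    (∀ (v : V) (c : ℂ), (∀ i, fderiv ℂ (t i) w v = c * t i w) → v = 0) ∧
    ∀ w' ∈ Z, ∀ c : ℂ, (∀ i, t i w = c * t i w') → ∃ g, A.a g w = w'

/-- All the data on the threefold. -/
structure Datum (G : Type) [Group G] extends Act G where
  J : G → V → ℂ
  Φ : V → ℝ
  ρ : V → ℝ
  pk : Pk toAct J fun w => Real.exp (-Φ w)
  wpk : WPk toAct ρ
  sm : ContDiffOn ℝ 2 Φ Ω
  psh : ∀ w ∈ Ω, ∀ v ≠ 0, 0 < levi Φ w v
  fix : ∀ g ≠ 1, ∀ w ∈ Ω, ∀ w' ∈ Ω, a g w = w → a g w' = w' → w = w'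
  tf : ∃ H : Subgroup G, H.FiniteIndex ∧ ∀ g ∈ H, ∀ w ∈ Ω, a g w = w → g = 1

/-- An invariant smooth hypersurface on which the group acts freely. -/
structure Hyp (G : Type) [Group G] extends Act G where
  s : V → ℂ
  j : G → V → ℂ
  pd : toAct.PD
  shol : DifferentiableOn ℂ s Ω
  jhol : ∀ g, DifferentiableOn ℂ (j g) Ω
  jne : ∀ g, ∀ w ∈ Ω, j g w ≠ 0
  aut : ∀ g, ∀ w ∈ Ω, s (a g w) = j g w * s w
  reg : ∀ w ∈ Ω, s w = 0 → fderiv ℂ s w ≠ 0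
  free : ∀ w ∈ Ω, s w = 0 → toAct.Fr w

namespace Hyp

variable (h : Hyp G)

/-- The zero set. -/
def Zs : Set V := {w | w ∈ h.Ω ∧ h.s w = 0}

/-- The zero set as a type. -/
def Z : Type := h.Zs

noncomputable instance : TopologicalSpace h.Z := instTopologicalSpaceSubtype

instance : T2Space h.Z := inferInstanceAs (T2Space h.Zs)

instance : LocallyCompactSpace h.Z := by
  have : IsLocallyClosed h.Zs := by
    obtain ⟨t, ht, e⟩ := continuousOn_iff_isClosed.1 h.shol.continuousOn {0} isClosed_singleton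
    refine ⟨h.Ω, t, h.op, ht, ?_⟩
    rw [inter_comm, ← e]
    exact Set.ext fun w => and_comm
  exact this.locallyCompactSpace

instance : MulAction G h.Z where
  smul g x := ⟨h.a g x.1, h.maps g _ x.2.1, by rw [h.aut g _ x.2.1, x.2.2, mul_zero]⟩
  one_smul x := Subtype.ext (h.one _ x.2.1)
  mul_smul g g' x := Subtype.ext (h.mul g g' _ x.2.1)

theorem smul_val (g : G) (x : h.Z) : (g • x).1 = h.a g x.1 := rfl

instance : ContinuousConstSMul G h.Z :=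
  ⟨fun g => Continuous.subtype_mk
    ((h.hol g).continuousOn.comp_continuous continuous_subtype_val fun x => x.2.1) _⟩

instance : IsCancelSMul G h.Z :=
  isCancelSMul_iff_eq_one_of_smul_eq.2 fun g x e => h.free _ x.2.1 x.2.2 g (congrArg (·.1) e)

instance : ProperlyDiscontinuousSMul G h.Z :=
  ⟨fun hK hL => (h.pd _ _ (hK.image continuous_subtype_val)
    (image_subset_iff.2 fun x _ => x.2.1) (hL.image continuous_subtype_val)
    (image_subset_iff.2 fun x _ => x.2.1)).subset fun _ ⟨_, ⟨x, hx, e⟩, hy⟩ =>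
      ⟨x.1, mem_image_of_mem _ hx, _, hy, congrArg (·.1) e.symm⟩⟩

instance (H : Subgroup G) : ContinuousConstSMul H h.Z :=
  ⟨fun g => continuous_const_smul (g : G)⟩

/-- The quotient of the zero set by a subgroup. -/
abbrev Q (H : Subgroup G) : Type := MulAction.orbitRel.Quotient H h.Z

/-- The class of a point. -/
def cl (H : Subgroup G) (x : h.Z) : h.Q H := Quotient.mk _ x

theorem cl_eq (H : Subgroup G) (x y : h.Z) : h.cl H x = h.cl H y ↔ ∃ g ∈ H, g • y = x :=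
  Quotient.eq''.trans ⟨fun ⟨g, e⟩ => ⟨g, g.2, e⟩, fun ⟨g, hg, e⟩ => ⟨⟨g, hg⟩, e⟩⟩

theorem cl_cov (H : Subgroup G) : IsQuotientCoveringMap (h.cl H) H :=
  isQuotientCoveringMap_quotientMk_of_properlyDiscontinuousSMul

/-- The projection to the quotient by the whole group. -/
def pr (H : Subgroup G) : h.Q H → h.Q ⊤ :=
  Quotient.lift (h.cl ⊤) fun _ _ ⟨g, e⟩ => (h.cl_eq ⊤ _ _).2 ⟨g, trivial, e⟩

theorem pr_cl (H : Subgroup G) (x : h.Z) : h.pr H (h.cl H x) = h.cl ⊤ x := rfl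

/-- A holomorphic parametrisation of a piece of the zero set with a linear left inverse. -/
structure Par where
  W : Set C2
  θ : C2 → V
  L : V →L[ℂ] C2
  op : IsOpen W
  hol : DifferentiableOn ℂ θ W
  mem : ∀ u ∈ W, θ u ∈ h.Zs
  inv : ∀ u ∈ W, L (θ u) = u
  det : ∀ u ∈ W, ((fderiv ℂ h.s (θ u)).prod L).det ≠ 0

/-- The Jacobian determinant of `(s, L)` along the parametrisation. -/
noncomputable def Par.dd {h : Hyp G} (P : h.Par) (u : C2) : ℂ :=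
  ((fderiv ℂ h.s (P.θ u)).prod P.L).det

/-- The chart `e` is inverse to the parametrisation `P`. -/
def Fits (H : Subgroup G) (e : OpenPartialHomeomorph (h.Q H) C2) (P : h.Par) : Prop :=
  e.target = P.W ∧ ∀ u (hu : u ∈ P.W), e.symm u = h.cl H ⟨P.θ u, P.mem u hu⟩

/-- Every point lies in a chart that comes from a parametrisation. -/
def Ch (H : Subgroup G) : Prop :=
  ∀ x : h.Q H, ∃ e : OpenPartialHomeomorph (h.Q H) C2, (∃ P, h.Fits H e P) ∧ x ∈ e.source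

/-- The complex structure on the quotient. -/
@[reducible] noncomputable def cs (H : Subgroup G) (c : h.Ch H) : ChartedSpace C2 (h.Q H) where
  atlas := {e | ∃ P, h.Fits H e P}
  chartAt x := (c x).choose
  mem_chart_source x := (c x).choose_spec.2
  chart_mem_atlas x := (c x).choose_spec.1

end Hyp

variable {Y : Type} [MetricSpace Y]

/-- `f'` is homotopic to `f` relative to the zero set of `U ∘ f` and `η`-close to `f`. -/
def Mv (U : Y → ℝ) (η : ℝ) (f f' : C(Sq, Y)) : Prop :=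
  f.HomotopicRel f' {x | U (f x) = 0} ∧ ∀ x, dist (f x) (f' x) ≤ η

/-- Squares can be pushed to lower values of `U` near `y`. -/
def LocPush (U : Y → ℝ) (y : Y) : Prop :=
  ∃ r > 0, ∀ η > 0, ∃ q < (1 : ℝ), ∀ l > (1 : ℝ), ∀ f : C(Sq, Y), ∃ f', Mv U η f f' ∧
    ∀ x, U (f' x) ≤ l * U (f x) ∧ (dist (f x) y < r → U (f' x) ≤ q * U (f x))

/-- Squares close to the zero set of `U` can be pushed into it near `y`. -/
def LocTube (U : Y → ℝ) (y : Y) : Prop :=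
  ∃ r > 0, ∀ η > 0, ∃ a > 0, ∀ f : C(Sq, Y), (∀ x, U (f x) ≤ a) → ∃ f', Mv U η f f' ∧
    ∀ x, U (f' x) ≤ η ∧ (dist (f x) y < r → U (f' x) = 0)

/-- Every square can be pushed into the zero set of `U`. -/
def Def (U : Y → ℝ) : Prop :=
  ∀ f : C(Sq, Y), ∃ f', f.HomotopicRel f' {x | U (f x) = 0} ∧ ∀ x, U (f' x) = 0

end Pool.Agent.P.MP_ab0431_ag.T

end

section

/-! Statements of the abstract steps. -/

namespace Pool.Agent.P.MP_ab0431_ag.T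

open Set Filter Topology Metric
open scoped Manifold ContDiff

def S_PD : Prop :=
  ∀ (G : Type) [Group G] (A : Act G) (J : G → V → ℂ) (ρ : V → ℝ), Pk A J ρ → A.PD

def S_PROD : Prop :=
  ∀ (G : Type) [Group G] (A : Act G) (J : G → V → ℂ) (ρ ρ' : V → ℝ) (k : ℕ), Pk A J ρ →
    WPk A ρ' → 0 < k → Pk A (fun g w => J g w ^ k / A.jac g w) fun w => ρ w ^ k * ρ' w

def S_IFT : Prop :=
  (∀ (Ω : Set V) (f : V → V) (w : V), IsOpen Ω → DifferentiableOn ℂ f Ω → w ∈ Ω →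
    (fderiv ℂ f w).det ≠ 0 → ∃ F : OpenPartialHomeomorph V V, w ∈ F.source ∧ F.source ⊆ Ω ∧
      (∀ z, F z = f z) ∧ DifferentiableOn ℂ F.symm F.target ∧
      ∀ z ∈ F.source, (fderiv ℂ f z).det ≠ 0) ∧
  ∀ (Ω : Set V) (s : V → ℂ) (w : V), IsOpen Ω → DifferentiableOn ℂ s Ω → w ∈ Ω →
    fderiv ℂ s w ≠ 0 → ∃ (L : V →L[ℂ] C2) (F : OpenPartialHomeomorph V V), w ∈ F.source ∧
      F.source ⊆ Ω ∧ (∀ z, F z = (s z, L z)) ∧ DifferentiableOn ℂ F.symm F.target ∧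
      ∀ z ∈ F.source, ((fderiv ℂ s z).prod L).det ≠ 0

def S_SERA : Prop :=
  ∀ (G : Type) [Group G] (A : Act G) (J : G → V → ℂ) (ρ : V → ℝ) (w₀ : V) (f : V → ℂ) (κ k : ℕ),
    Pk A J ρ → IsPeak A ρ w₀ f κ → κ ≤ k → IsSec A J k (ser A J f k)

def S_SERB : Prop :=
  ∀ (G : Type) [Group G] (A : Act G) (J : G → V → ℂ) (ρ : V → ℝ) (w₀ : V) (f : V → ℂ) (κ : ℕ),
    Pk A J ρ → IsPeak A ρ w₀ f κ → ∀ w₁ ∈ A.Ω, ∃ (B : Finset G) (q C r : ℝ),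
      (∀ g, g ∈ B ↔ A.a g w₁ = w₀) ∧ 0 ≤ q ∧ q < 1 ∧ 0 < r ∧ ball w₁ r ⊆ A.Ω ∧
      ∀ k, κ ≤ k → ∀ w ∈ ball w₁ r,
        ‖ser A J f k w - ∑ g ∈ B, trm A J f k g w‖ * ρ w ^ k ≤ C * q ^ k

def S_JET : Prop :=
  ∀ (G : Type) [Group G] (A : Act G) (J : G → V → ℂ) (ρ : V → ℝ), Pk A J ρ →
    ∀ w₀ ∈ A.Ω, A.Fr w₀ → ∃ k > 0, ∃ φ, Loc A J k φ ∧ w₀ ∈ φ.source

def S_SEP : Prop :=
  ∀ (G : Type) [Group G] (A : Act G) (J : G → V → ℂ) (ρ : V → ℝ), Pk A J ρ →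
    (∀ w₀ ∈ A.Ω, ∃ k > 0, ∃ t : V → ℂ, IsSec A J k t ∧ t w₀ ≠ 0) ∧
    ∀ w₀ ∈ A.Ω, ∀ w₁ ∈ A.Ω, (∀ g, A.a g w₁ ≠ w₀) → ∃ k > 0, ∃ t t' : V → ℂ,
      IsSec A J k t ∧ IsSec A J k t' ∧ ‖t' w₀‖ * ‖t w₁‖ < ‖t w₀‖ * ‖t' w₁‖

def S_STEP : Prop :=
  ∀ (G : Type) [Group G] (A : Act G) (J : G → V → ℂ) (k : ℕ) (φ : OpenPartialHomeomorph V V)
    (s : V → ℂ) (C C₀ : Set V), Loc A J k φ → IsSec A J k s → IsCompact C → C ⊆ A.Ω →
    IsCompact C₀ → C₀ ⊆ A.Ω → (∀ w ∈ C, s w ≠ 0 ∨ fderiv ℂ s w ≠ 0) → (∀ w ∈ C₀, s w ≠ 0) →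
    ∃ s' : V → ℂ, IsSec A J k s' ∧ (∀ w ∈ C ∪ φ.source, s' w ≠ 0 ∨ fderiv ℂ s' w ≠ 0) ∧
      ∀ w ∈ C₀, s' w ≠ 0

def S_HYP : Prop :=
  ∀ (G : Type) [Group G] (A : Act G) (J : G → V → ℂ) (ρ : V → ℝ), Pk A J ρ →
    (∀ g ≠ 1, ∀ w ∈ A.Ω, ∀ w' ∈ A.Ω, A.a g w = w → A.a g w' = w' → w = w') →
    ∃ k > 0, ∃ s : V → ℂ, IsSec A J k s ∧ ∀ w ∈ A.Ω, s w = 0 → fderiv ℂ s w ≠ 0 ∧ A.Fr w

def S_EMB : Prop :=
  ∀ (G : Type) [Group G] (A : Act G) (J : G → V → ℂ) (ρ : V → ℝ) (Z : Set V), Pk A J ρ →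
    Z ⊆ A.Ω → (∀ g, ∀ w ∈ Z, A.a g w ∈ Z) → (∀ F, IsCompact F → F ⊆ A.Ω → IsCompact (Z ∩ F)) →
    (∀ w ∈ Z, A.Fr w) → Emb A J Z

def S_NZ : Prop :=
  ∀ (g : C(Sq, R3)), ∀ ε > 0, ∃ g' : C(Sq, R3), ∀ x, g' x ≠ 0 ∧ ‖g' x - g x‖ < ε

def S_NEG : Prop :=
  ∀ Q : V →L[ℝ] V →L[ℝ] ℝ, (∀ v ≠ 0, Q v v + Q (Complex.I • v) (Complex.I • v) < 0) →
    ∃ ι : R3 →L[ℝ] V, ∀ n ≠ 0, Q (ι n) (ι n) < 0

def S_PLH : Prop :=
  ∀ (U : Set V) (s : V → ℂ) (Φ : V → ℝ) (c : ℝ), IsOpen U → DifferentiableOn ℂ s U →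
    (∀ z ∈ U, s z ≠ 0) → ContDiffOn ℝ 2 Φ U →
    ContDiffOn ℝ 2 (fun z => Real.log ‖s z‖ - c * Φ z) U ∧
      ∀ w ∈ U, ∀ v, levi (fun z => Real.log ‖s z‖ - c * Φ z) w v = -(c * levi Φ w v)

def S_PUSH : Prop :=
  ∀ (Y : Type) [MetricSpace Y] (U : Y → ℝ) (e : OpenPartialHomeomorph Y V) (y : Y) (u : V → ℝ)
    (ι : R3 →L[ℝ] V), y ∈ e.source → ContDiffOn ℝ 2 u e.target → (∀ z, 0 ≤ U z) →
    (∀ z ∈ e.source, U z = Real.exp (u (e z))) → (∀ n ≠ 0, hess u (e y) (ι n) < 0) → LocPush U y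

def S_TUBE : Prop :=
  ∀ (Y : Type) [MetricSpace Y] (U : Y → ℝ) (e : OpenPartialHomeomorph Y V) (y : Y),
    y ∈ e.source → Continuous U → (∀ z, 0 ≤ U z) → U y = 0 →
    (∀ z ∈ e.source, U z = 0 ↔ (e z).1 = 0) → LocTube U y

def S_GLOB : Prop :=
  ∀ (Y : Type) [MetricSpace Y] [CompactSpace Y] (U : Y → ℝ), Continuous U → (∀ z, 0 ≤ U z) →
    (∀ y, 0 < U y → LocPush U y) → (∀ y, U y = 0 → LocTube U y) → Def U

def S_YSP : Prop :=
  ∀ (G : Type) [Group G] (A : Act G), A.PD → (∀ w ∈ A.Ω, A.Fr w) →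
    ∃ (Y : Type) (_ : MetricSpace Y) (_ : CompactSpace Y) (π : A.Ω → Y), IsCoveringMap π ∧
      Function.Surjective π ∧ (∀ w w', π w = π w' → ∃ g, A.a g w.1 = w'.1) ∧
      ∀ y, ∃ e : OpenPartialHomeomorph Y V, y ∈ e.source ∧
        ∀ z ∈ e.source, ∃ h : e z ∈ A.Ω, π ⟨e z, h⟩ = z

def S_LIFT : Prop :=
  ∀ (Ω Z : Set V) (Y : Type) [MetricSpace Y] (π : Ω → Y) (U : Y → ℝ), Convex ℝ Ω → Ω.Nonempty →
    IsCoveringMap π → Z ⊆ Ω → (∀ w : Ω, w.1 ∈ Z ↔ U (π w) = 0) → Def U → SimplyConnectedSpace Z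

def S_LEF : Prop :=
  ∀ (G : Type) [Group G] (h : Hyp G) (Φ : V → ℝ) (c : ℝ), 0 < c → ContDiffOn ℝ 2 Φ h.Ω →
    (∀ w ∈ h.Ω, ∀ v ≠ 0, 0 < levi Φ w v) →
    (∀ g, ∀ w ∈ h.Ω, Real.exp (-(c * Φ (h.a g w))) * ‖h.j g w‖ = Real.exp (-(c * Φ w))) →
    (∃ H : Subgroup G, H.FiniteIndex ∧ ∀ g ∈ H, ∀ w ∈ h.Ω, h.a g w = w → g = 1) →
    SimplyConnectedSpace h.Z

def S_TRANS : Prop :=
  ∀ (G : Type) [Group G] (h : Hyp G) (P P' : h.Par) (g : G), ∀ u ∈ P.W, ∀ u' ∈ P'.W,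
    h.a g (P.θ u) = P'.θ u' →
    (∀ᶠ v in 𝓝 u, P'.L (h.a g (P.θ v)) ∈ P'.W ∧ P'.θ (P'.L (h.a g (P.θ v))) = h.a g (P.θ v)) ∧
      (fderiv ℂ (fun v => P'.L (h.a g (P.θ v))) u).det * (h.j g (P.θ u) * P.dd u) =
        h.toAct.jac g (P.θ u) * P'.dd u'

def S_CHART : Prop :=
  ∀ (G : Type) [Group G] (h : Hyp G) (H : Subgroup G), h.Ch H

def S_MFD : Prop :=
  ∀ (G : Type) [Group G] (h : Hyp G) (H : Subgroup G) (c : h.Ch H) (c' : h.Ch ⊤),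
    (letI := h.cs H c; IsManifold 𝓘(ℂ, C2) ω (h.Q H)) ∧
    @MDifferentiable ℂ _ C2 _ _ C2 _ 𝓘(ℂ, C2) (h.Q H) _ (h.cs H c) C2 _ _ C2 _ 𝓘(ℂ, C2) (h.Q ⊤) _
      (h.cs ⊤ c') (h.pr H)

def S_KAMP : Prop :=
  ∀ (G : Type) [Group G] (h : Hyp G) (H : Subgroup G) [H.FiniteIndex] (c : h.Ch H),
    Emb (h.toAct.res H) (fun g w => h.j g w / h.toAct.jac g w) h.Zs →
    letI := h.cs H c; KAmple (h.Q H)

def S_COV : Prop :=
  ∀ (G : Type) [Group G] (h : Hyp G) (H : Subgroup G) [H.FiniteIndex] [SimplyConnectedSpace h.Z],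
    T2Space (h.Q H) ∧ CompactSpace (h.Q H) ∧ ConnectedSpace (h.Q H) ∧ IsCoveringMap (h.pr H) ∧
      (∀ x, Nat.card (h.pr H ⁻¹' {x}) = H.index) ∧
      ∃ y, Nonempty (FundamentalGroup (h.Q H) y ≃* H)

def S_ABS : Prop :=
  ∀ (G : Type) [Group G], Datum G → ∃ X : Surf, ∀ H : Subgroup G, H.FiniteIndex →
    ∃ (Y : Surf) (y : Y.X), IsCover Y X H.index ∧ Nonempty (FundamentalGroup Y.X y ≃* H)

end Pool.Agent.P.MP_ab0431_ag.T

end

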