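import Pool.Agent.P.MP_ab0431_ag.B.Base

section

/-! Step STEP. -/


namespace Pool.Agent.P.MP_ab0431_ag.T

open Set Filter Topology Metric
open scoped Manifold ContDiff

namespace STEPa

open Pool.Agent.P.MP_f17f76_ag.E

/-- The parameter space. -/
abbrev Pm := ℂ × (V →L[ℂ] ℂ)

theorem rk_V : Module.finrank ℂ V = 3 := by
  simp [V, C2, Module.finrank_prod]

theorem rkR_V : Module.finrank ℝ V = 6 := by
  rw [← Module.finrank_mul_finrank ℝ ℂ V, rk_V, Complex.finrank_real_complex]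

theorem rk_P : Module.finrank ℂ Pm = 4 := by
  have : Module.finrank ℂ (V →L[ℂ] ℂ) = 3 := by
    rw [← (LinearMap.toContinuousLinearMap (𝕜 := ℂ) (E := V) (F' := ℂ)).finrank_eq,
      Module.finrank_linearMap, rk_V, Module.finrank_self]
  rw [Module.finrank_prod, this, Module.finrank_self]

theorem rkR_P : Module.finrank ℝ Pm = 8 := by
  rw [← Module.finrank_mul_finrank ℝ ℂ Pm, rk_P, Complex.finrank_real_complex]

instance : FiniteDimensional ℝ Pm := Module.finite_of_finrank_pos (by rw [rkR_P]; norm_num)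

/-- The image of an open set under a holomorphic map has dense complement. -/
theorem dense {U : Set V} (hU : IsOpen U) {f : V → Pm} (hf : DifferentiableOn ℂ f U) :
    Dense (f '' U)ᶜ := by
  refine dense_compl_of_dimH_lt_finrank ?_
  have h1 : dimH (f '' U) ≤ dimH U := by
    refine dimH_image_le_of_locally_lipschitzOn fun x hx => ?_
    obtain ⟨K, t, ht, h⟩ :=
      ((contDiffOn_of_diffOn hU 1 hf).contDiffAt (hU.mem_nhds hx)).exists_lipschitzOnWith
    exact ⟨K, t, mem_nhdsWithin_of_mem_nhds ht, h⟩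
  refine (h1.trans (dimH_mono (subset_univ U))).trans_lt ?_
  rw [Real.dimH_univ_eq_finrank, rkR_V, rkR_P]
  exact_mod_cast (by norm_num : 6 < 8)

theorem z1 (L : V →L[ℂ] ℂ) : (0 : ℂ) • L = 0 := ContinuousLinearMap.ext fun v => zero_mul (L v)

theorem z2 (c : ℂ) : c • (0 : V →L[ℂ] ℂ) = 0 := ContinuousLinearMap.ext fun _ => mul_zero c

end STEPa

open STEPa Pool.Agent.P.MP_f17f76_ag.E in
theorem p_STEP :
    S_STEP := by
  intro G _ A J k φ s C C₀ ⟨hφ, hsy, t, T, ht, hT, htT⟩ hs hC hCΩ hC₀ hC₀Ω h1 h0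
  let sp : Pm → V → ℂ := fun p w => s w + p.1 * t w + p.2 (T w)
  have hsec : ∀ p, IsSec A J k (sp p) := fun p =>
    (hs.add (ht.clm (p.1 • ContinuousLinearMap.id ℂ ℂ))).add (hT.clm p.2)
  have hd : ∀ p, ∀ w ∈ A.Ω, fderiv ℂ (sp p) w =
      fderiv ℂ s w + p.1 • fderiv ℂ t w + p.2.comp (fderiv ℂ T w) := fun p w hw => by
    have n := A.op.mem_nhds hw
    exact (((hs.1.differentiableAt n).hasFDerivAt.add
      ((ht.1.differentiableAt n).hasFDerivAt.const_mul p.1)).add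
      (p.2.hasFDerivAt.comp w (hT.1.differentiableAt n).hasFDerivAt)).fderiv
  have c1 : ∀ w ∈ A.Ω, ContinuousAt (fun z : Pm × V => sp z.1 z.2) (0, w) := fun w hw => by
    have n := A.op.mem_nhds hw
    have a := (hs.1.differentiableAt n).continuousAt.comp_of_eq
      (continuousAt_snd (p := ((0 : Pm), w))) rfl
    have b := (ht.1.differentiableAt n).continuousAt.comp_of_eq
      (continuousAt_snd (p := ((0 : Pm), w))) rfl
    have c := (hT.1.differentiableAt n).continuousAt.comp_of_eq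
      (continuousAt_snd (p := ((0 : Pm), w))) rfl
    exact (a.add ((continuousAt_fst.comp continuousAt_fst).mul b)).add
      ((continuousAt_snd.comp continuousAt_fst).clm_apply c)
  have c2 : ∀ w ∈ A.Ω, ContinuousAt (fun z : Pm × V =>
      fderiv ℂ s z.2 + z.1.1 • fderiv ℂ t z.2 + z.1.2.comp (fderiv ℂ T z.2)) (0, w) :=
    fun w hw => by
    have n := A.op.mem_nhds hw
    have a := ((diffOn_fderiv A.op hs.1).differentiableAt n).continuousAt.comp_of_eq
      (continuousAt_snd (p := ((0 : Pm), w))) rfl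
    have b := ((diffOn_fderiv A.op ht.1).differentiableAt n).continuousAt.comp_of_eq
      (continuousAt_snd (p := ((0 : Pm), w))) rfl
    have c := ((diffOn_fderiv A.op hT.1).differentiableAt n).continuousAt.comp_of_eq
      (continuousAt_snd (p := ((0 : Pm), w))) rfl
    exact (a.add ((continuousAt_fst.comp continuousAt_fst).smul b)).add
      ((continuousAt_snd.comp continuousAt_fst).clm_comp c)
  have e0 : ∀ᶠ p in 𝓝 (0 : Pm), ∀ w ∈ C₀, sp p w ≠ 0 :=
    hC₀.eventually_forall_of_forall_eventually fun w hw =>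
      (c1 w (hC₀Ω hw)).eventually_ne (by simpa [sp] using h0 w hw)
  have e1 : ∀ᶠ p in 𝓝 (0 : Pm), ∀ w ∈ C, sp p w ≠ 0 ∨
      fderiv ℂ s w + p.1 • fderiv ℂ t w + p.2.comp (fderiv ℂ T w) ≠ 0 :=
    hC.eventually_forall_of_forall_eventually fun w hw => by
      rcases h1 w hw with h | h
      · exact ((c1 w (hCΩ hw)).eventually_ne (by simpa [sp] using h)).mono fun _ => .inl
      · exact ((c2 w (hCΩ hw)).eventually_ne (by simpa [z1] using h)).mono fun _ => .inr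
  let σ : V → ℂ := fun y => s (φ.symm y) * (t (φ.symm y))⁻¹
  have hm : MapsTo φ.symm φ.target A.Ω := fun y hy => hφ (φ.map_target hy)
  have hi : DifferentiableOn ℂ (fun y => (t (φ.symm y))⁻¹) φ.target :=
    (ht.1.comp hsy hm).inv fun y hy => (htT _ (φ.map_target hy)).1
  have hσ : DifferentiableOn ℂ σ φ.target := (hs.1.comp hsy hm).mul hi
  have hσ' := diffOn_fderiv φ.open_target hσ
  let bad : V → Pm := fun y => (-σ y + fderiv ℂ σ y y, -fderiv ℂ σ y)
  have hb : DifferentiableOn ℂ bad φ.target :=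
    (hσ.neg.add (hσ'.clm_apply differentiableOn_id)).prodMk hσ'.neg
  obtain ⟨p, hp, p0, p1⟩ := (dense φ.open_target hb).inter_nhds_nonempty (e0.and e1)
  refine ⟨sp p, hsec p, fun w hw => ?_, p0⟩
  rcases hw with hw | hw
  · rw [hd p w (hCΩ hw)]; exact p1 w hw
  by_contra c
  push Not at c
  have hy := φ.map_source hw
  have n := φ.open_target.mem_nhds hy
  have k1 : ∀ y ∈ φ.target, σ y + p.1 + p.2 y = sp p (φ.symm y) * (t (φ.symm y))⁻¹ := by
    intro y hy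
    obtain ⟨a, b⟩ := htT _ (φ.map_target hy)
    simp only [σ, sp, b, φ.right_inv hy, map_smul, smul_eq_mul]
    field_simp
  have k2 : HasFDerivAt (sp p) (0 : V →L[ℂ] ℂ) (φ.symm (φ w)) := by
    rw [φ.left_inv hw, ← c.2]
    exact ((hsec p).1.differentiableAt (A.op.mem_nhds (hφ hw))).hasFDerivAt
  have k3 := (k2.comp (φ w) (hsy.differentiableAt n).hasFDerivAt).mul
    (hi.differentiableAt n).hasFDerivAt
  have k4 : HasFDerivAt (fun y => σ y + p.1 + p.2 y) (fderiv ℂ σ (φ w) + p.2) (φ w) :=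
    ((hσ.differentiableAt n).hasFDerivAt.add_const p.1).add p.2.hasFDerivAt
  have k5 := k4.unique (k3.congr_of_eventuallyEq (eventually_of_mem n k1))
  have k6 := k1 _ hy
  simp only [Function.comp_apply, φ.left_inv hw, c.1, z1, zero_mul,
    ContinuousLinearMap.zero_comp, z2, add_zero] at k5 k6
  have k7 : p.2 = -fderiv ℂ σ (φ w) := eq_neg_of_add_eq_zero_right k5
  refine hp ⟨φ w, hy, Prod.ext ?_ k7.symm⟩
  rw [k7, neg_apply] at k6
  show -σ (φ w) + fderiv ℂ σ (φ w) (φ w) = p.1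
  linear_combination -k6

end Pool.Agent.P.MP_ab0431_ag.T

end

section

/-! Step HYP. -/


namespace Pool.Agent.P.MP_ab0431_ag.T

open Set Filter Topology Metric
open scoped Manifold ContDiff

namespace HYPa

variable {G : Type} [Group G] {A : Act G} {J : G → V → ℂ} {ρ : V → ℝ}

theorem nz (h : ∀ w₀ ∈ A.Ω, ∃ k > 0, ∃ t : V → ℂ, IsSec A J k t ∧ t w₀ ≠ 0) {S : Set V}
    (hS : S.Finite) : S ⊆ A.Ω → ∃ k > 0, ∃ s : V → ℂ, IsSec A J k s ∧ ∀ w ∈ S, s w ≠ 0 := by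
  induction S, hS using Set.Finite.induction_on with
  | empty =>
    exact fun _ => ⟨1, one_pos, fun _ => 0,
      ⟨differentiableOn_const _, fun _ _ _ => (smul_zero _).symm⟩, fun _ h => h.elim⟩
  | @insert w S _ hS ih =>
    intro hs
    obtain ⟨k, hk, s, h1, h2⟩ := ih ((subset_insert _ _).trans hs)
    obtain ⟨l, hl, t, h3, h4⟩ := h w (hs (mem_insert _ _))
    obtain ⟨c, hc⟩ :=
      ((hS.insert w).image fun x => -(s x ^ l) / t x ^ k).infinite_compl.nonempty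
    have h5 := (h3.pow k).clm (ContinuousLinearMap.mul ℂ ℂ c)
    rw [mul_comm] at h5
    refine ⟨l * k, Nat.mul_pos hl hk, _, (h1.pow l).add h5, fun x hx e => ?_⟩
    rw [ContinuousLinearMap.mul_apply'] at e
    have h6 : t x ^ k ≠ 0 := by
      rcases hx with rfl | hx
      · exact pow_ne_zero _ h4
      · intro h0
        rw [h0, mul_zero, add_zero] at e
        exact pow_ne_zero _ (h2 x hx) e
    exact hc ⟨x, hx, (div_eq_iff h6).2 (by linear_combination -e)⟩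

theorem fin (hpd : A.PD)
    (hf : ∀ g ≠ 1, ∀ w ∈ A.Ω, ∀ w' ∈ A.Ω, A.a g w = w → A.a g w' = w' → w = w') {F : Set V}
    (hF : IsCompact F) (h1 : F ⊆ A.Ω) : {w | w ∈ F ∧ ¬A.Fr w}.Finite := by
  refine ((hpd F F hF h1 hF h1).biUnion
    (t := fun g => {w | w ∈ F ∧ g ≠ 1 ∧ A.a g w = w}) fun g _ => Set.Subsingleton.finite
      fun w hw w' hw' => hf g hw.2.1 w (h1 hw.1) w' (h1 hw'.1) hw.2.2 hw'.2.2).subset ?_
  rintro w ⟨hw, h2⟩
  simp only [Act.Fr, not_forall] at h2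
  obtain ⟨g, h3, h4⟩ := h2
  exact mem_iUnion₂.2 ⟨g, ⟨w, hw, by rwa [h3]⟩, hw, h4, h3⟩

/-- Sections of all weights divisible by some `k` can be made regular on `S`. -/
def R (A : Act G) (J : G → V → ℂ) (C₀ S : Set V) : Prop :=
  ∃ k > 0, ∀ n > 0, ∀ (s : V → ℂ) (C : Set V), IsSec A J (n * k) s → IsCompact C → C ⊆ A.Ω →
    (∀ w ∈ C, s w ≠ 0 ∨ fderiv ℂ s w ≠ 0) → (∀ w ∈ C₀, s w ≠ 0) →
    ∃ (s' : V → ℂ) (C' : Set V), IsSec A J (n * k) s' ∧ IsCompact C' ∧ C' ⊆ A.Ω ∧ C ⊆ C' ∧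
      S ⊆ C' ∧ (∀ w ∈ C', s' w ≠ 0 ∨ fderiv ℂ s' w ≠ 0) ∧ ∀ w ∈ C₀, s' w ≠ 0

theorem reg (hSTEP : S_STEP) {C₀ K : Set V} (h0 : IsCompact C₀) (h1 : C₀ ⊆ A.Ω)
    (hK : IsCompact K) (h : ∀ w ∈ K, ∃ k > 0, ∃ φ, Loc A J k φ ∧ w ∈ φ.source) : R A J C₀ K := by
  refine hK.induction_on ?_ ?_ ?_ ?_
  · exact ⟨1, one_pos, fun n _ s C a b c d e => ⟨s, C, a, b, c, Subset.rfl, empty_subset _, d, e⟩⟩
  · rintro S T hST ⟨k, hk, H⟩
    refine ⟨k, hk, fun n hn s C a b c d e => ?_⟩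
    obtain ⟨s', C', a', b', c', d', e', f'⟩ := H n hn s C a b c d e
    exact ⟨s', C', a', b', c', d', hST.trans e', f'⟩
  · rintro S T ⟨k, hk, H⟩ ⟨l, hl, H'⟩
    refine ⟨k * l, Nat.mul_pos hk hl, fun n hn s C a b c d e => ?_⟩
    obtain ⟨s', C', a', b', c', d', e', f', g'⟩ := H (n * l) (Nat.mul_pos hn hl) s C
      (by rwa [mul_assoc, mul_comm l k]) b c d e
    obtain ⟨s'', C'', a'', b'', c'', d'', e'', f''⟩ := H' (n * k) (Nat.mul_pos hn hk) s' C'
      (by rwa [mul_right_comm]) b' c' f' g'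
    exact ⟨s'', C'', by rwa [← mul_assoc], b'', c'', d'.trans d'',
      union_subset (e'.trans d'') e'', f''⟩
  · intro w hw
    obtain ⟨k, hk, φ, h2, h3⟩ := h w hw
    obtain ⟨N, h4, h5, h6⟩ := local_compact_nhds (φ.open_source.mem_nhds h3)
    refine ⟨N, mem_nhdsWithin_of_mem_nhds h4, k, hk, fun n hn s C a b c d e => ?_⟩
    obtain ⟨s', a', b', c'⟩ := hSTEP G A J _ φ s C C₀ (h2.mul hn) a b c h0 h1 d e
    exact ⟨s', C ∪ N, a', b.union h6, union_subset c (h5.trans h2.1), subset_union_left,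
      subset_union_right, fun x hx => b' x (union_subset_union_right _ h5 hx), c'⟩

theorem fr {g : G} {w : V} (hw : w ∈ A.Ω) (h : A.Fr (A.a g w)) : A.Fr w := fun x e => by
  have := h (g * x * g⁻¹) (by
    rw [A.mul _ _ _ (A.maps g w hw), A.inv_a g hw, A.mul _ _ _ hw, e])
  simpa using this

theorem der (hJ : ∀ g, DifferentiableOn ℂ (J g) A.Ω) {k : ℕ} {s : V → ℂ} (hs : IsSec A J k s)
    {g : G} {w : V} (hw : w ∈ A.Ω) (h0 : s w = 0) (h1 : fderiv ℂ s w = 0) :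
    fderiv ℂ s (A.a g w) = 0 := by
  have hn := A.op.mem_nhds hw
  have hz := A.maps g w hw
  have e1 : s ∘ A.a g =ᶠ[𝓝 w] fun x => J g x ^ k * s x :=
    eventually_of_mem hn fun x hx => hs.2 g x hx
  have e2 := e1.fderiv_eq (𝕜 := ℂ)
  rw [fderiv_comp w (hs.1.differentiableAt (A.op.mem_nhds hz)) (A.diffAt g hw),
    fderiv_fun_mul (((hJ g).differentiableAt hn).fun_pow k) (hs.1.differentiableAt hn), h0, h1] at e2
  replace e2 := e2.trans (b := _) (c := 0) (by ext <;> simp)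
  have e3 := A.fderiv_mul g g⁻¹ hz
  rw [mul_inv_cancel, A.fderiv_one hz, A.inv_a g hw] at e3
  rw [← ContinuousLinearMap.comp_id (fderiv ℂ s (A.a g w)), e3, ← ContinuousLinearMap.comp_assoc,
    e2, ContinuousLinearMap.zero_comp]

end HYPa

theorem p_HYP (hPD : S_PD) (hJET : S_JET) (hSEP : S_SEP) (hSTEP : S_STEP) :
    S_HYP := by
  intro G _ A J ρ hP hf
  obtain ⟨F, hF, h1, h2⟩ := A.cc
  have hfin := HYPa.fin (hPD G A J ρ hP) hf hF h1
  obtain ⟨k₀, hk₀, s₀, h3, h4⟩ := HYPa.nz (hSEP G A J ρ hP).1 hfin fun w hw => h1 hw.1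
  obtain ⟨C₀, h5, h6, h7⟩ := exists_compact_between hfin.isCompact
    (h3.1.continuousOn.isOpen_inter_preimage A.op (isOpen_compl_singleton (x := (0 : ℂ))))
    fun w hw => ⟨h1 hw.1, h4 w hw⟩
  have h8 : ∀ w ∈ F \ interior C₀, A.Fr w := fun w hw => by
    by_contra h
    exact hw.2 (h6 ⟨hw.1, h⟩)
  obtain ⟨k, hk, H⟩ := HYPa.reg hSTEP h5 (fun w hw => (h7 hw).1) (hF.diff isOpen_interior)
    fun w hw => hJET G A J ρ hP w (h1 hw.1) (h8 w hw)
  obtain ⟨s, C, a, -, -, -, b, c, d⟩ := H k₀ hk₀ (fun w => s₀ w ^ k) ∅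
    (by rw [mul_comm]; exact h3.pow k) isCompact_empty (empty_subset _) (fun _ h => h.elim)
    fun w hw => pow_ne_zero _ (h7 hw).2
  refine ⟨k₀ * k, Nat.mul_pos hk₀ hk, s, a, fun w hw h0 => ?_⟩
  obtain ⟨g, hg⟩ := h2 w hw
  have e : s (A.a g w) = 0 := by rw [a.2 g w hw, h0, smul_zero]
  have hK : A.a g w ∈ F \ interior C₀ := ⟨hg, fun h => d _ (interior_subset h) e⟩
  exact ⟨fun h => (c _ (b hK)).elim (fun h' => h' e) fun h' => h' (HYPa.der hP.hol a hw h0 h),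
    HYPa.fr hw (h8 _ hK)⟩

end Pool.Agent.P.MP_ab0431_ag.T

end

section

/-! Step EMB. -/


namespace Pool.Agent.P.MP_ab0431_ag.T

open Set Filter Topology Metric
open scoped Manifold ContDiff

namespace EMBa

variable {G : Type} [Group G] {A : Act G} {J : G → V → ℂ}

/-- In all multiples of some weight there are finitely many sections that force `P`. -/
def Gd (A : Act G) (J : G → V → ℂ) (P : Set (V → ℂ) → Prop) : Prop :=
  ∃ m > 0, ∀ n > 0, ∃ T : Set (V → ℂ), T.Finite ∧ (∀ t ∈ T, IsSec A J (n * m) t) ∧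
    ∀ T', T ⊆ T' → P T'

theorem Gd.mono {P Q : Set (V → ℂ) → Prop} (h : Gd A J P) (e : ∀ T, P T → Q T) : Gd A J Q :=
  let ⟨m, h0, h⟩ := h
  ⟨m, h0, fun n hn => let ⟨T, a, b, c⟩ := h n hn; ⟨T, a, b, fun T' h' => e _ (c T' h')⟩⟩

theorem Gd.and {P Q : Set (V → ℂ) → Prop} (h : Gd A J P) (h' : Gd A J Q) :
    Gd A J fun T => P T ∧ Q T := by
  obtain ⟨m, h0, h⟩ := h
  obtain ⟨m', h0', h'⟩ := h'
  refine ⟨m * m', by positivity, fun n hn => ?_⟩
  obtain ⟨T, a, b, c⟩ := h (n * m') (by positivity)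
  obtain ⟨T', a', b', c'⟩ := h' (n * m) (by positivity)
  refine ⟨T ∪ T', a.union a', ?_, fun S hS =>
    ⟨c S (subset_union_left.trans hS), c' S (subset_union_right.trans hS)⟩⟩
  rintro t (ht | ht)
  · rw [mul_comm m, ← mul_assoc]; exact b t ht
  · rw [← mul_assoc]; exact b' t ht

theorem cover {X : Type} [TopologicalSpace X] {C : Set X} (hC : IsCompact C)
    {P : Set (V → ℂ) → X → Prop} (h : ∀ x ∈ C, ∃ U ∈ 𝓝[C] x, Gd A J fun T => ∀ y ∈ U, P T y) :
    Gd A J fun T => ∀ y ∈ C, P T y :=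
  hC.induction_on (p := fun U => Gd A J fun T => ∀ y ∈ U, P T y)
    ⟨1, one_pos, fun _ _ => ⟨∅, finite_empty, by simp, by simp⟩⟩
    (fun _ _ e h => h.mono fun _ h y hy => h y (e hy))
    (fun _ _ a b => (a.and b).mono fun _ h y hy => hy.elim (h.1 y) (h.2 y)) h

/-- Immersion at `w`. -/
def P1 (T : Set (V → ℂ)) (w : V) : Prop :=
  (∃ t ∈ T, t w ≠ 0) ∧ ∀ (v : V) (c : ℂ), (∀ t ∈ T, fderiv ℂ t w v = c * t w) → v = 0

/-- Separation of `w` and `w'`. -/
def P2 (A : Act G) (T : Set (V → ℂ)) (w w' : V) : Prop :=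
  ∀ c : ℂ, (∀ t ∈ T, t w = c * t w') → ∃ g, A.a g w = w'

theorem chart {ρ : V → ℝ} (hP : Pk A J ρ) {k : ℕ} (hk : 0 < k) {φ : OpenPartialHomeomorph V V}
    (h : Loc A J k φ) : Gd A J fun T => ∀ w ∈ φ.source, P1 T w ∧
      ∀ g, ∀ w' ∈ A.Ω, A.a g w' ∈ φ.source → P2 A T w w' := by
  refine ⟨k, hk, fun n hn => ?_⟩
  obtain ⟨h1, h2, t, S, ht, hS, h3⟩ := h.mul hn
  let b := Module.finBasis ℂ V
  let L := fun i => LinearMap.toContinuousLinearMap (b.coord i)
  have hL : ∀ x y : V, (∀ i, L i x = L i y) → x = y := fun x y e => b.ext_elem e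
  refine ⟨insert t (range fun i w => L i (S w)), (finite_range _).insert _, ?_,
    fun T hT w hw => ?_⟩
  · rintro _ (rfl | ⟨i, rfl⟩)
    exacts [ht, hS.clm _]
  have tT : t ∈ T := hT (mem_insert _ _)
  have sT : ∀ i, (fun w => L i (S w)) ∈ T := fun i => hT (mem_insert_of_mem _ ⟨i, rfl⟩)
  have t0 := (h3 w hw).1
  refine ⟨⟨⟨t, tT, t0⟩, fun v c e => ?_⟩, fun g w' hw' hg c e => ?_⟩
  · have n1 := φ.open_source.mem_nhds hw
    have dt := ht.1.differentiableAt (A.op.mem_nhds (h1 hw))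
    have dS := hS.1.differentiableAt (A.op.mem_nhds (h1 hw))
    have dφ : DifferentiableAt ℂ φ w := ((dt.inv t0).smul dS).congr_of_eventuallyEq
      (eventually_of_mem n1 fun z hz => by simp [(h3 z hz).2, (h3 z hz).1])
    have e1 : fderiv ℂ S w v = c • S w := hL _ _ fun i => by
      have : fderiv ℂ (L i ∘ S) w v = c * L i (S w) := e _ (sT i)
      rw [((L i).hasFDerivAt.comp w dS.hasFDerivAt).fderiv] at this
      simpa using this
    have e2 : fderiv ℂ S w = fderiv ℂ (fun z => t z • φ z) w :=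
      EventuallyEq.fderiv_eq (eventually_of_mem n1 fun z hz => (h3 z hz).2)
    rw [e2, fderiv_fun_smul dt dφ, (h3 w hw).2] at e1
    have e3 : fderiv ℂ φ w v = 0 := by
      simpa [e t tT, smul_smul, t0] using e1
    have e4 : fderiv ℂ (φ.symm ∘ φ) w = fderiv ℂ id w :=
      EventuallyEq.fderiv_eq (eventually_of_mem n1 fun z hz => φ.left_inv hz)
    rw [fderiv_comp w (h2.differentiableAt (φ.open_target.mem_nhds (φ.map_source hw))) dφ,
      fderiv_id] at e4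
    simpa [e3] using (congrArg (fun M => M v) e4).symm
  · have j0 := pow_ne_zero (n * k) (hP.ne g hw')
    have e1 : S w = c • S w' := hL _ _ fun i => by simpa using e _ (sT i)
    have e2 := (h3 _ hg).2
    rw [hS.2 g w' hw', ht.2 g w' hw', smul_assoc] at e2
    rw [smul_right_injective _ j0 e2, (h3 w hw).2, smul_smul, ← e t tT] at e1
    exact ⟨g⁻¹, by rw [φ.injOn hw hg (smul_right_injective _ t0 e1), A.inv_a g hw']⟩

theorem pair {k : ℕ} (hk : 0 < k) {s s' : V → ℂ} (h : IsSec A J k s) (h' : IsSec A J k s') :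
    Gd A J fun T => ∀ w w', ‖s' w‖ * ‖s w'‖ < ‖s w‖ * ‖s' w'‖ → P2 A T w w' := by
  refine ⟨k, hk, fun n hn => ⟨{fun w => s w ^ n, fun w => s' w ^ n}, toFinite _, ?_,
    fun T hT w w' hw c e => ?_⟩⟩
  · rintro _ (rfl | rfl)
    exacts [h.pow n, h'.pow n]
  have e1 : s w ^ n = c * s w' ^ n := e _ (hT (.inl rfl))
  have e2 : s' w ^ n = c * s' w' ^ n := e _ (hT (.inr rfl))
  refine absurd (pow_lt_pow_left₀ hw (by positivity) hn.ne') (not_lt.2 (le_of_eq ?_))
  simp only [mul_pow, ← norm_pow, e1, e2, norm_mul]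
  ring

theorem tr1 {ρ : V → ℝ} (hP : Pk A J ρ) {m : ℕ} {T : Set (V → ℂ)} (hT : ∀ t ∈ T, IsSec A J m t)
    (g : G) {w : V} (hw : w ∈ A.Ω) (h : P1 T (A.a g w)) : P1 T w := by
  obtain ⟨⟨t, a, b⟩, h⟩ := h
  refine ⟨⟨t, a, fun e => b (by rw [(hT t a).2 g w hw, e, smul_zero])⟩, fun v c e => ?_⟩
  have n1 := A.op.mem_nhds hw
  have j0 := pow_ne_zero m (hP.ne g hw)
  have dJ := ((hP.hol g).differentiableAt n1).pow m
  have := h (fderiv ℂ (A.a g) w v) (c + fderiv ℂ (J g ^ m) w v / J g w ^ m) fun t a => by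
    have dt := (hT t a).1.differentiableAt n1
    have e1 : fderiv ℂ (t ∘ A.a g) w = fderiv ℂ (J g ^ m * t) w :=
      EventuallyEq.fderiv_eq (eventually_of_mem n1 fun z hz => (hT t a).2 g z hz)
    rw [fderiv_comp w ((hT t a).1.differentiableAt (A.op.mem_nhds (A.maps g w hw)))
      (A.diffAt g hw), fderiv_mul dJ dt] at e1
    have e2 := congrArg (fun M => M v) e1
    simp only [ContinuousLinearMap.comp_apply, add_apply, smul_apply,
      smul_eq_mul, e t a, Pi.pow_apply] at e2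
    rw [e2, (hT t a).2 g w hw, smul_eq_mul]
    field_simp
  have e1 := A.fderiv_mul g⁻¹ g hw
  rw [inv_mul_cancel, A.fderiv_one hw] at e1
  simpa [this] using congrArg (fun M => M v) e1

theorem tr2 {ρ : V → ℝ} (hP : Pk A J ρ) {m : ℕ} {T : Set (V → ℂ)} (hT : ∀ t ∈ T, IsSec A J m t)
    (g g' : G) {w w' : V} (hw : w ∈ A.Ω) (hw' : w' ∈ A.Ω) (h : P2 A T (A.a g w) (A.a g' w')) :
    P2 A T w w' := fun c e => by
  have j0 := pow_ne_zero m (hP.ne g' hw')
  obtain ⟨x, hx⟩ := h (J g w ^ m * c / J g' w' ^ m) fun t a => by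
    rw [(hT t a).2 g w hw, (hT t a).2 g' w' hw', e t a, smul_eq_mul, smul_eq_mul]
    field_simp
  exact ⟨g'⁻¹ * (x * g), by rw [A.mul _ _ _ hw, A.mul _ _ _ hw, hx, A.inv_a g' hw']⟩

end EMBa

open EMBa in
theorem p_EMB (hJET : S_JET) (hSEP : S_SEP) :
    S_EMB := by
  intro G _ A J ρ Z hP hZ hg hc hf
  obtain ⟨F, f1, f2, f3⟩ := A.cc
  have hC := hc F f1 f2
  have sub : Z ∩ F ⊆ A.Ω := fun _ h => hZ h.1
  have key : Gd A J fun T => ∀ p ∈ (Z ∩ F) ×ˢ (Z ∩ F), P1 T p.1 ∧ P2 A T p.1 p.2 := by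
    refine cover (hC.prod hC) ?_
    rintro ⟨w, w'⟩ ⟨hw, hw'⟩
    obtain ⟨k, hk, φ, h1, h2⟩ := hJET G A J ρ hP w (sub hw) (hf w hw.1)
    have n1 : {p : V × V | p.1 ∈ φ.source} ∈ 𝓝 (w, w') :=
      continuousAt_fst.preimage_mem_nhds (φ.open_source.mem_nhds h2)
    have n2 := A.op.mem_nhds (sub hw)
    have n3 := A.op.mem_nhds (sub hw')
    by_cases e : ∃ g, A.a g w' = w
    · obtain ⟨g, e⟩ := e
      have n4 : {p : V × V | p.2 ∈ A.Ω ∧ A.a g p.2 ∈ φ.source} ∈ 𝓝 (w, w') :=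
        continuousAt_snd.preimage_mem_nhds (inter_mem n3
          ((A.diffAt g (sub hw')).continuousAt.preimage_mem_nhds
            (φ.open_source.mem_nhds (e.symm ▸ h2))))
      exact ⟨_, mem_nhdsWithin_of_mem_nhds (inter_mem n1 n4), (chart hP hk h1).mono
        fun T h p hp => ⟨(h _ hp.1).1, (h _ hp.1).2 g _ hp.2.1 hp.2.2⟩⟩
    · obtain ⟨k', hk', s, s', a, b, c⟩ :=
        (hSEP G A J ρ hP).2 w (sub hw) w' (sub hw') (not_exists.1 e)
      have c1 : ∀ {t : V → ℂ}, IsSec A J k' t → ContinuousAt (fun p : V × V => ‖t p.1‖) (w, w') :=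
        fun h => (ContinuousAt.comp (f := Prod.fst) (h.1.continuousOn.continuousAt n2)
          continuousAt_fst).norm
      have c2 : ∀ {t : V → ℂ}, IsSec A J k' t → ContinuousAt (fun p : V × V => ‖t p.2‖) (w, w') :=
        fun h => (ContinuousAt.comp (f := Prod.snd) (h.1.continuousOn.continuousAt n3)
          continuousAt_snd).norm
      have n4 := ((c1 b).mul (c2 a)).eventually_lt ((c1 a).mul (c2 b)) c
      exact ⟨_, mem_nhdsWithin_of_mem_nhds (inter_mem n1 n4), ((chart hP hk h1).and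
        (pair hk' a b)).mono fun T h p hp => ⟨(h.1 _ hp.1).1, h.2 _ _ hp.2⟩⟩
  obtain ⟨m, h0, h⟩ := key
  obtain ⟨T, a, b, c⟩ := h 1 one_pos
  replace c := c T Subset.rfl
  obtain ⟨N, t, -, rfl⟩ := a.fin_param
  refine ⟨1 * m, N, t, by omega, fun i => b _ ⟨i, rfl⟩, fun w hw => ?_⟩
  obtain ⟨g, e⟩ := f3 w (hZ hw)
  have m1 : A.a g w ∈ Z ∩ F := ⟨hg g w hw, e⟩
  obtain ⟨⟨_, ⟨i, rfl⟩, p⟩, q⟩ := tr1 hP b g (hZ hw) (c (_, _) ⟨m1, m1⟩).1
  refine ⟨⟨i, p⟩, fun v x hx => q v x (forall_mem_range.2 hx), fun w' hw' x hx => ?_⟩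
  obtain ⟨g', e'⟩ := f3 w' (hZ hw')
  exact tr2 hP b g g' (hZ hw) (hZ hw') (c (_, _) ⟨m1, hg g' w' hw', e'⟩).2 x (forall_mem_range.2 hx)

end Pool.Agent.P.MP_ab0431_ag.T

end

section

/-! Step ABS. -/


namespace Pool.Agent.P.MP_ab0431_ag.T

open Set Filter Topology Metric
open scoped Manifold ContDiff

theorem p_ABS (hPD : S_PD) (hHYP : S_HYP) (hPROD : S_PROD) (hEMB : S_EMB) (hLEF : S_LEF)
    (hCHART : S_CHART) (hMFD : S_MFD) (hKAMP : S_KAMP) (hCOV : S_COV) : S_ABS := by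
  intro G _ D
  obtain ⟨k, hk, s, hs, hr⟩ := hHYP G D.toAct D.J _ D.pk D.fix
  let h : Hyp G :=
    { D.toAct with
      s := s
      j := fun g w => D.J g w ^ k
      pd := hPD G D.toAct D.J _ D.pk
      shol := hs.1
      jhol := fun g => (D.pk.hol g).pow k
      jne := fun g w hw => pow_ne_zero _ (D.pk.ne g hw)
      aut := hs.2
      reg := fun w hw h0 => (hr w hw h0).1
      free := fun w hw h0 => (hr w hw h0).2 }
  have hsc : SimplyConnectedSpace h.Z := by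
    refine hLEF G h D.Φ k (by exact_mod_cast hk) D.sm D.psh (fun g w hw => ?_) D.tf
    have := congrArg (· ^ k) (D.pk.inv g w hw)
    simp only [mul_pow, ← Real.exp_nat_mul, mul_neg, ← norm_pow] at this
    exact this
  have hpk := hPROD G D.toAct D.J _ _ k D.pk D.wpk hk
  have key : ∀ (H : Subgroup G) [H.FiniteIndex],
      letI := h.cs H (hCHART G h H); KAmple (h.Q H) := fun H _ => by
    refine hKAMP G h H _ (hEMB H (h.toAct.res H) _ _ h.Zs (hpk.res H) (fun w hw => hw.1)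
      (fun g w hw => ((g : G) • (show h.Z from ⟨w, hw⟩)).2) (fun F hF hF' => ?_)
      fun w hw g e => Subtype.ext (h.free w hw.1 hw.2 g e))
    have e : h.Zs ∩ F = F ∩ s ⁻¹' {0} :=
      Set.ext fun w => ⟨fun a => ⟨a.2, a.1.2⟩, fun a => ⟨⟨hF' a.1, a.2⟩, a.1⟩⟩
    rw [e]
    exact hF.of_isClosed_subset ((hs.1.continuousOn.mono hF').preimage_isClosed_of_isClosed
      hF.isClosed isClosed_singleton) inter_subset_left
  let S : ∀ (H : Subgroup G) [H.FiniteIndex], Surf := fun H _ =>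
    @Surf.mk (h.Q H) _ (h.cs H (hCHART G h H)) (hMFD G h H _ (hCHART G h ⊤)).1 (hCOV G h H).1
      (hCOV G h H).2.1 (hCOV G h H).2.2.1 (key H)
  refine ⟨S ⊤, fun H _ => ?_⟩
  obtain ⟨-, -, -, h1, h2, y, h3⟩ := hCOV G h H
  exact ⟨S H, y, ⟨h.pr H, h1, (hMFD G h H _ _).2, h2⟩, h3⟩

end Pool.Agent.P.MP_ab0431_ag.T

end

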