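import Pool.Agent.P.MP_ab0431_ag.B.Arith

section

/-! Step TITS. -/


namespace Pool.Agent.P.MP_ab0431_ag.T

open Set Filter Topology Metric

namespace TITSa

variable {W V ι : Type} [Group W] [AddCommGroup V] [Module ℝ V] {σ : ι → W}

/-- The product of a word. -/
def pw (σ : ι → W) (L : List ι) : W := (L.map σ).prod

theorem pw_cons (x : ι) (L : List ι) : pw σ (x :: L) = σ x * pw σ L := by simp [pw]

theorem pw_app (L M : List ι) : pw σ (L ++ M) = pw σ L * pw σ M := by simp [pw]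

theorem exists_len (hg : Subgroup.closure (range σ) = ⊤) (h2 : ∀ i, σ i * σ i = 1) :
    ∃ l : W → ℕ, (∀ v L, l (v * pw σ L) ≤ l v + L.length) ∧ (∀ x w, l (σ x * w) ≤ l w + 1) ∧
      l 1 = 0 ∧ ∀ w, w ≠ 1 → ∃ j, l (w * σ j) + 1 ≤ l w := by
  classical
  have ex : ∀ w, ∃ n, ∃ L : List ι, L.length = n ∧ pw σ L = w := by
    intro w
    have hw : w ∈ Subgroup.closure (range σ) := by rw [hg]; trivial
    induction hw using Subgroup.closure_induction_left with
    | one => exact ⟨_, [], rfl, rfl⟩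
    | mul_left x hx y _ ih =>
      obtain ⟨i, rfl⟩ := hx
      obtain ⟨_, L, -, rfl⟩ := ih
      exact ⟨_, i :: L, rfl, pw_cons _ _⟩
    | inv_mul_cancel x hx y _ ih =>
      obtain ⟨i, rfl⟩ := hx
      obtain ⟨_, L, -, rfl⟩ := ih
      exact ⟨_, i :: L, rfl, by rw [pw_cons, inv_eq_of_mul_eq_one_right (h2 i)]⟩
  have le : ∀ L, Nat.find (ex (pw σ L)) ≤ L.length := fun L => Nat.find_min' _ ⟨L, rfl, rfl⟩
  refine ⟨fun w => Nat.find (ex w), fun v L => ?_, fun x w => ?_, Nat.le_zero.1 (le []),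
    fun w hw => ?_⟩
  · obtain ⟨M, h, e⟩ := Nat.find_spec (ex v)
    have := le (M ++ L)
    simp only [pw_app, e, List.length_append, h] at this
    exact this
  · obtain ⟨M, h, e⟩ := Nat.find_spec (ex w)
    have := le (x :: M)
    simp only [pw_cons, e, List.length_cons, h] at this
    exact this
  · obtain ⟨M, h, e⟩ := Nat.find_spec (ex w)
    rcases List.eq_nil_or_concat M with rfl | ⟨L, j, rfl⟩
    · exact absurd e.symm hw
    · refine ⟨j, ?_⟩
      have e1 : w * σ j = pw σ L := by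
        rw [← e, List.concat_eq_append, pw_app, pw_cons, mul_assoc, mul_assoc]
        simp [pw, h2]
      have := le L
      simp only [List.length_concat] at h
      simp only [e1]
      omega

theorem dihedral (h2 : ∀ i, σ i * σ i = 1) {l : W → ℕ}
    (l1 : ∀ v L, l (v * pw σ L) ≤ l v + L.length) (l2 : ∀ x w, l (σ x * w) ≤ l w + 1)
    (l0 : l 1 = 0) (act : W →* Module.End ℝ V) (r : ι → V) (hr : ∀ i, act (σ i) (r i) = -r i)
    {i j : ι} (c : ℝ) (hi : act (σ i) (r j) = r j + c • r i) (hj : act (σ j) (r i) = r i + c • r j)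
    (hc : (c = 1 ∧ σ j * (σ i * (σ j * σ i)) = σ i * σ j) ∨ 2 ≤ c) (L : List ι)
    (hL : ∀ x ∈ L, x = i ∨ x = j) (ha : L.length ≤ l (pw σ L))
    (hb : L.length ≤ l (pw σ L * σ i)) :
    ∃ a b : ℝ, act (pw σ L) (r i) = a • r i + b • r j ∧ 0 ≤ a ∧ 0 ≤ b := by
  have lw : ∀ L, l (pw σ L) ≤ L.length := fun L => by simpa [l0] using l1 1 L
  have dbl : ∀ x M, ¬ (x :: x :: M).length ≤ l (pw σ (x :: x :: M)) := fun x M h => by
    rw [pw_cons, pw_cons, ← mul_assoc, h2, one_mul] at h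
    have := lw M
    simp only [List.length_cons] at h
    omega
  have one : ¬ [i].length ≤ l (pw σ [i] * σ i) := fun h => by simp [pw, h2, l0] at h
  have tl : ∀ x M, (x :: M).length ≤ l (pw σ (x :: M)) → (x :: M).length ≤ l (pw σ (x :: M) * σ i) →
      M.length ≤ l (pw σ M) ∧ M.length ≤ l (pw σ M * σ i) := fun x M h h' => by
    rw [pw_cons, List.length_cons] at h h'
    rw [mul_assoc] at h'
    exact ⟨Nat.le_of_succ_le_succ (h.trans (l2 _ _)), Nat.le_of_succ_le_succ (h'.trans (l2 _ _))⟩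
  have si : ∀ a b : ℝ, act (σ i) (a • r i + b • r j) = (c * b - a) • r i + b • r j := by
    intro a b
    rw [map_add, map_smul, map_smul, hr, hi]
    module
  have sj : ∀ a b : ℝ, act (σ j) (a • r i + b • r j) = a • r i + (c * a - b) • r j := by
    intro a b
    rw [map_add, map_smul, map_smul, hr, hj]
    module
  have nil : act (pw σ []) (r i) = (1 : ℝ) • r i + (0 : ℝ) • r j := by simp [pw]
  have cons : ∀ x M, act (pw σ (x :: M)) (r i) = act (σ x) (act (pw σ M) (r i)) := fun x M => by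
    rw [pw_cons, map_mul]
    rfl
  rcases hc with ⟨rfl, br⟩ | hc
  · have : L = [] ∨ L = [j] ∨ L = [i, j] := by
      induction L with
      | nil => exact .inl rfl
      | cons x M ih =>
        obtain ⟨t1, t2⟩ := tl x M ha hb
        rcases ih (fun y hy => hL y (List.mem_cons_of_mem _ hy)) t1 t2 with rfl | rfl | rfl <;>
          rcases hL x List.mem_cons_self with rfl | rfl
        · exact absurd hb one
        · exact .inr (.inl rfl)
        · exact .inr (.inr rfl)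
        · exact absurd ha (dbl _ _)
        · exact absurd ha (dbl _ _)
        · have e : pw σ [x, i, x] * σ i = pw σ [i, x] := by simp [pw, mul_assoc, br]
          have := lw [i, x]
          rw [e] at hb
          simp only [List.length_cons] at hb this
          omega
    rcases this with rfl | rfl | rfl
    · exact ⟨_, _, nil, by norm_num⟩
    · exact ⟨_, _, by rw [cons, nil, sj], by norm_num⟩
    · exact ⟨_, _, by rw [cons, cons, nil, sj, si], by norm_num⟩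
  · have : ∃ a b : ℝ, act (pw σ L) (r i) = a • r i + b • r j ∧
        ((0 ≤ a ∧ a ≤ b ∧ ∃ M, L = j :: M) ∨ (0 ≤ b ∧ b ≤ a ∧ (L = [] ∨ ∃ M, L = i :: M))) := by
      induction L with
      | nil => exact ⟨_, _, nil, .inr ⟨le_rfl, zero_le_one, .inl rfl⟩⟩
      | cons x M ih =>
        obtain ⟨t1, t2⟩ := tl x M ha hb
        obtain ⟨a, b, e, h⟩ := ih (fun y hy => hL y (List.mem_cons_of_mem _ hy)) t1 t2
        rcases hL x List.mem_cons_self with rfl | rfl
        · rcases h with ⟨p, q, -⟩ | ⟨-, -, rfl | ⟨M, rfl⟩⟩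
          · exact ⟨_, _, by rw [cons, e, si], .inr ⟨p.trans q, by nlinarith, .inr ⟨_, rfl⟩⟩⟩
          · exact absurd hb one
          · exact absurd ha (dbl _ _)
        · rcases h with ⟨-, -, M, rfl⟩ | ⟨p, q, -⟩
          · exact absurd ha (dbl _ _)
          · exact ⟨_, _, by rw [cons, e, sj], .inl ⟨p.trans q, by nlinarith, _, rfl⟩⟩
    obtain ⟨a, b, e, ⟨p, q, -⟩ | ⟨p, q, -⟩⟩ := this
    · exact ⟨a, b, e, p, p.trans q⟩
    · exact ⟨a, b, e, p.trans q, p⟩

theorem tits (hg : Subgroup.closure (range σ) = ⊤) (h2 : ∀ i, σ i * σ i = 1)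
    (act : W →* Module.End ℝ V) (r : ι → V) (hr : ∀ i, act (σ i) (r i) = -r i)
    (hc : ∀ i j, i ≠ j → ∃ c : ℝ, act (σ i) (r j) = r j + c • r i ∧
      act (σ j) (r i) = r i + c • r j ∧
      ((c = 1 ∧ σ j * (σ i * (σ j * σ i)) = σ i * σ j) ∨ 2 ≤ c))
    (F : V →ₗ[ℝ] ℝ) (hF : ∀ i, 0 < F (r i)) (w : W) (hw : act w = 1) : w = 1 := by
  classical
  obtain ⟨l, l1, l2, l0, l3⟩ := exists_len hg h2
  have key : ∀ n w, l w = n → ∀ i, l w ≤ l (w * σ i) → 0 ≤ F (act w (r i)) := by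
    intro n
    induction n using Nat.strong_induction_on with
    | _ n ih =>
      intro w hn i hi
      by_cases w1 : w = 1
      · rw [w1, map_one]
        exact (hF i).le
      obtain ⟨j, hj⟩ := l3 w w1
      have ij : i ≠ j := by
        rintro rfl
        omega
      have ex : ∃ m, ∃ v L, l v = m ∧ (∀ x ∈ L, x = i ∨ x = j) ∧ w = v * pw σ L ∧
          l v + L.length ≤ l w ∧ l v < l w :=
        ⟨_, w * σ j, [j], rfl, by simp, by simp [pw, mul_assoc, h2], hj, hj⟩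
      obtain ⟨v, L, hm, hL, e, h1, h3⟩ := Nat.find_spec ex
      have mn : ∀ x, x = i ∨ x = j → l v ≤ l (v * σ x) := by
        intro x hx
        by_contra h
        refine Nat.find_min ex (m := l (v * σ x)) (by omega) ⟨v * σ x, x :: L, rfl, ?_, ?_, ?_, ?_⟩
        · exact List.forall_mem_cons.2 ⟨hx, hL⟩
        · rw [pw_cons, mul_assoc, ← mul_assoc (σ x), h2, one_mul, e]
        · simp only [List.length_cons]
          omega
        · omega
      have sub : ∀ u, l (v * u) ≤ l v + l u := by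
        intro u
        generalize hk : l u = k
        induction k using Nat.strong_induction_on generalizing u with
        | _ k ihk =>
          by_cases u1 : u = 1
          · rw [u1, mul_one]
            omega
          obtain ⟨x, hx⟩ := l3 u u1
          have a1 := ihk _ (by omega) (u * σ x) rfl
          have a2 := l1 (v * (u * σ x)) [x]
          simp only [pw, List.map_cons, List.map_nil, List.prod_cons, List.prod_nil, mul_one,
            mul_assoc, h2, List.length_cons, List.length_nil] at a2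
          omega
      obtain ⟨c, c1, c2, c3⟩ := hc i j ij
      obtain ⟨a, b, e1, a0, b0⟩ := dihedral h2 l1 l2 l0 act r hr c c1 c2 c3 L hL
        (by have := sub (pw σ L); rw [← e] at this; omega)
        (by have := sub (pw σ L * σ i); rw [← mul_assoc, ← e] at this; omega)
      have p1 := ih _ (hn ▸ h3) v rfl i (mn i (.inl rfl))
      have p2 := ih _ (hn ▸ h3) v rfl j (mn j (.inr rfl))
      rw [e, map_mul, Module.End.mul_apply, e1]
      simp only [map_add, map_smul, smul_eq_mul]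
      positivity
  by_contra w1
  obtain ⟨j, hj⟩ := l3 w w1
  have := key _ (w * σ j) rfl j (by rw [mul_assoc, h2, mul_one]; omega)
  rw [map_mul, hw, one_mul, hr, map_neg] at this
  linarith [hF j]

theorem rf_det (i : Fin 4) : (rf i).det = -1 := by
  have h2 : √2 * √2 = (2 : ℝ) := Real.mul_self_sqrt (by norm_num)
  have h6 : √6 * √6 = (6 : ℝ) := Real.mul_self_sqrt (by norm_num)
  fin_cases i <;> simp [rf, Matrix.det_fin_two] <;> grind

theorem rf_nb (i : Fin 4) : rf i * rf (i + 1) + rf (i + 1) * rf i = (-1 : ℝ) • 1 := by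
  have h2 : √2 * √2 = (2 : ℝ) := Real.mul_self_sqrt (by norm_num)
  have h6 : √6 * √6 = (6 : ℝ) := Real.mul_self_sqrt (by norm_num)
  ext a b
  fin_cases i <;> fin_cases a <;> fin_cases b <;> simp [rf] <;> grind

theorem rf_op (i : Fin 4) : rf i * rf (i + 2) + rf (i + 2) * rf i = (-4 : ℝ) • 1 := by
  have h2 : √2 * √2 = (2 : ℝ) := Real.mul_self_sqrt (by norm_num)
  have h6 : √6 * √6 = (6 : ℝ) := Real.mul_self_sqrt (by norm_num)
  ext a b
  fin_cases i <;> fin_cases a <;> fin_cases b <;> simp [rf] <;> grind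

theorem refl {x y : M2} {c : ℝ} (hx : x * x = 1) (h : x * y + y * x = (-c) • 1) :
    (-1 : ℝ) • (x * y * x) = y + c • x := by
  have : x * y = (-c) • 1 - y * x := eq_sub_of_add_eq h
  rw [this, sub_mul, mul_assoc, hx, smul_mul_assoc, one_mul, mul_one]
  module

end TITSa

open TITSa in
theorem p_TITS :
    S_TITS := by
  intro W _ σ ρ hg h2 h3 hρ w hw
  have inv : ∀ i, (σ i)⁻¹ = σ i := fun i => inv_eq_of_mul_eq_one_right (h2 i)
  let act : W →* Module.End ℝ M2 :=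
    { toFun := fun w => (ρ w).det • LinearMap.mulLeftRight ℝ (ρ w, ρ w⁻¹)
      map_one' := LinearMap.ext fun v => by simp
      map_mul' := fun a b => LinearMap.ext fun v => by
        simp [mul_assoc, smul_smul, mul_comm (ρ a).det] }
  have ha : ∀ w v, act w v = (ρ w).det • (ρ w * v * ρ w⁻¹) := fun _ _ => rfl
  have hs : ∀ i v, act (σ i) v = (-1 : ℝ) • (rf i * v * rf i) := fun i v => by
    rw [ha, inv, hρ, rf_det]
  have cube : ∀ x : W, x ^ 3 = 1 → x * x = x⁻¹ := fun x h =>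
    eq_inv_of_mul_eq_one_left (by rw [← h, pow_three'])
  refine tits hg h2 act rf (fun i => by rw [hs, rf_sq]; simp) (fun i j ij => ?_)
    (Matrix.entryLinearMap ℝ ℝ 0 1 - Matrix.entryLinearMap ℝ ℝ 1 0) (fun i => ?_) w ?_
  · have : j = i + 1 ∨ i = j + 1 ∨ j = i + 2 := by
      revert i j
      decide
    rw [hs, hs]
    rcases this with rfl | rfl | rfl
    · refine ⟨1, refl (rf_sq _) (rf_nb i), refl (rf_sq _) ((add_comm _ _).trans (rf_nb i)),
        .inl ⟨rfl, ?_⟩⟩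
      have := cube (σ i * σ (i + 1))⁻¹ (by rw [inv_pow, h3, inv_one])
      simpa only [mul_inv_rev, inv, mul_assoc] using this
    · refine ⟨1, refl (rf_sq _) ((add_comm _ _).trans (rf_nb j)), refl (rf_sq _) (rf_nb j),
        .inl ⟨rfl, ?_⟩⟩
      simpa only [mul_inv_rev, inv, mul_assoc] using cube _ (h3 j)
    · exact ⟨4, refl (rf_sq _) (rf_op i), refl (rf_sq _) ((add_comm _ _).trans (rf_op i)),
        .inr (by norm_num)⟩
  · have : (0 : ℝ) < √2 := by positivity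
    fin_cases i <;> simp [rf] <;> linarith
  · refine LinearMap.ext fun v => ?_
    have e : ρ w * ρ w⁻¹ = 1 := by rw [← map_mul, mul_inv_cancel, map_one]
    rw [ha]
    rcases hw with h | h <;> rw [h] at e ⊢
    · rw [one_mul] at e
      simp [e]
    · rw [neg_one_mul, neg_eq_iff_eq_neg] at e
      simp [e, Matrix.det_neg]

end Pool.Agent.P.MP_ab0431_ag.T

end

section

/-! Step PRES. -/


namespace Pool.Agent.P.MP_ab0431_ag.T

open Set Filter Topology Metric

namespace PRESa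

variable {P : Type} (a b : Equiv.Perm P)

/-- The four involutions of the double. -/
def qq : Fin 4 → Equiv.Perm (P ⊕ P) :=
  ![Equiv.sumComm P P, (Equiv.sumCongr a a⁻¹).trans (Equiv.sumComm P P), Equiv.sumComm P P,
    (Equiv.sumCongr b b⁻¹).trans (Equiv.sumComm P P)]

/-- The four images. -/
def cc : Fin 4 → Equiv.Perm P := ![a, a⁻¹, b, b⁻¹]

theorem qq_sq (i : Fin 4) : qq a b i * qq a b i = 1 := by
  ext x
  fin_cases i <;> cases x <;> simp [qq]

theorem qq_mul (i : Fin 4) : qq a b i * qq a b (i + 1) =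
    Equiv.Perm.sumCongrHom P P (cc a b i, (cc a b i)⁻¹) := by
  ext x
  fin_cases i <;> cases x <;> simp [qq, cc]

theorem cc_cube (ha : a ^ 3 = 1) (hb : b ^ 3 = 1) (i : Fin 4) : cc a b i ^ 3 = 1 := by
  fin_cases i <;> simp [cc, ha, hb]

/-- The generators of the auxiliary group. -/
noncomputable def gen (i : Fin 4) : M2ˣ × Equiv.Perm (P ⊕ P) :=
  (⟨rf i, rf i, rf_sq i, rf_sq i⟩, qq a b i)

/-- The auxiliary group. -/
noncomputable def WW : Subgroup (M2ˣ × Equiv.Perm (P ⊕ P)) := Subgroup.closure (range (gen a b))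

/-- Its generators. -/
noncomputable def sg (i : Fin 4) : WW a b := ⟨gen a b i, Subgroup.subset_closure ⟨i, rfl⟩⟩

/-- Its representation. -/
noncomputable def rho : WW a b →* M2 :=
  (Units.coeHom M2).comp ((MonoidHom.fst _ _).comp (WW a b).subtype)

theorem rho_sg (i : Fin 4) : rho a b (sg a b i) = rf i := rfl

theorem sg_gen : Subgroup.closure (range (sg a b)) = ⊤ := by
  have := Subgroup.closure_closure_coe_preimage (k := range (gen a b))
  refine top_unique (this.ge.trans (Subgroup.closure_mono ?_))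
  rintro ⟨_, _⟩ ⟨i, rfl⟩
  exact ⟨i, rfl⟩

theorem sg_sq (i : Fin 4) : sg a b i * sg a b i = 1 :=
  Subtype.ext (Prod.ext (Units.ext (rf_sq i)) (qq_sq a b i))

theorem sg_cube (ha : a ^ 3 = 1) (hb : b ^ 3 = 1) (i : Fin 4) :
    (sg a b i * sg a b (i + 1)) ^ 3 = 1 := by
  refine Subtype.ext (Prod.ext (Units.ext ?_) ?_)
  · change rho a b ((sg a b i * sg a b (i + 1)) ^ 3) = 1
    rw [map_pow, map_mul, rho_sg, rho_sg, rf_mul]
    have h := congrArg (fun g => (toO g).1) (xG_cube i)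
    simp only [map_pow, map_one] at h
    exact h
  · change (qq a b i * qq a b (i + 1)) ^ 3 = 1
    rw [qq_mul, ← map_pow, Prod.pow_mk, inv_pow, cc_cube a b ha hb, inv_one]
    exact map_one _

/-- The correspondence. -/
def RR (g : Gam) (p : Equiv.Perm P) : Prop :=
  ∃ (w : WW a b) (p' : Equiv.Perm P), rho a b w = g.1.1 ∧
    w.1.2 = Equiv.Perm.sumCongrHom P P (p, p')

theorem RR_one : RR a b 1 1 := ⟨1, 1, map_one _, (map_one (Equiv.Perm.sumCongrHom P P)).symm⟩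

theorem RR_mul {g h : Gam} {p r : Equiv.Perm P} (x : RR a b g p) (y : RR a b h r) :
    RR a b (g * h) (p * r) := by
  obtain ⟨w, p', e, f⟩ := x
  obtain ⟨v, r', e', f'⟩ := y
  refine ⟨w * v, p' * r', ?_, ?_⟩
  · rw [map_mul, e, e']
    rfl
  · change w.1.2 * v.1.2 = _
    rw [f, f', ← map_mul]
    rfl

theorem RR_gen (i : Fin 4) : RR a b (xG i) (cc a b i) :=
  ⟨sg a b i * sg a b (i + 1), _, by rw [map_mul, rho_sg, rho_sg, rf_mul]; rfl, qq_mul a b i⟩

theorem RR_inv {g : Gam} {p : Equiv.Perm P} (x : RR a b g p) : RR a b g⁻¹ p⁻¹ := by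
  obtain ⟨w, p', e, f⟩ := x
  refine ⟨w⁻¹, p'⁻¹, ?_, ?_⟩
  · have h1 : rho a b w⁻¹ * g.1.1 = 1 := by rw [← e, ← map_mul, inv_mul_cancel, map_one]
    have h2 : g.1.1 * (g⁻¹).1.1 = 1 := congrArg (fun k : Gam => k.1.1) (mul_inv_cancel g)
    rw [← mul_one (rho a b w⁻¹), ← h2, ← mul_assoc, h1, one_mul]
  · change (w.1.2)⁻¹ = _
    rw [f, ← map_inv]
    rfl

theorem RR_ex (g : Gam) : ∃ p, RR a b g p := by
  have hg : g ∈ Subgroup.closure (range xG) := by rw [xG_gen]; trivial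
  induction hg using Subgroup.closure_induction with
  | mem x hx =>
    obtain ⟨i, rfl⟩ := hx
    exact ⟨_, RR_gen a b i⟩
  | one => exact ⟨_, RR_one a b⟩
  | mul x y _ _ hx hy => exact ⟨_, RR_mul a b hx.choose_spec hy.choose_spec⟩
  | inv x _ hx => exact ⟨_, RR_inv a b hx.choose_spec⟩

theorem RR_uniq (H : ∀ w, rho a b w = 1 → w = 1) {g : Gam} {p r : Equiv.Perm P}
    (x : RR a b g p) (y : RR a b g r) : p = r := by
  obtain ⟨w, p', e, f⟩ := x
  obtain ⟨v, r', e', f'⟩ := y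
  obtain rfl : w = v := (injective_iff_map_eq_one _).2 H (e.trans e'.symm)
  exact congrArg Prod.fst (Equiv.Perm.sumCongrHom_injective (f.symm.trans f'))

end PRESa

open PRESa in
theorem p_PRES (hTITS : S_TITS) :
    S_PRES := by
  have key : ∀ (P : Type) (a b : Equiv.Perm P), a ^ 3 = 1 → b ^ 3 = 1 →
      ∀ w, rho a b w = 1 ∨ rho a b w = -1 → w = 1 := fun P a b ha hb =>
    hTITS _ (sg a b) (rho a b) (sg_gen a b) (sg_sq a b) (sg_cube a b ha hb) (rho_sg a b)
  refine ⟨fun g hg => ?_, fun P a b ha hb => ?_⟩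
  · obtain ⟨_, w, _, e, _⟩ := RR_ex (1 : Equiv.Perm Unit) 1 g
    have h := key Unit 1 1 (one_pow _) (one_pow _) w (Or.inr (e.trans hg))
    rw [h, map_one, hg] at e
    have := congrFun (congrFun e 0) 0
    norm_num at this
  · choose φ hφ using RR_ex a b
    have U : ∀ {g p}, RR a b g p → φ g = p := fun h =>
      RR_uniq a b (fun w hw => key P a b ha hb w (Or.inl hw)) (hφ _) h
    exact ⟨⟨⟨φ, U (RR_one a b)⟩, fun g h => U (RR_mul a b (hφ g) (hφ h))⟩, U (RR_gen a b 0),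
      U (RR_gen a b 1), U (RR_gen a b 2), U (RR_gen a b 3)⟩

end Pool.Agent.P.MP_ab0431_ag.T

end

section

/-! Step COC. -/


namespace Pool.Agent.P.MP_ab0431_ag.T

open Set Filter Topology Metric

namespace COCa

/-- Trace zero and determinant one. -/
def Pp (x : M2) : Prop := x.trace = 0 ∧ x.det = 1

/-- The height. -/
def Dd (x : M2) : ℝ := x 0 1 - x 1 0

theorem Pp.conj {x a b : M2} (hx : Pp x) (h : a * b = 1) : Pp (a * x * b) := by
  have h' : b * a = 1 := mul_eq_one_comm.1 h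
  refine ⟨?_, ?_⟩
  · rw [Matrix.trace_mul_comm, ← mul_assoc, h', one_mul, hx.1]
  · have := congrArg Matrix.det h
    rw [Matrix.det_mul, Matrix.det_one] at this
    rw [Matrix.det_mul, Matrix.det_mul, hx.2, mul_one, this]

theorem Pp.e11 {x : M2} (hx : Pp x) : x 1 1 = -x 0 0 := by
  have := hx.1
  rw [Matrix.trace_fin_two] at this
  linarith

theorem Pp.sq {x : M2} (hx : Pp x) :
    Dd x ^ 2 = (2 * x 0 0) ^ 2 + (x 0 1 + x 1 0) ^ 2 + 4 := by
  have := hx.2
  rw [Matrix.det_fin_two, hx.e11] at this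
  unfold Dd
  linear_combination 4 * this

theorem Pp.nm_le {x : M2} (hx : Pp x) : nm x ≤ 3 * |Dd x| := by
  have h := hx.sq
  have h1 : |2 * x 0 0| ≤ |Dd x| := sq_le_sq.1 (by nlinarith [sq_nonneg (x 0 1 + x 1 0)])
  have h2 : |x 0 1 + x 1 0| ≤ |Dd x| := sq_le_sq.1 (by nlinarith [sq_nonneg (2 * x 0 0)])
  have h3 := le_abs_self (Dd x)
  have h4 := neg_abs_le (Dd x)
  rw [abs_le] at h1 h2
  have h5 : Dd x = x 0 1 - x 1 0 := rfl
  have a1 : |x 0 0| ≤ |Dd x| / 2 := abs_le.2 ⟨by linarith, by linarith⟩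
  have a2 : |x 0 1| ≤ |Dd x| := abs_le.2 ⟨by linarith, by linarith⟩
  have a3 : |x 1 0| ≤ |Dd x| := abs_le.2 ⟨by linarith, by linarith⟩
  unfold nm
  rw [hx.e11, abs_neg]
  linarith

theorem D_rf {x : M2} (hx : Pp x) :
    Dd (rf 0 * x * rf 0) = √3 * (2 * x 0 0) - 2 * Dd x ∧
    Dd (rf 2 * x * rf 2) = -(√3 * (2 * x 0 0)) - 2 * Dd x ∧
    Dd (rf 1 * x * rf 1) = √3 * (x 0 1 + x 1 0) - 2 * Dd x ∧
    Dd (rf 3 * x * rf 3) = -(√3 * (x 0 1 + x 1 0)) - 2 * Dd x := by
  have h2 : √2 * √2 = (2 : ℝ) := Real.mul_self_sqrt (by norm_num)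
  have h6 : √6 = √2 * √3 := by rw [← Real.sqrt_mul (by norm_num)]; norm_num
  have h3 := s3
  have e := hx.e11
  refine ⟨?_, ?_, ?_, ?_⟩ <;>
    simp only [Dd, Matrix.mul_apply, Fin.sum_univ_two, e] <;> simp [rf, h6] <;> grind

theorem real1 {a D : ℝ} (h : a ^ 2 < (2 * D) ^ 2) (h1 : |D| - 1 < |a - 2 * D|)
    (h2 : |D| - 1 < |-a - 2 * D|) : |a| ≤ |D| + 1 := by
  have h0 : |a| < |2 * D| := sq_lt_sq.1 h
  rw [abs_mul, abs_two] at h0
  rcases abs_cases a with ⟨e, _⟩ | ⟨e, _⟩ <;> rcases abs_cases D with ⟨f, _⟩ | ⟨f, _⟩ <;>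
    rcases abs_cases (a - 2 * D) with ⟨g, _⟩ | ⟨g, _⟩ <;>
    rcases abs_cases (-a - 2 * D) with ⟨k, _⟩ | ⟨k, _⟩ <;> linarith

theorem bound {x : M2} (hx : Pp x) (h : ∀ i, |Dd x| - 1 < |Dd (rf i * x * rf i)|) :
    |Dd x| ≤ 22 ∧ |Dd (rf 0 * x * rf 0)| ≤ 22 := by
  obtain ⟨e0, e2, e1, e3⟩ := D_rf hx
  have hs := hx.sq
  have h0 := h 0
  have h1 := h 1
  have h2 := h 2
  have h3 := h 3
  rw [e0] at h0 ⊢
  rw [e1] at h1
  rw [e2] at h2
  rw [e3] at h3
  generalize 2 * x 0 0 = A at *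
  generalize x 0 1 + x 1 0 = B at *
  generalize Dd x = D at *
  have sA : (√3 * A) ^ 2 = 3 * A ^ 2 := by linear_combination A ^ 2 * s3
  have sB : (√3 * B) ^ 2 = 3 * B ^ 2 := by linear_combination B ^ 2 * s3
  have bA := real1 (by rw [sA]; nlinarith [sq_nonneg A, sq_nonneg B]) h0 h2
  have bB := real1 (by rw [sB]; nlinarith [sq_nonneg A, sq_nonneg B]) h1 h3
  have qA : |√3 * A| ^ 2 ≤ (|D| + 1) ^ 2 := pow_le_pow_left₀ (abs_nonneg _) bA 2
  have qB : |√3 * B| ^ 2 ≤ (|D| + 1) ^ 2 := pow_le_pow_left₀ (abs_nonneg _) bB 2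
  rw [sq_abs] at qA qB
  have qD : |D| ^ 2 = D ^ 2 := sq_abs D
  have h7 : |D| ≤ 7 := by nlinarith [abs_nonneg D]
  refine ⟨by linarith, (abs_sub _ _).trans ?_⟩
  rw [abs_mul 2, abs_two]
  linarith

theorem val_inv (g : Gam) : g.1.1 * (g⁻¹).1.1 = 1 :=
  congrArg (fun k : Gam => k.1.1) (mul_inv_cancel g)

theorem rf_can (i : Fin 4) (y : M2) : rf i * (rf i * y) = y := by
  rw [← mul_assoc, rf_sq, one_mul]

theorem inv_eq {k : Gam} {i j : Fin 4} (h : k.1.1 = rf i * rf j) : (k⁻¹).1.1 = rf j * rf i := by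
  have := val_inv k
  rw [h] at this
  calc _ = rf j * (rf i * (rf i * rf j * (k⁻¹).1.1)) := by
        rw [mul_assoc, rf_can, rf_can]
    _ = _ := by rw [this, mul_one]

theorem ex_k (i : Fin 4) : ∃ k : Gam, k.1.1 = rf 0 * rf i := by
  fin_cases i
  · exact ⟨1, (rf_sq 0).symm⟩
  · exact ⟨xG 0, (rf_mul 0).symm⟩
  · refine ⟨xG 0 * xG 1, ?_⟩
    change (xg 0).1 * (xg 1).1 = rf 0 * rf 2
    rw [← rf_mul, ← rf_mul, mul_assoc]
    exact congrArg _ (rf_can 1 _)
  · exact ⟨(xG 3)⁻¹, inv_eq (k := xG 3) (i := 3) (j := 0) (rf_mul 3).symm⟩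

/-- The conjugate. -/
noncomputable def cj (v : M2) (g : Gam) : M2 := g.1.1 * v * (g⁻¹).1.1

theorem cj_mul (v : M2) (k g : Gam) : cj v (k * g) = k.1.1 * cj v g * (k⁻¹).1.1 := by
  unfold cj
  rw [mul_inv_rev]
  change k.1.1 * g.1.1 * v * ((g⁻¹).1.1 * (k⁻¹).1.1) = _
  simp only [mul_assoc]

/-- The orbit under the reflection group. -/
def Orb (v : M2) : Set M2 := {x | ∃ g, x = cj v g ∨ x = rf 0 * cj v g * rf 0}

theorem Orb.pp {v x : M2} (hv : Pp v) (hx : x ∈ Orb v) : Pp x := by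
  obtain ⟨g, rfl | rfl⟩ := hx
  · exact hv.conj (val_inv g)
  · exact Pp.conj (hv.conj (val_inv g)) (rf_sq 0)

theorem Orb.refl {v x : M2} (hx : x ∈ Orb v) (i : Fin 4) : rf i * x * rf i ∈ Orb v := by
  obtain ⟨k, hk⟩ := ex_k i
  have hk' := inv_eq hk
  obtain ⟨g, rfl | rfl⟩ := hx
  · refine ⟨k * g, Or.inr ?_⟩
    rw [cj_mul, hk, hk']
    simp only [mul_assoc, rf_can, rf_sq, mul_one]
  · refine ⟨k⁻¹ * g, Or.inl ?_⟩
    rw [cj_mul, inv_inv, hk, hk']
    simp only [mul_assoc]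

end COCa

open COCa in
theorem p_COC :
    S_COC := by
  refine ⟨66, fun v h0 h1 => ?_⟩
  have hv : Pp v := ⟨h0, h1⟩
  let S : Set ℝ := (fun x => |Dd x|) '' Orb v
  have hb : BddBelow S := ⟨0, by rintro _ ⟨x, -, rfl⟩; exact abs_nonneg _⟩
  have hn : S.Nonempty := ⟨_, _, ⟨1, Or.inl rfl⟩, rfl⟩
  obtain ⟨_, ⟨x, hx, rfl⟩, hlt⟩ := exists_lt_of_csInf_lt hn (lt_add_one (sInf S))
  obtain ⟨b1, b2⟩ := bound (Orb.pp hv hx) fun i => by
    have := csInf_le hb ⟨_, Orb.refl hx i, rfl⟩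
    simp only at this hlt
    linarith
  obtain ⟨g, rfl | rfl⟩ := hx
  · exact ⟨g, (hv.conj (val_inv g)).nm_le.trans (by change 3 * |Dd (cj v g)| ≤ 66; linarith)⟩
  · refine ⟨g, (hv.conj (val_inv g)).nm_le.trans ?_⟩
    simp only [mul_assoc, rf_can, rf_sq, mul_one] at b2
    change 3 * |Dd (cj v g)| ≤ 66
    linarith

end Pool.Agent.P.MP_ab0431_ag.T

end

section

/-! Step LAT. -/


namespace Pool.Agent.P.MP_ab0431_ag.T

open Set Filter Topology Metric

namespace LATa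

theorem s1 : (1 : ℝ) ≤ √3 := Real.one_le_sqrt.2 (by norm_num)

theorem s2 : √3 ≤ (2 : ℝ) := Real.sqrt_le_iff.2 ⟨by norm_num, by norm_num⟩

theorem abs_le_mul (t : ℝ) : |t| ≤ |t * √3| := by
  rw [abs_mul, abs_of_nonneg (Real.sqrt_nonneg 3)]
  exact le_mul_of_one_le_right (abs_nonneg t) s1

theorem nm_nonneg (x : M2) : 0 ≤ nm x := by
  unfold nm
  positivity

theorem coord (a b c d : ℤ) :
    |(a : ℝ)| ≤ nm (om a b c d) ∧ |(b : ℝ)| ≤ nm (om a b c d) ∧ |(c : ℝ)| ≤ nm (om a b c d) ∧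
      |(d : ℝ)| ≤ nm (om a b c d) := by
  have hd := abs_le_mul (d : ℝ)
  have hc := abs_le_mul (2 * c + d : ℝ)
  have e1 : (d : ℝ) * √3 = om a b c d 0 1 + om a b c d 1 0 := by simp [om]; ring
  have e2 : (2 * c + d : ℝ) * √3 = om a b c d 0 0 - om a b c d 1 1 := by simp [om]; ring
  have e3 : (2 * a + d : ℝ) = om a b c d 0 0 + om a b c d 1 1 := by simp [om]; ring
  have e4 : (2 * b + d : ℝ) = om a b c d 0 1 - om a b c d 1 0 := by simp [om]; ring
  rw [e1] at hd
  rw [e2] at hc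
  unfold nm
  generalize om a b c d 0 0 = p at *
  generalize om a b c d 0 1 = q at *
  generalize om a b c d 1 0 = r at *
  generalize om a b c d 1 1 = s at *
  have h1 := abs_add_le q r
  have h2 := abs_sub p s
  have := abs_le.1 (hd.trans h1)
  have := abs_le.1 (hc.trans h2)
  have := neg_abs_le p
  have := neg_abs_le q
  have := neg_abs_le r
  have := neg_abs_le s
  have := le_abs_self p
  have := le_abs_self q
  have := le_abs_self r
  have := le_abs_self s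
  refine ⟨abs_le.2 ⟨?_, ?_⟩, abs_le.2 ⟨?_, ?_⟩, abs_le.2 ⟨?_, ?_⟩, abs_le.2 ⟨?_, ?_⟩⟩ <;> linarith

/-- The weight of one coordinate. -/
noncomputable def f (n : ℤ) : ℝ := (1 + |(n : ℝ)|) ^ (-(5 / 4) : ℝ)

theorem f_nonneg (n : ℤ) : 0 ≤ f n := Real.rpow_nonneg (by positivity) _

theorem f_sum : Summable f := by
  have h := Real.summable_abs_int_rpow (b := 5 / 4) (by norm_num)
  refine h.of_norm_bounded_eventually ?_
  filter_upwards [eventually_cofinite_ne 0] with n hn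
  rw [Real.norm_of_nonneg (f_nonneg n)]
  have : (0 : ℝ) < |(n : ℝ)| := abs_pos.2 (by exact_mod_cast hn)
  exact Real.rpow_le_rpow_of_nonpos this (by linarith) (by norm_num)

theorem le_f {n : ℤ} {N : ℝ} (h : |(n : ℝ)| ≤ N) : (1 + N) ^ (-(5 / 4) : ℝ) ≤ f n :=
  Real.rpow_le_rpow_of_nonpos (by positivity) (by linarith) (by norm_num)

/-- The parametrisation of the order. -/
noncomputable def ph (p : (ℤ × ℤ) × ℤ × ℤ) : O := ⟨om p.1.1 p.1.2 p.2.1 p.2.2, _, _, _, _, rfl⟩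

theorem ph_surj : Function.Surjective ph := by
  rintro ⟨_, a, b, c, d, rfl⟩
  exact ⟨((a, b), c, d), rfl⟩

theorem sum4 : Summable fun p : (ℤ × ℤ) × ℤ × ℤ => 1 / (1 + nm (ph p).1) ^ 5 := by
  have h2 : Summable fun p : ℤ × ℤ => f p.1 * f p.2 :=
    f_sum.mul_of_nonneg f_sum f_nonneg f_nonneg
  have n2 : (0 : ℤ × ℤ → ℝ) ≤ fun p : ℤ × ℤ => f p.1 * f p.2 := fun p =>
    mul_nonneg (f_nonneg _) (f_nonneg _)
  refine (h2.mul_of_nonneg h2 n2 n2).of_nonneg_of_le (fun p => ?_) fun p => ?_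
  · have := nm_nonneg (ph p).1
    positivity
  · obtain ⟨ha, hb, hc, hd⟩ := coord p.1.1 p.1.2 p.2.1 p.2.2
    change 1 / (1 + nm (om p.1.1 p.1.2 p.2.1 p.2.2)) ^ 5 ≤ _
    have h0 := nm_nonneg (om p.1.1 p.1.2 p.2.1 p.2.2)
    generalize nm (om p.1.1 p.1.2 p.2.1 p.2.2) = N at *
    have hN : 0 < 1 + N := by linarith
    have hu : 0 ≤ (1 + N) ^ (-(5 / 4) : ℝ) := Real.rpow_nonneg hN.le _
    have e : 1 / (1 + N) ^ 5 = (1 + N) ^ (-(5 / 4) : ℝ) * (1 + N) ^ (-(5 / 4) : ℝ) *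
        ((1 + N) ^ (-(5 / 4) : ℝ) * (1 + N) ^ (-(5 / 4) : ℝ)) := by
      rw [← Real.rpow_add hN, ← Real.rpow_add hN, one_div, ← Real.rpow_natCast,
        ← Real.rpow_neg hN.le]
      norm_num
    rw [e]
    exact mul_le_mul (mul_le_mul (le_f ha) (le_f hb) hu (f_nonneg _))
      (mul_le_mul (le_f hc) (le_f hd) hu (f_nonneg _)) (mul_nonneg hu hu)
      (mul_nonneg (f_nonneg _) (f_nonneg _))

theorem sumO : Summable fun x : O => 1 / (1 + nm x.1) ^ 5 := by
  have h := sum4.comp_injective (Function.injective_surjInv ph_surj)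
  refine h.congr fun x => ?_
  simp only [Function.comp, Function.surjInv_eq ph_surj x]

theorem fin (R : ℝ) : {x : O | nm x.1 ≤ R}.Finite := by
  have hp : (0 : ℝ) < 1 / (1 + |R|) ^ 5 := by positivity
  have h := sumO.tendsto_cofinite_zero.eventually (gt_mem_nhds hp)
  refine (eventually_cofinite.1 h).subset fun x hx => not_lt.2 ?_
  have h0 := nm_nonneg x.1
  have h1 : nm x.1 ≤ |R| := le_trans hx (le_abs_self R)
  gcongr

theorem small {u v w : ℝ} (hu : |u| ≤ 1) (hv : |v| ≤ 1) (e : w = u + v * √3) : |w| ≤ 3 := by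
  have h : |v * √3| ≤ 1 * 2 := by
    rw [abs_mul, abs_of_nonneg (Real.sqrt_nonneg 3)]
    exact mul_le_mul hv s2 (Real.sqrt_nonneg 3) zero_le_one
  have := abs_add_le u (v * √3)
  rw [e]
  linarith

theorem cov (x : M2) : ∃ l : O, nm (x + l.1) ≤ 12 := by
  have h3 := s3
  obtain ⟨D, hD⟩ : ∃ D : ℝ, D = -(x 0 1 + x 1 0) * √3 / 3 := ⟨_, rfl⟩
  obtain ⟨A, hA⟩ : ∃ A : ℝ, A = (-(x 0 0 + x 1 1) - D) / 2 := ⟨_, rfl⟩
  obtain ⟨B, hB⟩ : ∃ B : ℝ, B = (-(x 0 1 - x 1 0) - D) / 2 := ⟨_, rfl⟩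
  obtain ⟨C, hC⟩ : ∃ C : ℝ, C = (-(x 0 0 - x 1 1) * √3 / 3 - D) / 2 := ⟨_, rfl⟩
  have a := abs_le.1 (abs_sub_round A)
  have b := abs_le.1 (abs_sub_round B)
  have c := abs_le.1 (abs_sub_round C)
  have d := abs_le.1 (abs_sub_round D)
  refine ⟨ph ((round A, round B), round C, round D), ?_⟩
  change nm (x + om (round A) (round B) (round C) (round D)) ≤ 12
  generalize round A = a' at *
  generalize round B = b' at *
  generalize round C = c' at *
  generalize round D = d' at *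
  have k1 : |(x + om a' b' c' d') 0 0| ≤ 3 :=
    small (u := a' - A + (d' - D) / 2) (v := c' - C + (d' - D) / 2)
      (abs_le.2 ⟨by linarith, by linarith⟩) (abs_le.2 ⟨by linarith, by linarith⟩) (by
        simp [om]
        linear_combination hA + √3 * hC - (x 0 0 - x 1 1) / 6 * h3)
  have k2 : |(x + om a' b' c' d') 0 1| ≤ 3 :=
    small (u := b' - B + (d' - D) / 2) (v := (d' - D) / 2)
      (abs_le.2 ⟨by linarith, by linarith⟩) (abs_le.2 ⟨by linarith, by linarith⟩) (by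
        simp [om]
        linear_combination hB + √3 / 2 * hD - (x 0 1 + x 1 0) / 6 * h3)
  have k3 : |(x + om a' b' c' d') 1 0| ≤ 3 :=
    small (u := -(b' - B + (d' - D) / 2)) (v := (d' - D) / 2)
      (abs_le.2 ⟨by linarith, by linarith⟩) (abs_le.2 ⟨by linarith, by linarith⟩) (by
        simp [om]
        linear_combination -hB + √3 / 2 * hD - (x 0 1 + x 1 0) / 6 * h3)
  have k4 : |(x + om a' b' c' d') 1 1| ≤ 3 :=
    small (u := a' - A + (d' - D) / 2) (v := -(c' - C + (d' - D) / 2))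
      (abs_le.2 ⟨by linarith, by linarith⟩) (abs_le.2 ⟨by linarith, by linarith⟩) (by
        simp [om]
        linear_combination hA - √3 * hC + (x 0 0 - x 1 1) / 6 * h3)
  unfold nm
  linarith

end LATa

theorem p_LAT :
    S_LAT := by
  refine ⟨LATa.sumO, LATa.fin, ⟨12, LATa.cov⟩, ?_⟩
  rintro ⟨_, a, b, c, d, rfl⟩ ⟨_, A, B, C, D, rfl⟩
  refine ⟨2 * a * B + a * D - 2 * b * A - b * D + 3 * c * D - d * A + d * B - 3 * d * C, ?_⟩
  simp [om, Fin.sum_univ_two]
  linear_combination ((c : ℝ) * D - d * C) * s3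

end Pool.Agent.P.MP_ab0431_ag.T

end

section

/-! Step FINP. -/


namespace Pool.Agent.P.MP_ab0431_ag.T

open Set Filter Topology Metric

namespace FINPa

theorem quad (y : M2) (h : y * y + y + 1 = 0) :
    y 0 0 + y 1 1 = -1 ∧ y 0 0 * y 1 1 - y 0 1 * y 1 0 = 1 := by
  have h00 := congrFun (congrFun h 0) 0
  have h01 := congrFun (congrFun h 0) 1
  simp [Matrix.mul_apply, Fin.sum_univ_two] at h00 h01
  have ht : y 0 0 + y 1 1 = -1 := by
    by_contra hne
    have hb : y 0 1 = 0 := by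
      have h2 : y 0 1 * (y 0 0 + y 1 1 + 1) = 0 := by linear_combination h01
      rcases mul_eq_zero.1 h2 with h3 | h3
      · exact h3
      · exact absurd (by linarith) hne
    rw [hb] at h00
    nlinarith [sq_nonneg (2 * y 0 0 + 1)]
  refine ⟨ht, ?_⟩
  linear_combination y 0 0 * ht - h00

theorem cs (T X W T' X' W' : ℝ) (h1 : T ^ 2 = 3 + X ^ 2 + W ^ 2)
    (h2 : T' ^ 2 = 3 + X' ^ 2 + W' ^ 2) (h3 : T * T' - X * X' - W * W' = 9) :
    |T'| ≤ 6 * |T| := by
  have h4 : (X * X' + W * W') ^ 2 ≤ (X ^ 2 + W ^ 2) * (X' ^ 2 + W' ^ 2) := by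
    nlinarith [sq_nonneg (X * W' - W * X')]
  have e1 : X * X' + W * W' = T * T' - 9 := by linarith
  have e2 : X ^ 2 + W ^ 2 = T ^ 2 - 3 := by linarith
  have e3 : X' ^ 2 + W' ^ 2 = T' ^ 2 - 3 := by linarith
  rw [e1, e2, e3] at h4
  have h5 : T' ^ 2 ≤ (6 * T) ^ 2 := by nlinarith [sq_nonneg (T' - 6 * T), sq_nonneg T]
  have := sq_le_sq.1 h5
  rwa [abs_mul, abs_of_pos (by norm_num : (0 : ℝ) < 6)] at this

theorem ent (y : M2) (ht : y 0 0 + y 1 1 = -1) (hd : y 0 0 * y 1 1 - y 0 1 * y 1 0 = 1)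
    (K : ℝ) (h : |y 0 1 - y 1 0| ≤ K) : nm y ≤ 3 * K + 1 := by
  have e : (y 0 1 - y 1 0) ^ 2 = 3 + (2 * y 0 0 + 1) ^ 2 + (y 0 1 + y 1 0) ^ 2 := by
    have : y 1 1 = -1 - y 0 0 := by linarith
    rw [this] at hd
    linear_combination 4 * hd
  have hX : |2 * y 0 0 + 1| ≤ K :=
    (sq_le_sq.1 (by nlinarith [sq_nonneg (y 0 1 + y 1 0)])).trans h
  have hW : |y 0 1 + y 1 0| ≤ K :=
    (sq_le_sq.1 (by nlinarith [sq_nonneg (2 * y 0 0 + 1)])).trans h
  rw [abs_le] at h hX hW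
  have a1 : |y 0 0| ≤ (K + 1) / 2 := abs_le.2 ⟨by linarith, by linarith⟩
  have a2 : |y 1 1| ≤ (K + 1) / 2 := abs_le.2 ⟨by linarith, by linarith⟩
  have a3 : |y 0 1| ≤ K := abs_le.2 ⟨by linarith, by linarith⟩
  have a4 : |y 1 0| ≤ K := abs_le.2 ⟨by linarith, by linarith⟩
  unfold nm
  linarith

theorem key (R : ℝ) (Y Z : M2) (hY : Y * Y + Y + 1 = 0) (hZ : Z * Z + Z + 1 = 0)
    (htr : (Y * Z).trace = -4) (hR : nm ((1 / √3) • (Y + Y + 1)) ≤ R) :
    nm Y ≤ 18 * R + 1 ∧ nm Z ≤ 18 * R + 1 := by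
  obtain ⟨t1, d1⟩ := quad Y hY
  obtain ⟨t2, d2⟩ := quad Z hZ
  have h3 : (0 : ℝ) < √3 := Real.sqrt_pos.2 (by norm_num)
  have h32 : √3 ≤ (2 : ℝ) := by nlinarith [s3]
  have hab : ∀ x : ℝ, |x| ≤ |1 / √3 * (x + x)| := by
    intro x
    rw [← two_mul, abs_mul, abs_mul, abs_of_pos (one_div_pos.2 h3), abs_two, ← mul_assoc]
    refine le_mul_of_one_le_left (abs_nonneg _) ?_
    rw [one_div, inv_mul_eq_div, le_div_iff₀ h3]
    linarith
  have hT : |Y 0 1 - Y 1 0| ≤ R := by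
    have b1 := hab (Y 0 1)
    have b2 := hab (Y 1 0)
    have b3 := abs_sub (Y 0 1) (Y 1 0)
    unfold nm at hR
    simp only [Matrix.smul_apply, Matrix.add_apply, smul_eq_mul, Matrix.one_apply_ne
      (show (0 : Fin 2) ≠ 1 by decide), Matrix.one_apply_ne (show (1 : Fin 2) ≠ 0 by decide),
      add_zero] at hR
    linarith [abs_nonneg (1 / √3 * (Y 0 0 + Y 0 0 + (1 : M2) 0 0)),
      abs_nonneg (1 / √3 * (Y 1 1 + Y 1 1 + (1 : M2) 1 1))]
  have hR0 : 0 ≤ R := (abs_nonneg _).trans hT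
  have e1 : Y 1 1 = -1 - Y 0 0 := by linarith
  have e2 : Z 1 1 = -1 - Z 0 0 := by linarith
  have hT' : |Z 0 1 - Z 1 0| ≤ 6 * |Y 0 1 - Y 1 0| := by
    simp only [Matrix.trace_fin_two, Matrix.mul_apply, Fin.sum_univ_two] at htr
    rw [e1] at d1 htr
    rw [e2] at d2 htr
    exact cs _ (2 * Y 0 0 + 1) (Y 0 1 + Y 1 0) _ (2 * Z 0 0 + 1) (Z 0 1 + Z 1 0)
      (by linear_combination 4 * d1) (by linear_combination 4 * d2)
      (by linear_combination (-2) * htr)
  have := ent Y t1 d1 R hT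
  have := ent Z t2 d2 (6 * R) (by linarith)
  constructor <;> linarith

end FINPa

theorem p_FINP (hCOC : S_COC) (hLAT : S_LAT) :
    S_FINP := by
  obtain ⟨R, hR⟩ := hCOC
  refine ⟨{x : O | nm x.1 ≤ 18 * R + 1} ×ˢ {x : O | nm x.1 ≤ 18 * R + 1},
    (hLAT.2.1 _).prod (hLAT.2.1 _), fun y z hy hz htr => ?_⟩
  have hy' : y.1 * y.1 + y.1 + 1 = 0 := congrArg (fun x : O => x.1) hy
  obtain ⟨t1, d1⟩ := FINPa.quad y.1 hy'
  have h3 : (0 : ℝ) < √3 := Real.sqrt_pos.2 (by norm_num)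
  obtain ⟨g, hg⟩ := hR ((1 / √3) • (y.1 + y.1 + 1))
    (by
      simp only [Matrix.trace_fin_two, Matrix.smul_apply, Matrix.add_apply, smul_eq_mul,
        Matrix.one_apply_eq]
      linear_combination (2 / √3) * t1)
    (by
      rw [Matrix.det_smul, Matrix.det_fin_two]
      simp only [Matrix.add_apply, Matrix.one_apply_eq, Matrix.one_apply_ne
        (show (0 : Fin 2) ≠ 1 by decide), Matrix.one_apply_ne (show (1 : Fin 2) ≠ 0 by decide),
        Fintype.card_fin]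
      have e : (1 / √3) ^ 2 = (1 / 3 : ℝ) := by
        rw [div_pow, Real.sq_sqrt (by norm_num)]
        norm_num
      rw [e]
      linear_combination (4 / 3) * d1 + (2 / 3) * t1)
  have gi : toO g * toO g⁻¹ = 1 := by rw [← map_mul, mul_inv_cancel, map_one]
  have ig : toO g⁻¹ * toO g = 1 := by rw [← map_mul, inv_mul_cancel, map_one]
  have cm : ∀ a b : O, toO g * a * toO g⁻¹ * (toO g * b * toO g⁻¹) = toO g * (a * b) * toO g⁻¹ := by
    intro a b
    calc _ = toO g * a * (toO g⁻¹ * toO g) * b * toO g⁻¹ := by simp only [mul_assoc]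
      _ = _ := by rw [ig]; simp only [mul_assoc, one_mul]
  have cq : ∀ a : O, a * a + a + 1 = 0 → (toO g * a * toO g⁻¹).1 * (toO g * a * toO g⁻¹).1 +
      (toO g * a * toO g⁻¹).1 + 1 = 0 := by
    intro a ha
    have : toO g * a * toO g⁻¹ * (toO g * a * toO g⁻¹) + toO g * a * toO g⁻¹ + 1 = 0 := by
      calc _ = toO g * (a * a + a + 1) * toO g⁻¹ := by
            rw [cm, mul_add, mul_add, add_mul, add_mul, mul_one, gi]
        _ = 0 := by rw [ha, mul_zero, zero_mul]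
    exact congrArg (fun x : O => x.1) this
  have gi' : g.1.1 * (g⁻¹).1.1 = 1 := congrArg (fun x : O => x.1) gi
  have ig' : (g⁻¹).1.1 * g.1.1 = 1 := congrArg (fun x : O => x.1) ig
  refine ⟨g, FINPa.key R _ _ (cq y hy) (cq z hz) ?_ ?_⟩
  · have e : (toO g * y * toO g⁻¹).1 * (toO g * z * toO g⁻¹).1 =
        g.1.1 * (y * z).1 * (g⁻¹).1.1 := congrArg (fun x : O => x.1) (cm y z)
    rw [e, Matrix.trace_mul_comm, ← mul_assoc, ig', one_mul, htr]
  · have e : (toO g * y * toO g⁻¹).1 = g.1.1 * y.1 * (g⁻¹).1.1 := rfl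
    rw [e]
    rwa [Matrix.mul_smul, Matrix.smul_mul, mul_add, mul_add, add_mul, add_mul, mul_one, gi'] at hg

end Pool.Agent.P.MP_ab0431_ag.T

end

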