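import Pool.Agent.P.MP_ab0431_ag.B.Arith

section

/-! Step ESTA. -/


namespace Pool.Agent.P.MP_ab0431_ag.T

open Set Filter Topology Metric

namespace ESTAa

theorem pq {m M : ℝ} {τ : ℂ} (hm : 0 < m) (h1 : m ≤ τ.im) (h2 : ‖τ‖ ≤ M) (p q : ℝ) :
    |p| + |q| ≤ (1 + (1 + M) / m) * ‖(p : ℂ) * τ + q‖ := by
  have a : |p| * m ≤ ‖(p : ℂ) * τ + q‖ := by
    refine le_trans ?_ (Complex.abs_im_le_norm _)
    simp only [Complex.add_im, Complex.mul_im, Complex.ofReal_re, Complex.ofReal_im, zero_mul,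
      add_zero, abs_mul]
    exact mul_le_mul_of_nonneg_left (h1.trans (le_abs_self _)) (abs_nonneg _)
  have b : |q| ≤ ‖(p : ℂ) * τ + q‖ + |p| * M := by
    have : ‖(q : ℂ)‖ ≤ ‖(p : ℂ) * τ + q‖ + ‖(p : ℂ) * τ‖ := by
      simpa using norm_sub_le ((p : ℂ) * τ + q) (p * τ)
    rw [norm_mul, Complex.norm_real, Complex.norm_real, Real.norm_eq_abs, Real.norm_eq_abs] at this
    nlinarith [abs_nonneg p]
  have M0 : 0 ≤ 1 + M := by linarith [norm_nonneg τ]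
  have c : |p| ≤ ‖(p : ℂ) * τ + q‖ / m := (le_div_iff₀ hm).2 a
  have := mul_le_mul_of_nonneg_left c M0
  calc _ ≤ ‖(p : ℂ) * τ + q‖ + (1 + M) * (‖(p : ℂ) * τ + q‖ / m) := by nlinarith
    _ = _ := by ring

theorem ex {κ s t : ℝ} (hκ : 0 < κ) :
    Real.exp (-(κ * (s ^ 2 + t ^ 2))) * (s + t) ≤ 1 + 1 / κ := by
  have u0 : 0 ≤ κ * (s ^ 2 + t ^ 2) := by positivity
  have e1 := Real.add_one_le_exp (κ * (s ^ 2 + t ^ 2))
  rw [Real.exp_neg, inv_mul_le_iff₀ (Real.exp_pos _)]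
  have k1 : 0 < 1 / κ := by positivity
  have e2 : κ * (s ^ 2 + t ^ 2) * (1 / κ) = s ^ 2 + t ^ 2 := by field_simp
  have := mul_le_mul_of_nonneg_right e1 (by positivity : 0 ≤ 1 + 1 / κ)
  nlinarith [sq_nonneg (s - 1), sq_nonneg (t - 1), sq_nonneg s, sq_nonneg t]

theorem key {ρ R α κ s t a b c N : ℝ} (hκ : 0 < κ) (ρ0 : 0 ≤ ρ) (hR : ρ ≤ R) (hα : ρ ≤ α)
    (α0 : 0 < α) (a0 : 0 ≤ a) (b0 : 0 ≤ b) (c0 : 0 ≤ c) (h : N ≤ a + b * α + c * (s + t)) :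
    2 * ρ / α * Real.exp (-(κ * (s ^ 2 / α ^ 2 + t ^ 2 / α ^ 2))) * N ≤
      2 * a + 2 * R * b + 2 * R * c * (1 + 1 / κ) := by
  rw [← div_pow, ← div_pow]
  have e := ex (s := s / α) (t := t / α) hκ
  have E1 : Real.exp (-(κ * ((s / α) ^ 2 + (t / α) ^ 2))) ≤ 1 :=
    Real.exp_le_one_iff.2 (neg_nonpos.2 (by positivity))
  have E0 := Real.exp_pos (-(κ * ((s / α) ^ 2 + (t / α) ^ 2)))
  generalize Real.exp (-(κ * ((s / α) ^ 2 + (t / α) ^ 2))) = E at e E1 E0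
  have r1 : ρ / α ≤ 1 := (div_le_one α0).2 hα
  have R0 : 0 ≤ R := ρ0.trans hR
  calc _ ≤ 2 * ρ / α * E * (a + b * α + c * (s + t)) := by gcongr
    _ = 2 * (ρ / α * E * a) + 2 * (ρ * E * b) + 2 * ρ * c * (E * (s / α + t / α)) := by
      field_simp
    _ ≤ 2 * (1 * 1 * a) + 2 * (R * 1 * b) + 2 * ρ * c * (1 + 1 / κ) := by gcongr
    _ ≤ 2 * (1 * 1 * a) + 2 * (R * 1 * b) + 2 * R * c * (1 + 1 / κ) := by gcongr
    _ = _ := by ring

end ESTAa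

open ESTAa in
theorem p_ESTA (hACT : S_ACT) :
    S_ESTA := by
  intro τ₀ x K h0 hK hO
  rcases K.eq_empty_or_nonempty with rfl | hne
  · exact ⟨0, fun _ _ _ _ h => h.elim⟩
  obtain ⟨w₀, hw₀, hm⟩ := hK.exists_isMinOn hne
    (f := fun w : V => w.1.im) (by fun_prop)
  obtain ⟨M, hM⟩ := hK.isBounded.exists_norm_le
  have m0 : 0 < w₀.1.im := hO hw₀
  have M0 : 0 ≤ M := (norm_nonneg _).trans (hM _ hw₀)
  set c := 1 + (1 + M) / w₀.1.im with hc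
  set e := 1 + (‖τ₀‖ + 1) / τ₀.im with he
  have x0 : 0 ≤ nm x := by unfold nm; positivity
  have c0 : 0 ≤ c := by positivity
  have e0 : 0 ≤ e := by positivity
  refine ⟨2 * (1 + c * (2 * M)) + 2 * √(M * τ₀.im) * (c * ((1 + nm x) * e)) +
    2 * √(M * τ₀.im) * c * (1 + 1 / (2 * Real.pi * τ₀.im)), fun l γ hγ w hw => ?_⟩
  obtain ⟨j0, him, -, -, hT⟩ := (hACT.2 l γ hγ).2 w (hO hw)
  have hT := (hT x 1).2.1
  have y0 : 0 < w.1.im := hO hw
  have τM : ‖w.1‖ ≤ M := (norm_fst_le w).trans (hM w hw)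
  have zM : ∀ r, ‖w.2 r‖ ≤ M := fun r =>
    ((norm_le_pi_norm w.2 r).trans (norm_snd_le w)).trans (hM w hw)
  have P := pq m0 (hm hw) τM
  rw [← hc] at P
  have J0 : 0 < ‖dn γ w.1‖ := norm_pos_iff.2 j0
  set n : ℂ := γ 0 0 * w.1 + γ 0 1 with hn
  have hA : (actM l γ w).1 - (starRingEnd ℂ) τ₀ =
      (n - (starRingEnd ℂ) τ₀ * dn γ w.1) / dn γ w.1 := by
    change n / dn γ w.1 - _ = _
    field_simp
  have hI : w.1.im / ‖dn γ w.1‖ ^ 2 + τ₀.im ≤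
      ‖n - (starRingEnd ℂ) τ₀ * dn γ w.1‖ / ‖dn γ w.1‖ := by
    rw [← norm_div, ← hA, ← him]
    simpa using Complex.im_le_norm ((actM l γ w).1 - (starRingEnd ℂ) τ₀)
  have hn' : ‖n‖ ≤ ‖n - (starRingEnd ℂ) τ₀ * dn γ w.1‖ + ‖τ₀‖ * ‖dn γ w.1‖ := by
    simpa using norm_add_le (n - (starRingEnd ℂ) τ₀ * dn γ w.1) ((starRingEnd ℂ) τ₀ * dn γ w.1)
  have hb : bd τ₀ x (actM l γ w) = 2 * √(w.1.im * τ₀.im) / ‖n - (starRingEnd ℂ) τ₀ * dn γ w.1‖ *
      Real.exp (-(2 * Real.pi * τ₀.im *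
        (‖tr (l + x * γ) w 0‖ ^ 2 / ‖n - (starRingEnd ℂ) τ₀ * dn γ w.1‖ ^ 2 +
          ‖tr (l + x * γ) w 1‖ ^ 2 / ‖n - (starRingEnd ℂ) τ₀ * dn γ w.1‖ ^ 2))) := by
    have s : √(w.1.im / ‖dn γ w.1‖ ^ 2 * τ₀.im) = √(w.1.im * τ₀.im) / ‖dn γ w.1‖ := by
      rw [div_mul_eq_mul_div, Real.sqrt_div' _ (sq_nonneg _), Real.sqrt_sq J0.le]
    simp only [bd, uu, Fin.sum_univ_two, hT, hA, him, s, norm_div, div_pow]
    rw [div_div_div_cancel_right₀ (pow_ne_zero 2 J0.ne'),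
      div_div_div_cancel_right₀ (pow_ne_zero 2 J0.ne'), ← mul_div_assoc,
      div_div_div_cancel_right₀ J0.ne']
  have hl : ∀ r, ‖(l r 0 : ℂ) * w.1 + l r 1‖ ≤
      ‖tr (l + x * γ) w r‖ + M + (|x r 0| * ‖n‖ + |x r 1| * ‖dn γ w.1‖) := fun r => by
    have : (l r 0 : ℂ) * w.1 + l r 1 =
        tr (l + x * γ) w r - w.2 r - (x r 0 * n + x r 1 * dn γ w.1) := by
      simp only [tr, dn, hn, Matrix.add_apply, Matrix.mul_apply, Fin.sum_univ_two]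
      push_cast
      ring
    rw [this]
    refine (norm_sub_le _ _).trans (add_le_add ((norm_sub_le _ _).trans ?_)
      ((norm_add_le _ _).trans ?_))
    · linarith [zM r]
    · simp
  have hg : nm γ ≤ c * (‖n‖ + ‖dn γ w.1‖) := by
    have := add_le_add (P (γ 0 0) (γ 0 1)) (P (γ 1 0) (γ 1 1))
    unfold nm dn
    linarith
  have hL : nm l ≤ c * (‖(l 0 0 : ℂ) * w.1 + l 0 1‖ + ‖(l 1 0 : ℂ) * w.1 + l 1 1‖) := by
    have := add_le_add (P (l 0 0) (l 0 1)) (P (l 1 0) (l 1 1))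
    unfold nm
    linarith
  rw [hb]
  have hl0 := hl 0
  have hl1 := hl 1
  have t0 := norm_nonneg (tr (l + x * γ) w 0)
  have t1 := norm_nonneg (tr (l + x * γ) w 1)
  have n0 := norm_nonneg n
  generalize ‖n - (starRingEnd ℂ) τ₀ * dn γ w.1‖ = α at *
  generalize ‖dn γ w.1‖ = J at *
  have a1 : τ₀.im * J ≤ α := (le_div_iff₀ J0).1 (le_trans (le_add_of_nonneg_left (by positivity)) hI)
  have a2 : w.1.im ≤ α * J := by
    have := (le_div_iff₀ J0).1 (le_trans (le_add_of_nonneg_right h0.le) hI)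
    have e : w.1.im / J ^ 2 * J = w.1.im / J := by field_simp
    rwa [e, div_le_iff₀ J0] at this
  have α0 : 0 < α := lt_of_lt_of_le (by positivity) a1
  have a3 : √(w.1.im * τ₀.im) ≤ α := Real.sqrt_le_iff.2 ⟨α0.le, by nlinarith⟩
  have a4 : √(w.1.im * τ₀.im) ≤ √(M * τ₀.im) := Real.sqrt_le_sqrt
    (mul_le_mul_of_nonneg_right ((Complex.im_le_norm _).trans τM) h0.le)
  have a5 : ‖n‖ + J ≤ e * α := by
    have : J ≤ α / τ₀.im := (le_div_iff₀' h0).2 a1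
    calc _ ≤ α + (‖τ₀‖ + 1) * J := by linarith
      _ ≤ α + (‖τ₀‖ + 1) * (α / τ₀.im) := by gcongr
      _ = _ := by rw [he]; ring
  have a6 : |x 0 0| * ‖n‖ + |x 0 1| * J + (|x 1 0| * ‖n‖ + |x 1 1| * J) ≤ nm x * (e * α) := by
    have b1 : ‖n‖ ≤ e * α := by linarith
    have b2 : J ≤ e * α := by linarith
    calc _ ≤ |x 0 0| * (e * α) + |x 0 1| * (e * α) + (|x 1 0| * (e * α) + |x 1 1| * (e * α)) := by
          gcongr
      _ = _ := by unfold nm; ring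
  have b0 : 0 ≤ e * α := by positivity
  have b1 : 0 ≤ nm x * (e * α) := by positivity
  refine ⟨key (by positivity) (Real.sqrt_nonneg _) a4 a3 α0 (by positivity) (by positivity) c0 ?_,
    key (by positivity) (Real.sqrt_nonneg _) a4 a3 α0 (by positivity) (by positivity) c0 ?_⟩
  · have : c * (‖n‖ + J) ≤ c * (2 * M + (e * α + nm x * (e * α)) +
        (‖tr (l + x * γ) w 0‖ + ‖tr (l + x * γ) w 1‖)) :=
      mul_le_mul_of_nonneg_left (by linarith) c0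
    linarith
  · have : c * (‖(l 0 0 : ℂ) * w.1 + l 0 1‖ + ‖(l 1 0 : ℂ) * w.1 + l 1 1‖) ≤
        c * (2 * M + (e * α + nm x * (e * α)) +
        (‖tr (l + x * γ) w 0‖ + ‖tr (l + x * γ) w 1‖)) :=
      mul_le_mul_of_nonneg_left (by linarith) c0
    linarith

end Pool.Agent.P.MP_ab0431_ag.T

end

section

/-! Step ESTB. -/


namespace Pool.Agent.P.MP_ab0431_ag.T

open Set Filter Topology Metric

namespace ESTBa

theorem lin (a b : ℝ) (τ : ℂ) {M : ℝ} (h : ‖τ‖ ≤ M) :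
    ‖(a : ℂ) * τ + b‖ ≤ |a| * M + |b| := by
  refine (norm_add_le _ _).trans ?_
  rw [norm_mul, Complex.norm_real, Complex.norm_real, Real.norm_eq_abs, Real.norm_eq_abs]
  gcongr

theorem low (γ : M2) (hγ : γ.det = 1) (τ : ℂ) {m M : ℝ} (hm : 0 < m) (h1 : m ≤ τ.im)
    (h2 : ‖τ‖ ≤ M) : 1 ≤ nm γ * (1 + (1 + M) / m) * ‖dn γ τ‖ := by
  have hM : 0 ≤ M := (norm_nonneg _).trans h2
  have hc : |γ 1 0| * m ≤ ‖dn γ τ‖ := by
    refine le_trans ?_ (Complex.abs_im_le_norm _)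
    have : (dn γ τ).im = γ 1 0 * τ.im := by simp [dn]
    rw [this, abs_mul, abs_of_pos (hm.trans_le h1)]
    gcongr
  have hc' : |γ 1 0| ≤ ‖dn γ τ‖ / m := (le_div_iff₀ hm).2 hc
  have hd : |γ 1 1| ≤ ‖dn γ τ‖ + |γ 1 0| * M := by
    have e : ((γ 1 1 : ℝ) : ℂ) = dn γ τ - γ 1 0 * τ := by simp [dn]
    have := norm_sub_le (dn γ τ) (γ 1 0 * τ)
    rw [← e, norm_mul, Complex.norm_real, Complex.norm_real, Real.norm_eq_abs,
      Real.norm_eq_abs] at this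
    exact this.trans (by gcongr)
  have hs : |γ 1 0| + |γ 1 1| ≤ (1 + (1 + M) / m) * ‖dn γ τ‖ := by
    have : |γ 1 0| * (1 + M) ≤ ‖dn γ τ‖ / m * (1 + M) := by gcongr
    calc _ ≤ ‖dn γ τ‖ + |γ 1 0| * (1 + M) := by linarith
      _ ≤ ‖dn γ τ‖ + ‖dn γ τ‖ / m * (1 + M) := by linarith
      _ = _ := by ring
  rw [Matrix.det_fin_two] at hγ
  have a0 := abs_nonneg (γ 0 0)
  have a1 := abs_nonneg (γ 0 1)
  have a2 := abs_nonneg (γ 1 0)
  have a3 := abs_nonneg (γ 1 1)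
  have h3 : 1 ≤ nm γ * (|γ 1 0| + |γ 1 1|) := by
    have b1 := le_abs_self (γ 0 0 * γ 1 1)
    have b2 := neg_le_abs (γ 0 1 * γ 1 0)
    rw [abs_mul] at b1 b2
    unfold nm
    nlinarith [mul_nonneg a0 a2, mul_nonneg a1 a3, mul_nonneg a2 a2, mul_nonneg a2 a3,
      mul_nonneg a3 a3]
  have hn : 0 ≤ nm γ := by unfold nm; positivity
  rw [mul_assoc]
  exact h3.trans (mul_le_mul_of_nonneg_left hs hn)

theorem quo {z j : ℂ} {A B : ℝ} (hz : ‖z‖ ≤ A) (hj : 1 ≤ B * ‖j‖) :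
    ‖z / j‖ ≤ A * B := by
  have h0 : 0 < ‖j‖ := by
    rcases (norm_nonneg j).lt_or_eq with h | h
    · exact h
    · rw [← h] at hj; linarith
  have hA : 0 ≤ A := (norm_nonneg _).trans hz
  rw [norm_div, div_le_iff₀ h0, mul_assoc]
  exact hz.trans (le_mul_of_one_le_right hA hj)

end ESTBa

open ESTBa in
theorem p_ESTB :
    S_ESTB := by
  intro K hK hO
  obtain ⟨m, hm, h1⟩ : ∃ m : ℝ, 0 < m ∧ ∀ w ∈ K, m ≤ w.1.im := by
    rcases K.eq_empty_or_nonempty with rfl | hne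
    · exact ⟨1, one_pos, by simp⟩
    · obtain ⟨w, hw, h⟩ := hK.exists_isMinOn hne (f := fun w : V => w.1.im) (by fun_prop)
      exact ⟨_, hO hw, fun x hx => h hx⟩
  obtain ⟨M, hM, h2⟩ := hK.isBounded.exists_pos_norm_le
  refine ⟨1 + (1 + M) * (1 + (1 + M) / m), fun l γ hγ w hw => ?_⟩
  have hw1 : ‖w.1‖ ≤ M := (norm_fst_le w).trans (h2 w hw)
  have hw2 : ∀ r, ‖w.2 r‖ ≤ M := fun r =>
    (norm_le_pi_norm w.2 r).trans ((norm_snd_le w).trans (h2 w hw))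
  have hn : 0 ≤ nm γ := by unfold nm; positivity
  have hl : 0 ≤ nm l := by unfold nm; positivity
  have hC : 0 ≤ 1 + (1 + M) / m := by positivity
  have hj := low γ hγ w.1 hm (h1 w hw) hw1
  set X := (1 + nm γ) * (1 + nm l) with hX
  have x1 : 1 + nm γ ≤ X := le_mul_of_one_le_right (by linarith) (by linarith)
  have x2 : 1 + nm l ≤ X := le_mul_of_one_le_left (by linarith) (by linarith)
  have key : ∀ z : ℂ, ‖z‖ ≤ (1 + M) * X →
      ‖z / dn γ w.1‖ ≤ (1 + M) * (1 + (1 + M) / m) * X ^ 2 := fun z hz => by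
    refine (quo hz hj).trans ?_
    have : nm γ ≤ X := by linarith
    calc _ ≤ (1 + M) * X * (X * (1 + (1 + M) / m)) := by gcongr
      _ = _ := by ring
  have row : ∀ (x : M2) (r : Fin 2), |x r 0| + |x r 1| ≤ nm x := fun x r => by
    unfold nm
    fin_cases r <;> simp <;> linarith [abs_nonneg (x 0 0), abs_nonneg (x 0 1), abs_nonneg (x 1 0),
      abs_nonneg (x 1 1)]
  have rw2 : ∀ (x : M2) (r : Fin 2), |x r 0| * M + |x r 1| ≤ (1 + M) * nm x := fun x r => by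
    nlinarith [row x r, abs_nonneg (x r 0), abs_nonneg (x r 1)]
  have hb : ‖actM l γ w‖ ≤ (1 + M) * (1 + (1 + M) / m) * X ^ 2 := by
    rw [Prod.norm_def]
    refine max_le (key _ ?_) ((pi_norm_le_iff_of_nonneg (by positivity)).2 fun r => key _ ?_)
    · refine ((lin _ _ _ hw1).trans (rw2 γ 0)).trans ?_
      gcongr
      linarith
    · unfold tr
      rw [add_assoc]
      refine (norm_add_le _ _).trans ?_
      have := (lin (l r 0) (l r 1) _ hw1).trans (rw2 l r)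
      have h5 : (1 + M) * (1 + nm l) ≤ (1 + M) * X := by gcongr
      nlinarith [hw2 r]
  have : 1 ≤ X ^ 2 := one_le_pow₀ (by linarith)
  nlinarith

end Pool.Agent.P.MP_ab0431_ag.T

end

section

/-! Step DAT. -/


namespace Pool.Agent.P.MP_ab0431_ag.T

open Set Filter Topology Metric

namespace DATa

theorem det1 (p : Jac) : (p.g.1.1 : M2).det = 1 := p.g.1.2

theorem nm_pos (x : M2) : 0 < 1 + nm x := by
  unfold nm
  positivity

theorem est {P b x y C D E : ℝ} (hP : 0 ≤ P) (hb : P ≤ b) (hx : 0 < x) (hy : 0 < y)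
    (h1 : b * x ≤ C) (h2 : b * y ≤ C) (hE : 0 ≤ E) (h3 : E ≤ D * (x * y) ^ 2) :
    P ^ 14 * E ≤ C ^ 14 * D * (1 / x ^ 5 * (1 / y ^ 5)) := by
  have a1 : P ≤ C / x := hb.trans ((le_div_iff₀ hx).2 h1)
  have a2 : P ≤ C / y := hb.trans ((le_div_iff₀ hy).2 h2)
  have b1 : 0 ≤ C / x := hP.trans a1
  have b2 : 0 ≤ C / y := hP.trans a2
  calc P ^ 14 * E = P ^ 7 * P ^ 7 * E := by ring
    _ ≤ (C / x) ^ 7 * (C / y) ^ 7 * (D * (x * y) ^ 2) := by gcongr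
    _ = _ := by field_simp

theorem summ_aux {α β : Type} {f : α → ℝ} (hf : Summable f) (h0 : ∀ x, 0 ≤ f x) (u v : β → α)
    (hi : ∀ p q, u p = u q → v p = v q → p = q) : Summable fun p => f (u p) * f (v p) :=
  (hf.mul_of_nonneg hf h0 h0).comp_injective (i := fun p => (u p, v p)) fun p q e =>
    hi p q (congrArg Prod.fst e) (congrArg Prod.snd e)

theorem summ (hLAT : S_LAT) :
    Summable fun p : Jac => 1 / (1 + nm (toO p.g).1) ^ 5 * (1 / (1 + nm p.l.1) ^ 5) :=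
  summ_aux (f := fun x : O => 1 / (1 + nm x.1) ^ 5) hLAT.1
    (fun x => (one_div_pos.2 (pow_pos (nm_pos x.1) 5)).le) (fun p : Jac => toO p.g)
    (fun p => p.l) fun _ _ e e' => Jac.ext e' (toO_inj e)

/-- The action of the Jacobi group. -/
noncomputable def act (hACT : S_ACT) (hCC : S_CC) : Act Jac where
  Ω := Om
  a := actJ
  op := isOpen_lt continuous_const (by fun_prop)
  cvx := (convex_halfSpace_im_gt 0).linear_preimage (LinearMap.fst ℝ ℂ C2)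
  ne := ⟨(Complex.I, 0), by simp [Om]⟩
  maps p w hw := ((hACT.2 _ _ (det1 p)).2 w hw).2.2.1
  one w _ := hACT.1 w
  mul p q w hw := (((hACT.2 q.l.1 _ (det1 q)).2 w hw).2.2.2.2 p.l.1 p.g.1.1).2.2 (det1 p)
  hol p := (hACT.2 _ _ (det1 p)).1
  cc := hCC

end DATa

open DATa in
theorem p_DAT (hACT : S_ACT) (hJCO : S_JCO) (hLEVI : S_LEVI) (hPEAK : S_PEAK) (hESTA : S_ESTA) (hESTB : S_ESTB) (hLAT : S_LAT) (hCC : S_CC) (hFIX : S_FIX) (hTF : S_TF) :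
    S_DAT := by
  refine ⟨{ act hACT hCC with
    J := JJ
    Φ := PhiM
    ρ := fun w => w.1.im ^ 2
    pk := ⟨fun p => (hJCO _ _ (det1 p)).1, fun p q w hw => ?_,
      (hLEVI.1.continuousOn.neg).rexp, fun _ _ => Real.exp_pos _,
      fun p w hw => ((hJCO _ _ (det1 p)).2 w hw).1, fun w₀ hw₀ => ?_⟩
    wpk := ⟨Continuous.continuousOn (by fun_prop), fun w hw => pow_pos hw 2, fun p w hw => ?_,
      fun w₀ hw₀ => (hPEAK w₀ hw₀).2⟩
    sm := hLEVI.1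
    psh := hLEVI.2
    fix := hFIX
    tf := hTF }⟩
  · exact ((hJCO q.l.1 _ (det1 q)).2 w hw).2 p.l.1 p.g.1.1 (det1 p)
      (hLAT.2.2.2 (p.l * toO q.g) q.l)
  · obtain ⟨x, f, h1, h2, h3⟩ := (hPEAK w₀ hw₀).1
    refine ⟨f, 14, h1, h2, fun w hw hne => ((h3 w hw).1).trans_lt ((h3 w hw).2 hne),
      fun K hK hKO => ?_⟩
    obtain ⟨C, hC⟩ := hESTA w₀.1 x K hw₀ hK hKO
    obtain ⟨D, hD⟩ := hESTB K hK hKO
    refine ⟨_, (summ hLAT).mul_left (C ^ 14 * D), fun p w hw => ?_⟩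
    have hm : actM p.l.1 p.g.1.1 w ∈ Om := ((hACT.2 _ _ (det1 p)).2 w (hKO hw)).2.2.1
    exact est (mul_nonneg (norm_nonneg _) (Real.exp_pos _).le) (h3 _ hm).1 (nm_pos _) (nm_pos _)
      (hC _ _ (det1 p) w hw).1 (hC _ _ (det1 p) w hw).2 (by positivity) (hD _ _ (det1 p) w hw)
  · obtain ⟨h0, h1, -, h2, -⟩ := (hACT.2 p.l.1 _ (det1 p)).2 w hw
    change (actM p.l.1 p.g.1.1 w).1.im ^ 2 =
      w.1.im ^ 2 * ‖(fderiv ℂ (actM p.l.1 p.g.1.1) w).det‖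
    rw [h1, h2, norm_pow, norm_inv]
    have := norm_ne_zero_iff.2 h0
    field_simp

end Pool.Agent.P.MP_ab0431_ag.T

end

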