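import Pool.Agent.P.MP_ab0431_ag.B.Arith

section

/-! Step ACT. -/


namespace Pool.Agent.P.MP_ab0431_ag.T

open Set Filter Topology Metric

namespace ACTa

theorem detC {γ : M2} (h : γ.det = 1) : (γ 0 0 : ℂ) * γ 1 1 - γ 0 1 * γ 1 0 = 1 := by
  rw [Matrix.det_fin_two] at h
  exact_mod_cast h

theorem dn_ne {γ : M2} (h : γ.det = 1) {τ : ℂ} (hτ : 0 < τ.im) : dn γ τ ≠ 0 := fun e => by
  have h1 := congrArg Complex.im e
  have h2 := congrArg Complex.re e
  simp only [dn, Complex.add_im, Complex.mul_im, Complex.ofReal_re, Complex.ofReal_im, zero_mul,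
    add_zero, Complex.zero_im, Complex.add_re, Complex.mul_re, sub_zero, Complex.zero_re] at h1 h2
  have h3 : γ 1 0 = 0 := (mul_eq_zero.1 h1).resolve_right hτ.ne'
  rw [h3, zero_mul, zero_add] at h2
  rw [Matrix.det_fin_two, h3, h2] at h
  simp at h

theorem im_eq {γ : M2} (h : γ.det = 1) (l : M2) (w : V) :
    (actM l γ w).1.im = w.1.im / ‖dn γ w.1‖ ^ 2 := by
  rw [Matrix.det_fin_two] at h
  rw [actM, Complex.div_im, Complex.sq_norm, ← sub_div]
  congr 1
  simp only [dn, Complex.add_im, Complex.mul_im, Complex.ofReal_re, Complex.ofReal_im, zero_mul,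
    add_zero, Complex.add_re, Complex.mul_re, sub_zero]
  linear_combination w.1.im * h

/-- The derivative of the action. -/
noncomputable def D (j : ℂ) (b : Fin 2 → ℂ) : V →L[ℂ] V :=
  (j ^ 2 • ContinuousLinearMap.fst ℂ ℂ (Fin 2 → ℂ)).prod
    (j • ContinuousLinearMap.snd ℂ ℂ (Fin 2 → ℂ) +
      (ContinuousLinearMap.fst ℂ ℂ (Fin 2 → ℂ)).smulRight b)

theorem D_det (j : ℂ) (b : Fin 2 → ℂ) : (D j b).det = j ^ 4 := by
  have e : LinearMap.toMatrix ((Module.Basis.singleton Unit ℂ).prod (Pi.basisFun ℂ (Fin 2)))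
      ((Module.Basis.singleton Unit ℂ).prod (Pi.basisFun ℂ (Fin 2))) (D j b : V →ₗ[ℂ] V) =
      Matrix.fromBlocks (Matrix.of fun _ _ => j ^ 2) 0 (Matrix.of fun r _ => b r) (j • 1) := by
    ext (r | r) (s | s) <;>
      simp [LinearMap.toMatrix_apply, D, Matrix.one_apply, Pi.single_apply]
  rw [ContinuousLinearMap.det, ← LinearMap.det_toMatrix
    ((Module.Basis.singleton Unit ℂ).prod (Pi.basisFun ℂ (Fin 2))), e, Matrix.det_fromBlocks_zero₁₂]
  simp
  ring

theorem hasD {γ : M2} (h : γ.det = 1) (l : M2) {w : V} (hw : w ∈ Om) :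
    HasFDerivAt (actM l γ) (D (dn γ w.1)⁻¹
      fun r => l r 0 / dn γ w.1 - γ 1 0 * tr l w r / dn γ w.1 ^ 2) w := by
  have hj := dn_ne h hw
  have hc := detC h
  have h0 : HasDerivAt (fun τ => (dn γ τ)⁻¹) (-(γ 1 0 * 1) / dn γ w.1 ^ 2) w.1 :=
    (((hasDerivAt_id' w.1).const_mul (γ 1 0 : ℂ)).add_const (γ 1 1 : ℂ)).fun_inv hj
  have h1 := h0.comp_hasFDerivAt w (hasFDerivAt_fst (𝕜 := ℂ) (p := w))
  have h2 := (((hasFDerivAt_fst (𝕜 := ℂ) (p := w)).const_mul (γ 0 0 : ℂ)).add_const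
    (γ 0 1 : ℂ)).fun_mul h1
  have h3 := fun r : Fin 2 => ((((hasFDerivAt_apply (𝕜 := ℂ) r w.2).comp w
    (hasFDerivAt_snd (𝕜 := ℂ) (p := w))).fun_add
    ((hasFDerivAt_fst (𝕜 := ℂ) (p := w)).const_mul (l r 0 : ℂ))).add_const (l r 1 : ℂ)).fun_mul h1
  refine (h2.prodMk (hasFDerivAt_pi.2 h3)).congr_fderiv ?_
  refine ContinuousLinearMap.ext fun v => Prod.ext ?_ (funext fun r => ?_)
  · simp [D]
    field_simp
    rw [dn]
    linear_combination v.1 * hc
  · simp [D, tr]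
    field_simp
    ring

end ACTa

open ACTa in
theorem p_ACT :
    S_ACT := by
  refine ⟨fun w => Prod.ext (by simp [actM, dn]) (funext fun r => by simp [actM, dn, tr]),
    fun l γ h => ⟨fun w hw => (hasD h l hw).differentiableAt.differentiableWithinAt,
      fun w hw => ?_⟩⟩
  have hj := dn_ne h hw
  have hm : actM l γ w ∈ Om := by
    change 0 < (actM l γ w).1.im
    rw [im_eq h]
    exact div_pos hw (pow_pos (norm_pos_iff.2 hj) 2)
  refine ⟨hj, im_eq h l w, hm, by rw [(hasD h l hw).fderiv, D_det], fun l' γ' => ?_⟩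
  have e1 : dn (γ' * γ) w.1 = dn γ' (actM l γ w).1 * dn γ w.1 := by
    rw [dn, dn, actM, add_mul, mul_assoc, div_mul_cancel₀ _ hj, dn]
    simp only [Matrix.mul_apply, Fin.sum_univ_two]
    push_cast
    ring
  have e2 : ∀ r, tr l' (actM l γ w) r = tr (l + l' * γ) w r / dn γ w.1 := fun r => by
    rw [eq_div_iff hj, tr, actM, add_mul, add_mul, mul_assoc, div_mul_cancel₀ _ hj,
      div_mul_cancel₀ _ hj, tr, tr, dn]
    simp only [Matrix.add_apply, Matrix.mul_apply, Fin.sum_univ_two]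
    push_cast
    ring
  refine ⟨e1, e2, fun h' => Prod.ext ?_ (funext fun r => ?_)⟩
  · change _ / _ = _ / _
    rw [e1, ← mul_div_mul_right ((γ' 0 0 : ℂ) * (actM l γ w).1 + γ' 0 1) _ hj]
    congr 1
    rw [actM, add_mul, mul_assoc, div_mul_cancel₀ _ hj, dn]
    simp only [Matrix.mul_apply, Fin.sum_univ_two]
    push_cast
    ring
  · change _ / _ = _ / _
    rw [e1, e2, div_div, mul_comm]

end Pool.Agent.P.MP_ab0431_ag.T

end

section

/-! Step JCO. -/


namespace Pool.Agent.P.MP_ab0431_ag.T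

open Set Filter Topology Metric

namespace JCOa

/-- The cocycle identity for one row. -/
theorem row (a b c d c' d' l1 l2 m1 m2 τ z : ℂ) (h : a * d - b * c = 1) (hj : c * τ + d ≠ 0)
    (hj' : c' * ((a * τ + b) / (c * τ + d)) + d' ≠ 0) :
    (c' * a + d' * c) * (z + (l1 + (m1 * a + m2 * c)) * τ + (l2 + (m1 * b + m2 * d))) ^ 2 /
        ((c' * ((a * τ + b) / (c * τ + d)) + d') * (c * τ + d)) -
      ((l1 + (m1 * a + m2 * c)) ^ 2 * τ + 2 * (l1 + (m1 * a + m2 * c)) * z +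
        (l1 + (m1 * a + m2 * c)) * (l2 + (m1 * b + m2 * d))) =
    (c' * ((z + l1 * τ + l2) / (c * τ + d) + m1 * ((a * τ + b) / (c * τ + d)) + m2) ^ 2 /
        (c' * ((a * τ + b) / (c * τ + d)) + d') -
      (m1 ^ 2 * ((a * τ + b) / (c * τ + d)) + 2 * m1 * ((z + l1 * τ + l2) / (c * τ + d)) +
        m1 * m2)) +
    (c * (z + l1 * τ + l2) ^ 2 / (c * τ + d) - (l1 ^ 2 * τ + 2 * l1 * z + l1 * l2)) +
    ((m1 * a + m2 * c) * l2 - (m1 * b + m2 * d) * l1) := by
  obtain ⟨j, ej⟩ : ∃ j, j = c * τ + d := ⟨_, rfl⟩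
  rw [← ej] at hj hj' ⊢
  obtain ⟨t, et⟩ : ∃ t, t = (a * τ + b) / j := ⟨_, rfl⟩
  rw [← et] at hj' ⊢
  have et' : t * j = a * τ + b := by rw [et, div_mul_cancel₀ _ hj]
  obtain ⟨k, ek⟩ : ∃ k, k = c' * t + d' := ⟨_, rfl⟩
  rw [← ek] at hj' ⊢
  obtain ⟨y, ey⟩ : ∃ y, y = (z + l1 * τ + l2) / j := ⟨_, rfl⟩
  rw [← ey]
  have ey' : z + l1 * τ + l2 = y * j := by rw [ey, div_mul_cancel₀ _ hj]
  have e1 : z + (l1 + (m1 * a + m2 * c)) * τ + (l2 + (m1 * b + m2 * d)) =
      (y + m1 * t + m2) * j := by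
    linear_combination ey' - m1 * et' - m2 * ej
  have e2 : (c' * a + d' * c) * j = c' + c * k * j := by
    linear_combination (c' * a) * ej + c' * h - c * j * ek - c * c' * et'
  have e3 : (c' * a + d' * c) * ((y + m1 * t + m2) * j) ^ 2 / (k * j) =
      c' * (y + m1 * t + m2) ^ 2 / k + c * j * (y + m1 * t + m2) ^ 2 := by
    field_simp
    linear_combination (y + m1 * t + m2) ^ 2 * e2
  have e4 : c * (y * j) ^ 2 / j = c * j * y ^ 2 := by field_simp
  have e5 : c * j * (m1 * t + m2) + m1 = (m1 * a + m2 * c) * j := by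
    linear_combination c * m1 * et' - m1 * a * ej - m1 * h
  have e6 : (m1 * a + m2 * c) * τ + (m1 * b + m2 * d) = (m1 * t + m2) * j := by
    linear_combination - m1 * et' - m2 * ej
  rw [e1, e3, ey', e4]
  linear_combination (2 * y + m1 * t + m2) * e5 - 2 * (m1 * a + m2 * c) * ey' -
    (m1 * a + m2 * c) * e6

/-- The imaginary part of the exponent for one row. -/
theorem rowIm (c d l1 l2 : ℝ) (τ z : ℂ) (hτ : 0 < τ.im) (hj : (c : ℂ) * τ + d ≠ 0) :
    ((c : ℂ) * (z + l1 * τ + l2) ^ 2 / (c * τ + d) -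
        ((l1 : ℂ) ^ 2 * τ + 2 * l1 * z + l1 * l2)).im =
      z.im ^ 2 / τ.im - ((z + l1 * τ + l2) / (c * τ + d)).im ^ 2 /
        (τ.im / ‖(c : ℂ) * τ + d‖ ^ 2) := by
  obtain ⟨j, ej⟩ : ∃ j : ℂ, j = c * τ + d := ⟨_, rfl⟩
  rw [← ej] at hj ⊢
  obtain ⟨y, ey⟩ : ∃ y, y = (z + l1 * τ + l2) / j := ⟨_, rfl⟩
  rw [← ey]
  have ey' : z + l1 * τ + l2 = y * j := by rw [ey, div_mul_cancel₀ _ hj]
  have e4 : c * (y * j) ^ 2 / j = c * j * (y * y) := by field_simp
  have i1 : j.im = c * τ.im := by rw [ej]; simp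
  have i2 : z.im + l1 * τ.im = y.re * j.im + y.im * j.re := by
    have := congrArg Complex.im ey'
    simpa using this
  have n : ‖j‖ ^ 2 = j.re * j.re + j.im * j.im := by
    rw [← Complex.normSq_eq_norm_sq, Complex.normSq_apply]
  have e7 : ((l1 : ℂ) ^ 2 * τ + 2 * l1 * z + l1 * l2).im = l1 ^ 2 * τ.im + 2 * l1 * z.im := by
    simp [pow_two]
  have e8 : ((c : ℂ) * j * (y * y)).im =
      c * (j.re * (2 * y.re * y.im) + j.im * (y.re ^ 2 - y.im ^ 2)) := by
    simp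
    ring
  rw [ey', e4, Complex.sub_im, e7, e8, div_div_eq_mul_div, n]
  have hz : z.im = y.re * j.im + y.im * j.re - l1 * τ.im := by linarith
  have hne := hτ.ne'
  rw [hz, i1]
  field_simp
  ring

theorem diffQ (l γ : M2) (h : ∀ w ∈ Om, dn γ w.1 ≠ 0) : DifferentiableOn ℂ (QM l γ) Om := by
  unfold QM
  simp only [div_eq_mul_inv]
  refine .fun_sum fun r _ => .fun_sub (.fun_mul ?_ (.fun_inv ?_ h)) ?_
  · unfold tr
    fun_prop
  · unfold dn
    fun_prop
  · fun_prop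

end JCOa

open JCOa in
theorem p_JCO (hACT : S_ACT) :
    S_JCO := by
  intro l γ hγ
  obtain ⟨-, h⟩ := hACT.2 l γ hγ
  refine ⟨?_, fun w hw => ⟨?_, fun l' γ' hγ' ⟨n, hn⟩ => ?_⟩⟩
  · have h1 := diffQ l γ fun w hw => (h w hw).1
    unfold JM
    refine .mul ?_ (DifferentiableOn.cexp (h1.const_mul _))
    unfold dn
    fun_prop
  · obtain ⟨h0, h1, -⟩ := h w hw
    have hτ : 0 < w.1.im := hw
    have hn : 0 < ‖dn γ w.1‖ := norm_pos_iff.2 h0
    have e : (QM l γ w).im = ∑ r, (w.2 r).im ^ 2 / w.1.im -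
        ∑ r, ((actM l γ w).2 r).im ^ 2 / (actM l γ w).1.im := by
      rw [QM, Complex.im_sum, ← Finset.sum_sub_distrib, h1]
      exact Finset.sum_congr rfl fun r _ => rowIm _ _ _ _ _ _ hτ h0
    have e2 : (2 * Real.pi * Complex.I * QM l γ w).re = -(2 * Real.pi * (QM l γ w).im) := by
      simp
    have e3 : Real.log (actM l γ w).1.im = Real.log w.1.im - 2 * Real.log ‖dn γ w.1‖ := by
      rw [h1, Real.log_div hτ.ne' (pow_pos hn 2).ne', Real.log_pow]
      norm_num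
    rw [JM, norm_mul, Complex.norm_exp, e2, e, ← Real.exp_log hn, ← Real.exp_add, ← Real.exp_add,
      PhiM, PhiM, e3]
    congr 1
    ring
  · obtain ⟨h0, -, h2, -, h3⟩ := h w hw
    have h4 := ((hACT.2 l' γ' hγ').2 _ h2).1
    have hd : (γ 0 0 : ℂ) * γ 1 1 - γ 0 1 * γ 1 0 = 1 := by
      rw [Matrix.det_fin_two] at hγ
      exact_mod_cast hγ
    have e : QM (l + l' * γ) (γ' * γ) w = QM l' γ' (actM l γ w) + QM l γ w + n := by
      have hn' : (n : ℂ) = ∑ r, ((((l' * γ) r 0 : ℝ) : ℂ) * l r 1 - (l' * γ) r 1 * l r 0) := by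
        exact_mod_cast hn.symm
      rw [hn', QM, QM, QM, (h3 l' γ').1, ← Finset.sum_add_distrib, ← Finset.sum_add_distrib]
      refine Finset.sum_congr rfl fun r _ => ?_
      have := row (γ 0 0) (γ 0 1) (γ 1 0) (γ 1 1) (γ' 1 0) (γ' 1 1) (l r 0) (l r 1) (l' r 0)
        (l' r 1) w.1 (w.2 r) hd h0 h4
      simp only [tr, actM, dn, Matrix.add_apply, Matrix.mul_apply, Fin.sum_univ_two]
      push_cast
      exact this
    rw [JM, JM, JM, e, (h3 l' γ').1, mul_add, mul_add, Complex.exp_add, Complex.exp_add,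
      mul_comm _ (n : ℂ), Complex.exp_int_mul_two_pi_mul_I]
    ring

end Pool.Agent.P.MP_ab0431_ag.T

end

section

/-! Step LEVI. -/


namespace Pool.Agent.P.MP_ab0431_ag.T

open Set Filter Topology Metric

namespace LEVIa

theorem om_open : IsOpen Om :=
  isOpen_lt continuous_const (Complex.continuous_im.comp continuous_fst)

theorem sm : ContDiffOn ℝ 2 PhiM Om := by
  have h1 : ContDiff ℝ 2 fun w : V => w.1.im := Complex.imCLM.contDiff.comp contDiff_fst
  have h2 (r : Fin 2) : ContDiff ℝ 2 fun w : V => (w.2 r).im :=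
    Complex.imCLM.contDiff.comp ((contDiff_apply ℝ ℂ r).comp contDiff_snd)
  refine (contDiffOn_const.mul (h1.contDiffOn.log fun w hw => ne_of_gt hw)).add
    (contDiffOn_const.mul (ContDiffOn.sum fun r _ => ?_))
  exact ((h2 r).contDiffOn.pow 2).div h1.contDiffOn fun w hw => ne_of_gt hw

theorem line (x v : V) : HasDerivAt (fun t : ℝ => x + t • v) v 0 := by
  simpa using ((hasDerivAt_id (0 : ℝ)).smul_const v).const_add x

/-- The first derivative of the potential in the direction `v`. -/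
noncomputable def D (v x : V) : ℝ :=
  -(1 / 2) * (v.1.im / x.1.im) + 2 * Real.pi * ∑ r,
    (2 * (x.2 r).im * (v.2 r).im / x.1.im - (x.2 r).im ^ 2 * v.1.im / x.1.im ^ 2)

theorem l1 (x v : V) : HasDerivAt (fun t : ℝ => (x + t • v).1.im) v.1.im 0 := by
  simpa using ((hasDerivAt_id (0 : ℝ)).mul_const v.1.im).const_add x.1.im

theorem l2 (x v : V) (r : Fin 2) :
    HasDerivAt (fun t : ℝ => ((x + t • v).2 r).im) (v.2 r).im 0 := by
  simpa using ((hasDerivAt_id (0 : ℝ)).mul_const (v.2 r).im).const_add (x.2 r).im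

theorem d1 {x : V} (hx : x ∈ Om) (v : V) : fderiv ℝ PhiM x v = D v x := by
  have hy : x.1.im ≠ 0 := ne_of_gt hx
  have hy' : (x + (0 : ℝ) • v).1.im ≠ 0 := by simpa using hy
  have hd : HasFDerivAt PhiM (fderiv ℝ PhiM x) (x + (0 : ℝ) • v) := by
    simpa using ((sm.contDiffAt (om_open.mem_nhds hx)).differentiableAt two_ne_zero).hasFDerivAt
  have h := (((l1 x v).log hy').const_mul (-(1 / 2))).fun_add ((HasDerivAt.fun_sum (u := Finset.univ)
    fun r _ => ((l2 x v r).fun_pow 2).fun_div (l1 x v) hy').const_mul (2 * Real.pi))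
  have h0 := hd.comp_hasDerivAt (0 : ℝ) (line x v)
  refine (h0.unique h).trans ?_
  simp only [D, zero_smul, add_zero, Fin.sum_univ_two]
  field_simp
  ring

theorem d2 {x : V} (hx : x ∈ Om) (v : V) : hess PhiM x v = v.1.im ^ 2 / (2 * x.1.im ^ 2) +
    4 * Real.pi * ∑ r, ((v.2 r).im - v.1.im * (x.2 r).im / x.1.im) ^ 2 / x.1.im := by
  have hy : x.1.im ≠ 0 := ne_of_gt hx
  have hy' : (x + (0 : ℝ) • v).1.im ≠ 0 := by simpa using hy
  have hd : HasFDerivAt (fderiv ℝ PhiM) (fderiv ℝ (fderiv ℝ PhiM) x) (x + (0 : ℝ) • v) := by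
    simpa using (((sm.contDiffAt (om_open.mem_nhds hx)).fderiv_right (m := 1)
      (by norm_num)).differentiableAt one_ne_zero).hasFDerivAt
  have h0 : HasDerivAt (fun t : ℝ => fderiv ℝ PhiM (x + t • v) v) (hess PhiM x v) 0 := by
    have h1 := hd.comp_hasDerivAt (0 : ℝ) (line x v)
    have h2 := h1.clm_apply (hasDerivAt_const (0 : ℝ) v)
    rwa [map_zero, add_zero] at h2
  have he : (fun t : ℝ => D v (x + t • v)) =ᶠ[𝓝 0] fun t : ℝ => fderiv ℝ PhiM (x + t • v) v := by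
    have : ∀ᶠ t : ℝ in 𝓝 0, x + t • v ∈ Om :=
      (line x v).continuousAt.preimage_mem_nhds (om_open.mem_nhds (by simpa using hx))
    exact this.mono fun t ht => (d1 ht v).symm
  have h := (((hasDerivAt_const (0 : ℝ) v.1.im).fun_div (l1 x v) hy').const_mul (-(1 / 2))).fun_add
    ((HasDerivAt.fun_sum (u := Finset.univ) fun r _ =>
      (((((l2 x v r).const_mul 2).mul_const (v.2 r).im).fun_div (l1 x v) hy').fun_sub
        ((((l2 x v r).fun_pow 2).mul_const v.1.im).fun_div ((l1 x v).fun_pow 2)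
          (pow_ne_zero 2 hy')))).const_mul (2 * Real.pi))
  refine ((h0.congr_of_eventuallyEq he).unique h).trans ?_
  simp only [zero_smul, add_zero, Fin.sum_univ_two]
  field_simp
  ring

theorem nn {x : V} (hx : x ∈ Om) (v : V) : 0 ≤ hess PhiM x v := by
  have hy : 0 < x.1.im := hx
  rw [d2 hx]
  positivity

theorem eq0 {x : V} (hx : x ∈ Om) {v : V} (h : hess PhiM x v ≤ 0) :
    v.1.im = 0 ∧ ∀ r, (v.2 r).im = 0 := by
  have hy : 0 < x.1.im := hx
  have hp := Real.pi_pos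
  rw [d2 hx] at h
  have h1 : 0 ≤ v.1.im ^ 2 / (2 * x.1.im ^ 2) := by positivity
  have h2 (r : Fin 2) : 0 ≤ ((v.2 r).im - v.1.im * (x.2 r).im / x.1.im) ^ 2 / x.1.im := by
    positivity
  have h3 := Finset.sum_nonneg fun r (_ : r ∈ Finset.univ) => h2 r
  have h4 := mul_nonneg (by positivity : 0 ≤ 4 * Real.pi) h3
  have ha : v.1.im = 0 := by
    have : v.1.im ^ 2 / (2 * x.1.im ^ 2) = 0 := by linarith
    simpa [hy.ne'] using this
  refine ⟨ha, fun r => ?_⟩
  have h5 := (mul_eq_zero.1 (le_antisymm (by linarith) h4)).resolve_left (by positivity)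
  have h6 := (Finset.sum_eq_zero_iff_of_nonneg fun r _ => h2 r).1 h5 r (Finset.mem_univ r)
  simpa [hy.ne', ha] using h6

end LEVIa

theorem p_LEVI :
    S_LEVI := by
  refine ⟨LEVIa.sm, fun w hw v hv => lt_of_not_ge fun h => hv ?_⟩
  have h1 := LEVIa.nn hw v
  have h2 := LEVIa.nn hw (Complex.I • v)
  unfold levi at h
  obtain ⟨a1, a2⟩ := LEVIa.eq0 hw (v := v) (by linarith)
  obtain ⟨b1, b2⟩ := LEVIa.eq0 hw (v := Complex.I • v) (by linarith)
  refine Prod.ext (Complex.ext (by simpa using b1) a1) (funext fun r => ?_)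
  exact Complex.ext (by simpa using b2 r) (a2 r)

end Pool.Agent.P.MP_ab0431_ag.T

end

section

/-! Step PEAK. -/


namespace Pool.Agent.P.MP_ab0431_ag.T

open Set Filter Topology Metric

namespace PEAKa

open Complex

theorem nsq (τ₀ τ : ℂ) :
    ‖τ - (starRingEnd ℂ) τ₀‖ ^ 2 = (τ.re - τ₀.re) ^ 2 + (τ.im + τ₀.im) ^ 2 := by
  rw [Complex.sq_norm, normSq_apply]; simp; ring

theorem d_ne {τ₀ τ : ℂ} (h0 : 0 < τ₀.im) (h : 0 < τ.im) : τ - (starRingEnd ℂ) τ₀ ≠ 0 := fun e => by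
  have := congrArg Complex.im e
  simp at this; linarith

theorem uu_nonneg (τ₀ τ : ℂ) : 0 ≤ uu τ₀ τ := by unfold uu; positivity

theorem uu_sq {τ₀ τ : ℂ} (h0 : 0 < τ₀.im) (h : 0 < τ.im) :
    uu τ₀ τ ^ 2 = 4 * (τ.im * τ₀.im) / ((τ.re - τ₀.re) ^ 2 + (τ.im + τ₀.im) ^ 2) := by
  rw [uu, div_pow, nsq, mul_pow, Real.sq_sqrt (by positivity)]; norm_num

theorem uu_le {τ₀ τ : ℂ} (h0 : 0 < τ₀.im) (h : 0 < τ.im) : uu τ₀ τ ≤ 1 := by
  refine (sq_le_one_iff₀ (uu_nonneg _ _)).1 ?_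
  rw [uu_sq h0 h, div_le_one (by positivity)]
  nlinarith [sq_nonneg (τ.re - τ₀.re), sq_nonneg (τ.im - τ₀.im)]

theorem uu_lt {τ₀ τ : ℂ} (h0 : 0 < τ₀.im) (h : 0 < τ.im) (ne : τ ≠ τ₀) : uu τ₀ τ < 1 := by
  refine (sq_lt_one_iff₀ (uu_nonneg _ _)).1 ?_
  rw [uu_sq h0 h, div_lt_one (by positivity)]
  have : 0 < normSq (τ - τ₀) := normSq_pos.2 (sub_ne_zero.2 ne)
  rw [normSq_apply] at this
  simp at this
  nlinarith

theorem uu_self {τ₀ : ℂ} (h0 : 0 < τ₀.im) : uu τ₀ τ₀ = 1 := by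
  refine (pow_eq_one_iff_of_nonneg (uu_nonneg _ _) two_ne_zero).1 ?_
  rw [uu_sq h0 h0]; field_simp; ring

/-- The peak function on the half plane. -/
noncomputable def g (τ₀ : ℂ) (w : V) : ℂ := (2 * √τ₀.im : ℝ) / (w.1 - (starRingEnd ℂ) τ₀)

theorem g_norm (τ₀ : ℂ) {w : V} (h : 0 < w.1.im) : ‖g τ₀ w‖ * √w.1.im = uu τ₀ w.1 := by
  rw [g, uu, norm_div, Complex.norm_real, Real.norm_of_nonneg (by positivity), Real.sqrt_mul h.le]
  ring

theorem inv_diff {τ₀ : ℂ} (h0 : 0 < τ₀.im) :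
    DifferentiableOn ℂ (fun w : V => (w.1 - (starRingEnd ℂ) τ₀)⁻¹) Om :=
  DifferentiableOn.fun_inv (by fun_prop) fun _ hw => d_ne h0 hw

theorem g_diff {τ₀ : ℂ} (h0 : 0 < τ₀.im) : DifferentiableOn ℂ (g τ₀) Om :=
  (inv_diff h0).const_mul _

theorem row {τ₀ τ z z₀ : ℂ} {x0 x1 : ℝ} (h0 : 0 < τ₀.im) (h : 0 < τ.im)
    (e : z₀ + x0 * τ₀ + x1 = 0) :
    τ₀.im * (‖z + x0 * τ + x1‖ ^ 2 / ‖τ - (starRingEnd ℂ) τ₀‖ ^ 2) ≤
      z.im ^ 2 / τ.im + z₀.im ^ 2 / τ₀.im -
        ((z - (starRingEnd ℂ) z₀) ^ 2 / (τ - (starRingEnd ℂ) τ₀)).im := by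
  obtain rfl : z₀ = -(x0 * τ₀) - x1 := by linear_combination e
  obtain ⟨ξ, η, rfl⟩ : ∃ ξ η : ℝ, z = (ξ - x0) * τ + (η - x1) := by
    refine ⟨z.im / τ.im + x0, z.re + x1 - z.im / τ.im * τ.re, Complex.ext ?_ ?_⟩
    · simp; ring
    · simp; field_simp
  rw [div_im, ← Complex.sq_norm, nsq, Complex.sq_norm, normSq_apply, ← sub_nonneg]
  obtain ⟨a, y⟩ := τ
  obtain ⟨a0, y0⟩ := τ₀
  simp only at h h0
  have N : 0 < (a - a0) ^ 2 + (y + y0) ^ 2 := by positivity
  have : 0 ≤ y * ((ξ * a0 + η) ^ 2 + (ξ * y0) ^ 2) / ((a - a0) ^ 2 + (y + y0) ^ 2) := by positivity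
  convert this using 1
  simp [sq]
  simp only [← sq]
  field_simp
  ring

end PEAKa

open PEAKa in
theorem p_PEAK :
    S_PEAK := by
  intro w₀ h0
  replace h0 : 0 < w₀.1.im := h0
  constructor
  · set x : M2 := Matrix.of fun r => ![-(w₀.2 r).im / w₀.1.im,
      -(w₀.2 r).re + (w₀.2 r).im / w₀.1.im * w₀.1.re] with hx
    have t0 : ∀ r, tr x w₀ r = 0 := fun r => by
      rw [tr, hx]
      apply Complex.ext
      · simp [-Complex.ofReal_div, -Complex.ofReal_neg, neg_div]; ring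
      · simp [-Complex.ofReal_div, -Complex.ofReal_neg]; field_simp; ring
    set S : V → ℂ := fun w => ∑ r, (w.2 r - (starRingEnd ℂ) (w₀.2 r)) ^ 2 /
      (w.1 - (starRingEnd ℂ) w₀.1) with hS
    set P : V → ℝ := fun w => ∑ r, (w.2 r).im ^ 2 / w.1.im with hP
    set f : V → ℂ := fun w => g w₀.1 w *
      Complex.exp (-(2 * Real.pi : ℝ) * (Complex.I * S w) - (2 * Real.pi * P w₀ : ℝ)) with hf
    have nf : ∀ w ∈ Om, ‖f w‖ * Real.exp (-PhiM w) =
        uu w₀.1 w.1 * Real.exp (-(2 * Real.pi * (P w + P w₀ - (S w).im))) := fun w hw => by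
      replace hw : 0 < w.1.im := hw
      have s : Real.exp (1 / 2 * Real.log w.1.im) = √w.1.im := by
        rw [Real.sqrt_eq_rpow, Real.rpow_def_of_pos hw, mul_comm]
      rw [hf, norm_mul, Complex.norm_exp, ← g_norm _ hw, ← s, mul_assoc ‖_‖, mul_assoc ‖_‖,
        ← Real.exp_add, ← Real.exp_add]
      congr 2
      simp only [PhiM, hP, Complex.sub_re, Complex.mul_re, Complex.mul_im, Complex.neg_re,
        Complex.neg_im, Complex.ofReal_re, Complex.ofReal_im, Complex.I_re, Complex.I_im]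
      ring
    refine ⟨x, f, ?_, ?_, fun w hw => ⟨?_, fun ne => ?_⟩⟩
    · refine (g_diff h0).mul (DifferentiableOn.cexp ?_)
      refine DifferentiableOn.sub_const (DifferentiableOn.const_mul
        (DifferentiableOn.const_mul ?_ _) _) _
      exact DifferentiableOn.fun_sum fun r _ =>
        DifferentiableOn.fun_mul (by fun_prop) (inv_diff h0)
    · rw [nf _ h0, uu_self h0, one_mul, Real.exp_eq_one_iff, hS, hP]
      simp only [Complex.im_sum, ← Finset.sum_add_distrib, ← Finset.sum_sub_distrib]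
      rw [Finset.sum_eq_zero, mul_zero, neg_zero]
      intro r _
      rw [Complex.sub_conj, Complex.sub_conj, Complex.div_im, Complex.normSq_apply]
      simp [sq]
      field_simp
      ring
    · rw [nf w hw, bd]
      refine mul_le_mul_of_nonneg_left (Real.exp_le_exp.2 (neg_le_neg ?_)) (uu_nonneg _ _)
      rw [mul_assoc, hS, hP]
      refine mul_le_mul_of_nonneg_left ?_ (by positivity)
      simp only [Complex.im_sum, ← Finset.sum_add_distrib, ← Finset.sum_sub_distrib, Finset.mul_sum]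
      exact Finset.sum_le_sum fun r _ => row h0 hw (t0 r)
    · have p : 0 < 2 * Real.pi * w₀.1.im := by positivity
      rw [bd]
      by_cases c : w.1 = w₀.1
      · rw [c, uu_self h0, one_mul, Real.exp_lt_one_iff, neg_lt_zero]
        refine mul_pos p ?_
        obtain ⟨r, hr⟩ : ∃ r, w.2 r ≠ w₀.2 r := by
          by_contra z; push Not at z
          exact ne (Prod.ext c (by ext r; exact z r))
        refine Finset.sum_pos' (fun _ _ => by positivity) ⟨r, Finset.mem_univ _, ?_⟩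
        have a : tr x w r ≠ 0 := fun e => hr (by
          have := t0 r
          rw [tr] at e this
          rw [c] at e
          linear_combination e - this)
        have := d_ne h0 h0
        positivity
      · refine mul_lt_one_of_nonneg_of_lt_one_left (uu_nonneg _ _) (uu_lt h0 hw c) ?_
        rw [Real.exp_le_one_iff, neg_nonpos]
        exact mul_nonneg p.le (Finset.sum_nonneg fun _ _ => by positivity)
  · have k : ∀ w ∈ Om, ‖g w₀.1 w ^ 4‖ * w.1.im ^ 2 = uu w₀.1 w.1 ^ 4 := fun w hw => by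
      replace hw : 0 < w.1.im := hw
      rw [← g_norm _ hw, norm_pow, mul_pow, show √w.1.im ^ 4 = (√w.1.im ^ 2) ^ 2 by ring,
        Real.sq_sqrt hw.le]
    refine ⟨fun w => g w₀.1 w ^ 4, (g_diff h0).pow 4, by rw [k _ h0, uu_self h0, one_pow],
      fun w hw => ?_⟩
    rw [k w hw]
    exact pow_le_one₀ (uu_nonneg _ _) (uu_le h0 hw)

end Pool.Agent.P.MP_ab0431_ag.T

end

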