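import Pool.Agent.P.MP_ab0431_ag.B.Base

section

/-! Step GLOB. -/


namespace Pool.Agent.P.MP_ab0431_ag.T

open Set Filter Topology Metric
open scoped Manifold ContDiff

namespace GLOBa

variable {Y : Type} [MetricSpace Y] {U : Y → ℝ}

lemma hr_trans {f g h : C(Sq, Y)} (h1 : f.HomotopicRel g {x | U (f x) = 0})
    (h2 : g.HomotopicRel h {x | U (g x) = 0}) : f.HomotopicRel h {x | U (f x) = 0} := by
  refine h1.trans ?_
  obtain ⟨H⟩ := h2
  have hs : {x | U (f x) = 0} ⊆ {x | U (g x) = 0} := fun x hx => by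
    have := h1.fst_eq_snd hx
    simp only [mem_ofPred_eq] at hx ⊢
    rw [← this]; exact hx
  exact ⟨{ toHomotopy := H.toHomotopy, prop' := fun t x hx => H.prop' t x (hs hx) }⟩

lemma mv_trans {f g h : C(Sq, Y)} {a b c : ℝ} (h1 : Mv U a f g) (h2 : Mv U b g h)
    (hc : a + b ≤ c) : Mv U c f h :=
  ⟨hr_trans h1.1 h2.1, fun x => by
    linarith [dist_triangle (f x) (g x) (h x), h1.2 x, h2.2 x]⟩

lemma mv_refl {a : ℝ} (ha : 0 ≤ a) (f : C(Sq, Y)) : Mv U a f f :=
  ⟨ContinuousMap.HomotopicRel.refl f, fun x => by simpa using ha⟩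

lemma listP (h0 : ∀ z, 0 ≤ U z) (L : List (Y × ℝ))
    (hL : ∀ p ∈ L, ∀ η > 0, ∃ q < (1 : ℝ), ∀ l > (1 : ℝ), ∀ f : C(Sq, Y), ∃ f', Mv U η f f' ∧
      ∀ x, U (f' x) ≤ l * U (f x) ∧ (dist (f x) p.1 < p.2 → U (f' x) ≤ q * U (f x))) :
    ∀ η > 0, ∃ q : ℝ, 0 < q ∧ q < 1 ∧ ∀ l > (1 : ℝ), ∀ f : C(Sq, Y), ∃ f', Mv U η f f' ∧
      ∀ x, U (f' x) ≤ l * U (f x) ∧
        ∀ p ∈ L, dist (f x) p.1 + η ≤ p.2 → U (f' x) ≤ q * U (f x) := by
  induction L with
  | nil =>
    intro η hη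
    refine ⟨1 / 2, by norm_num, by norm_num, fun l hl f => ⟨f, mv_refl hη.le f, fun x => ⟨?_, ?_⟩⟩⟩
    · nlinarith [h0 (f x)]
    · simp
  | cons p L ih =>
    intro η hη
    obtain ⟨q1, hq1, H1⟩ := hL p (by simp) (η / 2) (by linarith)
    obtain ⟨q2, hq20, hq2, H2⟩ := ih (fun p' hp' => hL p' (by simp [hp'])) (η / 2) (by linarith)
    set m := max q1 q2 with hm
    have hm0 : 0 < m := lt_max_of_lt_right hq20
    have hm1 : m < 1 := max_lt hq1 hq2
    refine ⟨(1 + m) / 2, by linarith, by linarith, fun l hl f => ?_⟩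
    set l' := min (Real.sqrt l) ((1 + m) / 2 / m) with hl'
    have hl1 : 1 < l' := lt_min (Real.lt_sqrt_of_sq_lt (by linarith))
      (by rw [lt_div_iff₀ hm0]; linarith)
    have hl2 : l' * l' ≤ l := by
      have := Real.mul_self_sqrt (show 0 ≤ l by linarith)
      have h3 : l' ≤ Real.sqrt l := min_le_left _ _
      nlinarith
    have hl3 : l' * m ≤ (1 + m) / 2 := by
      have h3 : l' ≤ (1 + m) / 2 / m := min_le_right _ _
      rwa [le_div_iff₀ hm0] at h3
    obtain ⟨f1, m1, K1⟩ := H1 l' hl1 f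
    obtain ⟨f2, m2, K2⟩ := H2 l' hl1 f1
    refine ⟨f2, mv_trans m1 m2 (by linarith), fun x => ⟨?_, fun p' hp' hd => ?_⟩⟩
    · have a1 := (K1 x).1
      have a2 := (K2 x).1
      have a3 := mul_le_mul_of_nonneg_left a1 (show 0 ≤ l' by linarith)
      nlinarith [h0 (f x)]
    · have b0 := mul_le_mul_of_nonneg_right hl3 (h0 (f x))
      rcases List.mem_cons.1 hp' with rfl | hp'
      · have a1 := (K1 x).2 (by linarith)
        have a2 := (K2 x).1
        have a3 := mul_le_mul_of_nonneg_right (le_max_left q1 q2) (h0 (f x))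
        have a4 := mul_le_mul_of_nonneg_left (a1.trans a3) (show 0 ≤ l' by linarith)
        nlinarith
      · have a1 := (K1 x).1
        have a2 := (K2 x).2 p' hp' (by
          linarith [dist_triangle (f1 x) (f x) p'.1, m1.2 x, dist_comm (f1 x) (f x)])
        have a3 := mul_le_mul_of_nonneg_right (le_max_right q1 q2) (h0 (f1 x))
        have a4 := mul_le_mul_of_nonneg_left a1 hm0.le
        nlinarith

lemma listT (L : List (Y × ℝ))
    (hL : ∀ p ∈ L, ∀ η > 0, ∃ a > 0, ∀ f : C(Sq, Y), (∀ x, U (f x) ≤ a) → ∃ f', Mv U η f f' ∧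
      ∀ x, U (f' x) ≤ η ∧ (dist (f x) p.1 < p.2 → U (f' x) = 0)) :
    ∀ η > 0, ∃ a > 0, ∀ f : C(Sq, Y), (∀ x, U (f x) ≤ a) → ∃ f', Mv U η f f' ∧
      ∀ x, U (f' x) ≤ η ∧ ∀ p ∈ L, dist (f x) p.1 + η ≤ p.2 → U (f' x) = 0 := by
  induction L with
  | nil =>
    intro η hη
    exact ⟨η, hη, fun f hf => ⟨f, mv_refl hη.le f, fun x => ⟨hf x, by simp⟩⟩⟩
  | cons p L ih =>
    intro η hη
    obtain ⟨a', ha', H2⟩ := ih (fun p' hp' => hL p' (by simp [hp'])) (η / 2) (by linarith)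
    obtain ⟨a, ha, H1⟩ := hL p (by simp) (min (η / 2) a') (lt_min (by linarith) ha')
    refine ⟨a, ha, fun f hf => ?_⟩
    obtain ⟨f1, m1, K1⟩ := H1 f hf
    obtain ⟨f2, m2, K2⟩ := H2 f1 fun x => (K1 x).1.trans (min_le_right _ _)
    have hmin := min_le_left (η / 2) a'
    refine ⟨f2, mv_trans m1 m2 (by linarith), fun x => ⟨by linarith [(K2 x).1],
      fun p' hp' hd => ?_⟩⟩
    rcases List.mem_cons.1 hp' with rfl | hp'
    · have a1 := (K1 x).2 (by linarith)
      rw [← m2.1.fst_eq_snd a1]; exact a1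
    · exact (K2 x).2 p' hp' (by
        linarith [dist_triangle (f1 x) (f x) p'.1, m1.2 x, dist_comm (f1 x) (f x)])

lemma cover {K : Set Y} (hK : IsCompact K) (r : Y → ℝ) (hr : ∀ y, 0 < r y) :
    ∃ L : List (Y × ℝ), ∃ η > 0, (∀ p ∈ L, p.1 ∈ K ∧ p.2 = r p.1) ∧
      ∃ W, IsOpen W ∧ K ⊆ W ∧ ∀ z ∈ W, ∃ p ∈ L, dist z p.1 + η ≤ p.2 := by
  obtain ⟨t, ht, hc⟩ := hK.elim_nhds_subcover (fun y => ball y (r y / 2))
    fun y _ => ball_mem_nhds y (by linarith [hr y])
  have : ∃ η > 0, ∀ y ∈ t, η ≤ r y / 2 := by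
    obtain ⟨η, h1, h2⟩ := t.finite_toSet.isCompact.exists_forall_le'
      (f := fun y => r y / 2) (t.finite_toSet.continuousOn _) (a := 0)
      fun y _ => by linarith [hr y]
    exact ⟨η, h1, h2⟩
  obtain ⟨η, hη, h⟩ := this
  refine ⟨t.toList.map fun y => (y, r y), η, hη, fun p hp => ?_, ⋃ y ∈ t, ball y (r y / 2),
    isOpen_biUnion fun _ _ => isOpen_ball, hc, fun z hz => ?_⟩
  · obtain ⟨y, hy, rfl⟩ := List.mem_map.1 hp
    exact ⟨ht y (Finset.mem_toList.1 hy), rfl⟩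
  · obtain ⟨y, hy, hz⟩ := mem_iUnion₂.1 hz
    refine ⟨(y, r y), List.mem_map.2 ⟨y, Finset.mem_toList.2 hy, rfl⟩, ?_⟩
    have := mem_ball.1 hz
    linarith [h y hy]

end GLOBa

open GLOBa in
theorem p_GLOB :
    S_GLOB := by
  intro Y _ _ U hU h0 hP hT f
  have e1 : ∀ y, ∃ r > 0, U y = 0 → ∀ η > 0, ∃ a > 0, ∀ f : C(Sq, Y), (∀ x, U (f x) ≤ a) →
      ∃ f', Mv U η f f' ∧ ∀ x, U (f' x) ≤ η ∧ (dist (f x) y < r → U (f' x) = 0) := fun y => by
    by_cases hy : U y = 0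
    · obtain ⟨r, hr, h⟩ := hT y hy
      exact ⟨r, hr, fun _ => h⟩
    · exact ⟨1, one_pos, fun h => absurd h hy⟩
  have e2 : ∀ y, ∃ r > 0, 0 < U y → ∀ η > 0, ∃ q < (1 : ℝ), ∀ l > (1 : ℝ), ∀ f : C(Sq, Y),
      ∃ f', Mv U η f f' ∧ ∀ x, U (f' x) ≤ l * U (f x) ∧
        (dist (f x) y < r → U (f' x) ≤ q * U (f x)) := fun y => by
    by_cases hy : 0 < U y
    · obtain ⟨r, hr, h⟩ := hP y hy
      exact ⟨r, hr, fun _ => h⟩
    · exact ⟨1, one_pos, fun h => absurd h hy⟩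
  choose r hr0 hr using e1
  choose s hs0 hs using e2
  obtain ⟨L, η, hη, hL, W, hW, hKW, hWL⟩ := cover
    (isClosed_eq hU continuous_const : IsClosed {z | U z = 0}).isCompact r hr0
  obtain ⟨aT, haT, HT⟩ := listT (U := U) L
    (fun p hp => by rw [(hL p hp).2]; exact hr p.1 (hL p hp).1) η hη
  obtain ⟨a0, ha0, H0⟩ := hW.isClosed_compl.isCompact.exists_forall_le' hU.continuousOn (a := 0)
    fun z hz => lt_of_le_of_ne (h0 z) fun h => hz (hKW h.symm)
  set a := min aT (a0 / 2) with ha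
  have hapos : 0 < a := lt_min haT (by linarith)
  obtain ⟨L', η', hη', hL', W', -, hKW', hWL'⟩ := cover
    (isClosed_le continuous_const hU : IsClosed {z | a / 2 ≤ U z}).isCompact s hs0
  obtain ⟨q, hq0, hq1, HP⟩ := listP h0 L' (fun p hp => by
    rw [(hL' p hp).2]
    exact hs p.1 (lt_of_lt_of_le (by linarith) (hL' p hp).1)) η' hη'
  obtain ⟨M, hM⟩ := (isCompact_range hU).bddAbove
  have hM' : ∀ z, U z ≤ M := fun z => hM ⟨z, rfl⟩
  have rounds : ∀ n : ℕ, ∃ f', f.HomotopicRel f' {x | U (f x) = 0} ∧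
      ∀ x, U (f' x) ≤ max (q ^ n * M) a := by
    intro n
    induction n with
    | zero => exact ⟨f, .refl f, fun x => by simp [hM']⟩
    | succ n ih =>
      obtain ⟨g, h1, h2⟩ := ih
      obtain ⟨g', m1, K1⟩ := HP 2 (by norm_num) g
      refine ⟨g', hr_trans h1 m1.1, fun x => ?_⟩
      by_cases hx : a / 2 ≤ U (g x)
      · obtain ⟨p, hp, hd⟩ := hWL' _ (hKW' hx)
        have a1 := (K1 x).2 p hp hd
        rcases le_max_iff.1 (h2 x) with h | h
        · refine le_max_of_le_left (a1.trans ?_)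
          rw [pow_succ', mul_assoc]
          exact mul_le_mul_of_nonneg_left h hq0.le
        · refine le_max_of_le_right ?_
          nlinarith [h0 (g x)]
      · exact le_max_of_le_right (by linarith [(K1 x).1, not_le.1 hx])
  have hlim : Tendsto (fun n : ℕ => q ^ n * M) atTop (𝓝 0) := by
    simpa using (tendsto_pow_atTop_nhds_zero_of_lt_one hq0.le hq1).mul_const M
  obtain ⟨n, hn⟩ := (hlim.eventually (ge_mem_nhds hapos)).exists
  obtain ⟨g, h1, h2⟩ := rounds n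
  have h3 : ∀ x, U (g x) ≤ a := fun x => (h2 x).trans (max_le hn le_rfl)
  obtain ⟨g', m1, K1⟩ := HT g fun x => (h3 x).trans (min_le_left _ _)
  refine ⟨g', hr_trans h1 m1.1, fun x => ?_⟩
  have hx : g x ∈ W := by
    by_contra hx
    have := H0 _ hx
    linarith [h3 x, min_le_right aT (a0 / 2)]
  obtain ⟨p, hp, hd⟩ := hWL _ hx
  exact (K1 x).2 p hp hd

end Pool.Agent.P.MP_ab0431_ag.T

end

section

/-! Step YSP. -/


namespace Pool.Agent.P.MP_ab0431_ag.T

open Set Filter Topology Metric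
open scoped Manifold ContDiff

namespace YSPa

variable {G : Type} [Group G]

/-- An action with the two extra properties. -/
structure Fa (G : Type) [Group G] extends Act G where
  pd : toAct.PD
  fr : ∀ w ∈ Ω, toAct.Fr w

variable (h : Fa G)

/-- The domain as a type. -/
def X : Type := h.Ω

noncomputable instance : TopologicalSpace (X h) := instTopologicalSpaceSubtype

instance : T2Space (X h) := inferInstanceAs (T2Space h.Ω)

instance : SecondCountableTopology (X h) := inferInstanceAs (SecondCountableTopology h.Ω)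

instance : LocallyCompactSpace (X h) := h.op.locallyCompactSpace

instance : MulAction G (X h) where
  smul g x := ⟨h.a g x.1, h.maps g _ x.2⟩
  one_smul x := Subtype.ext (h.one _ x.2)
  mul_smul g g' x := Subtype.ext (h.mul g g' _ x.2)

instance : ContinuousConstSMul G (X h) :=
  ⟨fun g => Continuous.subtype_mk
    ((h.hol g).continuousOn.comp_continuous continuous_subtype_val fun x => x.2) _⟩

instance : IsCancelSMul G (X h) :=
  isCancelSMul_iff_eq_one_of_smul_eq.2 fun g x e => h.fr _ x.2 g (congrArg (·.1) e)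

instance : ProperlyDiscontinuousSMul G (X h) :=
  ⟨fun hK hL => (h.pd _ _ (hK.image continuous_subtype_val)
    (image_subset_iff.2 fun x _ => x.2) (hL.image continuous_subtype_val)
    (image_subset_iff.2 fun x _ => x.2)).subset fun _ ⟨_, ⟨x, hx, e⟩, hy⟩ =>
      ⟨x.1, mem_image_of_mem _ hx, _, hy, congrArg (·.1) e.symm⟩⟩

/-- The quotient. -/
abbrev Y : Type := MulAction.orbitRel.Quotient G (X h)

/-- The projection. -/
def pr (x : X h) : Y h := Quotient.mk _ x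

theorem cov : IsCoveringMap (pr h) :=
  isQuotientCoveringMap_quotientMk_of_properlyDiscontinuousSMul.isCoveringMap

theorem surj : Function.Surjective (pr h) := Quotient.mk_surjective

instance : CompactSpace (Y h) := by
  obtain ⟨F, hF, h1, h2⟩ := h.cc
  have hc : IsCompact ((Subtype.val : h.Ω → V) ⁻¹' F) :=
    Topology.IsInducing.subtypeVal.isCompact_preimage' hF (by simpa using h1)
  refine ⟨?_⟩
  have e : (univ : Set (Y h)) = pr h '' ((Subtype.val : h.Ω → V) ⁻¹' F) := by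
    refine (eq_univ_of_forall fun y => ?_).symm
    obtain ⟨x, rfl⟩ := surj h y
    obtain ⟨g, hg⟩ := h2 x.1 x.2
    exact ⟨g • x, hg, Quotient.sound ⟨g, rfl⟩⟩
  rw [e]
  exact hc.image (cov h).continuous

instance : SecondCountableTopology (Y h) := ContinuousConstSMul.secondCountableTopology

theorem chart (y : Y h) : ∃ e : OpenPartialHomeomorph (Y h) V, y ∈ e.source ∧
    ∀ z ∈ e.source, ∃ hz : e z ∈ h.Ω, pr h ⟨e z, hz⟩ = z := by
  obtain ⟨x, rfl⟩ := surj h y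
  obtain ⟨q, hx, hq⟩ := (cov h).isLocalHomeomorph x
  have : Nonempty h.Ω := ⟨x⟩
  refine ⟨q.symm.trans (h.op.isOpenEmbedding_subtypeVal.toOpenPartialHomeomorph _), ?_, ?_⟩
  · refine ⟨?_, trivial⟩
    rw [hq]
    exact q.map_source hx
  · intro z hz
    refine ⟨(q.symm z).2, ?_⟩
    have := q.right_inv hz.1
    rw [← hq] at this
    exact this

end YSPa

theorem p_YSP :
    S_YSP := by
  intro G _ A pd fr
  let h : YSPa.Fa G := ⟨A, pd, fr⟩
  refine ⟨YSPa.Y h, TopologicalSpace.metrizableSpaceMetric _, inferInstance, YSPa.pr h,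
    YSPa.cov h, YSPa.surj h, fun w w' e => ?_, YSPa.chart h⟩
  obtain ⟨g, hg⟩ := Quotient.exact e.symm
  exact ⟨g, congrArg (·.1) hg⟩

end Pool.Agent.P.MP_ab0431_ag.T

end

section

/-! Step LIFT. -/


namespace Pool.Agent.P.MP_ab0431_ag.T

open Set Filter Topology Metric
open scoped Manifold ContDiff

namespace LIFTa

/-- A square in `Ω` can be replaced by a square in `Z` that agrees with it over `Z`. -/
theorem core {Ω Z : Set V} {Y : Type} [MetricSpace Y] {π : Ω → Y} {U : Y → ℝ}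
    (cov : IsCoveringMap π) (hZ : ∀ w : Ω, w.1 ∈ Z ↔ U (π w) = 0) (hD : Def U)
    (g : Sq → V) (hg : Continuous g) (hm : ∀ x, g x ∈ Ω) :
    ∃ g' : C(Sq, Z), ∀ x, g x ∈ Z → (g' x).1 = g x := by
  let g0 : C(Sq, Ω) := ⟨fun x => ⟨g x, hm x⟩, hg.subtype_mk _⟩
  let f : C(Sq, Y) := ⟨π ∘ g0, cov.continuous.comp g0.continuous⟩
  obtain ⟨f', ⟨F⟩, h0⟩ := hD f
  have F0 : ∀ a, F.toContinuousMap (0, a) = π (g0 a) := fun a => F.apply_zero a
  let L := cov.liftHomotopy F.toContinuousMap g0 F0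
  have hL : ∀ t a, π (L (t, a)) = F (t, a) := fun t a =>
    congr_fun (cov.liftHomotopy_lifts F.toContinuousMap g0 F0) (t, a)
  have hc : Continuous fun a : Sq => (L (1, a)).1 :=
    continuous_subtype_val.comp (L.continuous.comp (Continuous.prodMk_right 1))
  refine ⟨⟨fun a => ⟨(L (1, a)).1, (hZ _).2 ?_⟩, hc.subtype_mk _⟩, fun a ha => ?_⟩
  · rw [hL, F.apply_one]
    exact h0 a
  · have ha' : a ∈ {x | U (f x) = 0} := (hZ (g0 a)).1 ha
    have := cov.const_of_comp (g := fun t => L (t, a))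
      (L.continuous.comp (Continuous.prodMk_left a))
      (fun t t' => by rw [hL, hL]; exact (F.eq_fst t ha').trans (F.eq_fst t' ha').symm) 1 0
    change (L (1, a)).1 = _
    rw [this, cov.liftHomotopy_zero]
    rfl

theorem seg {Ω : Set V} (h : Convex ℝ Ω) {x y : V} (hx : x ∈ Ω) (hy : y ∈ Ω) (t : unitInterval) :
    (1 - (t : ℝ)) • x + (t : ℝ) • y ∈ Ω :=
  h hx hy (sub_nonneg.2 t.2.2) t.2.1 (sub_add_cancel _ _)

end LIFTa

theorem p_LIFT :
    S_LIFT := by
  intro Ω Z Y _ π U hΩ ⟨w, hw⟩ cov hZΩ hZ hD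
  refine simply_connected_iff_paths_homotopic'.2 ⟨⟨?_, fun x y => ?_⟩, fun {x y} p q => ?_⟩
  · obtain ⟨g, -⟩ := LIFTa.core cov hZ hD (fun _ => w) continuous_const fun _ => hw
    exact ⟨g (0, 0)⟩
  · obtain ⟨g, hg⟩ := LIFTa.core cov hZ hD (fun a => (1 - (a.2 : ℝ)) • x.1 + (a.2 : ℝ) • y.1)
      (by fun_prop) fun a => LIFTa.seg hΩ (hZΩ x.2) (hZΩ y.2) a.2
    refine ⟨⟨⟨fun s => g (0, s), g.continuous.comp (Continuous.prodMk_right 0)⟩,
      Subtype.ext ?_, Subtype.ext ?_⟩⟩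
    · simpa using hg (0, 0) (by simp)
    · simpa using hg (0, 1) (by simp)
  · obtain ⟨g, hg⟩ := LIFTa.core cov hZ hD
      (fun a => (1 - (a.1 : ℝ)) • (p a.2).1 + (a.1 : ℝ) • (q a.2).1)
      (by fun_prop) fun a => LIFTa.seg hΩ (hZΩ (p a.2).2) (hZΩ (q a.2).2) a.1
    refine ⟨⟨⟨g, fun s => Subtype.ext ?_, fun s => Subtype.ext ?_⟩, fun t s hs => Subtype.ext ?_⟩⟩
    · simpa using hg (0, s) (by simp)
    · simpa using hg (1, s) (by simp)
    · rcases hs with rfl | rfl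
      · have e : (1 - (t : ℝ)) • x.1 + (t : ℝ) • x.1 = x.1 := by
          rw [← add_smul, sub_add_cancel, one_smul]
        simpa [e] using hg (t, 0) (by simp [e])
      · have e : (1 - (t : ℝ)) • y.1 + (t : ℝ) • y.1 = y.1 := by
          rw [← add_smul, sub_add_cancel, one_smul]
        simpa [e] using hg (t, 1) (by simp [e])

end Pool.Agent.P.MP_ab0431_ag.T

end

section

/-! Step LEF. -/


namespace Pool.Agent.P.MP_ab0431_ag.T

open Set Filter Topology Metric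
open scoped Manifold ContDiff

theorem p_LEF (hIFT : S_IFT) (hNEG : S_NEG) (hPLH : S_PLH) (hPUSH : S_PUSH) (hTUBE : S_TUBE) (hGLOB : S_GLOB) (hYSP : S_YSP) (hLIFT : S_LIFT) :
    S_LEF := by
  rintro G _ h Φ c hc hΦ hpsh hinv ⟨H, hH, hfree⟩
  let A := h.toAct.res H
  have hPD : A.PD := fun K L hK hK' hL hL' =>
    ((h.pd K L hK hK' hL hL').preimage Subtype.val_injective.injOn).subset fun g hg => hg
  obtain ⟨Y, _, _, π, hcov, hsur, hfib, hch⟩ := hYSP H A hPD fun w hw g e =>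
    Subtype.ext (hfree g g.2 w hw e)
  let U0 : V → ℝ := fun w => ‖h.s w‖ * Real.exp (-(c * Φ w))
  have hU0 : ∀ g, ∀ w ∈ h.Ω, U0 (h.a g w) = U0 w := by
    intro g w hw
    simp only [U0]
    rw [h.aut g w hw, norm_mul, ← hinv g w hw]
    ring
  let U : Y → ℝ := fun y => U0 (Function.surjInv hsur y).1
  have hUπ : ∀ w, U (π w) = U0 w.1 := by
    intro w
    obtain ⟨g, hg⟩ := hfib w (Function.surjInv hsur (π w)) (Function.surjInv_eq hsur _).symm
    simp only [U]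
    rw [← hg]
    exact hU0 g w.1 w.2
  have hUe : ∀ e : OpenPartialHomeomorph Y V, (∀ z ∈ e.source, ∃ h : e z ∈ A.Ω, π ⟨e z, h⟩ = z) →
      ∀ z ∈ e.source, U z = U0 (e z) := fun e he z hz => by
    obtain ⟨h1, h2⟩ := he z hz
    exact (congrArg U h2).symm.trans (hUπ _)
  have h0 : ∀ z, 0 ≤ U z := fun z => mul_nonneg (norm_nonneg _) (Real.exp_pos _).le
  have cU0 : ContinuousOn U0 h.Ω := h.shol.continuousOn.norm.mul
    (Real.continuous_exp.comp_continuousOn (continuousOn_const.mul hΦ.continuousOn).neg)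
  have hcont : Continuous U := by
    rw [continuous_iff_continuousAt]
    intro y
    obtain ⟨e, hy, he⟩ := hch y
    have : ContinuousOn (U0 ∘ e) e.source := cU0.comp e.continuousOn fun z hz => (he z hz).1
    exact (this.congr fun z hz => hUe e he z hz).continuousAt (e.open_source.mem_nhds hy)
  have hz0 : ∀ w, U0 w = 0 ↔ h.s w = 0 := fun w => by simp [U0]
  refine hLIFT h.Ω h.Zs Y π U h.cvx h.ne hcov (fun w hw => hw.1) (fun w => ?_)
    (hGLOB Y U hcont h0 (fun y hy => ?_) fun y hy => ?_)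
  · exact ⟨fun k => (hUπ w).trans ((hz0 _).2 k.2), fun k => ⟨w.2, (hz0 _).1 ((hUπ w).symm.trans k)⟩⟩
  · obtain ⟨e, hye, he⟩ := hch y
    have hO : IsOpen (h.Ω ∩ h.s ⁻¹' {0}ᶜ) :=
      h.shol.continuousOn.isOpen_inter_preimage h.op isOpen_compl_singleton
    obtain ⟨h1, h2⟩ := hPLH _ h.s Φ c hO (h.shol.mono inter_subset_left) (fun z hz => hz.2)
      (hΦ.mono inter_subset_left)
    have hyO : e y ∈ h.Ω ∩ h.s ⁻¹' {0}ᶜ := ⟨(he y hye).1, fun e0 =>
      hy.ne' ((hUe e he y hye).trans ((hz0 _).2 e0))⟩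
    obtain ⟨ι, hι⟩ := hNEG (fderiv ℝ (fderiv ℝ fun z => Real.log ‖h.s z‖ - c * Φ z) (e y))
      fun v hv => (h2 _ hyO v).trans_lt (neg_neg_of_pos (mul_pos hc (hpsh _ hyO.1 v hv)))
    refine hPUSH Y U (e.trans (OpenPartialHomeomorph.ofSet _ hO)) y _ ι ⟨hye, hyO⟩
      (h1.mono fun z hz => hz.1) h0 (fun z hz => ?_) hι
    have hs : h.s (e z) ≠ 0 := hz.2.2
    rw [hUe e he z hz.1]
    change _ = Real.exp (Real.log ‖h.s (e z)‖ - c * Φ (e z))
    rw [sub_eq_add_neg, Real.exp_add, Real.exp_log (norm_pos_iff.2 hs)]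
  · obtain ⟨e, hye, he⟩ := hch y
    have hw : e y ∈ h.Ω := (he y hye).1
    obtain ⟨L, F, h1, -, h2, -⟩ := hIFT.2 h.Ω h.s (e y) h.op h.shol hw
      (h.reg _ hw ((hz0 _).1 ((hUe e he y hye).symm.trans hy)))
    refine hTUBE Y U (e.trans F) y ⟨hye, h1⟩ hcont h0 hy fun z hz => ?_
    rw [hUe e he z hz.1, hz0]
    change _ ↔ (F (e z)).1 = 0
    rw [h2]

end Pool.Agent.P.MP_ab0431_ag.T

end

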