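import Pool.Agent.P.MP_ab0431_ag.B.Base

section

/-! Step TRANS. -/


namespace Pool.Agent.P.MP_ab0431_ag.T

open Set Filter Topology Metric
open scoped Manifold ContDiff

namespace TRANSa

theorem det_block (j : ℂ) (b : C2) (T : C2 →ₗ[ℂ] C2) (N : V →ₗ[ℂ] V)
    (hN : ∀ c v, N (c, v) = (j * c, c • b + T v)) : N.det = j * T.det := by
  let b1 := Module.Basis.singleton Unit ℂ
  let b2 := Pi.basisFun ℂ (Fin 2)
  have e : LinearMap.toMatrix (b1.prod b2) (b1.prod b2) N =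
      Matrix.fromBlocks (Matrix.of fun _ _ => j) 0 (Matrix.of fun i _ => b i)
        (LinearMap.toMatrix b2 b2 T) := by
    ext (i | i) (k | k) <;> simp [LinearMap.toMatrix_apply, b1, b2, hN]
  rw [← LinearMap.det_toMatrix (b1.prod b2), e, Matrix.det_fromBlocks_zero₁₂,
    LinearMap.det_toMatrix]
  simp

theorem alg (σ σ' : V →L[ℂ] ℂ) (L L' : V →L[ℂ] C2) (D : V →L[ℂ] V) (E : C2 →L[ℂ] V) (j : ℂ)
    (hd : (σ.prod L).det ≠ 0) (h1 : ∀ v, σ (E v) = 0) (h2 : ∀ v, L (E v) = v)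
    (h3 : ∀ x, σ' (D x) = j * σ x) :
    (L'.comp (D.comp E)).det * (j * (σ.prod L).det) = D.det * (σ'.prod L').det := by
  have hs : Function.Surjective (σ.prod L) :=
    (LinearMap.equivOfDetNeZero (σ.prod L : V →ₗ[ℂ] V) hd).surjective
  obtain ⟨b, hb⟩ := hs (1, 0)
  have hb1 : σ b = 1 := congrArg Prod.fst hb
  have hb2 : L b = 0 := congrArg Prod.snd hb
  let K : V →ₗ[ℂ] V := (LinearMap.toSpanSingleton ℂ V b).coprod (E : C2 →ₗ[ℂ] V)
  have hK : ∀ c v, K (c, v) = c • b + E v := fun c v => by simp [K]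
  have e1 : ((σ.prod L : V →ₗ[ℂ] V) ∘ₗ K).det = 1 * (LinearMap.id : C2 →ₗ[ℂ] C2).det :=
    det_block 1 0 _ _ fun c v => by simp [hK, h1, h2, hb1, hb2]
  have e2 : ((σ'.prod L' : V →ₗ[ℂ] V) ∘ₗ (D : V →ₗ[ℂ] V) ∘ₗ K).det =
      j * (L'.comp (D.comp E) : C2 →ₗ[ℂ] C2).det :=
    det_block j (L' (D b)) _ _ fun c v => by simp [hK, h3, h1, hb1, mul_comm]
  rw [LinearMap.det_comp, LinearMap.det_id] at e1
  rw [LinearMap.det_comp, LinearMap.det_comp] at e2
  simp only [ContinuousLinearMap.det]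
  linear_combination (-(σ.prod L : V →ₗ[ℂ] V).det) * e2 +
    (D : V →ₗ[ℂ] V).det * (σ'.prod L' : V →ₗ[ℂ] V).det * e1

end TRANSa

theorem p_TRANS (hIFT : S_IFT) :
    S_TRANS := by
  intro G _ h P P' g u hu u' hu' e
  have hw := P.mem u hu
  have hw' := P'.mem u' hu'
  have nW := P.op.mem_nhds hu
  have nΩ := h.op.mem_nhds hw.1
  have nΩ' := h.op.mem_nhds hw'.1
  have dθ := P.hol.differentiableAt nW
  have dθ' := P'.hol.differentiableAt (P'.op.mem_nhds hu')
  have da := h.toAct.diffAt g hw.1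
  have ds := h.shol.differentiableAt nΩ
  have ds' := h.shol.differentiableAt nΩ'
  have c1 : Tendsto (fun v => h.a g (P.θ v)) (𝓝 u) (𝓝 (P'.θ u')) :=
    e ▸ (da.comp u dθ).continuousAt
  have c2 : Tendsto (fun v => P'.L (h.a g (P.θ v))) (𝓝 u) (𝓝 u') := by
    have := (P'.L.continuous.tendsto _).comp c1
    rwa [P'.inv u' hu'] at this
  constructor
  · obtain ⟨F, hF, -, hf, -⟩ := hIFT.1 h.Ω (fun z => (h.s z, P'.L z)) (P'.θ u') h.op
      (h.shol.prodMk P'.L.differentiable.differentiableOn) hw'.1 (by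
        rw [(ds'.hasFDerivAt.prodMk P'.L.hasFDerivAt).fderiv]
        exact P'.det u' hu')
    have nF := F.open_source.mem_nhds hF
    filter_upwards [nW, c1 nF, c2 (P'.op.mem_nhds hu'), (dθ'.continuousAt.tendsto.comp c2) nF]
      with v h1 h2 h3 h4
    refine ⟨h3, F.injOn h4 h2 ?_⟩
    rw [hf, hf, Function.comp_apply, P'.inv _ h3, (P'.mem _ h3).2, h.aut g _ (P.mem v h1).1, (P.mem v h1).2, mul_zero]
  · have f1 : HasFDerivAt (fun v => h.s (P.θ v)) (0 : C2 →L[ℂ] ℂ) u :=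
      (hasFDerivAt_const (0 : ℂ) u).congr_of_eventuallyEq
        (eventually_of_mem nW fun v hv => (P.mem v hv).2)
    have f2 : HasFDerivAt (fun v => P.L (P.θ v)) (ContinuousLinearMap.id ℂ C2) u :=
      (hasFDerivAt_id u).congr_of_eventuallyEq (eventually_of_mem nW fun v hv => P.inv v hv)
    have g1 := (ds.hasFDerivAt.comp u dθ.hasFDerivAt).unique f1
    have g2 := (P.L.hasFDerivAt.comp u dθ.hasFDerivAt).unique f2
    have dj := (h.jhol g).differentiableAt nΩ
    have f3 := (dj.hasFDerivAt.mul ds.hasFDerivAt).congr_of_eventuallyEq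
      (f₁ := fun z => h.s (h.a g z)) (eventually_of_mem nΩ fun z hz => h.aut g z hz)
    have g3 := (HasFDerivAt.comp (P.θ u) (f := h.a g) (e ▸ ds'.hasFDerivAt) da.hasFDerivAt).unique f3
    have f4 : HasFDerivAt (fun v => P'.L (h.a g (P.θ v))) _ u :=
      P'.L.hasFDerivAt.comp u (da.hasFDerivAt.comp u dθ.hasFDerivAt)
    rw [f4.fderiv]
    refine TRANSa.alg _ _ _ _ _ _ _ (P.det u hu) (fun v => ?_) (fun v => ?_) fun x => ?_
    · exact DFunLike.congr_fun g1 v
    · exact DFunLike.congr_fun g2 v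
    · have := DFunLike.congr_fun g3 x
      simpa [hw.2, e] using this

end Pool.Agent.P.MP_ab0431_ag.T

end

section

/-! Step CHART. -/


namespace Pool.Agent.P.MP_ab0431_ag.T

open Set Filter Topology Metric
open scoped Manifold ContDiff

namespace CHARTa

variable {G : Type} [Group G] {h : Hyp G} {L : V →L[ℂ] C2} {F : OpenPartialHomeomorph V V}

theorem mem_Zs (h1 : F.source ⊆ h.Ω) (h2 : ∀ z, F z = (h.s z, L z)) {u : C2}
    (hu : ((0 : ℂ), u) ∈ F.target) : F.symm (0, u) ∈ h.Zs ∧ L (F.symm (0, u)) = u := by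
  have e := F.right_inv hu
  rw [h2] at e
  exact ⟨⟨h1 (F.map_target hu), congrArg Prod.fst e⟩, congrArg Prod.snd e⟩

theorem F_val (h2 : ∀ z, F z = (h.s z, L z)) (x : h.Z) : F x.1 = (0, L x.1) := by
  rw [h2, x.2.2]

open Classical in
/-- The inverse of the chart. -/
noncomputable def iv (z : h.Z) (F : OpenPartialHomeomorph V V) (u : C2) : h.Z :=
  if hu : F.symm (0, u) ∈ h.Zs then (⟨_, hu⟩ : h.Zs) else z

theorem iv_val (z : h.Z) {u : C2} (m : F.symm (0, u) ∈ h.Zs) : (iv z F u).1 = F.symm (0, u) :=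
  congrArg Subtype.val (dif_pos m : iv z F u = _)

/-- The chart on the zero set. -/
noncomputable def bb (z : h.Z) (h1 : F.source ⊆ h.Ω) (h2 : ∀ z, F z = (h.s z, L z)) :
    OpenPartialHomeomorph h.Z C2 where
  toFun x := L x.1
  invFun := iv z F
  source := {x | x.1 ∈ F.source}
  target := {u | ((0 : ℂ), u) ∈ F.target}
  map_source' x hx := by
    have := F.map_source hx
    rwa [F_val h2] at this
  map_target' u hu := by
    show (iv z F u).1 ∈ F.source
    rw [iv_val z (mem_Zs h1 h2 hu).1]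
    exact F.map_target hu
  left_inv' x hx := by
    have e : F.symm (0, L x.1) = x.1 := by rw [← F_val h2]; exact F.left_inv hx
    have m : F.symm (0, L x.1) ∈ h.Zs := by rw [e]; exact x.2
    exact Subtype.ext ((iv_val z m).trans e)
  right_inv' u hu := by
    show L (iv z F u).1 = u
    rw [iv_val z (mem_Zs h1 h2 hu).1]
    exact (mem_Zs h1 h2 hu).2
  continuousOn_toFun := (L.continuous.comp continuous_subtype_val).continuousOn
  continuousOn_invFun := by
    refine (IsInducing.subtypeVal (t := h.Zs)).continuousOn_iff.2 ?_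
    exact (F.continuousOn_symm.comp (continuous_const.prodMk continuous_id).continuousOn
      fun u hu => hu).congr fun u hu => iv_val z (mem_Zs h1 h2 hu).1
  open_source := F.open_source.preimage continuous_subtype_val
  open_target := F.open_target.preimage (continuous_const.prodMk continuous_id)

theorem bb_symm (z : h.Z) (h1 : F.source ⊆ h.Ω) (h2 : ∀ z, F z = (h.s z, L z)) {u : C2}
    (hu : ((0 : ℂ), u) ∈ F.target) :
    (bb z h1 h2).symm u = ⟨F.symm (0, u), (mem_Zs h1 h2 hu).1⟩ :=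
  Subtype.ext (iv_val z (mem_Zs h1 h2 hu).1)

end CHARTa

open CHARTa in
theorem p_CHART (hIFT : S_IFT) :
    S_CHART := by
  intro G _ h H x
  obtain ⟨z, rfl⟩ : ∃ z, h.cl H z = x := Quotient.exists_rep x
  obtain ⟨q, hz, hq⟩ := (h.cl_cov H).isCoveringMap.isLocalHomeomorph z
  obtain ⟨L, F, m, h1, h2, h3, h4⟩ := hIFT.2 h.Ω h.s z.1 h.op h.shol z.2.1 (h.reg _ z.2.1 z.2.2)
  have tg : ∀ u ∈ (q.symm.trans (bb z h1 h2)).target, ((0 : ℂ), u) ∈ F.target := fun u hu => hu.1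
  refine ⟨q.symm.trans (bb z h1 h2), ⟨⟨(q.symm.trans (bb z h1 h2)).target,
    fun u => F.symm (0, u), L, OpenPartialHomeomorph.open_target _, ?_,
    fun u hu => (mem_Zs h1 h2 (tg u hu)).1, fun u hu => (mem_Zs h1 h2 (tg u hu)).2,
    fun u hu => h4 _ (F.map_target (tg u hu))⟩, rfl, fun u hu => ?_⟩, ?_⟩
  · exact h3.comp ((differentiableOn_const _).prodMk differentiableOn_id) tg
  · show q ((bb z h1 h2).symm u) = _
    rw [bb_symm z h1 h2 (tg u hu), hq]
  · rw [hq]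
    refine ⟨q.map_source hz, ?_⟩
    show q.symm (q z) ∈ (bb z h1 h2).source
    rw [q.left_inv hz]
    exact m

end Pool.Agent.P.MP_ab0431_ag.T

end

section

/-! Step MFD. -/


namespace Pool.Agent.P.MP_ab0431_ag.T

open Set Filter Topology Metric
open scoped Manifold ContDiff

namespace MFDa

theorem key (hTRANS : S_TRANS) {G : Type} [Group G] (h : Hyp G) {H H' : Subgroup G}
    (p : h.Q H → h.Q H') (hp : ∀ x, p (h.cl H x) = h.cl H' x)
    {e : OpenPartialHomeomorph (h.Q H) C2} {e' : OpenPartialHomeomorph (h.Q H') C2}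
    {P P' : h.Par} (he : h.Fits H e P) (he' : h.Fits H' e' P') {u : C2} (hu : u ∈ e.target)
    (hs : p (e.symm u) ∈ e'.source) : DifferentiableAt ℂ (fun v => e' (p (e.symm v))) u := by
  have hu1 : u ∈ P.W := he.1 ▸ hu
  have hu2 : e' (p (e.symm u)) ∈ P'.W := he'.1 ▸ e'.map_source hs
  have h1 := he'.2 _ hu2
  rw [e'.left_inv hs] at h1
  have h2 : p (e.symm u) = h.cl H' ⟨P.θ u, P.mem u hu1⟩ := by rw [he.2 u hu1, hp]
  obtain ⟨g, hg, hgx⟩ := (h.cl_eq H' _ _).1 (h1.symm.trans h2)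
  have h3 : h.a g (P.θ u) = P'.θ (e' (p (e.symm u))) := congrArg Subtype.val hgx
  have h4 := (hTRANS G h P P' g u hu1 _ hu2 h3).1
  have h5 : (fun v => e' (p (e.symm v))) =ᶠ[𝓝 u] fun v => P'.L (h.a g (P.θ v)) := by
    filter_upwards [h4, P.op.mem_nhds hu1] with v hv hv1
    have h6 : p (e.symm v) = e'.symm (P'.L (h.a g (P.θ v))) := by
      rw [he.2 v hv1, hp, he'.2 _ hv.1]
      exact ((h.cl_eq H' _ _).2 ⟨g, hg, Subtype.ext hv.2.symm⟩).symm
    rw [h6, e'.right_inv (he'.1 ▸ hv.1)]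
  refine DifferentiableAt.congr_of_eventuallyEq ?_ h5
  exact P'.L.differentiableAt.comp u ((h.toAct.diffAt g (P.mem u hu1).1).comp u
    (P.hol.differentiableAt (P.op.mem_nhds hu1)))

end MFDa

theorem p_MFD (hTRANS : S_TRANS) :
    S_MFD := by
  intro G _ h H c c'
  constructor
  · let _ := h.cs H c
    refine isManifold_of_contDiffOn _ _ _ fun e e' ⟨P, he⟩ ⟨P', he'⟩ => ?_
    simp only [modelWithCornersSelf_coe, modelWithCornersSelf_coe_symm, preimage_id_eq, id_eq,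
      range_id, inter_univ, Function.id_comp, Function.comp_id]
    refine AnalyticOnNhd.contDiffOn
      (MP_f17f76_ag.E.analyticOnNhd_of_diffOn (e.symm ≫ₕ e').open_source fun u hu => ?_)
      (e.symm ≫ₕ e').open_source.uniqueDiffOn
    exact (MFDa.key hTRANS h id (fun _ => rfl) he he' hu.1 hu.2).differentiableWithinAt
  · let _ := h.cs H c
    let _ := h.cs ⊤ c'
    intro x
    have hc : Continuous (h.pr H) := Continuous.quotient_lift (h.cl_cov ⊤).continuous _
    refine (mdifferentiableAt_iff _ _).2 ⟨hc.continuousAt, ?_⟩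
    obtain ⟨P, he⟩ := chart_mem_atlas C2 x
    obtain ⟨P', he'⟩ := chart_mem_atlas C2 (h.pr H x)
    have := MFDa.key hTRANS h (h.pr H) (fun _ => rfl) he he' (mem_chart_target C2 x)
      (by rw [(chartAt C2 x).left_inv (mem_chart_source C2 x)]; exact mem_chart_source C2 _)
    exact this.differentiableWithinAt

end Pool.Agent.P.MP_ab0431_ag.T

end

section

/-! Step KAMP. -/


namespace Pool.Agent.P.MP_ab0431_ag.T

open Set Filter Topology Metric
open scoped Manifold ContDiff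

namespace KAMPa

variable {G : Type} [Group G] {h : Hyp G} {H : Subgroup G}

theorem th_diff (P : h.Par) {u : C2} (hu : u ∈ P.W) : DifferentiableAt ℂ P.θ u :=
  P.hol.differentiableAt (P.op.mem_nhds hu)

theorem dd_diff (P : h.Par) {u : C2} (hu : u ∈ P.W) : DifferentiableAt ℂ P.dd u := by
  have h1 : DifferentiableAt ℂ (fun u => fderiv ℂ h.s (P.θ u)) u :=
    ((Pool.Agent.P.MP_f17f76_ag.E.diffOn_fderiv h.op h.shol).differentiableAt
      (h.op.mem_nhds (P.mem u hu).1)).comp u (th_diff P hu)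
  have e : (fun u => (fderiv ℂ h.s (P.θ u)).prod P.L) = fun u =>
      (ContinuousLinearMap.inl ℂ ℂ C2).comp (fderiv ℂ h.s (P.θ u)) +
        (ContinuousLinearMap.inr ℂ ℂ C2).comp P.L := by
    funext v
    refine ContinuousLinearMap.ext fun w => ?_
    simp
  refine diffAt_det (M := fun u => (fderiv ℂ h.s (P.θ u)).prod P.L) ?_
  rw [e]
  exact ((differentiableAt_const _).clm_comp h1).add (differentiableAt_const _)

theorem mem_W {e : OpenPartialHomeomorph (h.Q H) C2} {P : h.Par} (f : h.Fits H e P) {x : h.Q H}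
    (hx : x ∈ e.source) : e x ∈ P.W := f.1 ▸ e.map_source hx

theorem eq_cl {e : OpenPartialHomeomorph (h.Q H) C2} {P : h.Par} (f : h.Fits H e P) {x : h.Q H}
    (hx : x ∈ e.source) : x = h.cl H ⟨P.θ (e x), P.mem _ (mem_W f hx)⟩ := by
  rw [← f.2 _ (mem_W f hx), e.left_inv hx]

theorem coc (hT : S_TRANS) {e e' : OpenPartialHomeomorph (h.Q H) C2} {P P' : h.Par}
    (f : h.Fits H e P) (f' : h.Fits H e' P') {x : h.Q H} (hx : x ∈ e.source)
    (hx' : x ∈ e'.source) : ∃ g ∈ H, h.a g (P.θ (e x)) = P'.θ (e' x) ∧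
      (fderiv ℂ (e' ∘ e.symm) (e x)).det * (h.j g (P.θ (e x)) * P.dd (e x)) =
        h.toAct.jac g (P.θ (e x)) * P'.dd (e' x) := by
  obtain ⟨g, hg, e1⟩ := (h.cl_eq H _ _).1 ((eq_cl f' hx').symm.trans (eq_cl f hx))
  have e2 : h.a g (P.θ (e x)) = P'.θ (e' x) := congrArg (·.1) e1
  obtain ⟨h1, h2⟩ := hT G h P P' g _ (mem_W f hx) _ (mem_W f' hx') e2
  refine ⟨g, hg, e2, ?_⟩
  rw [← h2]
  congr 2
  refine EventuallyEq.fderiv_eq ?_
  filter_upwards [h1, P.op.mem_nhds (mem_W f hx)] with v hv hw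
  have e3 : e.symm v = e'.symm (P'.L (h.a g (P.θ v))) := by
    rw [f.2 v hw, f'.2 _ hv.1]
    exact ((h.cl_eq H _ _).2 ⟨g, hg, Subtype.ext hv.2.symm⟩).symm
  rw [Function.comp_apply, e3, e'.right_inv (f'.1 ▸ hv.1)]

end KAMPa

open KAMPa in
theorem p_KAMP (hTRANS : S_TRANS) :
    S_KAMP := by
  intro G _ h H _ c ⟨m, N, t, hm, ht, hE⟩
  classical
  let σ : Fin N → OpenPartialHomeomorph (h.Q H) C2 → C2 → ℂ := fun i e u =>
    if f : ∃ P, h.Fits H e P then t i (f.choose.θ u) * (f.choose.dd u)⁻¹ ^ m else 0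
  have hσ : ∀ e : OpenPartialHomeomorph (h.Q H) C2, (∃ P, h.Fits H e P) → ∃ P, h.Fits H e P ∧
      ∀ i, σ i e = fun u => t i (P.θ u) * (P.dd u)⁻¹ ^ m := fun e f =>
    ⟨f.choose, f.choose_spec, fun i => funext fun u => dif_pos f⟩
  have htd : ∀ i (P : h.Par) u, u ∈ P.W → DifferentiableAt ℂ (t i) (P.θ u) := fun i P u hu =>
    (ht i).1.differentiableAt (h.op.mem_nhds (P.mem u hu).1)
  have hdd : ∀ (P : h.Par) u, u ∈ P.W → DifferentiableAt ℂ (fun u => (P.dd u)⁻¹ ^ m) u :=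
    fun P u hu => ((dd_diff P hu).inv (P.det u hu)).pow m
  refine ⟨m, N, σ, hm, fun i => ⟨fun e he => ?_, fun e he e' he' x hx => ?_⟩,
    fun e he x hx => ?_⟩
  · obtain ⟨P, f, e1⟩ := hσ e he
    rw [e1, f.1]
    exact fun u hu => (((htd i P u hu).comp u (th_diff P hu)).mul
      (hdd P u hu)).differentiableWithinAt
  · obtain ⟨P, f, e1⟩ := hσ e he
    obtain ⟨P', f', e1'⟩ := hσ e' he'
    obtain ⟨g, hg, e2, e3⟩ := coc hTRANS f f' hx.1 hx.2
    have hu := mem_W f hx.1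
    have hu' := mem_W f' hx.2
    have hw := (P.mem _ hu).1
    have e4 : t i (h.a g (P.θ (e x))) =
        (h.j g (P.θ (e x)) / h.toAct.jac g (P.θ (e x))) ^ m * t i (P.θ (e x)) :=
      (ht i).2 ⟨g, hg⟩ _ hw
    have n1 : P.dd (e x) ≠ 0 := P.det _ hu
    have n2 : P'.dd (e' x) ≠ 0 := P'.det _ hu'
    have n3 := h.jne g _ hw
    have n4 := h.toAct.jac_ne g hw
    have e5 : (P.dd (e x))⁻¹ = h.j g (P.θ (e x)) / h.toAct.jac g (P.θ (e x)) *
        (P'.dd (e' x))⁻¹ * (fderiv ℂ (e' ∘ e.symm) (e x)).det := by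
      field_simp
      linear_combination -e3
    rw [e1, e1']
    simp only
    rw [← e2, e4, e5, mul_pow, mul_pow]
    ring
  · obtain ⟨P, f, e1⟩ := hσ e he
    have hu := mem_W f hx
    obtain ⟨⟨i, hi⟩, h2, h3⟩ := hE _ (P.mem _ hu)
    have n1 : (P.dd (e x))⁻¹ ^ m ≠ 0 := pow_ne_zero _ (inv_ne_zero (P.det _ hu))
    refine ⟨⟨i, by rw [e1]; exact mul_ne_zero hi n1⟩, fun v c hv => ?_,
      fun e' he' y hy c hc => ?_⟩
    · have h4 : fderiv ℂ P.θ (e x) v = 0 := by
        refine h2 _ (c - fderiv ℂ (fun u => (P.dd u)⁻¹ ^ m) (e x) v / (P.dd (e x))⁻¹ ^ m)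
          fun i => ?_
        have h5 := hv i
        have h6 := (((htd i P _ hu).hasFDerivAt.comp _ (th_diff P hu).hasFDerivAt).mul
          (hdd P _ hu).hasFDerivAt).fderiv
        rw [e1] at h5
        erw [h6] at h5
        simp only [add_apply, smul_apply, smul_eq_mul,
          ContinuousLinearMap.comp_apply, Function.comp_apply] at h5
        refine mul_left_cancel₀ n1 ?_
        rw [sub_mul, mul_sub, div_mul_eq_mul_div, mul_div_cancel₀ _ n1]
        linear_combination h5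
      have h7 : (P.L ∘ P.θ) =ᶠ[𝓝 (e x)] id :=
        eventually_of_mem (P.op.mem_nhds hu) fun u hu => P.inv u hu
      have h8 := (P.L.hasFDerivAt.comp _ (th_diff P hu).hasFDerivAt).fderiv
      rw [h7.fderiv_eq, fderiv_id] at h8
      have h9 := congrArg (· v) h8
      simpa [h4] using h9
    · obtain ⟨P', f', e1'⟩ := hσ e' he'
      have hu' := mem_W f' hy
      obtain ⟨g, hg⟩ := h3 _ (P'.mem _ hu') (c * (P'.dd (e' y))⁻¹ ^ m / (P.dd (e x))⁻¹ ^ m)
        fun i => by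
          have h5 := hc i
          rw [e1, e1'] at h5
          refine mul_left_cancel₀ n1 ?_
          rw [div_mul_eq_mul_div, mul_div_cancel₀ _ n1]
          linear_combination h5
      refine (eq_cl f hx).trans (Eq.trans ?_ (eq_cl f' hy).symm)
      exact ((h.cl_eq H ⟨_, P'.mem _ hu'⟩ ⟨_, P.mem _ hu⟩).2 ⟨g, g.2, Subtype.ext hg⟩).symm

end Pool.Agent.P.MP_ab0431_ag.T

end

section

/-! Step COV. -/


namespace Pool.Agent.P.MP_ab0431_ag.T

open Set Filter Topology Metric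
open scoped Manifold ContDiff

namespace COVa

variable {G : Type} [Group G] (h : Hyp G) (H : Subgroup G)

theorem cl_surj : Function.Surjective (h.cl H) := Quotient.mk_surjective

theorem cpt [H.FiniteIndex] : CompactSpace (h.Q H) := by
  obtain ⟨F, hF, h1, h2⟩ := (h.toAct.res H).cc
  have hK : IsCompact (F ∩ h.s ⁻¹' {0}) :=
    hF.of_isClosed_subset ((h.shol.continuousOn.mono h1).preimage_isClosed_of_isClosed
      hF.isClosed isClosed_singleton) inter_subset_left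
  have hK' : IsCompact {x : h.Z | x.1 ∈ F} := by
    refine (IsEmbedding.subtypeVal (p := fun w => w ∈ h.Zs)).isCompact_iff.2 ?_
    convert hK using 1
    ext w
    constructor
    · rintro ⟨x, hx, rfl⟩
      exact ⟨hx, x.2.2⟩
    · rintro ⟨hw, hs⟩
      exact ⟨⟨w, h1 hw, hs⟩, hw, rfl⟩
  refine ⟨(hK'.image (h.cl_cov H).continuous).of_isClosed_subset isClosed_univ fun y _ => ?_⟩
  obtain ⟨x, rfl⟩ := cl_surj h H y
  obtain ⟨g, hg⟩ := h2 x.1 x.2.1
  exact ⟨(g : G) • x, hg, (h.cl_eq H _ _).2 ⟨g, g.2, rfl⟩⟩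

theorem loc : IsLocalHomeomorph (h.pr H) := by
  have h1 := (h.cl_cov H).isCoveringMap.isLocalHomeomorph
  have h2 : IsLocalHomeomorph (h.pr H ∘ h.cl H) := (h.cl_cov ⊤).isCoveringMap.isLocalHomeomorph
  have := (h2.isLocalHomeomorphOn (s := univ)).of_comp_right h1.isLocalHomeomorphOn
  rwa [image_univ, (cl_surj h H).range_eq, ← isLocalHomeomorph_iff_isLocalHomeomorphOn_univ] at this

theorem fib (x : h.Q ⊤) : Nat.card (h.pr H ⁻¹' {x}) = H.index := by
  obtain ⟨z, rfl⟩ := cl_surj h ⊤ x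
  let φ : G ⧸ H → h.pr H ⁻¹' {h.cl ⊤ z} := fun q =>
    ⟨h.cl H (q.out⁻¹ • z), (h.cl_eq ⊤ _ _).2 ⟨_, trivial, rfl⟩⟩
  refine (Nat.card_eq_of_bijective φ ⟨fun q q' e => ?_, fun ⟨y, hy⟩ => ?_⟩).symm
  · obtain ⟨k, hk, e⟩ := (h.cl_eq H _ _).1 (congrArg Subtype.val e)
    rw [← mul_smul] at e
    have e' := IsCancelSMul.right_cancel _ _ _ e
    rw [← q.out_eq', ← q'.out_eq', QuotientGroup.eq, ← e', inv_mul_cancel_right]
    exact hk
  · obtain ⟨w, rfl⟩ := cl_surj h H y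
    obtain ⟨g, -, rfl⟩ := (h.cl_eq ⊤ w z).1 hy
    refine ⟨(g⁻¹ : G), Subtype.ext ((h.cl_eq H _ _).2
      ⟨_, QuotientGroup.eq.1 (QuotientGroup.out_eq' ((g⁻¹ : G) : G ⧸ H)), ?_⟩)⟩
    rw [mul_smul, inv_smul_smul]

end COVa

theorem p_COV :
    S_COV := by
  intro G _ h H _ _
  have := COVa.cpt h H
  obtain ⟨z⟩ : Nonempty h.Z := inferInstance
  exact ⟨inferInstance, this, (COVa.cl_surj h H).connectedSpace (h.cl_cov H).continuous,
    isLocalHomeomorph_iff_isCoveringMap.1 (COVa.loc h H), COVa.fib h H, h.cl H z,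
    ⟨((h.cl_cov H).fundamentalGroupEquiv ⟨z, rfl⟩).trans (MulEquiv.inv' H).symm⟩⟩

end Pool.Agent.P.MP_ab0431_ag.T

end

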