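import Pool.Agent.P.MP_ab0431_ag.B.Base

section

/-! Step NZ. -/


namespace Pool.Agent.P.MP_ab0431_ag.T

open Set Filter Topology Metric
open scoped Manifold ContDiff

theorem p_NZ :
    S_NZ := by
  intro g ε hε
  have c : Continuous fun p : ℝ × ℝ =>
      g (projIcc 0 1 zero_le_one p.1, projIcc 0 1 zero_le_one p.2) :=
    g.continuous.comp ((continuous_projIcc.comp continuous_fst).prodMk
      (continuous_projIcc.comp continuous_snd))
  obtain ⟨h, h1, h2, -⟩ := c.exists_contDiff_approx 1 (ε := fun _ => ε / 2) continuous_const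
    fun _ => half_pos hε
  have d : Dense (range h)ᶜ := ContDiff.dense_compl_range_of_finrank_lt_finrank h1 (by simp)
  obtain ⟨v, hv, hv'⟩ := d.exists_dist_lt 0 (half_pos hε)
  refine ⟨⟨fun x => h (x.1, x.2) - v, (h1.continuous.comp (by fun_prop)).sub continuous_const⟩,
    fun x => ⟨fun e => hv ⟨_, sub_eq_zero.1 e⟩, ?_⟩⟩
  have a := h2 (x.1, x.2)
  simp only [projIcc_val, dist_eq_norm] at a
  rw [dist_zero_left] at hv'
  calc ‖h (x.1, x.2) - v - g x‖ = ‖(h (x.1, x.2) - g x) - v‖ := by congr 1; abel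
    _ ≤ ‖h (x.1, x.2) - g x‖ + ‖v‖ := norm_sub_le _ _
    _ < ε := by linarith

end Pool.Agent.P.MP_ab0431_ag.T

end

section

/-! Step NEG. -/


namespace Pool.Agent.P.MP_ab0431_ag.T

open Set Filter Topology Metric
open scoped Manifold ContDiff

namespace NEGa

theorem sq_sum {d k : ℕ} (B : LinearMap.BilinForm ℝ V) (e : Fin d → V) (he : B.IsOrthoᵢ e)
    (m : Fin k ↪ Fin d) (c : Fin k → ℝ) :
    B (∑ j, c j • e (m j)) (∑ j, c j • e (m j)) = ∑ j, c j ^ 2 * B (e (m j)) (e (m j)) := by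
  simp only [map_sum, LinearMap.sum_apply, map_smul, LinearMap.smul_apply, smul_eq_mul]
  refine Finset.sum_congr rfl fun j _ => ?_
  rw [Finset.sum_eq_single j (fun i _ hij => by
    rw [LinearMap.isOrthoᵢ_def.1 he _ _ (m.injective.ne hij), mul_zero]) (by simp)]
  ring

theorem exists_emb {d k : ℕ} (S : Finset (Fin d)) (h : k ≤ S.card) :
    ∃ m : Fin k ↪ Fin d, ∀ j, m j ∈ S := by
  obtain ⟨f, hf⟩ := Function.Embedding.exists_of_card_le_finset (α := Fin k) (s := S)
    (by simpa using h)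
  exact ⟨f, fun j => hf ⟨j, rfl⟩⟩

theorem finrank_V : Module.finrank ℝ V = 6 := by
  simp [Module.finrank_prod, Module.finrank_pi_fintype]

end NEGa

open NEGa in
theorem p_NEG :
    S_NEG := by
  classical
  intro Q hQ
  let B : LinearMap.BilinForm ℝ V := LinearMap.mk₂ ℝ (fun x y => Q x y + Q y x)
    (fun x x' y => by simp only [map_add, add_apply]; ring)
    (fun a x y => by simp only [map_smul, smul_apply, smul_eq_mul]; ring)
    (fun x y y' => by simp only [map_add, add_apply]; ring)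
    (fun a x y => by simp only [map_smul, smul_apply, smul_eq_mul]; ring)
  have hB : ∀ v, B v v = 2 * Q v v := fun v => by simp only [B, LinearMap.mk₂_apply]; ring
  obtain ⟨e, he⟩ := LinearMap.BilinForm.exists_orthogonal_basis (B := B)
    ⟨fun x y => by simp only [B, LinearMap.mk₂_apply, RingHom.id_apply]; ring⟩
  let S : Finset (Fin (Module.finrank ℝ V)) := Finset.univ.filter fun i => 0 ≤ B (e i) (e i)
  by_cases hS : 4 ≤ S.card
  · exfalso
    obtain ⟨m, hm⟩ := exists_emb S hS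
    let φ : (Fin 4 → ℝ) →ₗ[ℝ] V := Fintype.linearCombination ℝ fun j => e (m j)
    have hφ : ∀ c, φ c = ∑ j, c j • e (m j) := fun c => Fintype.linearCombination_apply _ _ _
    have hinj : ∀ c, φ c = 0 → c = 0 := fun c hc => by
      have := Fintype.linearIndependent_iff.1 (e.linearIndependent.comp m m.injective) c
        (by rw [hφ] at hc; exact hc)
      exact funext this
    have hpos : ∀ c, 0 ≤ Q (φ c) (φ c) := fun c => by
      have h1 : 0 ≤ B (φ c) (φ c) := by
        rw [hφ, sq_sum B e he]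
        exact Finset.sum_nonneg fun j _ =>
          mul_nonneg (sq_nonneg _) (Finset.mem_filter.1 (hm j)).2
      rw [hB] at h1
      linarith
    let J : V →ₗ[ℝ] V := (LinearMap.lsmul ℂ V Complex.I).restrictScalars ℝ
    let ψ : (Fin 4 → ℝ) × (Fin 4 → ℝ) →ₗ[ℝ] V := (J ∘ₗ φ).coprod (-φ)
    have hk : LinearMap.ker ψ ≠ ⊥ := LinearMap.ker_ne_bot_of_finrank_lt (by
      rw [finrank_V]; simp [Module.finrank_prod])
    obtain ⟨⟨a, b⟩, hab, hne⟩ := (Submodule.ne_bot_iff _).1 hk
    have h0 : Complex.I • φ a = φ b := by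
      have : Complex.I • φ a + -φ b = 0 := hab
      exact sub_eq_zero.1 (by rw [sub_eq_add_neg]; exact this)
    have ha : φ a ≠ 0 := fun h => by
      rw [h, smul_zero] at h0
      exact hne (Prod.ext (hinj a h) (hinj b h0.symm))
    have := hQ _ ha
    rw [h0] at this
    linarith [hpos a, hpos b]
  · have hc : 3 ≤ Sᶜ.card := by
      have := finrank_V
      rw [Finset.card_compl, Fintype.card_fin]
      omega
    obtain ⟨m, hm⟩ := exists_emb Sᶜ hc
    have hneg : ∀ j, B (e (m j)) (e (m j)) < 0 := fun j => by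
      simpa [S] using hm j
    let φ : R3 →ₗ[ℝ] V := (Fintype.linearCombination ℝ fun j => e (m j)) ∘ₗ
      (WithLp.linearEquiv 2 ℝ (Fin 3 → ℝ)).toLinearMap
    refine ⟨LinearMap.toContinuousLinearMap φ, fun n hn => ?_⟩
    have hφ : φ n = ∑ j, n j • e (m j) :=
      Fintype.linearCombination_apply ℝ (fun j => e (m j)) n.ofLp
    have h1 : B (φ n) (φ n) < 0 := by
      rw [hφ, sq_sum B e he]
      obtain ⟨j, hj⟩ : ∃ j, n j ≠ 0 := by
        by_contra h
        push Not at h
        exact hn (by ext j; simpa using h j)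
      calc _ < ∑ _j : Fin 3, (0 : ℝ) := Finset.sum_lt_sum
            (fun i _ => mul_nonpos_of_nonneg_of_nonpos (sq_nonneg _) (hneg i).le)
            ⟨j, Finset.mem_univ _, mul_neg_of_pos_of_neg (by positivity) (hneg j)⟩
        _ = 0 := by simp
    rw [hB] at h1
    change Q (φ n) (φ n) < 0
    linarith

end Pool.Agent.P.MP_ab0431_ag.T

end

section

/-! Step PLH. -/


namespace Pool.Agent.P.MP_ab0431_ag.T

open Set Filter Topology Metric
open scoped Manifold ContDiff

namespace PLHa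

open Pool.Agent.P.MP_f17f76_ag.E

theorem hess_congr {u u' : V → ℝ} {w : V} (h : u =ᶠ[𝓝 w] u') (v : V) :
    hess u w v = hess u' w v := by
  rw [hess, hess, h.fderiv.fderiv_eq]

theorem hess_sub {u u' : V → ℝ} {w : V} (c : ℝ) (h : ContDiffAt ℝ 2 u w) (h' : ContDiffAt ℝ 2 u' w)
    (v : V) : hess (fun z => u z - c * u' z) w v = hess u w v - c * hess u' w v := by
  have h1 : fderiv ℝ (fun z => u z - c * u' z) =ᶠ[𝓝 w] fun z => fderiv ℝ u z - c • fderiv ℝ u' z := by
    filter_upwards [h.eventually (by simp), h'.eventually (by simp)] with z a b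
    exact ((a.differentiableAt (by simp)).hasFDerivAt.sub
      ((b.differentiableAt (by simp)).hasFDerivAt.const_mul c)).fderiv
  have h2 := ((h.fderiv_right (m := 1) le_rfl).differentiableAt one_ne_zero).hasFDerivAt
  have h3 := ((h'.fderiv_right (m := 1) le_rfl).differentiableAt one_ne_zero).hasFDerivAt
  rw [hess, h1.fderiv_eq, (h2.fun_sub (h3.fun_const_smul c)).fderiv]
  simp [hess]

theorem hess_re {O : Set V} {h : V → ℂ} (hO : IsOpen O) (hh : DifferentiableOn ℂ h O) {w : V}
    (hw : w ∈ O) (v : V) :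
    hess (fun z => (h z).re) w v = (fderiv ℂ (fderiv ℂ h) w v v).re := by
  let R : (V →L[ℂ] ℂ) →L[ℝ] V →L[ℝ] ℝ := (ContinuousLinearMap.compL ℝ V ℂ ℝ Complex.reCLM).comp
    (ContinuousLinearMap.restrictScalarsL ℂ V ℂ ℝ ℝ)
  have h1 : fderiv ℝ (fun z => (h z).re) =ᶠ[𝓝 w] fun z => R (fderiv ℂ h z) := by
    filter_upwards [hO.mem_nhds hw] with z hz
    exact (Complex.reCLM.hasFDerivAt.comp z
      ((hh.differentiableAt (hO.mem_nhds hz)).hasFDerivAt.restrictScalars ℝ)).fderiv
  have h2 := ((diffOn_fderiv hO hh).differentiableAt (hO.mem_nhds hw)).hasFDerivAt.restrictScalars ℝ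
  rw [hess, h1.fderiv_eq]
  exact congrArg (fun M => M v v) (R.hasFDerivAt.comp w h2).fderiv

theorem loc {U : Set V} {s : V → ℂ} (hU : IsOpen U) (hs : DifferentiableOn ℂ s U)
    (h0 : ∀ z ∈ U, s z ≠ 0) {w : V} (hw : w ∈ U) :
    ContDiffAt ℝ 2 (fun z => Real.log ‖s z‖) w ∧ ∀ v, levi (fun z => Real.log ‖s z‖) w v = 0 := by
  have hO : IsOpen (U ∩ (fun z => s z / s w) ⁻¹' Complex.slitPlane) :=
    (hs.continuousOn.div_const _).isOpen_inter_preimage hU Complex.isOpen_slitPlane
  have hw' : w ∈ U ∩ (fun z => s z / s w) ⁻¹' Complex.slitPlane :=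
    ⟨hw, by simp [div_self (h0 w hw)]⟩
  have hh : DifferentiableOn ℂ (fun z => Complex.log (s z / s w) + (Real.log ‖s w‖ : ℝ))
      (U ∩ (fun z => s z / s w) ⁻¹' Complex.slitPlane) :=
    fun z hz => (((Complex.differentiableAt_log hz.2).comp z (((hs.differentiableAt
      (hU.mem_nhds hz.1)).mul_const (s w)⁻¹))).add_const _).differentiableWithinAt
  have h1 : (fun z => Real.log ‖s z‖) =ᶠ[𝓝 w]
      fun z => (Complex.log (s z / s w) + (Real.log ‖s w‖ : ℝ)).re := by
    filter_upwards [hU.mem_nhds hw] with z hz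
    rw [Complex.add_re, Complex.log_re, Complex.ofReal_re, norm_div,
      Real.log_div (norm_ne_zero_iff.2 (h0 z hz)) (norm_ne_zero_iff.2 (h0 w hw)), sub_add_cancel]
  refine ⟨ContDiffAt.congr_of_eventuallyEq (Complex.reCLM.contDiff.contDiffAt.comp w
    (((contDiffOn_of_diffOn hO 2 hh).contDiffAt (hO.mem_nhds hw')).restrict_scalars ℝ)) h1,
    fun v => ?_⟩
  rw [levi, hess_congr h1, hess_congr h1, hess_re hO hh hw', hess_re hO hh hw']
  simp

end PLHa

theorem p_PLH :
    S_PLH := by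
  intro U s Φ c hU hs h0 hΦ
  refine ⟨fun w hw => (PLHa.loc hU hs h0 hw).1.contDiffWithinAt.sub (contDiffWithinAt_const.mul
    (hΦ w hw)), fun w hw v => ?_⟩
  obtain ⟨h1, h2⟩ := PLHa.loc hU hs h0 hw
  have h3 := hΦ.contDiffAt (hU.mem_nhds hw)
  have h4 := h2 v
  rw [levi] at h4
  rw [levi, levi, PLHa.hess_sub c h1 h3, PLHa.hess_sub c h1 h3]
  linarith

end Pool.Agent.P.MP_ab0431_ag.T

end

section

/-! Step PUSH. -/


namespace Pool.Agent.P.MP_ab0431_ag.T

open Set Filter Topology Metric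
open scoped Manifold ContDiff

namespace PUSHa

theorem anti {f f' : ℝ → ℝ} {s : ℝ} (h : ∀ t ∈ Icc 0 s, HasDerivAt f (f' t) t)
    (h' : ∀ t ∈ Icc 0 s, f' t ≤ 0) {t : ℝ} (ht : t ∈ Icc 0 s) : f t ≤ f 0 :=
  antitoneOn_of_deriv_nonpos (convex_Icc 0 s)
    (fun x hx => (h x hx).continuousAt.continuousWithinAt)
    (fun x hx => (h x (interior_subset hx)).differentiableAt.differentiableWithinAt)
    (fun x hx => by rw [(h x (interior_subset hx)).deriv]; exact h' x (interior_subset hx))
    ⟨le_rfl, ht.1.trans ht.2⟩ ht ht.1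

theorem taylor {O : Set V} {u : V → ℝ} (hO : IsOpen O) (hu : ContDiffOn ℝ 2 u O) {q w : V}
    {s c : ℝ} (hs : 0 ≤ s) (h : ∀ t ∈ Icc 0 s, q + t • w ∈ O ∧ hess u (q + t • w) w ≤ -c) :
    u (q + s • w) ≤ u q + s * fderiv ℝ u q w - c * s ^ 2 / 2 := by
  have h1 : ContDiffOn ℝ 1 (fderiv ℝ u) O := hu.fderiv_of_isOpen hO (by norm_num)
  have hl : ∀ t : ℝ, HasDerivAt (fun t : ℝ => q + t • w) w t := fun t => by
    simpa using ((hasDerivAt_id t).smul_const w).const_add q
  have d1 : ∀ t ∈ Icc 0 s, HasDerivAt (fun t : ℝ => fderiv ℝ u (q + t • w) w + c * t)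
      (hess u (q + t • w) w + c) t := fun t ht => by
    have a := ((h1.differentiableOn (by norm_num)).differentiableAt
      (hO.mem_nhds (h t ht).1)).hasFDerivAt.comp_hasDerivAt t (hl t)
    have b := (a.clm_apply (hasDerivAt_const t w)).add ((hasDerivAt_id t).const_mul c)
    simp only [map_zero, add_zero, mul_one] at b
    exact b
  have d0 : ∀ t ∈ Icc 0 s, HasDerivAt
      (fun t : ℝ => u (q + t • w) + c * t ^ 2 / 2 - t * fderiv ℝ u q w)
      (fderiv ℝ u (q + t • w) w + c * t - fderiv ℝ u q w) t := fun t ht => by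
    have a := ((hu.differentiableOn (by norm_num)).differentiableAt
      (hO.mem_nhds (h t ht).1)).hasFDerivAt.comp_hasDerivAt t (hl t)
    have b := (a.add (((hasDerivAt_pow 2 t).const_mul c).div_const 2)).sub
      ((hasDerivAt_id t).mul_const (fderiv ℝ u q w))
    refine b.congr_deriv ?_
    simp only [Nat.cast_ofNat, Nat.add_one_sub_one, pow_one, one_mul]
    ring
  have k := anti d0 (fun t ht => by
    have := anti d1 (fun t ht => by linarith [(h t ht).2]) ht
    simp only [zero_smul, add_zero, mul_zero] at this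
    linarith) (right_mem_Icc.2 hs)
  simp only [zero_smul, add_zero] at k
  nlinarith

theorem neg {O : Set V} {u : V → ℝ} (hO : IsOpen O) (hu : ContDiffOn ℝ 2 u O) {p : V}
    (hp : p ∈ O) (ι : R3 →L[ℝ] V) (h : ∀ n ≠ 0, hess u p (ι n) < 0) :
    ∃ R > 0, ∃ c > 0, ∀ q ∈ closedBall p R, q ∈ O ∧ ∀ n, ‖n‖ = 1 → hess u q (ι n) ≤ -c := by
  have h1 : ContDiffOn ℝ 1 (fderiv ℝ u) O := hu.fderiv_of_isOpen hO (by norm_num)
  have h2 : ContinuousAt (fderiv ℝ (fderiv ℝ u)) p :=
    (h1.continuousOn_fderiv_of_isOpen hO le_rfl).continuousAt (hO.mem_nhds hp)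
  have h3 : ∀ n : R3, ContinuousAt (fun z : V × R3 => hess u z.1 (ι z.2)) (p, n) := fun n =>
    have a : ContinuousAt (fun z : V × R3 => ι z.2) (p, n) := by fun_prop
    ((h2.comp_of_eq continuousAt_fst rfl).clm_apply a).clm_apply a
  obtain ⟨n₀, hn₀, hm⟩ := (isCompact_sphere (0 : R3) 1).exists_isMaxOn
    (NormedSpace.sphere_nonempty.2 zero_le_one) (f := fun n => hess u p (ι n))
    fun n _ => ((h3 n).comp_of_eq (f := fun n : R3 => (p, n)) (by fun_prop) rfl).continuousWithinAt
  have h0 : hess u p (ι n₀) < 0 := h n₀ fun e => by simp [e] at hn₀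
  have h4 := (isCompact_sphere (0 : R3) 1).eventually_forall_of_forall_eventually (x₀ := p)
    (P := fun q n => hess u q (ι n) < hess u p (ι n₀) / 2) fun n hn =>
      (h3 n).eventually_lt continuousAt_const (by
        have : hess u p (ι n) ≤ hess u p (ι n₀) := hm hn
        simp only
        linarith)
  obtain ⟨R, hR, h5⟩ := nhds_basis_closedBall.eventually_iff.1 (h4.and (hO.mem_nhds hp))
  exact ⟨R, hR, -hess u p (ι n₀) / 2, by linarith, fun q hq => ⟨(h5 hq).2, fun n hn => by
    have := (h5 hq).1 n (by simpa using hn)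
    linarith⟩⟩

theorem glue {X Y Z : Type} [TopologicalSpace X] [TopologicalSpace Y] [TopologicalSpace Z]
    {f : X → Y} (hf : Continuous f) {S W : Set Y} (hS : IsClosed S) (hW : IsOpen W) (hSW : S ⊆ W)
    {F G : X → Z} (h1 : ContinuousOn F (f ⁻¹' W)) (h2 : Continuous G)
    (h3 : ∀ x, f x ∉ S → F x = G x) : Continuous F := by
  refine continuous_iff_continuousAt.2 fun x => ?_
  by_cases hx : f x ∈ S
  · exact h1.continuousAt ((hW.preimage hf).mem_nhds (hSW hx))
  · exact h2.continuousAt.congr (eventually_of_mem ((hS.isOpen_compl.preimage hf).mem_nhds hx)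
      fun z hz => (h3 z hz).symm)

theorem bump {Y : Type} [MetricSpace Y] (y : Y) {r : ℝ} (hr : 0 < r) :
    ∃ β : Y → ℝ, Continuous β ∧ (∀ z, β z ∈ Icc (0 : ℝ) 1) ∧ (∀ z, dist z y < r → β z = 1) ∧
      ∀ z, z ∉ closedBall y (2 * r) → β z = 0 := by
  refine ⟨fun z => max 0 (min 1 (2 - dist z y / r)), by fun_prop,
    fun z => ⟨le_max_left _ _, max_le zero_le_one (min_le_left _ _)⟩, fun z hz => ?_,
    fun z hz => ?_⟩
  · have := (div_lt_one hr).2 hz
    simp only [min_eq_left (show (1 : ℝ) ≤ 2 - dist z y / r by linarith), max_eq_right zero_le_one]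
  · have := (lt_div_iff₀ hr).2 (not_le.1 hz)
    exact max_eq_left ((min_le_right _ _).trans (by linarith))

theorem dir (hNZ : S_NZ) (g : C(Sq, R3)) {ε : ℝ} (hε : 0 < ε) :
    ∃ n : Sq → R3, Continuous n ∧ ∀ x, ‖n x‖ = 1 ∧ inner ℝ (g x) (n x) ≤ ε := by
  obtain ⟨g', h⟩ := hNZ g ε hε
  have h1 : ∀ x, ‖(-‖g' x‖⁻¹) • g' x‖ = 1 := fun x => by
    rw [norm_smul, norm_neg, norm_inv, norm_norm, inv_mul_cancel₀ (norm_ne_zero_iff.2 (h x).1)]
  refine ⟨fun x => (-‖g' x‖⁻¹) • g' x, (g'.continuous.norm.inv₀ fun x =>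
    norm_ne_zero_iff.2 (h x).1).neg.smul g'.continuous, fun x => ⟨h1 x, ?_⟩⟩
  have a := real_inner_le_norm (g x - g' x) ((-‖g' x‖⁻¹) • g' x)
  have b : inner ℝ (g' x) ((-‖g' x‖⁻¹) • g' x) ≤ 0 := by
    rw [real_inner_smul_right]
    exact mul_nonpos_of_nonpos_of_nonneg (neg_nonpos.2 (by positivity)) real_inner_self_nonneg
  rw [h1, mul_one, inner_sub_left, norm_sub_rev] at a
  linarith [(h x).2]

end PUSHa

open PUSHa in
theorem p_PUSH (hNZ : S_NZ) :
    S_PUSH := by
  classical
  intro Y _ U e y u ι hy hu hU0 hU hn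
  obtain ⟨R, hR, c, hc, hK⟩ := neg e.open_target hu (e.map_source hy) ι hn
  obtain ⟨r2, hr2, hS⟩ := nhds_basis_closedBall.mem_iff.1
    ((e.isOpen_inter_preimage (isOpen_ball (x := e y) (ε := R / 2))).mem_nhds
      ⟨hy, mem_ball_self (half_pos hR)⟩)
  have hr := half_pos hr2
  obtain ⟨β, hβ, hβ0, hβ1, hβ2⟩ := bump y hr
  rw [show 2 * (r2 / 2) = r2 by ring] at hβ2
  refine ⟨_, hr, fun η hη => ?_⟩
  obtain ⟨δ, hδ, hd⟩ := Metric.uniformContinuousOn_iff.1
    ((isCompact_closedBall (e y) R).uniformContinuousOn_of_continuous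
      (e.continuousOn_symm.mono fun q hq => (hK q hq).1)) η hη
  obtain ⟨ρ, hρ, hρ1⟩ : ∃ ρ > 0, ρ * ‖ι‖ < min (R / 2) δ := by
    have h0 : 0 < min (R / 2) δ := lt_min (half_pos hR) hδ
    refine ⟨min (R / 2) δ / (‖ι‖ + 1), by positivity, ?_⟩
    rw [div_mul_eq_mul_div, div_lt_iff₀ (by positivity)]
    nlinarith
  have hv : ∀ n : R3, ‖n‖ = 1 → ∀ s ∈ Icc 0 ρ, ‖s • ι n‖ < min (R / 2) δ := fun n h s hs => by
    have := ι.le_opNorm n
    rw [h, mul_one] at this
    rw [norm_smul, Real.norm_of_nonneg hs.1]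
    exact (mul_le_mul hs.2 this (norm_nonneg _) hρ.le).trans_lt hρ1
  have hb : ∀ z ∈ closedBall y r2, ∀ n : R3, ‖n‖ = 1 → ∀ s ∈ Icc 0 ρ,
      e z + s • ι n ∈ closedBall (e y) R := fun z hz n h s hs => by
    have a : dist (e z) (e y) < R / 2 := (hS hz).2
    have b := dist_triangle (e z + s • ι n) (e z) (e y)
    rw [dist_self_add_left] at b
    exact b.trans (by linarith [(hv n h s hs).trans_le (min_le_left _ _)])
  have hs : ∀ t ∈ Icc (0 : ℝ) 1, ∀ z, t * (ρ * β z) ∈ Icc 0 ρ := fun t ht z =>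
    ⟨mul_nonneg ht.1 (mul_nonneg hρ.le (hβ0 z).1), (mul_le_of_le_one_left
      (mul_nonneg hρ.le (hβ0 z).1) ht.2).trans (mul_le_of_le_one_right hρ.le (hβ0 z).2)⟩
  have hm : ∀ z ∈ e.source, ∀ n : R3, ‖n‖ = 1 → ∀ t ∈ Icc (0 : ℝ) 1,
      e z + (t * (ρ * β z)) • ι n ∈ e.target := fun z hz n h t ht => by
    by_cases h1 : z ∈ closedBall y r2
    · exact (hK _ (hb z h1 n h _ (hs t ht z))).1
    · simpa [hβ2 z h1] using e.map_source hz
  have hq : 0 < c * ρ ^ 2 / 4 := by positivity
  refine ⟨Real.exp (-(c * ρ ^ 2 / 4)), Real.exp_lt_one_iff.2 (neg_lt_zero.2 hq), fun l hl f => ?_⟩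
  have hSW : closedBall y r2 ⊆ e.source := fun z hz => (hS hz).1
  have hef : ContinuousOn (fun x => e (f x)) (f ⁻¹' e.source) :=
    e.continuousOn.comp f.continuous.continuousOn fun _ h => h
  have hg : Continuous fun x => β (f x) •
      (InnerProductSpace.toDual ℝ R3).symm ((fderiv ℝ u (e (f x))).comp ι) := by
    refine glue f.continuous isClosed_closedBall e.open_source hSW ?_ (continuous_const (y := 0))
      fun x hx => by rw [hβ2 _ hx, zero_smul]
    exact (hβ.comp f.continuous).continuousOn.smul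
      ((InnerProductSpace.toDual ℝ R3).symm.continuous.comp_continuousOn
        (((hu.continuousOn_fderiv_of_isOpen e.open_target (by norm_num)).comp hef
          fun x hx => e.map_source hx).clm_comp continuousOn_const))
  have hm0 : 0 < min (Real.log l) (c * ρ ^ 2 / 4) := lt_min (Real.log_pos hl) hq
  obtain ⟨n, hnc, hn1⟩ := dir hNZ ⟨_, hg⟩ (div_pos hm0 hρ)
  let P : unitInterval × Sq → Y := fun z => if f z.2 ∈ e.source then
    e.symm (e (f z.2) + ((z.1 : ℝ) * (ρ * β (f z.2))) • ι (n z.2)) else f z.2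
  have hP0 : ∀ z, (z.1 : ℝ) * (ρ * β (f z.2)) = 0 → P z = f z.2 := fun z h => by
    simp only [P, h, zero_smul, add_zero]
    split_ifs with h1
    · exact e.left_inv h1
    · rfl
  have hP1 : ∀ z, f z.2 ∉ closedBall y r2 → P z = f z.2 := fun z h =>
    hP0 z (by rw [hβ2 _ h, mul_zero, mul_zero])
  have hP : Continuous P := by
    have a : Continuous fun z : unitInterval × Sq => f z.2 := by fun_prop
    refine glue a isClosed_closedBall e.open_source hSW ?_ a hP1
    refine (e.continuousOn_symm.comp ((hef.comp continuous_snd.continuousOn fun _ h => h).add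
      (Continuous.continuousOn (f := fun z : unitInterval × Sq =>
        ((z.1 : ℝ) * (ρ * β (f z.2))) • ι (n z.2)) (by fun_prop)))
      fun z hz => hm _ hz _ (hn1 _).1 _ z.1.2).congr fun z hz => if_pos hz
  refine ⟨⟨fun x => P (1, x), by fun_prop⟩, ⟨⟨⟨⟨⟨P, hP⟩, fun x => hP0 _ (zero_mul _),
    fun x => rfl⟩, fun t x hx => if_neg fun h => ?_⟩⟩, fun x => ?_⟩, fun x => ?_⟩
  · exact (Real.exp_pos _).ne' ((hU _ h).symm.trans hx)
  · by_cases h : f x ∈ closedBall y r2
    · have a := hd _ (hb _ h _ (hn1 x).1 0 ⟨le_rfl, hρ.le⟩) _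
        (hb _ h _ (hn1 x).1 _ (hs 1 ⟨zero_le_one, le_rfl⟩ (f x))) (by
          rw [zero_smul, add_zero, dist_self_add_right]
          exact (hv _ (hn1 x).1 _ (hs 1 ⟨zero_le_one, le_rfl⟩ _)).trans_le (min_le_right _ _))
      rw [zero_smul, add_zero, e.left_inv (hSW h)] at a
      exact (congrArg _ (if_pos (hSW h))).trans_le a.le
    · exact (congrArg _ (hP1 (1, x) h)).trans_le (by simpa using hη.le)
  · change U (P (1, x)) ≤ _ ∧ (_ → U (P (1, x)) ≤ _)
    by_cases h : f x ∈ closedBall y r2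
    · have a := hm _ (hSW h) _ (hn1 x).1 1 ⟨zero_le_one, le_rfl⟩
      have b : P (1, x) = e.symm (e (f x) + (1 * (ρ * β (f x))) • ι (n x)) := if_pos (hSW h)
      have k := hs 1 ⟨zero_le_one, le_rfl⟩ (f x)
      have d := taylor e.open_target hu k.1 (c := c) fun t ht =>
        have := hK _ (hb _ h _ (hn1 x).1 t ⟨ht.1, ht.2.trans k.2⟩)
        ⟨this.1, this.2 _ (hn1 x).1⟩
      have i := (le_div_iff₀ hρ).1 (hn1 x).2
      simp only [ContinuousMap.coe_mk, real_inner_smul_left, InnerProductSpace.toDual_symm_apply,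
        ContinuousLinearMap.comp_apply] at i
      rw [b, hU _ (e.map_target a), e.right_inv a, hU _ (hSW h), ← Real.exp_log (zero_lt_one.trans hl),
        ← Real.exp_add, ← Real.exp_add, Real.exp_le_exp, Real.exp_le_exp]
      refine ⟨?_, fun hx => ?_⟩
      · nlinarith [min_le_left (Real.log l) (c * ρ ^ 2 / 4),
          mul_nonneg hc.le (sq_nonneg (1 * (ρ * β (f x))))]
      · rw [hβ1 _ hx] at d i ⊢
        nlinarith [min_le_right (Real.log l) (c * ρ ^ 2 / 4)]
    · rw [hP1 (1, x) h]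
      exact ⟨le_mul_of_one_le_left (hU0 _) hl.le, fun hx => (h (hx.trans (half_lt_self hr2)).le).elim⟩

end Pool.Agent.P.MP_ab0431_ag.T

end

section

/-! Step TUBE. -/


namespace Pool.Agent.P.MP_ab0431_ag.T

open Set Filter Topology Metric
open scoped Manifold ContDiff

namespace TUBEa

/-- The cut-off function. -/
noncomputable def bt (p : V) (R : ℝ) (v : V) : ℝ := max 0 (min 1 (2 - 4 * dist v p / R))

theorem bt_cont (p : V) (R : ℝ) : Continuous (bt p R) := by
  unfold bt
  fun_prop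

theorem bt_nonneg (p : V) (R : ℝ) (v : V) : 0 ≤ bt p R v := le_max_left _ _

theorem bt_le (p : V) (R : ℝ) (v : V) : bt p R v ≤ 1 :=
  max_le zero_le_one (min_le_left _ _)

theorem bt_one {p : V} {R : ℝ} (hR : 0 < R) {v : V} (h : dist v p < R / 4) : bt p R v = 1 := by
  have : 4 * dist v p / R ≤ 1 := by
    rw [div_le_one hR]
    linarith
  rw [bt, min_eq_left (by linarith), max_eq_right zero_le_one]

theorem bt_zero {p : V} {R : ℝ} (hR : 0 < R) {v : V} (h : R / 2 < dist v p) : bt p R v = 0 := by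
  have : 2 ≤ 4 * dist v p / R := by
    rw [le_div_iff₀ hR]
    linarith
  exact max_eq_left ((min_le_right _ _).trans (by linarith))

/-- The contraction of the first coordinate. -/
noncomputable def ct (p : V) (R t : ℝ) (v : V) : V :=
  (((1 - t * bt p R v : ℝ) : ℂ) * v.1, v.2)

theorem ct_cont (p : V) (R : ℝ) : Continuous fun x : ℝ × V => ct p R x.1 x.2 := by
  have := bt_cont p R
  unfold ct
  fun_prop

theorem ct_dist {p : V} (hp : p.1 = 0) (R : ℝ) {t : ℝ} (h0 : 0 ≤ t) (h1 : t ≤ 1) (v : V) :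
    dist (ct p R t v) p ≤ dist v p := by
  have a := bt_nonneg p R v
  have b := bt_le p R v
  have c : t * bt p R v ≤ 1 := mul_le_one₀ h1 a b
  have d : 0 ≤ t * bt p R v := mul_nonneg h0 a
  rw [Prod.dist_eq, Prod.dist_eq]
  refine max_le_max ?_ le_rfl
  rw [hp, dist_zero_right, dist_zero_right, ct, norm_mul, Complex.norm_real, Real.norm_eq_abs,
    abs_of_nonneg (by linarith)]
  nlinarith [norm_nonneg v.1]

theorem ct_near (p : V) (R : ℝ) (v : V) : dist v (ct p R 1 v) ≤ ‖v.1‖ := by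
  have a := bt_nonneg p R v
  have b := bt_le p R v
  rw [Prod.dist_eq]
  refine max_le ?_ (by simp [ct])
  have : v.1 - (ct p R 1 v).1 = ((bt p R v : ℝ) : ℂ) * v.1 := by
    simp only [ct]
    push_cast
    ring
  rw [dist_eq_norm, this, norm_mul, Complex.norm_real, Real.norm_eq_abs, abs_of_nonneg a]
  nlinarith [norm_nonneg v.1]

theorem ct_fix {p : V} {R t : ℝ} {v : V} (h : t = 0 ∨ bt p R v = 0 ∨ v.1 = 0) :
    ct p R t v = v := by
  rcases h with h | h | h <;> exact Prod.ext (by simp [ct, h]) rfl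

variable {Y : Type} [MetricSpace Y]

open Classical in
/-- The isotopy on the space. -/
noncomputable def kk (e : OpenPartialHomeomorph Y V) (p : V) (R : ℝ) (x : unitInterval × Y) : Y :=
  if x.2 ∈ e.source ∧ e x.2 ∈ ball p R then e.symm (ct p R x.1 (e x.2)) else x.2

theorem kk_fix (e : OpenPartialHomeomorph Y V) (p : V) (R : ℝ) (x : unitInterval × Y)
    (h : x.2 ∈ e.source → (x.1 : ℝ) = 0 ∨ bt p R (e x.2) = 0 ∨ (e x.2).1 = 0) :
    kk e p R x = x.2 := by
  unfold kk
  split_ifs with h1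
  · rw [ct_fix (h h1.1), e.left_inv h1.1]
  · rfl

theorem kk_cont (e : OpenPartialHomeomorph Y V) {p : V} (hp : p.1 = 0) {R : ℝ} (hR : 0 < R)
    (hb : closedBall p R ⊆ e.target) : Continuous (kk e p R) := by
  have hW : IsOpen (e.source ∩ e ⁻¹' ball p R) := e.isOpen_inter_preimage isOpen_ball
  have hs : closedBall p (R / 2) ⊆ e.target :=
    (closedBall_subset_closedBall (by linarith)).trans hb
  have hS : IsClosed (e.symm '' closedBall p (R / 2)) :=
    ((isCompact_closedBall p (R / 2)).image_of_continuousOn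
      (e.continuousOn_symm.mono hs)).isClosed
  refine continuous_iff_continuousAt.2 fun x => ?_
  by_cases h : x.2 ∈ e.source ∧ e x.2 ∈ ball p R
  · have h1 : ContinuousAt (fun x : unitInterval × Y => ((x.1 : ℝ), e x.2)) x :=
      (continuous_subtype_val.comp continuous_fst).continuousAt.prodMk
        ((e.continuousAt h.1).comp continuousAt_snd)
    have h2 : ct p R x.1 (e x.2) ∈ e.target :=
      hb (mem_closedBall.2 ((ct_dist hp R x.1.2.1 x.1.2.2 _).trans (mem_ball.1 h.2).le))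
    have h3 : ContinuousAt (fun x : unitInterval × Y => ct p R x.1 (e x.2)) x :=
      ContinuousAt.comp (g := fun x : ℝ × V => ct p R x.1 x.2) (ct_cont p R).continuousAt h1
    refine (ContinuousAt.comp (g := e.symm)
      (f := fun x : unitInterval × Y => ct p R x.1 (e x.2)) (e.continuousAt_symm h2) h3).congr ?_
    filter_upwards [(hW.preimage continuous_snd).mem_nhds h] with z hz
    exact (if_pos hz).symm
  · have h1 : x.2 ∉ e.symm '' closedBall p (R / 2) := by
      rintro ⟨v, hv, e1⟩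
      refine h ⟨e1 ▸ e.map_target (hs hv), ?_⟩
      rw [← e1, e.right_inv (hs hv)]
      exact mem_ball.2 ((mem_closedBall.1 hv).trans_lt (by linarith))
    refine continuousAt_snd.congr ?_
    filter_upwards [(hS.isOpen_compl.preimage continuous_snd).mem_nhds h1] with z hz
    refine (kk_fix e p R z fun h2 => .inr (.inl (bt_zero hR (not_le.1 fun h3 => ?_)))).symm
    exact hz ⟨_, mem_closedBall.2 h3, e.left_inv h2⟩

end TUBEa

open TUBEa in
theorem p_TUBE :
    S_TUBE := by
  intro Y _ U e y hy hU h0 hUy hz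
  have hp : (e y).1 = 0 := (hz y hy).1 hUy
  obtain ⟨R, hR, hb⟩ := nhds_basis_closedBall.mem_iff.1 (e.open_target.mem_nhds (e.map_source hy))
  set p := e y with hpy
  have hW : IsOpen (e.source ∩ e ⁻¹' ball p (R / 4)) := e.isOpen_inter_preimage isOpen_ball
  obtain ⟨r, hr, hrb⟩ := Metric.isOpen_iff.1 hW y ⟨hy, mem_ball_self (by linarith)⟩
  refine ⟨r, hr, fun η hη => ?_⟩
  have c1 : ContinuousOn e.symm (closedBall p R) := e.continuousOn_symm.mono hb
  have c2 : ContinuousOn (fun v => U (e.symm v)) (closedBall p R) := hU.comp_continuousOn c1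
  obtain ⟨d1, hd1, u1⟩ := Metric.uniformContinuousOn_iff.1
    ((isCompact_closedBall p R).uniformContinuousOn_of_continuous c1) η hη
  obtain ⟨d2, hd2, u2⟩ := Metric.uniformContinuousOn_iff.1
    ((isCompact_closedBall p R).uniformContinuousOn_of_continuous c2) (η / 2) (by linarith)
  have hd : 0 < min d1 d2 := lt_min hd1 hd2
  have hT : IsCompact (closedBall p R ∩ {v : V | min d1 d2 ≤ ‖v.1‖}) :=
    (isCompact_closedBall p R).inter_right (isClosed_le continuous_const (by fun_prop))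
  obtain ⟨a, ha, hab⟩ := hT.exists_forall_le' (c2.mono inter_subset_left) (a := 0) fun v hv => by
    refine (h0 _).lt_of_ne fun h => ?_
    have := (hz _ (e.map_target (hb hv.1))).1 h.symm
    rw [e.right_inv (hb hv.1)] at this
    have h2 : min d1 d2 ≤ ‖v.1‖ := hv.2
    rw [this, norm_zero] at h2
    linarith
  have hk := kk_cont e hp hR hb
  refine ⟨min (a / 2) (η / 2), lt_min (by linarith) (by linarith), fun f hf => ?_⟩
  have key : ∀ x, dist (f x) (kk e p R (1, f x)) ≤ η ∧ U (kk e p R (1, f x)) ≤ η := by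
    intro x
    have f1 := (hf x).trans (min_le_left _ _)
    have f2 := (hf x).trans (min_le_right _ _)
    unfold kk
    split_ifs with h
    · have m1 : e (f x) ∈ closedBall p R := ball_subset_closedBall h.2
      have m2 : ct p R 1 (e (f x)) ∈ closedBall p R :=
        mem_closedBall.2 ((ct_dist hp R zero_le_one le_rfl _).trans m1)
      have m3 : ‖(e (f x)).1‖ < min d1 d2 := not_le.1 fun h3 => by
        have := hab _ ⟨m1, h3⟩
        simp only [e.left_inv h.1] at this
        linarith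
      have m4 := (ct_near p R (e (f x))).trans_lt m3
      have a1 := u1 _ m1 _ m2 (m4.trans_le (min_le_left _ _))
      have a2 := u2 _ m1 _ m2 (m4.trans_le (min_le_right _ _))
      simp only [e.left_inv h.1] at a1 a2
      rw [Real.dist_eq, abs_lt] at a2
      exact ⟨a1.le, by
        have := a2.1
        simp only [Set.Icc.coe_one]
        linarith⟩
    · exact ⟨by simpa using hη.le, by linarith⟩
  refine ⟨⟨fun x => kk e p R (1, f x), hk.comp (by fun_prop)⟩, ⟨⟨⟨⟨⟨fun x => kk e p R (x.1, f x.2),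
    hk.comp (by fun_prop)⟩, fun x => ?_, fun x => rfl⟩, fun t x hx => ?_⟩⟩, fun x => (key x).1⟩,
    fun x => ⟨(key x).2, fun hx => ?_⟩⟩
  · exact kk_fix e p R (0, f x) fun _ => .inl rfl
  · exact kk_fix e p R (t, f x) fun h => .inr (.inr ((hz _ h).1 hx))
  · have h1 := hrb (mem_ball.2 hx)
    have h2 : dist (e (f x)) p < R / 4 := mem_ball.1 h1.2
    have h3 : ct p R 1 (e (f x)) ∈ e.target :=
      hb (mem_closedBall.2 ((ct_dist hp R zero_le_one le_rfl _).trans (by linarith)))
    have h4 : kk e p R (1, f x) = e.symm (ct p R 1 (e (f x))) :=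
      if_pos ⟨h1.1, mem_ball.2 (by linarith)⟩
    show U (kk e p R (1, f x)) = 0
    rw [h4, hz _ (e.map_target h3), e.right_inv h3]
    simp [ct, bt_one hR h2]

end Pool.Agent.P.MP_ab0431_ag.T

end

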