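import Pool.Agent.P.MP_ab0431_ag.B.Arith

section

/-! Step ISO. -/


namespace Pool.Agent.P.MP_ab0431_ag.T

open Set Filter Topology Metric

namespace ISOa

theorem three_dvd (q r s : ℤ) (h : q ^ 2 + r ^ 2 = 3 * s) : 3 ∣ q ∧ 3 ∣ r := by
  obtain ⟨a, ha⟩ : ∃ a, q = 3 * a ∨ q = 3 * a + 1 ∨ q = 3 * a + 2 := ⟨q / 3, by omega⟩
  obtain ⟨b, hb⟩ : ∃ b, r = 3 * b ∨ r = 3 * b + 1 ∨ r = 3 * b + 2 := ⟨r / 3, by omega⟩
  rcases ha with rfl | rfl | rfl <;> rcases hb with rfl | rfl | rfl <;> ring_nf at h <;> omega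

theorem descent (n : ℕ) : ∀ p q r : ℤ, p.natAbs ≤ n → p ^ 2 = 3 * q ^ 2 + 3 * r ^ 2 →
    p = 0 ∧ q = 0 ∧ r = 0 := by
  induction n with
  | zero =>
    intro p q r hp h
    have : p = 0 := by omega
    subst this
    refine ⟨rfl, ?_, ?_⟩ <;> nlinarith [sq_nonneg q, sq_nonneg r]
  | succ n ih =>
    intro p q r hp h
    obtain ⟨p, rfl⟩ := (three_dvd p 0 (q ^ 2 + r ^ 2) (by linarith)).1
    obtain ⟨⟨q, rfl⟩, r, rfl⟩ := three_dvd q r (p ^ 2) (by linarith)
    obtain ⟨rfl, rfl, rfl⟩ := ih p q r (by omega) (by linarith)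
    simp

theorem nil (x : O) (h : x * x = 0) : x = 0 := by
  obtain ⟨_, a, b, c, d, rfl⟩ := x
  have h1 : om a b c d * om a b c d = 0 := congrArg Subtype.val h
  have h2 : (om a b c d).det = 0 := by
    have := congrArg Matrix.det h1
    rw [Matrix.det_mul, Matrix.det_zero] at this
    exact mul_self_eq_zero.1 this
  have h3 : om a b c d + (om a b c d).adjugate = (((2 * a + d : ℤ) : ℝ)) • (1 : M2) := by
    rw [← om_trace a b c d, Matrix.adjugate_fin_two, Matrix.trace_fin_two]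
    ext i j
    fin_cases i <;> fin_cases j <;> simp [add_comm]
  have h4 : (((2 * a + d : ℤ) : ℝ)) • om a b c d = 0 := by
    have := congrArg (om a b c d * ·) h3
    simp only [mul_add, h1, Matrix.mul_adjugate, h2, zero_smul, add_zero, mul_smul_comm,
      mul_one] at this
    exact this.symm
  apply Subtype.ext
  rcases smul_eq_zero.1 h4 with h5 | h5
  · rw [om_det] at h2
    have h6 : 2 * a + d = 0 := by exact_mod_cast h5
    have h7 : a ^ 2 + b ^ 2 - 3 * c ^ 2 - d ^ 2 + a * d + b * d - 3 * c * d = 0 := by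
      exact_mod_cast h2
    obtain rfl : d = -(2 * a) := by omega
    obtain ⟨e1, e2, rfl⟩ := descent _ (b - a) (c - a) a le_rfl (by linarith)
    obtain rfl : b = 0 := by omega
    obtain rfl : c = 0 := by omega
    exact om_zero
  · exact h5

/-- The translation. -/
noncomputable def tl (H : Subgroup Gam) (l : O) : PiH H := ⟨⟨l, 1⟩, H.one_mem⟩

theorem eq_tl {H : Subgroup Gam} {p : PiH H} (h : p.1.g = 1) : p = tl H p.1.l :=
  Subtype.ext (Jac.ext rfl h)

theorem tl_add (H : Subgroup Gam) (l m : O) : tl H (l + m) = tl H l * tl H m :=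
  Subtype.ext (Jac.ext (by simp [tl, add_comm]) (by simp [tl]))

theorem crit {H : Subgroup Gam} (p : PiH H) :
    p.1.g = 1 ↔ ∀ b : PiH H, p * (b * p * b⁻¹) = b * p * b⁻¹ * p := by
  constructor
  · intro h b
    have h' : (b * p * b⁻¹).1.g = 1 := by simp [h]
    rw [eq_tl h', eq_tl h, ← tl_add, ← tl_add, add_comm]
  · intro h
    have e := congrArg (fun q : PiH H => q.1.l) (h (tl H 1))
    simp only [tl, Subgroup.coe_mul, Subgroup.coe_inv, Jac.mul_l, Jac.mul_g, Jac.inv_l, Jac.inv_g,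
      inv_one, map_one, mul_one, one_mul] at e
    have e2 : (toO p.1.g - 1) * (toO p.1.g - 1) = 0 := by
      rw [← sub_eq_zero] at e
      rw [← neg_eq_zero, ← e]
      noncomm_ring
    apply toO_inj
    rw [map_one]
    exact sub_eq_zero.1 (nil _ e2)

theorem map_g {H H' : Subgroup Gam} (α : PiH H ≃* PiH H') {p : PiH H} (h : p.1.g = 1) :
    (α p).1.g = 1 := (crit _).2 fun b => by
  obtain ⟨b, rfl⟩ := α.surjective b
  simpa only [map_mul, map_inv] using congrArg α ((crit p).1 h b)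

theorem map_tl {H H' : Subgroup Gam} (α : PiH H ≃* PiH H') (l : O) :
    α (tl H l) = tl H' (α (tl H l)).1.l := eq_tl (map_g α rfl)

theorem conj {H : Subgroup Gam} (b : PiH H) (m : O) :
    b⁻¹ * tl H m * b = tl H (m * toO b.1.g) := by
  rw [mul_assoc, inv_mul_eq_iff_eq_mul]
  exact Subtype.ext (Jac.ext (by simp [tl, add_comm]) (by simp [tl]))

/-- The additive isomorphism. -/
noncomputable def A {H H' : Subgroup Gam} (α : PiH H ≃* PiH H') : O ≃+ O where
  toFun l := (α (tl H l)).1.l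
  invFun m := (α.symm (tl H' m)).1.l
  left_inv l := by
    simp only
    rw [← map_tl, α.symm_apply_apply]
    rfl
  right_inv m := by
    simp only
    rw [← map_tl, α.apply_symm_apply]
    rfl
  map_add' l m := by
    rw [tl_add, map_mul, map_tl α l, map_tl α m, ← tl_add]
    rfl

end ISOa

open ISOa in
theorem p_ISO :
    S_ISO := by
  rintro H H' ⟨α⟩
  refine ⟨A α, fun h => ⟨(α ⟨⟨0, h.1⟩, h.2⟩).1.g, (α _).2⟩, fun h' => ?_, fun l h => ?_⟩
  · obtain ⟨p, hp⟩ := α.surjective ⟨⟨0, h'.1⟩, h'.2⟩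
    refine ⟨⟨p.1.g, p.2⟩, Subtype.ext ?_⟩
    have e : p = (⟨⟨0, p.1.g⟩, p.2⟩ : PiH H) * tl H p.1.l :=
      Subtype.ext (Jac.ext (by simp [tl]) (by simp [tl]))
    have e2 := congrArg (fun q : PiH H' => q.1.g) hp
    rw [e, map_mul] at e2
    simpa [map_g α (p := tl H p.1.l) rfl] using e2
  · have e := congrArg α (conj (H := H) ⟨⟨0, h.1⟩, h.2⟩ l)
    rw [map_mul, map_mul, map_inv, map_tl α l, conj] at e
    exact (congrArg (fun q : PiH H' => q.1.l) e).symm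

end Pool.Agent.P.MP_ab0431_ag.T

end

section

/-! Step RIG. -/


namespace Pool.Agent.P.MP_ab0431_ag.T

open Set Filter Topology Metric

namespace RIGa

theorem om_zsmul (n a b c d : ℤ) : n • om a b c d = om (n * a) (n * b) (n * c) (n * d) := by
  ext i j
  fin_cases i <;> fin_cases j <;> simp [om] <;> ring

/-- An integral combination of `1, y, z, y z`. -/
def cmb (n : Fin 4 → ℤ) (y z : O) : O := n 0 • 1 + n 1 • y + n 2 • z + n 3 • (y * z)

theorem span (r : O) : ∃ n, (3 : ℤ) • r = cmb n (toO (xG 0)) (toO (xG 1)) := by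
  obtain ⟨_, a, b, c, d, rfl⟩ := r
  refine ⟨![3 * a - b + 4 * d, b + 2 * d + 3 * c, b - d - 3 * c, d - b], Subtype.ext ?_⟩
  change (3 : ℤ) • om a b c d = (3 * a - b + 4 * d) • (1 : M2) + (b + 2 * d + 3 * c) • om (-1) 1 0 1 +
    (b - d - 3 * c) • om (-1) 1 (-1) 1 + (d - b) • (xG 0 * xG 1).1.1
  rw [xG_01, ← om_one]
  simp only [om_zsmul, om_add]
  congr 1 <;> ring

theorem cancel {r t : O} (h : (3 : ℤ) • r = (3 : ℤ) • t) : r = t := by
  apply Subtype.ext
  ext i j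
  have : ((3 : ℤ) • r.1) i j = ((3 : ℤ) • t.1) i j := congrArg (fun x : O => x.1 i j) h
  simp only [Matrix.smul_apply, zsmul_eq_mul, Int.cast_ofNat] at this
  linarith

theorem cmb_conj (g : Gam) (n : Fin 4 → ℤ) (y z : O) : toO g * cmb n y z * toO g⁻¹ =
    cmb n (toO g * y * toO g⁻¹) (toO g * z * toO g⁻¹) := by
  have e1 : toO g * toO g⁻¹ = 1 := by rw [← map_mul, mul_inv_cancel, map_one]
  have e2 : ∀ x, toO g⁻¹ * (toO g * x) = x := fun x => by
    rw [← mul_assoc, ← map_mul, inv_mul_cancel, map_one, one_mul]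
  simp only [cmb, mul_add, add_mul, mul_smul_comm, smul_mul_assoc, mul_one, e1, mul_assoc, e2]

theorem tr4 (g : Gam) (h : toO g * toO g + (4 : ℤ) • toO g + 1 = 0) : (toO g).1.trace = -4 := by
  have d := g.1.2
  rw [Matrix.det_fin_two] at d
  have e : ∀ i j, (g.1.1 * g.1.1 + (4 : ℤ) • g.1.1 + 1) i j = (0 : M2) i j := fun i j =>
    congrArg (fun x : O => x.1 i j) h
  have e0 := e 0 0
  have e1 := e 0 1
  have e2 := e 1 1
  simp only [Matrix.add_apply, Matrix.smul_apply] at e0 e1 e2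
  simp only [Matrix.mul_apply, Fin.sum_univ_two, zsmul_eq_mul,
    Int.cast_ofNat, Matrix.one_apply_eq, Matrix.zero_apply, ne_eq, zero_ne_one, not_false_eq_true,
    Matrix.one_apply_ne, add_zero] at e0 e1 e2
  rw [toO_val, Matrix.trace_fin_two]
  generalize g.1.1 0 0 = a at *
  generalize g.1.1 0 1 = b at *
  generalize g.1.1 1 0 = c at *
  generalize g.1.1 1 1 = f at *
  have a0 : a * (a + f + 4) = 0 := by linear_combination e0 + d
  have b0 : b * (a + f + 4) = 0 := by linear_combination e1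
  linear_combination f * a0 - c * b0 - (a + f + 4) * d

theorem quad01 : toO (xG 0 * xG 1) * toO (xG 0 * xG 1) + (4 : ℤ) • toO (xG 0 * xG 1) + 1 = 0 := by
  apply Subtype.ext
  change (xG 0 * xG 1).1.1 * (xG 0 * xG 1).1.1 + (4 : ℤ) • (xG 0 * xG 1).1.1 + 1 = 0
  rw [xG_01, ← om_one, ← om_zero]
  rw [om_mul, om_zsmul, om_add, om_add]
  norm_num

/-- The subgroups whose normalised pair of generators is `s`. -/
def C (H : Subgroup Gam) (s : O × O) : Set (Subgroup Gam) :=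
  {H' | H'.index = H.index ∧ ∃ (g : Gam) (θ : H → H'), Function.Surjective θ ∧
    ∀ (h : H) n, (3 : ℤ) • toO h.1 = cmb n (toO (xG 0)) (toO (xG 1)) →
      (3 : ℤ) • toO (g * (θ h).1 * g⁻¹) = cmb n s.1 s.2}

theorem C_card (H : Subgroup Gam) [H.FiniteIndex] (s : O × O) :
    (C H s).Finite ∧ (C H s).ncard ≤ H.index := by
  rcases (C H s).eq_empty_or_nonempty with e | ⟨H1, i1, g1, θ1, s1, l1⟩
  · simp [e]
  have : H1.FiniteIndex := ⟨i1 ▸ Subgroup.FiniteIndex.index_ne_zero⟩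
  have sub : C H s ⊆ range fun q : Gam ⧸ H1 => H1.comap (MulAut.conj q.out⁻¹).toMonoidHom := by
    rintro H2 ⟨-, g2, θ2, s2, l2⟩
    have k : ∀ h, g1 * (θ1 h).1 * g1⁻¹ = g2 * (θ2 h).1 * g2⁻¹ := fun h => by
      obtain ⟨n, hn⟩ := span (toO h.1)
      exact toO_inj (cancel ((l1 h n hn).trans (l2 h n hn).symm))
    refine ⟨((g2⁻¹ * g1 : Gam) : Gam ⧸ H1), ?_⟩
    obtain ⟨u, hu⟩ := QuotientGroup.mk_out_eq_mul H1 (g2⁻¹ * g1)
    ext x
    simp only [hu, Subgroup.mem_comap, MulEquiv.coe_toMonoidHom, MulAut.conj_apply]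
    constructor
    · intro hx
      obtain ⟨h, hh⟩ := s1 ⟨_, H1.mul_mem (H1.mul_mem u.2 hx) (H1.inv_mem u.2)⟩
      have := k h
      rw [hh] at this
      have e : x = (θ2 h).1 := by
        calc x = g2⁻¹ * (g1 * (u * ((g2⁻¹ * g1 * u)⁻¹ * x * (g2⁻¹ * g1 * u)⁻¹⁻¹) * (u : Gam)⁻¹) *
              g1⁻¹) * g2 := by group
          _ = _ := by rw [this]; group
      exact e ▸ (θ2 h).2
    · intro hx
      obtain ⟨h, hh⟩ := s2 ⟨x, hx⟩
      have := k h
      rw [hh] at this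
      have e : (g2⁻¹ * g1 * u)⁻¹ * x * (g2⁻¹ * g1 * u)⁻¹⁻¹ = (u : Gam)⁻¹ * (θ1 h).1 * u := by
        calc _ = (u : Gam)⁻¹ * (g1⁻¹ * (g2 * x * g2⁻¹) * g1) * u := by group
          _ = _ := by rw [← this]; group
      rw [e]
      exact H1.mul_mem (H1.mul_mem (H1.inv_mem u.2) (θ1 h).2) u.2
  refine ⟨(finite_range _).subset sub, (ncard_le_ncard sub (finite_range _)).trans ?_⟩
  rw [← i1, ← Nat.card_coe_set_eq]
  exact Finite.card_range_le _

end RIGa

open RIGa in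
theorem p_RIG (hISO : S_ISO) (hFINP : S_FINP) :
    S_RIG := by
  obtain ⟨S, hS, hF⟩ := hFINP
  refine ⟨hS.toFinset.card, fun H h0 h1 hH => ?_⟩
  have sub : {H' : Subgroup Gam | H'.index = H.index ∧ Nonempty (PiH H ≃* PiH H')} ⊆
      ⋃ s : hS.toFinset, C H s.1 := by
    rintro H' ⟨hi, hn⟩
    obtain ⟨A, θ, hs, hA⟩ := hISO H H' hn
    let T : O →+ O := A.toAddMonoidHom.comp (AddMonoidHom.mulLeft (A.symm 1))
    have T1 : T 1 = 1 := by simp [T]
    have Tm : ∀ (r : O) (h : H), T (r * toO h.1) = T r * toO (θ h).1 := fun r h => by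
      simp only [T, AddMonoidHom.comp_apply, AddMonoidHom.coe_mulLeft, ← mul_assoc]
      exact hA _ h
    have Th : ∀ h : H, T (toO h.1) = toO (θ h).1 := fun h => by
      simpa [T1] using Tm 1 h
    have q : ∀ h : H, toO h.1 * toO h.1 + toO h.1 + 1 = 0 →
        toO (θ h).1 * toO (θ h).1 + toO (θ h).1 + 1 = 0 := fun h e => by
      have := congrArg T e
      rwa [map_add, map_add, Tm, Th, T1, map_zero] at this
    have T01 : T (toO (xG 0) * toO (xG 1)) = toO (θ ⟨_, h0⟩).1 * toO (θ ⟨_, h1⟩).1 := by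
      rw [Tm _ ⟨_, h1⟩, Th ⟨_, h0⟩]
    have t4 : (toO (θ ⟨_, h0⟩).1 * toO (θ ⟨_, h1⟩).1).1.trace = -4 := by
      rw [← map_mul]
      apply tr4
      have := congrArg T quad01
      rw [map_mul, map_add, map_add, ← mul_assoc, Tm _ ⟨_, h1⟩, Tm _ ⟨_, h0⟩, map_zsmul, T01, T1,
        map_zero] at this
      rw [map_mul, ← mul_assoc]
      exact this
    obtain ⟨g, hg⟩ := hF _ _ (q ⟨_, h0⟩ (xG_quad 0)) (q ⟨_, h1⟩ (xG_quad 1)) t4
    refine mem_iUnion.2 ⟨⟨_, hS.mem_toFinset.2 hg⟩, hi, g, θ, hs, fun h n hn => ?_⟩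
    have := congrArg T hn
    rw [map_zsmul, Th, cmb, map_add, map_add, map_add, map_zsmul, map_zsmul, map_zsmul, map_zsmul,
      T1, T01, Th ⟨_, h0⟩, Th ⟨_, h1⟩] at this
    change _ = cmb n _ _ at this
    rw [← cmb_conj, ← this, map_mul, map_mul, mul_smul_comm, smul_mul_assoc]
  have fin : (⋃ s : hS.toFinset, C H s.1).Finite := finite_iUnion fun s => (C_card H s.1).1
  refine ⟨fin.subset sub, (ncard_le_ncard sub fin).trans
    ((ncard_iUnion_le_of_fintype _).trans ?_)⟩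
  refine (Finset.sum_le_card_nsmul _ _ H.index fun s _ => (C_card H s.1).2).trans ?_
  simp

end Pool.Agent.P.MP_ab0431_ag.T

end

section

/-! Step SHAP. -/


namespace Pool.Agent.P.MP_ab0431_ag.T

open Set Filter Topology Metric

namespace SHAPa

theorem tri {P : Type} (φ : Gam →* Equiv.Perm P) (F : Gam → P → ℝ)
    (hF : ∀ g g' p, F (g * g') p = F g (φ g' p) + F g' p) (i : Fin 4) (p : P) :
    F (xG i) p + F (xG i) (φ (xG i) p) + F (xG i) (φ (xG i) (φ (xG i) p)) = 0 := by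
  have h1 : F 1 p = 0 := by
    have := hF 1 1 p
    simp only [mul_one, map_one, Equiv.Perm.coe_one, id] at this
    linarith
  have h3 : xG i * (xG i * xG i) = 1 := by rw [← xG_cube i]; simp [pow_succ, mul_assoc]
  have := hF (xG i) (xG i * xG i) p
  rw [h3, h1, hF, map_mul, Equiv.Perm.mul_apply] at this
  linarith

theorem pair {P : Type} (a : Equiv.Perm P) (A B c : P → ℝ)
    (hA : ∀ p, A p + A (a p) + A (a (a p)) = 0)
    (hB : ∀ p, B p + B (a⁻¹ p) + B (a⁻¹ (a⁻¹ p)) = 0)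
    (hc : ∀ p, c p = A (a⁻¹ p) + B p) (p : P) : c p + c (a p) + c (a (a p)) = 0 := by
  have h1 := hA (a⁻¹ p)
  have h2 := hB (a (a p))
  simp only [Equiv.Perm.coe_inv, Equiv.apply_symm_apply, Equiv.symm_apply_apply] at h1 h2
  simp only [hc, Equiv.Perm.coe_inv, Equiv.symm_apply_apply]
  linarith

theorem cob {P : Type} (a b : Equiv.Perm P) (o : P) (φ : Gam →* Equiv.Perm P)
    (hR : Rt a b o) (hT : Tre a b) (h0 : φ (xG 0) = a) (h1 : φ (xG 1) = a⁻¹)
    (h2 : φ (xG 2) = b) (h3 : φ (xG 3) = b⁻¹) (F : Gam → P → ℝ)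
    (hF : ∀ g g' p, F (g * g') p = F g (φ g' p) + F g' p) :
    ∃ ψ : P → ℝ, ∀ g p, F g p = ψ (φ g p) - ψ p := by
  have hone : ∀ p, F 1 p = 0 := fun p => by
    have := hF 1 1 p
    simp only [mul_one, map_one, Equiv.Perm.coe_one, id] at this
    linarith
  have t0 := tri φ F hF 0
  have t1 := tri φ F hF 1
  have t2 := tri φ F hF 2
  have t3 := tri φ F hF 3
  rw [h0] at t0
  rw [h1] at t1
  rw [h2] at t2
  rw [h3] at t3
  have ca : ∀ p, F (xG 0 * xG 1) p = F (xG 0) (a⁻¹ p) + F (xG 1) p := fun p => by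
    rw [hF, h1]
  have cb : ∀ p, -F (xG 0 * xG 1) p = F (xG 2) (b⁻¹ p) + F (xG 3) p := fun p => by
    have e := hF (xG 0 * xG 1) (xG 2 * xG 3) p
    rw [← mul_assoc, xG_prod, hone, map_mul, h2, h3, mul_inv_cancel, hF (xG 2), h3] at e
    simp only [Equiv.Perm.coe_one, id] at e
    linarith
  have c0 : F (xG 0 * xG 1) = 0 := by
    refine hT.t1 _ (pair a _ _ _ t0 t1 ca) fun p => ?_
    have := pair b _ _ (fun p => -F (xG 0 * xG 1) p) t2 t3 cb p
    linarith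
  obtain ⟨ψ, hψ⟩ := hT.t2 _ _ t0 t2
  refine ⟨ψ, fun g => ?_⟩
  have hg : g ∈ Subgroup.closure (range xG) := by rw [xG_gen]; trivial
  induction hg using Subgroup.closure_induction with
  | mem x hx =>
    obtain ⟨i, rfl⟩ := hx
    intro p
    have e1 := ca p
    have e2 := cb p
    have e3 := (hψ (a⁻¹ p)).1
    have e4 := (hψ (b⁻¹ p)).2
    rw [c0] at e1 e2
    simp only [Equiv.Perm.coe_inv, Equiv.apply_symm_apply, Pi.zero_apply] at e1 e2 e3 e4
    fin_cases i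
    · change F (xG 0) p = ψ (φ (xG 0) p) - ψ p
      rw [h0]
      exact (hψ p).1
    · change F (xG 1) p = ψ (φ (xG 1) p) - ψ p
      rw [h1, Equiv.Perm.coe_inv]
      linarith
    · change F (xG 2) p = ψ (φ (xG 2) p) - ψ p
      rw [h2]
      exact (hψ p).2
    · change F (xG 3) p = ψ (φ (xG 3) p) - ψ p
      rw [h3, Equiv.Perm.coe_inv]
      linarith
  | one => intro p; simp [hone]
  | mul x y _ _ hx hy =>
    intro p
    rw [hF, hx, hy, map_mul, Equiv.Perm.mul_apply]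
    ring
  | inv x _ hx =>
    intro p
    have e := hF x x⁻¹ p
    rw [mul_inv_cancel, hone, hx, ← Equiv.Perm.mul_apply, ← map_mul, mul_inv_cancel, map_one] at e
    simp only [Equiv.Perm.coe_one, id] at e
    linarith

theorem step1 {P : Type} (a b : Equiv.Perm P) (o : P) (φ : Gam →* Equiv.Perm P)
    (H : Subgroup Gam) (hR : Rt a b o) (hT : Tre a b) (h0 : φ (xG 0) = a)
    (h1 : φ (xG 1) = a⁻¹) (h2 : φ (xG 2) = b) (h3 : φ (xG 3) = b⁻¹)
    (hH : ∀ g, g ∈ H ↔ φ g o = o) (u : Gam → ℝ)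
    (hu : ∀ g ∈ H, ∀ g' ∈ H, u (g * g') = u g + u g') : ∀ h ∈ H, u h = 0 := by
  have hev : φ.comp evG = ev a b := by
    refine FreeGroup.ext_hom _ _ fun i => ?_
    cases i <;> simp [evG, ev, h0, h2]
  have ht : ∀ p, ∃ g, φ g o = p := fun p => by
    obtain ⟨w, hw⟩ := hR.tr p
    exact ⟨evG w, by rw [← hw, ← hev]; rfl⟩
  choose t ht using ht
  have hm : ∀ g p, (t (φ g p))⁻¹ * g * t p ∈ H := fun g p => by
    rw [hH, map_mul, map_mul, map_inv, Equiv.Perm.mul_apply, Equiv.Perm.mul_apply, ht,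
      Equiv.Perm.inv_eq_iff_eq, ht]
  obtain ⟨ψ, hψ⟩ := cob a b o φ hR hT h0 h1 h2 h3 (fun g p => u ((t (φ g p))⁻¹ * g * t p))
    fun g g' p => by
      rw [← hu _ (hm _ _) _ (hm _ _), map_mul, Equiv.Perm.mul_apply]
      congr 1
      group
  intro h hh
  have e := hψ h o
  have hto : t o ∈ H := (hH _).2 (ht o)
  have e1 := hu 1 H.one_mem 1 H.one_mem
  have e2 := hu _ (H.inv_mem hto) _ hto
  rw [(hH h).1 hh, hu _ (H.mul_mem (H.inv_mem hto) hh) _ hto, hu _ (H.inv_mem hto) _ hh] at e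
  rw [inv_mul_cancel] at e2
  rw [mul_one] at e1
  linarith

end SHAPa

theorem p_SHAP :
    S_SHAP := by
  classical
  intro P a b o φ H hR hT h0 h1 h2 h3 hH f
  let u : Jac → ℝ := fun p => if hp : p ∈ PiH H then Multiplicative.toAdd (f ⟨p, hp⟩) else 0
  have hu : ∀ p q : Jac, p.g ∈ H → q.g ∈ H → u (p * q) = u p + u q := fun p q hp hq => by
    have hp' : p ∈ PiH H := hp
    have hq' : q ∈ PiH H := hq
    simp only [u, dif_pos hp', dif_pos hq', dif_pos ((PiH H).mul_mem hp' hq')]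
    rw [← toAdd_mul, ← map_mul]
    rfl
  have hs := SHAPa.step1 a b o φ H hR hT h0 h1 h2 h3 hH (fun g => u ⟨0, g⟩) fun g hg g' hg' => by
    rw [← hu _ _ hg hg']
    congr 1
    ext1 <;> simp
  have hadd : ∀ l l' : O, u ⟨l + l', 1⟩ = u ⟨l, 1⟩ + u ⟨l', 1⟩ := fun l l' => by
    rw [← hu _ _ H.one_mem H.one_mem]
    congr 1
    ext1 <;> simp [add_comm]
  have hx : xG 0 ∈ H := by rw [hH, h0]; exact hR.ao
  have hc : ∀ l : O, u ⟨l * toO (xG 0), 1⟩ = u ⟨l, 1⟩ := fun l => by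
    have e1 := hu ⟨l, 1⟩ ⟨0, xG 0⟩ H.one_mem hx
    have e2 := hu ⟨0, xG 0⟩ ⟨l * toO (xG 0), 1⟩ hx H.one_mem
    have e3 : (⟨l, 1⟩ * ⟨0, xG 0⟩ : Jac) = ⟨0, xG 0⟩ * ⟨l * toO (xG 0), 1⟩ := by
      ext1 <;> simp
    rw [e3] at e1
    linarith
  have hl : ∀ l : O, u ⟨l, 1⟩ = 0 := fun l => by
    have e0 := hadd 0 0
    have e1 := hadd (l * toO (xG 0) * toO (xG 0) + l * toO (xG 0)) l
    have e2 : l * toO (xG 0) * toO (xG 0) + l * toO (xG 0) + l = 0 := by
      have := congrArg (l * ·) (xG_quad 0)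
      simpa [mul_add, mul_assoc] using this
    rw [e2, hadd, hc, hc] at e1
    rw [add_zero] at e0
    linarith
  ext ⟨⟨l, h⟩, hp⟩
  have e := hu ⟨0, h⟩ ⟨l, 1⟩ hp H.one_mem
  have e3 : (⟨0, h⟩ * ⟨l, 1⟩ : Jac) = ⟨l, h⟩ := by ext1 <;> simp
  rw [e3, hl, hs h hp] at e
  simp only [u, dif_pos hp, add_zero] at e
  simpa using e

end Pool.Agent.P.MP_ab0431_ag.T

end

section

/-! Step CNT. -/


namespace Pool.Agent.P.MP_ab0431_ag.T

open Set Filter Topology Metric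

namespace CNTa

theorem one (ι : Type) [Fintype ι] [Nonempty ι] (r : ι → ι → Prop) (B N : ℕ) (hr : Equivalence r)
    (hB : ∀ i, {j | r i j}.ncard ≤ B) (hN : N * B ≤ Fintype.card ι) :
    ∃ f : Fin N → ι, Pairwise fun i j => ¬ r (f i) (f j) := by
  classical
  let s : Setoid ι := ⟨r, hr⟩
  have h1 : Fintype.card ι ≤ B * Fintype.card (Quotient s) := by
    refine Finset.card_le_mul_card_image_of_maps_to (f := Quotient.mk s)
      (fun _ _ => Finset.mem_univ _) B fun q _ => ?_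
    refine le_trans (le_of_eq ?_) (hB q.out)
    rw [← Set.ncard_coe_finset]
    congr 1
    ext j
    simp only [Finset.coe_filter, Finset.mem_univ, true_and, mem_ofPred_eq]
    rw [eq_comm, ← Quotient.out_eq q, Quotient.eq, Quotient.out_eq]
    rfl
  have h2 : 0 < B := Nat.pos_of_ne_zero fun h => by
    rw [h, zero_mul] at h1
    exact absurd Fintype.card_pos (not_lt.2 h1)
  have h3 : Fintype.card (Fin N) ≤ Fintype.card (Quotient s) := by
    rw [Fintype.card_fin]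
    exact Nat.le_of_mul_le_mul_right (hN.trans (h1.trans_eq (mul_comm _ _))) h2
  obtain ⟨e⟩ := Function.Embedding.nonempty_of_card_le h3
  exact ⟨fun i => (e i).out, fun i j hij h => hij (e.injective (Quotient.out_equiv_out.1 h))⟩

end CNTa

theorem p_CNT :
    S_CNT := by
  refine ⟨CNTa.one, fun c => ⟨8 * (9 * c + 1) + 9, fun n => ⟨2 * (n + (9 * c + 1)), by nlinarith, ?_⟩⟩,
    fun c => ⟨3 * (7 * c + 2) + 10, fun n => ⟨n + (2 * n + (7 * c + 1) + 1), by nlinarith, ?_⟩⟩⟩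
  · have h1 : n + (9 * c + 1) < 2 ^ (n + (9 * c + 1)) := Nat.lt_two_pow_self
    have h2 : 9 * c + 1 < 2 ^ (9 * c + 1) := Nat.lt_two_pow_self
    rw [two_mul, pow_add 2 (n + (9 * c + 1)), pow_add 2 n, mul_assoc]
    refine Nat.mul_le_mul_left _ ?_
    rw [← pow_add 2 n]
    calc _ ≤ (9 * c + 1) * (n + (9 * c + 1)) := by nlinarith [Nat.zero_le (c * n), Nat.zero_le (c * c)]
      _ ≤ _ := Nat.mul_le_mul h2.le h1.le
  · set m := 2 * n + (7 * c + 1) with hm
    have h1 := Nat.factorial_mul_pow_le_factorial (m := m + 1) (n := n)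
    have h2 : n ^ n ≤ (m + 1 + 1) ^ n := Nat.pow_le_pow_left (by omega) n
    have h3 : (m + 1) * m ≤ (m + 1).factorial :=
      Nat.mul_le_mul_left _ (Nat.self_le_factorial m)
    rw [add_comm n (m + 1), mul_comm]
    refine le_trans (Nat.mul_le_mul (le_trans ?_ h3) h2) h1
    rw [hm]
    nlinarith [Nat.zero_le (c * n), Nat.zero_le (c * c), Nat.zero_le (n * n)]

end Pool.Agent.P.MP_ab0431_ag.T

end

section

/-! Step GRP. -/


namespace Pool.Agent.P.MP_ab0431_ag.T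

open Set Filter Topology Metric

namespace GRPa

/-- The stabiliser of the root. -/
theorem fam (hPRES : S_PRES) {P : Type} (a b : Equiv.Perm P) (o : P) (h : Rt a b o) :
    ∃ (φ : Gam →* Equiv.Perm P) (H : Subgroup Gam), φ (xG 0) = a ∧ φ (xG 1) = a⁻¹ ∧
      φ (xG 2) = b ∧ φ (xG 3) = b⁻¹ ∧ (∀ g, g ∈ H ↔ φ g o = o) ∧ H.index = Nat.card P ∧
      xG 0 ∈ H ∧ xG 1 ∈ H ∧ ∀ w, evG w ∈ H ↔ ev a b w o = o := by
  obtain ⟨φ, h0, h1, h2, h3⟩ := hPRES.2 P a b h.a3 h.b3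
  have e : ∀ w, φ (evG w) = ev a b w := fun w => by
    have : φ.comp evG = ev a b := FreeGroup.ext_hom _ _ fun i => by
      cases i <;> simp [evG, ev, h0, h2]
    exact DFunLike.congr_fun this w
  let _ : MulAction Gam P := MulAction.compHom P φ
  have m : ∀ g, g ∈ MulAction.stabilizer Gam o ↔ φ g o = o := fun g => Iff.rfl
  have : MulAction.IsPretransitive Gam P := ⟨fun x y => by
    obtain ⟨u, hu⟩ := h.tr x
    obtain ⟨v, hv⟩ := h.tr y
    refine ⟨evG v * (evG u)⁻¹, ?_⟩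
    change φ (evG v * (evG u)⁻¹) x = y
    rw [map_mul, map_inv, e, e, ← hu, ← hv]
    simp⟩
  refine ⟨φ, MulAction.stabilizer Gam o, h0, h1, h2, h3, m,
    MulAction.index_stabilizer_of_transitive Gam o, ?_, ?_, fun w => by rw [m, e]⟩
  · rw [m, h0, h.ao]
  · rw [m, h1, Equiv.Perm.inv_eq_iff_eq, h.ao]

/-- Many pairwise non-isomorphic groups in an injective family. -/
theorem pick (hCNT : S_CNT) {c : ℕ}
    (hc : ∀ H : Subgroup Gam, xG 0 ∈ H → xG 1 ∈ H → H.FiniteIndex →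
      {H' : Subgroup Gam | H'.index = H.index ∧ Nonempty (PiH H ≃* PiH H')}.Finite ∧
      {H' : Subgroup Gam | H'.index = H.index ∧ Nonempty (PiH H ≃* PiH H')}.ncard ≤ c * H.index)
    {ι : Type} [Fintype ι] [Nonempty ι] (H : ι → Subgroup Gam) (inj : Function.Injective H)
    {d N : ℕ} (hd : 0 < d) (h : ∀ i, (H i).index = d ∧ xG 0 ∈ H i ∧ xG 1 ∈ H i)
    (hN : N * (c * d) ≤ Fintype.card ι) :
    ∃ f : Fin N → ι, Pairwise fun i j => IsEmpty (PiH (H (f i)) ≃* PiH (H (f j))) := by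
  obtain ⟨f, hf⟩ := hCNT.1 ι (fun i j => Nonempty (PiH (H i) ≃* PiH (H j))) (c * d) N
    ⟨fun _ => ⟨.refl _⟩, fun ⟨e⟩ => ⟨e.symm⟩, fun ⟨e⟩ ⟨e'⟩ => ⟨e.trans e'⟩⟩ (fun i => by
      obtain ⟨a, b⟩ := hc (H i) (h i).2.1 (h i).2.2 ⟨by rw [(h i).1]; exact hd.ne'⟩
      rw [← (h i).1]
      refine (Set.ncard_le_ncard_of_injOn H (fun j hj => ?_) inj.injOn a).trans b
      exact ⟨(h j).1.trans (h i).1.symm, hj⟩) hN
  exact ⟨f, fun i j ij => not_nonempty_iff.1 (hf ij)⟩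

end GRPa

open GRPa in
theorem p_GRP (hPRES : S_PRES) (hRIG : S_RIG) (hSHAP : S_SHAP) (hTREE : S_TREE) (hTREEB : S_TREEB) (hCNT : S_CNT) :
    S_GRP := by
  obtain ⟨c, hc⟩ := hRIG
  constructor
  · obtain ⟨C, hC⟩ := hCNT.2.1 c
    refine ⟨C, fun n => ?_⟩
    obtain ⟨r, r1, r2⟩ := hC n
    obtain ⟨a, b, t1, t2⟩ := hTREE r
    choose φ H h0 h1 h2 h3 m ix x0 x1 w using fun ε => fam hPRES a (b ε) 0 (t1 ε).1
    simp only [Nat.card_eq_fintype_card, Fintype.card_fin] at ix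
    obtain ⟨f, hf⟩ := pick hCNT hc H (fun ε ε' e => t2 ε ε' fun v => by rw [← w, ← w, e])
      (d := 4 * r + 1) (N := 2 ^ n) (by omega) (fun i => ⟨ix i, x0 i, x1 i⟩) (by simpa using r2)
    exact ⟨4 * r + 1, by omega, r1, fun i => PiH (H (f i)), fun i =>
      ⟨(PiH_index _).trans (ix _), hSHAP _ a (b (f i)) 0 (φ _) _ (t1 _).1 (t1 _).2 (h0 _) (h1 _)
        (h2 _) (h3 _) (m _)⟩, hf⟩
  · obtain ⟨C, hC⟩ := hCNT.2.2 c
    refine ⟨C, fun n => ?_⟩
    obtain ⟨r, r1, r2⟩ := hC n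
    obtain ⟨a, b, t1, t2⟩ := hTREEB r
    choose φ H h0 h1 h2 h3 m ix x0 x1 w using fun σ => fam hPRES (a σ) b 0 (t1 σ)
    simp only [Nat.card_eq_fintype_card, Fintype.card_fin] at ix
    obtain ⟨f, hf⟩ := pick hCNT hc H (fun ε ε' e => t2 ε ε' fun v => by rw [← w, ← w, e])
      (d := 3 * r + 1) (N := n ^ n) (by omega) (fun i => ⟨ix i, x0 i, x1 i⟩)
      (by simpa [Fintype.card_perm] using r2)
    exact ⟨3 * r + 1, by omega, r1, fun i => PiH (H (f i)), fun i =>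
      (PiH_index _).trans (ix _), hf⟩

end Pool.Agent.P.MP_ab0431_ag.T

end

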