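import Pool.Agent.P.MP_ab0431_ag.B.Arith

section

/-! Step TREE. -/


namespace Pool.Agent.P.MP_ab0431_ag.T

open Set Filter Topology Metric

namespace TREEa

open Sum

/-- A permutation of order dividing three. -/
def mk3 {P : Type} (f : P → P) (h : ∀ p, f (f (f p)) = p) : Equiv.Perm P :=
  ⟨f, fun p => f (f p), h, h⟩

theorem mk3_cube {P : Type} (f : P → P) (h : ∀ p, f (f (f p)) = p) : mk3 f h ^ 3 = 1 :=
  Equiv.ext h

/-- The points. -/
abbrev Pt (r : ℕ) : Type := Fin (r + 1) ⊕ Fin r ⊕ Fin r ⊕ Fin r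

variable {r : ℕ}

/-- The first permutation. -/
def af : Pt r → Pt r
  | inl x => Fin.cases (inl 0) (fun i => inr (inr (inl i))) x
  | inr (inl i) => inr (inl i)
  | inr (inr (inl i)) => inr (inr (inr i))
  | inr (inr (inr i)) => inl i.succ

/-- The second permutation. -/
def bf (ε : Fin r → Bool) : Pt r → Pt r
  | inl x => Fin.lastCases (inl (Fin.last r))
      (fun i => if ε i then inr (inl i) else inr (inr (inl i))) x
  | inr (inl i) => if ε i then inr (inr (inl i)) else inl i.castSucc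
  | inr (inr (inl i)) => if ε i then inl i.castSucc else inr (inl i)
  | inr (inr (inr i)) => inr (inr (inr i))

theorem af3 : ∀ p : Pt r, af (af (af p)) = p
  | inl x => by induction x using Fin.cases <;> simp [af]
  | inr (inl i) => by simp [af]
  | inr (inr (inl i)) => by simp [af]
  | inr (inr (inr i)) => by simp [af]

theorem bf3 (ε : Fin r → Bool) : ∀ p : Pt r, bf ε (bf ε (bf ε p)) = p
  | inl x => by
    induction x using Fin.lastCases with
    | last => simp [bf]
    | cast i => cases h : ε i <;> simp [bf, h]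
  | inr (inl i) => by cases h : ε i <;> simp [bf, h]
  | inr (inr (inl i)) => by cases h : ε i <;> simp [bf, h]
  | inr (inr (inr i)) => by simp [bf]

/-- The first permutation. -/
def pa : Equiv.Perm (Pt r) := mk3 af af3

/-- The second permutation. -/
def pb (ε : Fin r → Bool) : Equiv.Perm (Pt r) := mk3 (bf ε) (bf3 ε)

theorem pa_ap (p : Pt r) : pa p = af p := rfl

theorem pb_ap (ε : Fin r → Bool) (p : Pt r) : pb ε p = bf ε p := rfl

/-- The words leading to the points of the first kind. -/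
def uw (e : ℕ → Bool) : ℕ → FreeGroup Bool
  | 0 => 1
  | i + 1 => .of true * (.of true *
      (if e i then .of false * (.of false * uw e i) else .of false * uw e i))

theorem ev_a {P : Type} (a b : Equiv.Perm P) (w : FreeGroup Bool) (p : P) :
    ev a b (.of true * w) p = a (ev a b w p) := by simp [ev]

theorem ev_b {P : Type} (a b : Equiv.Perm P) (w : FreeGroup Bool) (p : P) :
    ev a b (.of false * w) p = b (ev a b w p) := by simp [ev]

theorem ev_uw (ε : Fin r → Bool) (e : ℕ → Bool) : ∀ (i : ℕ) (h : i < r + 1),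
    (∀ j : Fin r, j.1 < i → e j = ε j) → ev pa (pb ε) (uw e i) (inl 0) = inl ⟨i, h⟩
  | 0, _, _ => by simp [uw]
  | i + 1, h, he => by
    have hi : i < r := by omega
    have ih : ev pa (pb ε) (uw e i) (inl 0) = inl (Fin.castSucc ⟨i, hi⟩) :=
      ev_uw ε e i (by omega) fun j hj => he j (by omega)
    have h1 : e i = ε ⟨i, hi⟩ := he ⟨i, hi⟩ (by simp)
    rw [uw, ev_a, ev_a, h1]
    cases h2 : ε ⟨i, hi⟩
    · rw [if_neg (by simp), ev_b, ih]
      simp only [pa_ap, pb_ap, bf, Fin.lastCases_castSucc, h2, af, Bool.false_eq_true, if_false]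
      rfl
    · rw [if_pos rfl, ev_b, ev_b, ih]
      simp only [pa_ap, pb_ap, bf, Fin.lastCases_castSucc, h2, af, if_true]
      rfl

/-- The extension of a sign vector. -/
def ex (ε : Fin r → Bool) (n : ℕ) : Bool := if h : n < r then ε ⟨n, h⟩ else false

theorem ex_val (ε : Fin r → Bool) (j : Fin r) : ex ε j = ε j := by simp [ex]

theorem rt (ε : Fin r → Bool) : Rt pa (pb ε) (inl 0) := by
  refine ⟨mk3_cube _ _, mk3_cube _ _, rfl, ?_⟩
  have hx : ∀ x : Fin (r + 1), ∃ w, ev pa (pb ε) w (inl 0) = inl x := fun x =>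
    ⟨_, ev_uw ε (ex ε) x.1 x.2 fun j _ => ex_val ε j⟩
  have ha : ∀ p, (∃ w, ev pa (pb ε) w (inl 0) = p) → ∃ w, ev pa (pb ε) w (inl 0) = af p :=
    fun p ⟨w, hw⟩ => ⟨_, by rw [ev_a, hw, pa_ap]⟩
  have hb : ∀ p, (∃ w, ev pa (pb ε) w (inl 0) = p) → ∃ w, ev pa (pb ε) w (inl 0) = bf ε p :=
    fun p ⟨w, hw⟩ => ⟨_, by rw [ev_b, hw, pb_ap]⟩
  rintro (x | i | i | i)
  · exact hx x
  · have h1 := hb _ (hx i.castSucc)
    have h2 := hb _ h1
    cases h : ε i
    · simpa [bf, h] using h2
    · simpa [bf, h] using h1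
  · simpa [af] using ha _ (hx i.succ)
  · simpa [af] using ha _ (ha _ (hx i.succ))

theorem tre (ε : Fin r → Bool) : Tre pa (pb ε) := by
  refine ⟨fun c ha hb => ?_, fun A B ha hb => ?_⟩
  · simp only [pa_ap, pb_ap] at ha hb
    have hy : ∀ i, c (inr (inl i)) = 0 := fun i => by
      have := ha (inr (inl i))
      simp only [af] at this
      linarith
    have hw : ∀ i, c (inr (inr (inr i))) = 0 := fun i => by
      have := hb (inr (inr (inr i)))
      simp only [bf] at this
      linarith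
    have hz : ∀ i : Fin r, c (inl i.castSucc) = 0 → c (inr (inr (inl i))) = 0 := fun i h0 => by
      have := hb (inr (inl i))
      have h1 := hy i
      cases h : ε i <;> simp [bf, h] at this <;> linarith
    have hx : ∀ x, c (inl x) = 0 := fun x => by
      induction x using Fin.induction with
      | zero =>
        have := ha (inl 0)
        simp only [af, Fin.cases_zero] at this
        linarith
      | succ i ih =>
        have := ha (inr (inr (inl i)))
        simp only [af] at this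
        linarith [hz i ih, hw i]
    funext p
    rcases p with x | i | i | i
    exacts [hx x, hy i, hz i (hx _), hw i]
  · simp only [pa_ap, pb_ap] at ha hb ⊢
    let Y : Fin r → ℝ := fun i => B (inl i.castSucc) + if ε i then 0 else B (inr (inr (inl i)))
    let Z : Fin r → ℝ := fun i => B (inl i.castSucc) + if ε i then B (inr (inl i)) else 0
    let S : Fin (r + 1) → ℝ :=
      Fin.partialSum fun i => Z i + A (inr (inr (inl i))) + A (inr (inr (inr i)))
    have hS : ∀ i : Fin r,
        S i.succ = S i.castSucc + (Z i + A (inr (inr (inl i))) + A (inr (inr (inr i)))) :=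
      fun i => Fin.partialSum_succ _ i
    refine ⟨Sum.elim S (Sum.elim (fun i => S i.castSucc + Y i) (Sum.elim
      (fun i => S i.castSucc + Z i) fun i => S i.castSucc + Z i + A (inr (inr (inl i))))), ?_⟩
    rintro (x | i | i | i)
    · constructor
      · induction x using Fin.cases with
        | zero =>
          have := ha (inl 0)
          simp only [af, Fin.cases_zero] at this ⊢
          linarith
        | succ i =>
          have := ha (inl i.succ)
          simp only [af, Fin.cases_succ, elim_inl, elim_inr] at this ⊢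
          linarith [hS i]
      · induction x using Fin.lastCases with
        | last =>
          have := hb (inl (Fin.last r))
          simp only [bf, Fin.lastCases_last] at this ⊢
          linarith
        | cast i => cases h : ε i <;> simp [bf, h, Y, Z]
    · have h1 := ha (inr (inl i))
      have h2 := hb (inr (inl i))
      simp only [af] at h1 ⊢
      refine ⟨by linarith, ?_⟩
      cases h : ε i <;> simp [bf, h, Y, Z] at h2 ⊢ <;> linarith
    · have h2 := hb (inr (inr (inl i)))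
      refine ⟨by simp [af], ?_⟩
      cases h : ε i <;> simp [bf, h, Y, Z] at h2 ⊢ <;> linarith
    · have h2 := hb (inr (inr (inr i)))
      simp only [af, bf, elim_inl, elim_inr] at h2 ⊢
      exact ⟨by linarith [hS i], by linarith⟩

theorem fix_iff (ε : Fin r → Bool) (e : ℕ → Bool) (i : Fin r)
    (he : ∀ j : Fin r, j.1 < i → e j = ε j) :
    ev pa (pb ε) ((.of false * uw e i)⁻¹ * (.of true * (.of false * uw e i))) (inl 0) = inl 0 ↔
      ε i = true := by
  have ih : ev pa (pb ε) (uw e i) (inl 0) = inl i.castSucc := ev_uw ε e i (by omega) he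
  rw [map_mul, map_inv, Equiv.Perm.mul_apply, Equiv.Perm.inv_eq_iff_eq, ev_a, ev_b, ih]
  cases h : ε i <;> simp [pa_ap, pb_ap, af, bf, h]

theorem ev_congr {P Q : Type} (e : P ≃ Q) (a b : Equiv.Perm P) (w : FreeGroup Bool) (p : P) :
    ev (e.permCongr a) (e.permCongr b) w (e p) = e (ev a b w p) := by
  have : ev (e.permCongr a) (e.permCongr b) = e.permCongrHom.toMonoidHom.comp (ev a b) := by
    ext i q
    cases i <;> simp [ev]
  rw [this]
  simp

theorem tre_congr {P Q : Type} (e : P ≃ Q) {a b : Equiv.Perm P} (h : Tre a b) :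
    Tre (e.permCongr a) (e.permCongr b) := by
  refine ⟨fun c ha hb => ?_, fun A B ha hb => ?_⟩
  · have := h.t1 (c ∘ e) (fun p => by simpa using ha (e p)) fun p => by simpa using hb (e p)
    funext q
    simpa using congrFun this (e.symm q)
  · obtain ⟨ψ, hψ⟩ := h.t2 (A ∘ e) (B ∘ e) (fun p => by simpa using ha (e p))
      fun p => by simpa using hb (e p)
    exact ⟨ψ ∘ e.symm, fun q => by simpa using hψ (e.symm q)⟩

end TREEa

open TREEa

theorem p_TREE :
    S_TREE := by
  intro r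
  have hc : Fintype.card (Pt r) = 4 * r + 1 := by simp; ring
  let e0 := Fintype.equivFinOfCardEq hc
  let e : Pt r ≃ Fin (4 * r + 1) := e0.trans (Equiv.swap (e0 (.inl 0)) 0)
  have he : e (.inl 0) = 0 := Equiv.swap_apply_left _ _
  refine ⟨e.permCongr pa, fun ε => e.permCongr (pb ε),
    fun ε => ⟨⟨?_, ?_, ?_, fun p => ?_⟩, tre_congr e (tre ε)⟩, fun ε ε' h => ?_⟩
  · exact (map_pow e.permCongrHom _ 3).symm.trans (by rw [(rt ε).a3, map_one])
  · exact (map_pow e.permCongrHom _ 3).symm.trans (by rw [(rt ε).b3, map_one])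
  · rw [← he, Equiv.permCongr_apply, Equiv.symm_apply_apply, (rt ε).ao]
  · obtain ⟨w, hw⟩ := (rt ε).tr (e.symm p)
    exact ⟨w, by rw [← he, ev_congr, hw, Equiv.apply_symm_apply]⟩
  · have key : ∀ n : ℕ, ∀ i : Fin r, i.1 < n → ε i = ε' i := by
      intro n
      induction n with
      | zero => exact fun i hi => absurd hi (Nat.not_lt_zero _)
      | succ n ih =>
        intro i hi
        have h1 := h ((.of false * uw (ex ε) i)⁻¹ * (.of true * (.of false * uw (ex ε) i)))
        rw [← he, ev_congr, ev_congr, e.apply_eq_iff_eq, e.apply_eq_iff_eq,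
          fix_iff ε _ i fun j _ => ex_val ε j,
          fix_iff ε' _ i fun j hj => (ex_val ε j).trans (ih j (by omega))] at h1
        exact Bool.eq_iff_iff.2 h1
    funext i
    exact key _ i (Nat.lt_succ_self _)

end Pool.Agent.P.MP_ab0431_ag.T

end

section

/-! Step TREEB. -/


namespace Pool.Agent.P.MP_ab0431_ag.T

open Set Filter Topology Metric

namespace TREEBa

open Sum

/-- A permutation of order dividing three. -/
def mk3 {P : Type} (f : P → P) (h : ∀ p, f (f (f p)) = p) : Equiv.Perm P :=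
  ⟨f, fun p => f (f p), h, h⟩

theorem mk3_cube {P : Type} (f : P → P) (h : ∀ p, f (f (f p)) = p) : mk3 f h ^ 3 = 1 :=
  Equiv.ext h

/-- The points. -/
abbrev Pt (r : ℕ) : Type := Fin (r + 1) ⊕ Fin r ⊕ Fin r

variable {r : ℕ}

/-- The second permutation. -/
def bf : Pt r → Pt r
  | inl x => Fin.lastCases (inl (Fin.last r)) (fun i => inr (inl i)) x
  | inr (inl i) => inr (inr i)
  | inr (inr i) => inl i.castSucc

/-- The first permutation. -/
def af (σ : Equiv.Perm (Fin r)) : Pt r → Pt r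
  | inl x => Fin.cases (inl 0) (fun i => inr (inr i)) x
  | inr (inl j) => inl (σ.symm j).succ
  | inr (inr i) => inr (inl (σ i))

theorem bf3 : ∀ p : Pt r, bf (bf (bf p)) = p
  | inl x => by induction x using Fin.lastCases <;> simp [bf]
  | inr (inl i) => by simp [bf]
  | inr (inr i) => by simp [bf]

theorem af3 (σ : Equiv.Perm (Fin r)) : ∀ p : Pt r, af σ (af σ (af σ p)) = p
  | inl x => by induction x using Fin.cases <;> simp [af]
  | inr (inl i) => by simp [af]
  | inr (inr i) => by simp [af]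

/-- The first permutation. -/
def pa (σ : Equiv.Perm (Fin r)) : Equiv.Perm (Pt r) := mk3 (af σ) (af3 σ)

/-- The second permutation. -/
def pb : Equiv.Perm (Pt r) := mk3 bf bf3

/-- The words leading to the points of the first kind. -/
def uw : ℕ → FreeGroup Bool
  | 0 => 1
  | i + 1 => .of true * (.of true * (.of false * (.of false * uw i)))

theorem ev_a {P : Type} (a b : Equiv.Perm P) (w : FreeGroup Bool) (p : P) :
    ev a b (.of true * w) p = a (ev a b w p) := by simp [ev]

theorem ev_b {P : Type} (a b : Equiv.Perm P) (w : FreeGroup Bool) (p : P) :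
    ev a b (.of false * w) p = b (ev a b w p) := by simp [ev]

theorem ev_uw (σ : Equiv.Perm (Fin r)) : ∀ (i : ℕ) (h : i < r + 1),
    ev (pa σ) pb (uw i) (inl 0) = inl ⟨i, h⟩
  | 0, _ => by simp [uw]
  | i + 1, h => by
    rw [uw, ev_a, ev_a, ev_b, ev_b, ev_uw σ i (by omega)]
    change af σ (af σ (bf (bf (inl (Fin.castSucc ⟨i, by omega⟩))))) = _
    simp only [bf, Fin.lastCases_castSucc, af, Equiv.symm_apply_apply]
    rfl

theorem ev_y (σ : Equiv.Perm (Fin r)) (i : Fin r) :
    ev (pa σ) pb (.of false * uw i) (inl 0) = inr (inl i) := by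
  rw [ev_b, ev_uw σ i (by omega)]
  change bf (inl i.castSucc) = _
  simp only [bf, Fin.lastCases_castSucc]

theorem ev_z (σ : Equiv.Perm (Fin r)) (i : Fin r) :
    ev (pa σ) pb (.of false * (.of false * uw i)) (inl 0) = inr (inr i) := by
  rw [ev_b, ev_y]
  rfl

theorem rt (σ : Equiv.Perm (Fin r)) : Rt (pa σ) pb (inl 0) := by
  refine ⟨mk3_cube _ _, mk3_cube _ _, rfl, ?_⟩
  rintro (x | i | i)
  · exact ⟨_, ev_uw σ x.1 x.2⟩
  · exact ⟨_, ev_y σ i⟩
  · exact ⟨_, ev_z σ i⟩

theorem fix_iff (σ : Equiv.Perm (Fin r)) (i j : Fin r) :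
    ev (pa σ) pb ((.of false * uw j)⁻¹ * (.of true * (.of false * (.of false * uw i)))) (inl 0) =
      inl 0 ↔ σ i = j := by
  rw [map_mul, map_inv, Equiv.Perm.mul_apply, Equiv.Perm.inv_eq_iff_eq, ev_a, ev_z, ev_y]
  change (inr (inl (σ i)) : Pt r) = _ ↔ _
  simp

theorem ev_congr {P Q : Type} (e : P ≃ Q) (a b : Equiv.Perm P) (w : FreeGroup Bool) (p : P) :
    ev (e.permCongr a) (e.permCongr b) w (e p) = e (ev a b w p) := by
  have : ev (e.permCongr a) (e.permCongr b) = e.permCongrHom.toMonoidHom.comp (ev a b) := by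
    ext i q
    cases i <;> simp [ev]
  rw [this]
  simp

end TREEBa

open TREEBa

theorem p_TREEB :
    S_TREEB := by
  intro r
  have hc : Fintype.card (Pt r) = 3 * r + 1 := by simp; ring
  let e0 := Fintype.equivFinOfCardEq hc
  let e : Pt r ≃ Fin (3 * r + 1) := e0.trans (Equiv.swap (e0 (.inl 0)) 0)
  have he : e (.inl 0) = 0 := Equiv.swap_apply_left _ _
  refine ⟨fun σ => e.permCongr (pa σ), e.permCongr pb, fun σ => ⟨?_, ?_, ?_, fun p => ?_⟩,
    fun σ σ' h => ?_⟩
  · exact (map_pow e.permCongrHom _ 3).symm.trans (by rw [(rt σ).a3, map_one])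
  · exact (map_pow e.permCongrHom _ 3).symm.trans (by rw [(rt σ).b3, map_one])
  · rw [← he, Equiv.permCongr_apply, Equiv.symm_apply_apply, (rt σ).ao]
  · obtain ⟨w, hw⟩ := (rt σ).tr (e.symm p)
    exact ⟨w, by rw [← he, ev_congr, hw, Equiv.apply_symm_apply]⟩
  · ext i
    have h1 := h ((.of false * uw (σ i))⁻¹ * (.of true * (.of false * (.of false * uw i))))
    rw [← he, ev_congr, ev_congr, e.apply_eq_iff_eq, e.apply_eq_iff_eq, fix_iff, fix_iff] at h1
    rw [h1.1 rfl]

end Pool.Agent.P.MP_ab0431_ag.T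

end

section

/-! Step CC. -/


namespace Pool.Agent.P.MP_ab0431_ag.T

open Set Filter Topology Metric

namespace CCa

/-- The complex structure with fixed point `τ`. -/
noncomputable def vv (τ : ℂ) : M2 :=
  !![-τ.re / τ.im, (τ.re ^ 2 + τ.im ^ 2) / τ.im; -1 / τ.im, τ.re / τ.im]

theorem le_nm (x : M2) (i j : Fin 2) : |x i j| ≤ nm x := by
  have := abs_nonneg (x 0 0)
  have := abs_nonneg (x 0 1)
  have := abs_nonneg (x 1 0)
  have := abs_nonneg (x 1 1)
  fin_cases i <;> fin_cases j <;> simp only [nm, Fin.zero_eta, Fin.mk_one, Fin.isValue] <;> linarith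

theorem row (τ : ℂ) (h : 0 < τ.im) (u g : M2) (e : u * g = g * vv τ) (i : Fin 2) :
    (u i 0 : ℂ) * (g 0 0 * τ + g 0 1) + u i 1 * (g 1 0 * τ + g 1 1) =
      -Complex.I * (g i 0 * τ + g i 1) := by
  have e0 := congrFun (congrFun e i) 0
  have e1 := congrFun (congrFun e i) 1
  simp [Matrix.mul_apply, Fin.sum_univ_two, vv] at e0 e1
  have := h.ne'
  field_simp at e0 e1
  apply Complex.ext
  · simp
    apply mul_left_cancel₀ this
    linear_combination τ.re * e0 + e1
  · simp
    linear_combination e0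

theorem bound (t : ℂ) (h : 0 < t.im) (u : M2) (R : ℝ) (hR : nm u ≤ R)
    (e0 : (u 0 0 : ℂ) * t + u 0 1 = -Complex.I * t) (e1 : (u 1 0 : ℂ) * t + u 1 1 = -Complex.I) :
    1 ≤ R * t.im ∧ ‖t‖ ≤ R * R + R := by
  have a0 := congrArg Complex.re e0
  have a1 := congrArg Complex.im e0
  have a2 := congrArg Complex.im e1
  simp at a0 a1 a2
  have b0 := abs_le.1 ((le_nm u 0 0).trans hR)
  have b1 := abs_le.1 ((le_nm u 0 1).trans hR)
  have b2 := abs_le.1 ((le_nm u 1 0).trans hR)
  have c0 : t.im ≤ R := by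
    have : u 0 1 = t.im + u 0 0 ^ 2 * t.im := by linear_combination a0 - u 0 0 * a1
    nlinarith [mul_nonneg (sq_nonneg (u 0 0)) h.le]
  have c1 : |t.re| ≤ R * R := by
    have : t.re = -(u 0 0 * t.im) := by linear_combination a1
    rw [this, abs_neg, abs_mul, abs_of_pos h]
    exact mul_le_mul (abs_le.2 b0) c0 h.le (h.le.trans c0)
  refine ⟨by nlinarith, (Complex.norm_le_abs_re_add_abs_im t).trans ?_⟩
  rw [abs_of_pos h]
  linarith

theorem vv_tr (τ : ℂ) : (vv τ).trace = 0 := by
  simp [vv, Matrix.trace_fin_two, neg_div]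

theorem vv_det (τ : ℂ) (h : 0 < τ.im) : (vv τ).det = 1 := by
  have := h.ne'
  simp only [vv, Matrix.det_fin_two_of]
  field_simp
  ring

theorem step (R : ℝ) (g : Gam) (w : V) (hw : w ∈ Om) (hd : dn g.1.1 w.1 ≠ 0)
    (h' : actM 0 g.1.1 w ∈ Om) (hR : nm (g.1.1 * vv w.1 * (g⁻¹).1.1) ≤ R) :
    1 ≤ R * (actM 0 g.1.1 w).1.im ∧ ‖(actM 0 g.1.1 w).1‖ ≤ R * R + R := by
  have e : g.1.1 * vv w.1 * (g⁻¹).1.1 * g.1.1 = g.1.1 * vv w.1 := by
    have : (g⁻¹).1.1 * g.1.1 = 1 := congrArg (fun x : Gam => x.1.1) (inv_mul_cancel g)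
    rw [mul_assoc, this, mul_one]
  have r0 := row w.1 hw _ _ e 0
  have r1 := row w.1 hw _ _ e 1
  refine bound _ h' _ R hR ?_ ?_
  · simp only [actM]
    field_simp
    simp only [dn]
    linear_combination r0
  · simp only [actM]
    field_simp
    simp only [dn]
    linear_combination r1

theorem shift (S T : ℝ) (hS : ∀ x : M2, ∃ l : O, nm (x + l.1) ≤ S) (w : V) (hw : w ∈ Om)
    (hT : ‖w.1‖ ≤ T) : ∃ l : O, (actM l.1 1 w).1 = w.1 ∧ ‖(actM l.1 1 w).2‖ ≤ S * T + S := by
  have hy : w.1.im ≠ 0 := ne_of_gt hw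
  obtain ⟨l, hl⟩ := hS (Matrix.of fun r j => if j = 0 then (w.2 r).im / w.1.im
    else (w.2 r).re - (w.2 r).im / w.1.im * w.1.re)
  set x : M2 := _ + l.1 with hx
  have h0 : 0 ≤ S := (abs_nonneg _).trans ((le_nm x 0 0).trans hl)
  refine ⟨l, by simp [actM, dn], (pi_norm_le_iff_of_nonneg
    (add_nonneg (mul_nonneg h0 ((norm_nonneg _).trans hT)) h0)).2 fun r => ?_⟩
  have e : (actM l.1 1 w).2 r = x r 0 * w.1 + x r 1 := by
    apply Complex.ext
    · simp [actM, dn, tr, hx, -Complex.ofReal_div]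
      ring
    · simp [actM, dn, tr, hx, -Complex.ofReal_div]
      field_simp
  rw [e]
  refine (norm_add_le _ _).trans (add_le_add ?_ ?_)
  · rw [norm_mul, Complex.norm_real]
    exact mul_le_mul ((le_nm x r 0).trans hl) hT (norm_nonneg _) h0
  · rw [Complex.norm_real]
    exact (le_nm x r 1).trans hl

end CCa

theorem p_CC (hACT : S_ACT) (hCOC : S_COC) (hLAT : S_LAT) :
    S_CC := by
  obtain ⟨R, hR⟩ := hCOC
  obtain ⟨-, -, ⟨S, hS⟩, -⟩ := hLAT
  have h0 : 0 ≤ R := by
    obtain ⟨g, hg⟩ := hR _ (CCa.vv_tr Complex.I) (CCa.vv_det _ (by simp))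
    exact (abs_nonneg _).trans ((CCa.le_nm _ 0 0).trans hg)
  refine ⟨{w : V | 1 ≤ R * w.1.im} ∩ closedBall 0 (max (R * R + R) (S * (R * R + R) + S)),
    (isCompact_closedBall _ _).inter_left (isClosed_le (by fun_prop) (by fun_prop)),
    fun w hw => ?_, fun w hw => ?_⟩
  · exact lt_of_not_ge fun h => absurd (le_trans hw.1 (mul_nonpos_of_nonneg_of_nonpos h0 h))
      (by norm_num)
  · obtain ⟨g, hg⟩ := hR _ (CCa.vv_tr w.1) (CCa.vv_det _ hw)
    obtain ⟨hd, -, h1, -, h2⟩ := (hACT.2 0 g.1.1 g.1.2).2 w hw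
    obtain ⟨h3, h4⟩ := CCa.step R g w hw hd h1 hg
    obtain ⟨l, h5, h6⟩ := CCa.shift S _ hS _ h1 h4
    have e := (h2 l.1 1).2.2 Matrix.det_one
    rw [zero_add, one_mul] at e
    refine ⟨⟨l * toO g, g⟩, ?_⟩
    have e' : actJ ⟨l * toO g, g⟩ w = actM l.1 1 (actM 0 g.1.1 w) := e
    rw [e']
    refine ⟨by change 1 ≤ R * _; rw [h5]; exact h3, ?_⟩
    rw [mem_closedBall_zero_iff, Prod.norm_def, h5]
    exact max_le_max h4 h6

end Pool.Agent.P.MP_ab0431_ag.T

end

section

/-! Step FIX. -/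


namespace Pool.Agent.P.MP_ab0431_ag.T

open Set Filter Topology Metric

namespace FIXa

theorem lin {a b : ℝ} {τ : ℂ} (h : 0 < τ.im) (e : (a : ℂ) * τ + b = 0) : a = 0 ∧ b = 0 := by
  have h1 : a = 0 := by simpa [h.ne'] using congrArg Complex.im e
  exact ⟨h1, by simpa [h1] using e⟩

theorem unfold {l γ : M2} {w : V} (h : dn γ w.1 ≠ 0) (e : actM l γ w = w) :
    (γ 0 0 * w.1 + γ 0 1 : ℂ) = w.1 * (γ 1 0 * w.1 + γ 1 1) ∧
      ∀ r, w.2 r + l r 0 * w.1 + l r 1 = w.2 r * (γ 1 0 * w.1 + γ 1 1) :=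
  ⟨(div_eq_iff h).1 (congrArg Prod.fst e), fun r =>
    (div_eq_iff h).1 (congrFun (congrArg Prod.snd e) r)⟩

end FIXa

open FIXa

theorem p_FIX (hACT : S_ACT) (hPRES : S_PRES) :
    S_FIX := by
  intro p hp w hw w' hw' e e'
  have hd : (p.g.1.1 : M2).det = 1 := p.g.1.2
  obtain ⟨e1, e2⟩ := unfold ((hACT.2 p.l.1 _ hd).2 w hw).1 e
  obtain ⟨e1', e2'⟩ := unfold ((hACT.2 p.l.1 _ hd).2 w' hw').1 e'
  have hi : 0 < w.1.im := hw
  have hi' : 0 < w'.1.im := hw'
  rw [Matrix.det_fin_two] at hd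
  by_cases hc : p.g.1.1 1 0 = 0
  · exfalso
    obtain ⟨h1, h2⟩ := lin (a := p.g.1.1 0 0 - p.g.1.1 1 1) (b := p.g.1.1 0 1) hi (by
      rw [hc] at e1; push_cast at e1 ⊢; linear_combination e1)
    have h3 : p.g.1.1 0 0 = p.g.1.1 1 1 := sub_eq_zero.1 h1
    have h4 : p.g.1.1 1 1 * p.g.1.1 1 1 = 1 := by
      rw [h3, h2] at hd; linarith
    rcases mul_self_eq_one_iff.1 h4 with h5 | h5
    · refine hp (Jac.ext (Subtype.ext ?_) (Subtype.ext (Subtype.ext ?_)))
      · have h6 := fun r => lin (a := p.l.1 r 0) (b := p.l.1 r 1) hi (by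
          have := e2 r
          rw [hc, h5] at this; push_cast at this; linear_combination this)
        ext i j
        fin_cases j
        · exact (h6 i).1
        · exact (h6 i).2
      · ext i j
        fin_cases i <;> fin_cases j <;> simp [h2, h3, h5, hc]
    · refine hPRES.1 p.g ?_
      ext i j
      fin_cases i <;> fin_cases j <;> simp [h2, h3, h5, hc]
  · have h1 : w.1 = w'.1 := by
      have h2 : (p.g.1.1 1 0 * (w.1 + w'.1) + (p.g.1.1 1 1 - p.g.1.1 0 0 : ℝ) : ℂ) ≠ 0 :=
        fun h => hc (lin (by rw [Complex.add_im]; positivity) h).1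
      refine sub_eq_zero.1 (mul_left_cancel₀ h2 ?_)
      push_cast
      linear_combination e1' - e1
    have h2 : (p.g.1.1 1 0 * w.1 + (p.g.1.1 1 1 - 1 : ℝ) : ℂ) ≠ 0 := fun h => hc (lin hi h).1
    refine Prod.ext h1 (funext fun r => sub_eq_zero.1 (mul_left_cancel₀ h2 ?_))
    have a := e2 r
    have b := e2' r
    rw [← h1] at b
    push_cast
    linear_combination b - a

end Pool.Agent.P.MP_ab0431_ag.T

end

section

/-! Step TF. -/


namespace Pool.Agent.P.MP_ab0431_ag.T

open Set Filter Topology Metric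

namespace TFa

/-- The congruence subgroup of level three. -/
def H0 : Subgroup Gam where
  carrier := {g | ∃ β : O, toO g = 1 + (β + β + β)}
  one_mem' := ⟨0, by simp⟩
  mul_mem' := by
    rintro g h ⟨β, e⟩ ⟨γ, e'⟩
    exact ⟨β + γ + β * (γ + γ + γ), by rw [map_mul, e, e']; noncomm_ring⟩
  inv_mem' := by
    rintro g ⟨β, e⟩
    have h : toO g⁻¹ * (1 + (β + β + β)) = 1 := by rw [← e, ← map_mul]; simp
    exact ⟨-(toO g⁻¹ * β), by rw [← sub_eq_zero, ← sub_eq_zero.2 h]; noncomm_ring⟩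

theorem fin : H0.FiniteIndex := by
  choose a b c d e using fun g : Gam => mem_O.1 (Gam_mem g)
  have key : ∀ g h : Gam, ((a g : ZMod 3), (b g : ZMod 3), (c g : ZMod 3), (d g : ZMod 3)) =
      ((a h : ZMod 3), (b h : ZMod 3), (c h : ZMod 3), (d h : ZMod 3)) → g⁻¹ * h ∈ H0 := by
    intro g h H
    simp only [Prod.mk.injEq, ZMod.intCast_eq_intCast_iff_dvd_sub] at H
    obtain ⟨⟨x, hx⟩, ⟨y, hy⟩, ⟨z, hz⟩, ⟨w, hw⟩⟩ := H
    let β : O := ⟨om x y z w, _, _, _, _, rfl⟩
    have h1 : toO h = toO g + (β + β + β) := by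
      apply Subtype.ext
      change h.1.1 = g.1.1 + (om x y z w + om x y z w + om x y z w)
      rw [e g, e h, om_add, om_add, om_add]
      congr 1 <;> omega
    have h2 : toO g⁻¹ * toO g = 1 := by rw [← map_mul]; simp
    exact ⟨toO g⁻¹ * β, by rw [map_mul, h1, mul_add, h2]; noncomm_ring⟩
  have : Finite (Gam ⧸ H0) := Finite.of_injective
    (fun q : Gam ⧸ H0 => ((a q.out : ZMod 3), (b q.out : ZMod 3), (c q.out : ZMod 3),
      (d q.out : ZMod 3))) fun q r H => by
      rw [← q.out_eq', ← r.out_eq']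
      exact QuotientGroup.eq.2 (key _ _ H)
  exact Subgroup.finiteIndex_of_finite_quotient

theorem trc {g : Gam} (h : g ∈ H0) : ∃ n : ℤ, g.1.1 0 0 + g.1.1 1 1 = 2 - 9 * n := by
  obtain ⟨⟨_, a, b, c, d, rfl⟩, e⟩ := h
  have e1 : g.1.1 = 1 + (om a b c d + om a b c d + om a b c d) := congrArg Subtype.val e
  rw [← om_one, om_add, om_add, om_add] at e1
  have h1 := g.1.2
  rw [e1, om_det] at h1
  have h2 := om_trace (1 + (a + a + a)) (0 + (b + b + b)) (0 + (c + c + c)) (0 + (d + d + d))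
  rw [← e1, Matrix.trace_fin_two] at h2
  refine ⟨a ^ 2 + b ^ 2 - 3 * c ^ 2 - d ^ 2 + a * d + b * d - 3 * c * d, ?_⟩
  rw [h2]
  push_cast at h1 ⊢
  linear_combination h1

theorem one_of {a b c d x y : ℝ} {n : ℤ} (hy : 0 < y) (hd : a * d - b * c = 1)
    (ht : a + d = 2 - 9 * n) (h1 : a * x + b = c * (x * x - y * y) + d * x)
    (h2 : a * y = 2 * c * x * y + d * y) : a = 1 ∧ b = 0 ∧ c = 0 ∧ d = 1 := by
  have h3 : a = 2 * c * x + d := mul_right_cancel₀ hy.ne' (by linear_combination h2)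
  have h4 : (a + d) ^ 2 = 4 - 4 * (c * y) ^ 2 := by
    have : b = -(c * (x * x + y * y)) := by rw [h3] at h1; linear_combination h1
    rw [this, h3] at hd
    rw [h3]
    linear_combination 4 * hd
  have hn : n = 0 := by
    have h5 : ((2 - 9 * n) ^ 2 : ℝ) ≤ 4 := by rw [← ht, h4]; nlinarith [sq_nonneg (c * y)]
    have h6 : (2 - 9 * n) ^ 2 ≤ (4 : ℤ) := by exact_mod_cast h5
    nlinarith
  subst hn
  have hc : c = 0 := by
    have : (c * y) ^ 2 = 0 := by rw [ht] at h4; push_cast at h4; linarith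
    exact (mul_eq_zero.1 (pow_eq_zero_iff two_ne_zero |>.1 this)).resolve_right hy.ne'
  subst hc
  push_cast at ht
  have ha : a = 1 := by linarith
  have hd' : d = 1 := by linarith
  subst ha hd'
  exact ⟨rfl, by linarith, rfl, rfl⟩

end TFa

open TFa in
theorem p_TF (hACT : S_ACT) :
    S_TF := by
  refine ⟨PiH H0, ⟨by rw [PiH_index]; exact fin.index_ne_zero⟩, fun p hp w hw e => ?_⟩
  obtain ⟨n, hn⟩ := trc (mem_PiH.1 hp)
  have hw' : 0 < w.1.im := hw
  have hd := p.g.1.2
  rw [Matrix.det_fin_two] at hd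
  have e1 : (p.g.1.1 0 0 * w.1 + p.g.1.1 0 1) / dn p.g.1.1 w.1 = w.1 := congrArg Prod.fst e
  have h0 : dn p.g.1.1 w.1 ≠ 0 := fun h => by
    rw [h, div_zero] at e1
    rw [← e1] at hw'
    simp at hw'
  rw [div_eq_iff h0, dn] at e1
  have r1 := congrArg Complex.re e1
  have r2 := congrArg Complex.im e1
  simp only [Complex.add_re, Complex.mul_re, Complex.ofReal_re, Complex.ofReal_im, Complex.add_im,
    Complex.mul_im] at r1 r2
  obtain ⟨ha, hb, hc, hd'⟩ := one_of (x := w.1.re) hw' hd hn (by linear_combination r1)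
    (by linear_combination r2)
  have hg : p.g = 1 := by
    refine Subtype.ext (Subtype.ext ?_)
    change p.g.1.1 = 1
    ext i j
    fin_cases i <;> fin_cases j <;> simp [ha, hb, hc, hd']
  refine Jac.ext (Subtype.ext ?_) hg
  change p.l.1 = 0
  ext r j
  have e2 : tr p.l.1 w r / dn p.g.1.1 w.1 = w.2 r := congrFun (congrArg Prod.snd e) r
  rw [dn, hc, hd', tr] at e2
  have r1 := congrArg Complex.re e2
  have r2 := congrArg Complex.im e2
  simp [hw'.ne'] at r1 r2
  rw [r2] at r1
  fin_cases j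
  · simpa using r2
  · simp only [zero_mul, add_zero] at r1
    simpa using r1

end Pool.Agent.P.MP_ab0431_ag.T

end

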