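import Pool.Agent.P.MP_ab0431_ag.B.Ser
import Pool.Agent.P.MP_ab0431_ag.B.Bert
import Pool.Agent.P.MP_ab0431_ag.B.Push
import Pool.Agent.P.MP_ab0431_ag.B.Lef
import Pool.Agent.P.MP_ab0431_ag.B.Mfd
import Pool.Agent.P.MP_ab0431_ag.B.Cox
import Pool.Agent.P.MP_ab0431_ag.B.Rig
import Pool.Agent.P.MP_ab0431_ag.B.Tree
import Pool.Agent.P.MP_ab0431_ag.B.Kuga
import Pool.Agent.P.MP_ab0431_ag.B.Est

/-! Assembly of the steps. -/

namespace Pool.Agent.P.MP_ab0431_ag.T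

theorem all_PD : S_PD := p_PD
theorem all_PROD : S_PROD := p_PROD
theorem all_IFT : S_IFT := p_IFT
theorem all_SERA : S_SERA := p_SERA
theorem all_SERB : S_SERB := p_SERB
theorem all_JET : S_JET := p_JET all_SERA all_SERB all_IFT
theorem all_SEP : S_SEP := p_SEP all_SERA all_SERB
theorem all_STEP : S_STEP := p_STEP
theorem all_HYP : S_HYP := p_HYP all_PD all_JET all_SEP all_STEP
theorem all_EMB : S_EMB := p_EMB all_JET all_SEP
theorem all_NZ : S_NZ := p_NZ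
theorem all_NEG : S_NEG := p_NEG
theorem all_PLH : S_PLH := p_PLH
theorem all_PUSH : S_PUSH := p_PUSH all_NZ
theorem all_TUBE : S_TUBE := p_TUBE
theorem all_GLOB : S_GLOB := p_GLOB
theorem all_YSP : S_YSP := p_YSP
theorem all_LIFT : S_LIFT := p_LIFT
theorem all_LEF : S_LEF := p_LEF all_IFT all_NEG all_PLH all_PUSH all_TUBE all_GLOB all_YSP all_LIFT
theorem all_TRANS : S_TRANS := p_TRANS all_IFT
theorem all_CHART : S_CHART := p_CHART all_IFT
theorem all_MFD : S_MFD := p_MFD all_TRANS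
theorem all_KAMP : S_KAMP := p_KAMP all_TRANS
theorem all_COV : S_COV := p_COV
theorem all_ABS : S_ABS := p_ABS all_PD all_HYP all_PROD all_EMB all_LEF all_CHART all_MFD all_KAMP all_COV
theorem all_TITS : S_TITS := p_TITS
theorem all_PRES : S_PRES := p_PRES all_TITS
theorem all_COC : S_COC := p_COC
theorem all_LAT : S_LAT := p_LAT
theorem all_FINP : S_FINP := p_FINP all_COC all_LAT
theorem all_ISO : S_ISO := p_ISO
theorem all_RIG : S_RIG := p_RIG all_ISO all_FINP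
theorem all_SHAP : S_SHAP := p_SHAP
theorem all_TREE : S_TREE := p_TREE
theorem all_TREEB : S_TREEB := p_TREEB
theorem all_CNT : S_CNT := p_CNT
theorem all_GRP : S_GRP := p_GRP all_PRES all_RIG all_SHAP all_TREE all_TREEB all_CNT
theorem all_ACT : S_ACT := p_ACT
theorem all_JCO : S_JCO := p_JCO all_ACT
theorem all_LEVI : S_LEVI := p_LEVI
theorem all_PEAK : S_PEAK := p_PEAK
theorem all_ESTA : S_ESTA := p_ESTA all_ACT
theorem all_ESTB : S_ESTB := p_ESTB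
theorem all_CC : S_CC := p_CC all_ACT all_COC all_LAT
theorem all_FIX : S_FIX := p_FIX all_ACT all_PRES
theorem all_TF : S_TF := p_TF all_ACT
theorem all_DAT : S_DAT := p_DAT all_ACT all_JCO all_LEVI all_PEAK all_ESTA all_ESTB all_LAT all_CC all_FIX all_TF

end Pool.Agent.P.MP_ab0431_ag.T

/-! The two theorems from the three main steps. -/

namespace Pool.Agent.P.MP_ab0431_ag.T

theorem regular (hA : S_ABS) (hD : S_DAT) (hG : S_GRP) :
    ∃ (X : Surf) (C : ℕ), ∀ n : ℕ, ∃ d : ℕ, 0 < d ∧ d ≤ C * (n + 1) ∧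
    ∃ (Y : Fin (2 ^ n) → Surf) (y : ∀ i, (Y i).X),
      (∀ i, IsCover (Y i) X d ∧
        ∀ f : FundamentalGroup (Y i).X (y i) →* Multiplicative ℝ, f = 1) ∧
      Pairwise fun i j =>
        IsEmpty (FundamentalGroup (Y i).X (y i) ≃* FundamentalGroup (Y j).X (y j)) := by
  obtain ⟨D⟩ := hD
  obtain ⟨X, hX⟩ := hA Jac D
  obtain ⟨C, hC⟩ := hG.1
  refine ⟨X, C, fun n => ?_⟩
  obtain ⟨d, h0, h1, K, h2, h3⟩ := hC n
  choose Y y h4 h5 using fun i => hX (K i) ⟨((h2 i).1.trans_gt h0).ne'⟩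
  refine ⟨d, h0, h1, Y, y, fun i => ⟨(h2 i).1 ▸ h4 i, fun f => ?_⟩, fun i j hij => ⟨fun e =>
    (h3 hij).false (((h5 i).some.symm.trans e).trans (h5 j).some)⟩⟩
  ext x
  simpa using DFunLike.congr_fun ((h2 i).2 (f.comp (h5 i).some.symm.toMonoidHom)) ((h5 i).some x)

theorem general (hA : S_ABS) (hD : S_DAT) (hG : S_GRP) :
    ∃ (X : Surf) (C : ℕ), ∀ n : ℕ, ∃ d : ℕ, 0 < d ∧ d ≤ C * (n + 1) ∧
    ∃ (Y : Fin (n ^ n) → Surf) (y : ∀ i, (Y i).X), (∀ i, IsCover (Y i) X d) ∧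
      Pairwise fun i j =>
        IsEmpty (FundamentalGroup (Y i).X (y i) ≃* FundamentalGroup (Y j).X (y j)) := by
  obtain ⟨D⟩ := hD
  obtain ⟨X, hX⟩ := hA Jac D
  obtain ⟨C, hC⟩ := hG.2
  refine ⟨X, C, fun n => ?_⟩
  obtain ⟨d, h0, h1, K, h2, h3⟩ := hC n
  choose Y y h4 h5 using fun i => hX (K i) ⟨((h2 i).trans_gt h0).ne'⟩
  exact ⟨d, h0, h1, Y, y, fun i => h2 i ▸ h4 i, fun i j hij => ⟨fun e =>
    (h3 hij).false (((h5 i).some.symm.trans e).trans (h5 j).some)⟩⟩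

end Pool.Agent.P.MP_ab0431_ag.T
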