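import Pool.Agent.P.MP_ab0431_ag.B.Base

section

/-! Step PD. -/


namespace Pool.Agent.P.MP_ab0431_ag.T

open Set Filter Topology Metric
open scoped Manifold ContDiff

theorem p_PD :
    S_PD := by
  intro G _ A J ρ h K L hK hKΩ hL hLΩ
  refine hL.induction_on (p := fun S => {g | ∃ w ∈ K, A.a g w ∈ S}.Finite) (by simp)
    (fun s t hst ht => ht.subset fun g ⟨w, h1, h2⟩ => ⟨w, h1, hst h2⟩)
    (fun s t hs ht => (hs.union ht).subset fun g ⟨w, h1, h2⟩ =>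
      h2.elim (fun h3 => Or.inl ⟨w, h1, h3⟩) fun h3 => Or.inr ⟨w, h1, h3⟩) fun w₀ hw₀ => ?_
  obtain ⟨f, κ, hf⟩ := h.peak w₀ (hLΩ hw₀)
  obtain ⟨M, hM, hb⟩ := hf.sum K hK hKΩ
  have hc : ContinuousAt (fun w => ‖f w‖ * ρ w) w₀ :=
    (hf.hol.continuousOn.norm.mul h.cont).continuousAt (A.op.mem_nhds (hLΩ hw₀))
  have h1 : {w | (1 / 2 : ℝ) < ‖f w‖ * ρ w} ∈ 𝓝 w₀ :=
    hc.eventually (lt_mem_nhds (by simp only [hf.eq]; norm_num))
  refine ⟨_, mem_nhdsWithin_of_mem_nhds h1, ?_⟩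
  have h2 : ∀ᶠ g in cofinite, M g < (1 / 2) ^ κ :=
    hM.tendsto_cofinite_zero.eventually (gt_mem_nhds (by positivity))
  refine (eventually_cofinite.1 h2).subset fun g ⟨w, h3, h4⟩ => not_lt.2 (le_trans ?_ (hb g w h3))
  have h5 : (1 / 2 : ℝ) ^ κ ≤ (‖f (A.a g w)‖ * ρ (A.a g w)) ^ κ :=
    pow_le_pow_left₀ (by norm_num) (le_of_lt h4) κ
  exact h5.trans (le_mul_of_one_le_right (le_trans (by positivity) h5) (by simp))

end Pool.Agent.P.MP_ab0431_ag.T

end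

section

/-! Step PROD. -/


namespace Pool.Agent.P.MP_ab0431_ag.T

open Set Filter Topology Metric
open scoped Manifold ContDiff

namespace PRODa

theorem key {a b : ℝ} {k : ℕ} (hk : 0 < k) (ha : 0 ≤ a) (ha1 : a ≤ 1) (hb1 : b ≤ 1) :
    a ^ k * b ≤ a :=
  (mul_le_of_le_one_right (pow_nonneg ha _) hb1).trans (pow_le_of_le_one ha ha1 hk.ne')

theorem spl (x y : ℂ) (r s : ℝ) (k : ℕ) :
    ‖x ^ k * y‖ * (r ^ k * s) = (‖x‖ * r) ^ k * (‖y‖ * s) := by
  rw [norm_mul, norm_pow, mul_pow]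
  ring

end PRODa

theorem p_PROD :
    S_PROD := by
  intro G _ A J ρ ρ' k h h' hk
  refine ⟨fun g => ?_, fun g g' w hw => ?_, (h.cont.pow k).mul h'.cont,
    fun w hw => mul_pos (pow_pos (h.pos w hw) _) (h'.pos w hw), fun g w hw => ?_,
    fun w₀ hw₀ => ?_⟩
  · simp only [div_eq_mul_inv]
    refine ((h.hol g).pow k).mul (DifferentiableOn.inv (fun w hw => ?_) fun w hw => A.jac_ne g hw)
    exact (diffAt_det ((Pool.Agent.P.MP_f17f76_ag.E.diffOn_fderiv A.op (A.hol g)).differentiableAt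
      (A.op.mem_nhds hw))).differentiableWithinAt
  · simp only [h.coc g g' w hw, A.jac_mul g g' hw, mul_pow, div_mul_div_comm]
  · have h1 : ‖A.jac g w‖ ≠ 0 := norm_ne_zero_iff.2 (A.jac_ne g hw)
    simp only [h'.inv g w hw, norm_div, norm_pow, ← h.inv g w hw, mul_pow]
    field_simp
  · obtain ⟨f, κ, hf⟩ := h.peak w₀ hw₀
    obtain ⟨f', h1, h2, h3⟩ := h'.peak w₀ hw₀
    have le1 : ∀ w ∈ A.Ω, ‖f w‖ * ρ w ≤ 1 := fun w hw => by
      by_cases e : w = w₀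
      · rw [e, hf.eq]
      · exact (hf.lt w hw e).le
    have nn : ∀ w ∈ A.Ω, 0 ≤ ‖f w‖ * ρ w := fun w hw => mul_nonneg (norm_nonneg _) (h.pos w hw).le
    have hle : ∀ w ∈ A.Ω, ‖f w ^ k * f' w‖ * (ρ w ^ k * ρ' w) ≤ ‖f w‖ * ρ w := fun w hw => by
      rw [PRODa.spl]
      exact PRODa.key hk (nn w hw) (le1 w hw) (h3 w hw)
    refine ⟨fun w => f w ^ k * f' w, κ, (hf.hol.pow k).mul h1, ?_,
      fun w hw e => (hle w hw).trans_lt (hf.lt w hw e), fun K hK hK' => ?_⟩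
    · simp only [PRODa.spl, hf.eq, h2, one_pow, mul_one]
    · obtain ⟨M, hM, hM'⟩ := hf.sum K hK hK'
      refine ⟨M, hM, fun g w hw => le_trans ?_ (hM' g w hw)⟩
      have hw' := A.maps g w (hK' hw)
      refine mul_le_mul_of_nonneg_right (pow_le_pow_left₀ ?_ (hle _ hw') _) (by positivity)
      exact mul_nonneg (norm_nonneg _) (mul_pos (pow_pos (h.pos _ hw') _) (h'.pos _ hw')).le

end Pool.Agent.P.MP_ab0431_ag.T

end

section

/-! Step IFT. -/


namespace Pool.Agent.P.MP_ab0431_ag.T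

open Set Filter Topology Metric
open scoped Manifold ContDiff

namespace IFTa

open Pool.Agent.P.MP_f17f76_ag.E

theorem one (Ω : Set V) (f : V → V) (w : V) (hΩ : IsOpen Ω) (hf : DifferentiableOn ℂ f Ω)
    (hw : w ∈ Ω) (hd : (fderiv ℂ f w).det ≠ 0) : ∃ F : OpenPartialHomeomorph V V, w ∈ F.source ∧
      F.source ⊆ Ω ∧ (∀ z, F z = f z) ∧ DifferentiableOn ℂ F.symm F.target ∧
      ∀ z ∈ F.source, (fderiv ℂ f z).det ≠ 0 := by
  have hO : IsOpen (Ω ∩ (fun z => (fderiv ℂ f z).det) ⁻¹' {0}ᶜ) :=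
    (ContinuousLinearMap.continuous_det.comp_continuousOn
      (diffOn_fderiv hΩ hf).continuousOn).isOpen_inter_preimage hΩ isOpen_compl_singleton
  have h1 : ContDiffAt ℂ 1 f w := (contDiffOn_of_diffOn hΩ 1 hf).contDiffAt (hΩ.mem_nhds hw)
  have h2 : ∀ z ∈ Ω, ∀ h : (fderiv ℂ f z).det ≠ 0, HasFDerivAt f
      ((fderiv ℂ f z).toContinuousLinearEquivOfDetNeZero h : V →L[ℂ] V) z := fun z hz h => by
    rw [ContinuousLinearMap.coe_toContinuousLinearEquivOfDetNeZero]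
    exact (hf.differentiableAt (hΩ.mem_nhds hz)).hasFDerivAt
  let F := (h1.toOpenPartialHomeomorph f (h2 w hw hd) one_ne_zero).restrOpen _ hO
  refine ⟨F, ⟨h1.mem_toOpenPartialHomeomorph_source (h2 w hw hd) one_ne_zero, hw, hd⟩,
    fun z hz => hz.2.1, fun z => rfl, fun y hy => ?_, fun z hz => hz.2.2⟩
  have h3 := F.map_target hy
  exact (F.hasFDerivAt_symm hy (h2 _ h3.2.1 h3.2.2)).differentiableAt.differentiableWithinAt

theorem compl (l : V →L[ℂ] ℂ) (hl : l ≠ 0) : ∃ L : V →L[ℂ] C2, (l.prod L).det ≠ 0 := by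
  have h0 : (l : V →ₗ[ℂ] ℂ) ≠ 0 := fun h => hl (ContinuousLinearMap.coe_injective h)
  have h1 : Module.finrank ℂ (LinearMap.ker (l : V →ₗ[ℂ] ℂ)) = Module.finrank ℂ C2 := by
    have := Module.Dual.finrank_ker_add_one_of_ne_zero h0
    rw [Module.finrank_prod, Module.finrank_self] at this
    omega
  obtain ⟨L, hL⟩ := LinearMap.exists_extend (LinearEquiv.ofFinrankEq _ _ h1).toLinearMap
  refine ⟨LinearMap.toContinuousLinearMap L, fun h => ?_⟩
  obtain ⟨v, hv, h2⟩ := (Submodule.ne_bot_iff _).1 (LinearMap.det_eq_zero_iff_ker_ne_bot.1 h)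
  have h3 : l v = 0 := congrArg Prod.fst (LinearMap.mem_ker.1 hv)
  have h4 : L v = 0 := congrArg Prod.snd (LinearMap.mem_ker.1 hv)
  have h5 : LinearEquiv.ofFinrankEq _ _ h1 ⟨v, h3⟩ = 0 :=
    (LinearMap.congr_fun hL ⟨v, h3⟩).symm.trans h4
  exact h2 (congrArg Subtype.val ((LinearEquiv.map_eq_zero_iff _).1 h5))

end IFTa

theorem p_IFT :
    S_IFT := by
  refine ⟨IFTa.one, fun Ω s w hΩ hs hw h => ?_⟩
  obtain ⟨L, hL⟩ := IFTa.compl _ h
  have h1 : ∀ z ∈ Ω, fderiv ℂ (fun z => (s z, L z)) z = (fderiv ℂ s z).prod L := fun z hz =>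
    ((hs.differentiableAt (hΩ.mem_nhds hz)).hasFDerivAt.prodMk L.hasFDerivAt).fderiv
  obtain ⟨F, a, b, c, d, e⟩ := IFTa.one Ω (fun z => (s z, L z)) w hΩ
    (hs.prodMk L.differentiable.differentiableOn) hw (by rwa [h1 w hw])
  exact ⟨L, F, a, b, c, d, fun z hz => h1 z (b hz) ▸ e z hz⟩

end Pool.Agent.P.MP_ab0431_ag.T

end

section

/-! Step SERA. -/


namespace Pool.Agent.P.MP_ab0431_ag.T

open Set Filter Topology Metric
open scoped Manifold ContDiff

namespace SERAa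

variable {G : Type} [Group G] {A : Act G} {J : G → V → ℂ} {ρ : V → ℝ} {w₀ : V} {f : V → ℂ}
  {κ k : ℕ}

theorem bound (h : Pk A J ρ) (hf : IsPeak A ρ w₀ f κ) (hk : κ ≤ k) {K : Set V} (hK : IsCompact K)
    (hs : K ⊆ A.Ω) (hne : K.Nonempty) :
    ∃ M : G → ℝ, Summable M ∧ ∀ g, ∀ w ∈ K, ‖trm A J f k g w‖ ≤ M g := by
  obtain ⟨M, hM, hb⟩ := hf.sum K hK hs
  obtain ⟨z, hz, hmin⟩ := hK.exists_isMinOn hne (h.cont.mono hs)
  have hm := h.pos z (hs hz)
  refine ⟨fun g => M g / ρ z ^ k, hM.div_const _, fun g w hw => ?_⟩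
  have hw' := hs hw
  have hg := A.maps g w hw'
  have hρ := h.pos w hw'
  have hJ : 0 < ‖J g w‖ := norm_pos_iff.2 (h.ne g hw')
  have hP0 : 0 ≤ ‖f (A.a g w)‖ * ρ (A.a g w) := mul_nonneg (norm_nonneg _) (h.pos _ hg).le
  have hP1 : ‖f (A.a g w)‖ * ρ (A.a g w) ≤ 1 := by
    by_cases e : A.a g w = w₀
    · rw [e, hf.eq]
    · exact (hf.lt _ hg e).le
  have e1 : ‖f (A.a g w)‖ / ‖J g w‖ = ‖f (A.a g w)‖ * ρ (A.a g w) / ρ w := by
    rw [← h.inv g w hw', div_eq_div_iff hJ.ne' (mul_pos (h.pos _ hg) hJ).ne']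
    ring
  have e2 : ‖((1 : ℂ), A.a g w)‖ ≤ 1 + ‖A.a g w‖ := by
    rw [Prod.norm_def, norm_one]
    exact max_le (le_add_of_nonneg_right (norm_nonneg _)) (le_add_of_nonneg_left zero_le_one)
  rw [trm, norm_smul, norm_pow, norm_div, e1, div_pow, div_mul_eq_mul_div]
  have e3 := (mul_le_mul (pow_le_pow_of_le_one hP0 hP1 hk) e2 (norm_nonneg _)
    (pow_nonneg hP0 _)).trans (hb g w hw)
  exact div_le_div₀ ((mul_nonneg (pow_nonneg hP0 _) (norm_nonneg _)).trans e3) e3 (pow_pos hm _)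
    (pow_le_pow_left₀ hm.le (hmin hw) _)

theorem diff (h : Pk A J ρ) (hf : IsPeak A ρ w₀ f κ) (g : G) :
    DifferentiableOn ℂ (trm A J f k g) A.Ω := by
  have e : trm A J f k g = fun w => (f (A.a g w) * (J g w)⁻¹) ^ k • ((1 : ℂ), A.a g w) := by
    funext w
    rw [trm, div_eq_mul_inv]
  rw [e]
  exact (((hf.hol.comp (A.hol g) (A.maps g)).mul ((h.hol g).inv fun _ hw => h.ne g hw)).pow k).smul
    ((differentiableOn_const _).prodMk (A.hol g))

end SERAa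

theorem p_SERA :
    S_SERA := by
  intro G _ A J ρ w₀ f κ k h hf hk
  refine ⟨fun c hc => ?_, fun g w hw => ?_⟩
  · obtain ⟨r, hr, hs⟩ := nhds_basis_closedBall.mem_iff.1 (A.op.mem_nhds hc)
    obtain ⟨M, hM, hb⟩ := SERAa.bound h hf hk (isCompact_closedBall c r) hs
      ⟨c, mem_closedBall_self hr.le⟩
    have h0 : ∀ g, 0 ≤ M g := fun g => (norm_nonneg _).trans (hb g c (mem_closedBall_self hr.le))
    have key : DifferentiableOn ℂ (ser A J f k) (ball c r) := by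
      refine Pool.Agent.P.MP_f17f76_ag.E.diffOn_lim (l := atTop) (C := ∑' g, M g)
        (g := fun (s : Finset G) w => ∑ g ∈ s, trm A J f k g w) (.of_forall fun s => ⟨?_, ?_⟩) ?_
      · exact .fun_sum fun g _ => (SERAa.diff h hf g).mono (ball_subset_closedBall.trans hs)
      · exact fun z hz => (norm_sum_le_of_le s fun g _ => hb g z (ball_subset_closedBall hz)).trans
          (hM.sum_le_tsum s fun g _ => h0 g)
      · exact fun z hz =>
          (Summable.of_norm_bounded hM fun g => hb g z (ball_subset_closedBall hz)).hasSum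
    exact (key.differentiableAt (ball_mem_nhds c hr)).differentiableWithinAt
  · have e : ∀ g', trm A J f k g' (A.a g w) = J g w ^ k • trm A J f k (g' * g) w := fun g' => by
      rw [trm, trm, A.mul _ _ _ hw, h.coc _ _ _ hw, smul_smul, ← mul_pow]
      congr 2
      have := h.ne g hw
      have := h.ne g' (A.maps g w hw)
      field_simp
    simp only [ser, e]
    rw [tsum_const_smul'', ← (Equiv.mulRight g).tsum_eq fun g' => trm A J f k g' w]
    rfl

end Pool.Agent.P.MP_ab0431_ag.T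

end

section

/-! Step SERB. -/


namespace Pool.Agent.P.MP_ab0431_ag.T

open Set Filter Topology Metric
open scoped Manifold ContDiff

namespace SERBa

theorem norm_trm {G : Type} [Group G] {A : Act G} {J : G → V → ℂ} {ρ : V → ℝ} (h : Pk A J ρ)
    (f : V → ℂ) (k : ℕ) (g : G) {w : V} (hw : w ∈ A.Ω) :
    ‖trm A J f k g w‖ * ρ w ^ k ≤ (‖f (A.a g w)‖ * ρ (A.a g w)) ^ k * (1 + ‖A.a g w‖) := by
  have hJ : ‖J g w‖ ≠ 0 := norm_ne_zero_iff.2 (h.ne g hw)
  have e : ‖f (A.a g w) / J g w‖ * ρ w = ‖f (A.a g w)‖ * ρ (A.a g w) := by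
    rw [← h.inv g w hw, norm_div]
    field_simp
  have h0 : 0 ≤ (‖f (A.a g w)‖ * ρ (A.a g w)) ^ k :=
    pow_nonneg (mul_nonneg (norm_nonneg _) (h.pos _ (A.maps g w hw)).le) _
  rw [trm, norm_smul, norm_pow, mul_right_comm, ← mul_pow, e]
  refine mul_le_mul_of_nonneg_left ?_ h0
  rw [Prod.norm_mk, norm_one]
  exact max_le (le_add_of_nonneg_right (norm_nonneg _)) (le_add_of_nonneg_left zero_le_one)

end SERBa

theorem p_SERB :
    S_SERB := by
  classical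
  intro G _ A J ρ w₀ f κ h hf w₁ hw₁
  obtain ⟨r₀, hr₀, hK⟩ := nhds_basis_closedBall.mem_iff.1 (A.op.mem_nhds hw₁)
  obtain ⟨M, hM, hb⟩ := hf.sum _ (isCompact_closedBall w₁ r₀) hK
  set P : V → ℝ := fun w => ‖f w‖ * ρ w with hP
  have P0 : ∀ w ∈ A.Ω, 0 ≤ P w := fun w hw => mul_nonneg (norm_nonneg _) (h.pos w hw).le
  have hw₁K : w₁ ∈ closedBall w₁ r₀ := mem_closedBall_self hr₀.le
  have hle : ∀ g, ∀ w ∈ closedBall w₁ r₀, P (A.a g w) ^ κ ≤ M g := fun g w hw =>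
    (le_mul_of_one_le_right (pow_nonneg (P0 _ (A.maps g w (hK hw))) _)
      (le_add_of_nonneg_right (norm_nonneg _))).trans (hb g w hw)
  have M0 : ∀ g, 0 ≤ M g := fun g =>
    (pow_nonneg (P0 _ (A.maps g _ hw₁)) _).trans (hle g _ hw₁K)
  have hfin : {g | (1 / 2 : ℝ) ^ κ ≤ M g}.Finite := by
    have := hM.tendsto_cofinite_zero.eventually (gt_mem_nhds (by positivity : (0 : ℝ) < (1 / 2) ^ κ))
    exact (eventually_cofinite.1 this).subset fun g hg => not_lt.2 hg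
  have hB : {g | A.a g w₁ = w₀}.Finite := hfin.subset fun g hg => by
    have := hle g _ hw₁K
    rw [show A.a g w₁ = w₀ from hg, show P w₀ = 1 from hf.eq] at this
    exact (pow_le_pow_left₀ (by norm_num) (by norm_num) _).trans this
  have hq : ∀ᶠ q in 𝓝[<] (1 : ℝ), ∀ g ∈ {g | (1 / 2 : ℝ) ^ κ ≤ M g},
      A.a g w₁ ≠ w₀ → P (A.a g w₁) < q := by
    refine (eventually_all_finite hfin).2 fun g _ => ?_
    by_cases e : A.a g w₁ = w₀
    · exact .of_forall fun _ hne => absurd e hne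
    · exact ((lt_mem_nhds (hf.lt _ (A.maps g _ hw₁) e)).filter_mono nhdsWithin_le_nhds).mono
        fun _ hq _ => hq
  obtain ⟨q, hq1, hq2, hq3⟩ := (hq.and ((Ioo_mem_nhdsLT (by norm_num : (1 / 2 : ℝ) < 1)))).exists
  have hev : ∀ᶠ w in 𝓝 w₁, ∀ g ∈ {g | (1 / 2 : ℝ) ^ κ ≤ M g},
      A.a g w₁ ≠ w₀ → P (A.a g w) < q := by
    refine (eventually_all_finite hfin).2 fun g hg => ?_
    by_cases e : A.a g w₁ = w₀
    · exact .of_forall fun _ hne => absurd e hne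
    · have hn := A.op.mem_nhds (A.maps g _ hw₁)
      have hc : ContinuousAt (fun w => P (A.a g w)) w₁ :=
        ContinuousAt.comp (g := P)
          ((hf.hol.continuousOn.continuousAt hn).norm.mul (h.cont.continuousAt hn))
          (A.diffAt g hw₁).continuousAt
      exact (hc.eventually (gt_mem_nhds (hq1 g hg e))).mono fun _ hw _ => hw
  obtain ⟨r, hr, hball⟩ := Metric.mem_nhds_iff.1 (hev.and (closedBall_mem_nhds w₁ hr₀))
  have q0 : 0 < q := by linarith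
  refine ⟨hB.toFinset, q, (∑' g, M g) / q ^ κ, r, fun g => hB.mem_toFinset, q0.le, hq3, hr,
    fun w hw => hK (hball hw).2, fun k hk w hw => ?_⟩
  obtain ⟨h1, h2⟩ := hball hw
  have hw' := hK h2
  have hρ : 0 < ρ w ^ k := pow_pos (h.pos w hw') _
  obtain ⟨j, rfl⟩ := Nat.exists_eq_add_of_le hk
  have key : ∀ g, A.a g w₁ ≠ w₀ → ‖trm A J f (κ + j) g w‖ ≤ M g * (q ^ j / ρ w ^ (κ + j)) := by
    intro g hg
    have hPq : P (A.a g w) ≤ q := by
      by_cases e : (1 / 2 : ℝ) ^ κ ≤ M g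
      · exact (h1 g e hg).le
      · by_contra hc
        exact e ((pow_le_pow_left₀ (by norm_num) (by linarith [not_le.1 hc]) _).trans (hle g w h2))
    rw [← mul_div_assoc, le_div_iff₀ hρ]
    refine (SERBa.norm_trm h f _ g hw').trans ?_
    rw [pow_add, mul_right_comm]
    exact mul_le_mul (hb g w h2) (pow_le_pow_left₀ (P0 _ (A.maps g w hw')) hPq _)
      (pow_nonneg (P0 _ (A.maps g w hw')) _) (M0 g)
  have hs : Summable fun g => trm A J f (κ + j) g w := by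
    refine .of_norm_bounded_eventually (hM.mul_right (q ^ j / ρ w ^ (κ + j))) ?_
    exact eventually_cofinite.2 (hB.subset fun g hg => by_contra fun e => hg (key g e))
  rw [ser, ← hs.sum_add_tsum_compl (s := hB.toFinset), add_sub_cancel_left, ← le_div_iff₀ hρ]
  have hc : 0 ≤ q ^ j / ρ w ^ (κ + j) := by positivity
  have hS := hM.mul_right (q ^ j / ρ w ^ (κ + j))
  refine (tsum_of_norm_bounded (hS.subtype ((hB.toFinset : Set G)ᶜ)).hasSum
    fun g => key g fun e => (show g.1 ∉ (hB.toFinset : Set G) from g.2)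
      (hB.mem_toFinset.2 e)).trans ?_
  refine (Summable.tsum_subtype_le _ _ (fun g => mul_nonneg (M0 g) hc) hS).trans_eq ?_
  rw [tsum_mul_right, pow_add q]
  field_simp

end Pool.Agent.P.MP_ab0431_ag.T

end

section

/-! Step JET. -/


namespace Pool.Agent.P.MP_ab0431_ag.T

open Set Filter Topology Metric
open scoped Manifold ContDiff

namespace JETa

theorem quo (S : ℂ × V) (c : ℂ) (w : V) (d : ℝ) (hc : c ≠ 0) (hd : d ≤ 1 / 2)
    (h : ‖S - c • ((1 : ℂ), w)‖ ≤ d * ‖c‖) :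
    S.1 ≠ 0 ∧ ‖S.1⁻¹ • S.2 - w‖ ≤ 2 * d * (1 + ‖w‖) := by
  have hc' : 0 < ‖c‖ := norm_pos_iff.2 hc
  have h1 : ‖S.1 - c‖ ≤ d * ‖c‖ := by
    simpa using (norm_fst_le (S - c • ((1 : ℂ), w))).trans h
  have h2 : ‖S.2 - c • w‖ ≤ d * ‖c‖ := by
    simpa using (norm_snd_le (S - c • ((1 : ℂ), w))).trans h
  have hd0 : 0 ≤ d := nonneg_of_mul_nonneg_left ((norm_nonneg _).trans h1) hc'
  have h3 : ‖c‖ / 2 ≤ ‖S.1‖ := by
    have := norm_sub_norm_le c S.1
    rw [norm_sub_rev] at this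
    nlinarith
  have h4 : 0 < ‖S.1‖ := by linarith
  have h5 : S.1 ≠ 0 := norm_pos_iff.1 h4
  refine ⟨h5, ?_⟩
  have e : S.1⁻¹ • S.2 - w = S.1⁻¹ • ((S.2 - c • w) - (S.1 - c) • w) := by
    rw [sub_smul, sub_sub_sub_cancel_right, smul_sub, inv_smul_smul₀ h5]
  rw [e, norm_smul, norm_inv, inv_mul_le_iff₀ h4]
  have h6 := norm_sub_le (S.2 - c • w) ((S.1 - c) • w)
  rw [norm_smul] at h6
  have h7 := mul_le_mul_of_nonneg_right h1 (norm_nonneg w)
  have h8 : 0 ≤ d * (1 + ‖w‖) := by positivity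
  nlinarith [mul_le_mul_of_nonneg_right h3 h8]

theorem det_ne (L : V →L[ℂ] V) (h : ‖L - ContinuousLinearMap.id ℂ V‖ < 1) : L.det ≠ 0 := by
  have hk : LinearMap.ker (L : V →ₗ[ℂ] V) = ⊥ := by
    rw [LinearMap.ker_eq_bot']
    intro v hv
    by_contra h0
    have h1 := (L - ContinuousLinearMap.id ℂ V).le_opNorm v
    have h2 : L v = 0 := hv
    simp only [sub_apply, h2, ContinuousLinearMap.id_apply, zero_sub,
      norm_neg] at h1
    have := norm_pos_iff.2 h0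
    nlinarith
  exact ((LinearMap.isUnit_iff_ker_eq_bot _).2 hk).map LinearMap.det |>.ne_zero

end JETa

theorem p_JET (hSERA : S_SERA) (hSERB : S_SERB) (hIFT : S_IFT) :
    S_JET := by
  intro G _ A J ρ hP w₀ hw₀ hF
  obtain ⟨f, κ, hf⟩ := hP.peak w₀ hw₀
  obtain ⟨B, q, C, r, hB, hq0, hq1, hr, hball, hest⟩ := hSERB G A J ρ w₀ f κ hP hf w₀ hw₀
  have hB1 : B = {1} := by
    ext g
    rw [hB, Finset.mem_singleton]
    exact ⟨hF g, fun h => h ▸ A.one w₀ hw₀⟩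
  subst hB1
  have hcont : ContinuousAt (fun w => ‖f w‖ * ρ w) w₀ :=
    (hf.hol.continuousOn.norm.mul hP.cont).continuousAt (A.op.mem_nhds hw₀)
  have hev : ∀ᶠ w in 𝓝 w₀, (1 + q) / 2 < ‖f w‖ * ρ w :=
    hcont.eventually (lt_mem_nhds (by simp only [hf.eq]; linarith))
  obtain ⟨r₁, hr₁, hb₁⟩ := Metric.eventually_nhds_iff_ball.1 hev
  set s := min r r₁ with hs
  have hs0 : 0 < s := lt_min hr hr₁
  have hsr : ball w₀ s ⊆ ball w₀ r := ball_subset_ball (min_le_left _ _)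
  have hsr₁ : ball w₀ s ⊆ ball w₀ r₁ := ball_subset_ball (min_le_right _ _)
  have hq' : 0 < (1 + q) / 2 := by linarith
  have hlim : Tendsto (fun k : ℕ => |C| * (q / ((1 + q) / 2)) ^ k) atTop (𝓝 0) := by
    have := (tendsto_pow_atTop_nhds_zero_of_lt_one (r := q / ((1 + q) / 2)) (by positivity)
      ((div_lt_one hq').2 (by linarith))).const_mul |C|
    simpa using this
  have hM : 0 < 1 + (‖w₀‖ + s) := by positivity
  obtain ⟨k, ⟨hk1, hk2⟩, hk3, hk4⟩ :=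
    (((hlim.eventually (gt_mem_nhds (by norm_num : (0 : ℝ) < 1 / 2))).and
    (hlim.eventually (gt_mem_nhds (by positivity : 0 < s / (4 * (1 + (‖w₀‖ + s))))))).and
    ((eventually_ge_atTop κ).and (eventually_gt_atTop 0))).exists
  set d := |C| * (q / ((1 + q) / 2)) ^ k with hd
  have hd0 : 0 ≤ d := by positivity
  have hS := hSERA G A J ρ w₀ f κ k hP hf hk3
  have key : ∀ w ∈ ball w₀ s, (ser A J f k w).1 ≠ 0 ∧
      ‖(ser A J f k w).1⁻¹ • (ser A J f k w).2 - w‖ ≤ 2 * d * (1 + (‖w₀‖ + s)) := by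
    intro w hw
    have hwΩ := hball (hsr hw)
    have h1 := hest k hk3 w (hsr hw)
    have h2 := hb₁ w (hsr₁ hw)
    have hρ := hP.pos w hwΩ
    have hf0 : f w ≠ 0 := fun h0 => by
      rw [h0, norm_zero, zero_mul] at h2
      linarith
    simp only [Finset.sum_singleton, trm, A.one w hwΩ, hP.one hwΩ, div_one] at h1
    have h3 : ‖ser A J f k w - f w ^ k • ((1 : ℂ), w)‖ ≤ d * ‖f w ^ k‖ := by
      refine le_of_mul_le_mul_right (h1.trans ?_) (pow_pos hρ k)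
      have h4 : ((1 + q) / 2) ^ k ≤ (‖f w‖ * ρ w) ^ k := pow_le_pow_left₀ hq'.le h2.le k
      calc C * q ^ k ≤ |C| * q ^ k := mul_le_mul_of_nonneg_right (le_abs_self C) (by positivity)
        _ = d * ((1 + q) / 2) ^ k := by
          rw [hd, mul_assoc, ← mul_pow, div_mul_cancel₀ _ hq'.ne']
        _ ≤ d * (‖f w‖ * ρ w) ^ k := mul_le_mul_of_nonneg_left h4 hd0
        _ = _ := by rw [norm_pow, mul_pow, ← mul_assoc]
    obtain ⟨h5, h6⟩ := JETa.quo _ _ w d (pow_ne_zero k hf0) hk1.le h3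
    refine ⟨h5, h6.trans (mul_le_mul_of_nonneg_left ?_ (by positivity))⟩
    have := norm_le_norm_add_norm_sub' w w₀
    rw [mem_ball, dist_eq_norm] at hw
    linarith
  have ht := hS.clm (ContinuousLinearMap.fst ℂ ℂ V)
  have hT := hS.clm (ContinuousLinearMap.snd ℂ ℂ V)
  have hsub : ball w₀ s ⊆ A.Ω := hsr.trans hball
  have hφ : DifferentiableOn ℂ (fun w => (ser A J f k w).1⁻¹ • (ser A J f k w).2) (ball w₀ s) :=
    ((ht.1.mono hsub).inv fun w hw => (key w hw).1).smul (hT.1.mono hsub)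
  have hφ₀ := (hφ w₀ (mem_ball_self hs0)).differentiableAt (ball_mem_nhds w₀ hs0)
  have hc := Pool.Agent.P.MP_f17f76_ag.E.norm_fderiv_le (hφ.sub differentiableOn_id)
    (fun w hw => (key w hw).2) hs0
  have e : fderiv ℂ ((fun w => (ser A J f k w).1⁻¹ • (ser A J f k w).2) - id) w₀ =
      fderiv ℂ (fun w => (ser A J f k w).1⁻¹ • (ser A J f k w).2) w₀ -
        ContinuousLinearMap.id ℂ V := (hφ₀.hasFDerivAt.sub (hasFDerivAt_id w₀)).fderiv
  rw [e] at hc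
  have hlt : 2 * (2 * d * (1 + (‖w₀‖ + s))) / s < 1 := by
    rw [div_lt_one hs0]
    rw [lt_div_iff₀ (by positivity)] at hk2
    linarith
  obtain ⟨F, hF1, hF2, hF3, hF4, -⟩ := hIFT.1 (ball w₀ s) _ w₀ isOpen_ball hφ (mem_ball_self hs0)
    (JETa.det_ne _ (hc.trans_lt hlt))
  refine ⟨k, hk4, F, ⟨hF2.trans hsub, hF4, _, _, ht, hT, fun w hw => ⟨(key w (hF2 hw)).1, ?_⟩⟩,
    hF1⟩
  rw [hF3]
  exact (smul_inv_smul₀ (key w (hF2 hw)).1 _).symm

end Pool.Agent.P.MP_ab0431_ag.T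

end

section

/-! Step SEP. -/


namespace Pool.Agent.P.MP_ab0431_ag.T

open Set Filter Topology Metric
open scoped Manifold ContDiff

namespace SEPa

variable {G : Type} [Group G] {A : Act G} {J : G → V → ℂ} {ρ : V → ℝ}

theorem stab_pow (h : Pk A J ρ) {w : V} (hw : w ∈ A.Ω) {B : Finset G}
    (hB : ∀ g, g ∈ B ↔ A.a g w = w) {g : G} (hg : g ∈ B) : J g w ^ B.card = 1 := by
  have e : ∏ x ∈ B, J (g * x) w = ∏ x ∈ B, J x w := by
    refine Finset.prod_equiv (Equiv.mulLeft g) (fun x => ?_) fun _ _ => rfl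
    rw [hB, hB, Equiv.coe_mulLeft, A.mul _ _ _ hw]
    refine ⟨fun e => by rw [e, (hB g).1 hg], fun e => ?_⟩
    rw [← A.inv_a g (A.maps x w hw), e]
    conv_lhs => rw [← (hB g).1 hg]
    exact A.inv_a g hw
  rw [Finset.prod_congr rfl fun x hx => (h.coc g x w hw).trans (by rw [(hB x).1 hx]),
    Finset.prod_mul_distrib, Finset.prod_const] at e
  exact (mul_eq_right₀ (Finset.prod_ne_zero_iff.2 fun x _ => h.ne x hw)).1 e

theorem small {C q : ℝ} (h0 : 0 ≤ q) (h1 : q < 1) : ∀ᶠ k : ℕ in atTop, C * q ^ k < 1 / 2 := by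
  have := (tendsto_pow_atTop_nhds_zero_of_lt_one h0 h1).const_mul C
  exact this.eventually_lt_const (by norm_num)

theorem key (hA : S_SERA) (hB : S_SERB) (h : Pk A J ρ) {w₀ : V} (h0 : w₀ ∈ A.Ω) :
    ∃ (t : ℕ → V → ℂ) (n : ℕ), 0 < n ∧ (∀ᶠ k in atTop, IsSec A J k (t k)) ∧
      (∀ᶠ k in atTop, n ∣ k → 1 / 2 < ‖t k w₀‖ * ρ w₀ ^ k) ∧
      ∀ w₁ ∈ A.Ω, (∀ g, A.a g w₁ ≠ w₀) → ∀ᶠ k in atTop, ‖t k w₁‖ * ρ w₁ ^ k < 1 / 2 := by
  obtain ⟨f, κ, hf⟩ := h.peak w₀ h0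
  obtain ⟨B, q, C, r, b1, q0, q1, r0, -, b2⟩ := hB G A J ρ w₀ f κ h hf w₀ h0
  have n0 : 0 < B.card := Finset.card_pos.2 ⟨1, (b1 1).2 (A.one _ h0)⟩
  refine ⟨fun k w => (ser A J f k w).1, B.card, n0, ?_, ?_, fun w₁ h1 hn => ?_⟩
  · filter_upwards [eventually_ge_atTop κ] with k hk
    exact (hA G A J ρ w₀ f κ k h hf hk).clm (ContinuousLinearMap.fst ℂ ℂ V)
  · filter_upwards [eventually_ge_atTop κ, small (C := C) q0 q1] with k hk hs ⟨j, hj⟩
    have p : 0 < ρ w₀ ^ k := pow_pos (h.pos _ h0) k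
    have e : (∑ g ∈ B, trm A J f k g w₀).1 = B.card * f w₀ ^ k := by
      rw [Prod.fst_sum, Finset.sum_congr rfl fun g hg => (?_ : _ = f w₀ ^ k), Finset.sum_const,
        nsmul_eq_mul]
      rw [trm, Prod.smul_fst, smul_eq_mul, mul_one, (b1 g).1 hg, div_pow, hj, pow_mul (J g w₀),
        stab_pow h h0 b1 hg, one_pow, div_one]
    have a := (mul_le_mul_of_nonneg_right (norm_fst_le _) p.le).trans
      (b2 k hk w₀ (mem_ball_self r0))
    rw [Prod.fst_sub, e] at a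
    have b := mul_le_mul_of_nonneg_right
      (norm_sub_norm_le (B.card * f w₀ ^ k : ℂ) (ser A J f k w₀).1) p.le
    rw [norm_sub_rev, norm_mul, norm_pow, Complex.norm_natCast, sub_mul, mul_assoc, ← mul_pow,
      hf.eq, one_pow] at b
    have c : (1 : ℝ) ≤ B.card := by exact_mod_cast n0
    linarith
  · obtain ⟨B, q, C, r, b1, q0, q1, r0, -, b2⟩ := hB G A J ρ w₀ f κ h hf w₁ h1
    obtain rfl : B = ∅ := Finset.eq_empty_of_forall_notMem fun g hg => hn g ((b1 g).1 hg)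
    filter_upwards [eventually_ge_atTop κ, small (C := C) q0 q1] with k hk hs
    have a := b2 k hk w₁ (mem_ball_self r0)
    rw [Finset.sum_empty, sub_zero] at a
    exact ((mul_le_mul_of_nonneg_right (norm_fst_le _) (pow_pos (h.pos _ h1) k).le).trans
      a).trans_lt hs

theorem pick {p : ℕ → Prop} (h : ∀ᶠ k in atTop, p k) {n : ℕ} (hn : 0 < n) :
    ∃ k > 0, n ∣ k ∧ p k := by
  obtain ⟨N, hN⟩ := eventually_atTop.1 h
  exact ⟨n * (N + 1), by positivity, dvd_mul_right _ _, hN _ (by nlinarith)⟩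

end SEPa

open SEPa in
theorem p_SEP (hSERA : S_SERA) (hSERB : S_SERB) :
    S_SEP := by
  intro G _ A J ρ h
  refine ⟨fun w₀ h0 => ?_, fun w₀ h0 w₁ h1 hn => ?_⟩
  · obtain ⟨t, n, n0, a, b, -⟩ := key hSERA hSERB h h0
    obtain ⟨k, k0, d, a, b⟩ := pick (a.and b) n0
    refine ⟨k, k0, t k, a, fun e => ?_⟩
    have := b d
    rw [e] at this
    norm_num at this
  · obtain ⟨t, n, n0, a, b, c⟩ := key hSERA hSERB h h0
    obtain ⟨t', n', n0', a', b', c'⟩ := key hSERA hSERB h h1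
    obtain ⟨k, k0, d, ⟨a, b, c⟩, a', b', c'⟩ := pick ((a.and (b.and (c w₁ h1 hn))).and
      (a'.and (b'.and (c' w₀ h0 fun g e => hn g⁻¹ (by rw [← e, A.inv_a g h0]))))) (mul_pos n0 n0')
    refine ⟨k, k0, t k, t' k, a, a', ?_⟩
    have p0 : 0 < ρ w₀ ^ k := pow_pos (h.pos _ h0) k
    have p1 : 0 < ρ w₁ ^ k := pow_pos (h.pos _ h1) k
    have := mul_lt_mul'' (c'.trans (b ((dvd_mul_right _ _).trans d)))
      (c.trans (b' ((dvd_mul_left _ _).trans d))) (by positivity) (by positivity)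
    refine lt_of_mul_lt_mul_right ?_ (mul_pos p0 p1).le
    linarith

end Pool.Agent.P.MP_ab0431_ag.T

end

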